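import Mathlib
import Pool.Agent.H7.Comp.Arith

/-!
# Binary numbers in the model of computation
-/

namespace Pool.Agent.H79.Tet

open Pool.Agent.H7.Comp

variable {α β γ δ σ : Type} [Enc α] [Enc β] [Enc γ] [Enc δ] [Enc σ]

/-! ### Lists -/

lemma sz_list_ge (l : List β) : l.length + 1 ≤ sz l := by
  induction l with
  | nil => rw [sz_nil]; simp
  | cons a l ih => rw [sz_cons, List.length_cons]; have := sz_pos a; omega

/-- Length of a list, in unary. -/
theorem PT_length : PT (fun l : List β => l.length) := by
  let body : Prog := .pair (.seq .hd .tl) (.pair .nil .tl)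
  refine ⟨.seq (.pair .id .nil) (.seq (.loop .hd body) .tl), fun l => 20 * sz l + 20,
    (((PB.const 20).mul PB.self)).add (PB.const 20), ?_, ?_⟩
  · refine PB.mono ((PB.const 2).mul PB.self) (fun l => ?_)
    show sz l.length ≤ 2 * sz l
    rw [sz_nat]
    have := sz_list_ge l
    omega
  · have key : ∀ (l : List β) (c : ℕ), ∃ t, t ≤ 10 * l.length + 2 ∧
        Run (.loop .hd body) (.node (enc l) (encNat c)) (.node .nil (encNat (c + l.length))) t := by
      intro l
      induction l with
      | nil => intro c; exact ⟨1 + 1, by simp, Run.loop_stop (Run.hd_node _ _)⟩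
      | cons a l ih =>
        intro c
        obtain ⟨t, ht, hr⟩ := ih (c + 1)
        have e : c + (a :: l).length = c + 1 + l.length := by simp; ring
        rw [e]
        have hb : Run body (.node (.node (enc a) (enc l)) (encNat c))
            (.node (enc l) (encNat (c + 1))) _ := Run.pair
          (Run.seq (Run.hd_node _ _) (Run.tl_node _ _)) (Run.pair (Run.nil _) (Run.tl_node _ _))
        refine ⟨_, ?_, Run.loop_step (Run.hd_node (.node (enc a) (enc l)) _) hb hr⟩
        simp only [List.length_cons]; omega
    intro l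
    obtain ⟨t, ht, hr⟩ := key l 0
    refine ⟨(1 + 1 + 1) + (t + 1 + 1) + 1, ?_, ?_⟩
    · have := sz_list_ge l
      show _ ≤ 20 * sz l + 20
      omega
    · rw [zero_add] at hr
      exact Run.seq (Run.pair (Run.id _) (Run.nil _)) (Run.seq hr (Run.tl_node _ _))

lemma sz_reverse (l : List β) : sz l.reverse = sz l := by
  have key : ∀ l m : List β, sz (l ++ m) + 1 = sz l + sz m := by
    intro l m
    induction l with
    | nil => rw [sz_nil, List.nil_append]; ring
    | cons a l ih => rw [List.cons_append, sz_cons, sz_cons]; omega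
  induction l with
  | nil => rfl
  | cons a l ih =>
    have h1 := key l.reverse [a]
    rw [List.reverse_cons, sz_cons]
    rw [sz_cons, sz_nil] at h1
    omega

lemma sz_take_le (l : List β) (i : ℕ) : sz (l.take i) ≤ sz l := by
  induction l generalizing i with
  | nil => simp
  | cons a l ih =>
    cases i with
    | zero => rw [List.take_zero, sz_nil]; exact sz_pos _
    | succ i => rw [List.take_succ_cons, sz_cons, sz_cons]; have := ih i; omega

/-- Reversal of a list, given an element of the type. -/
theorem PT_reverse (d : β) : PT (fun l : List β => l.reverse) := by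
  have h : PT (fun l : List β => ((fun (l : List β) (i : ℕ) => (l.drop i, (l.take i).reverse)) l
      l.length)) := by
    refine PT.iterClosed (fun (l : List β) (i : ℕ) => (l.drop i, (l.take i).reverse))
      (fun q => (q.2.2.1.tail, q.2.2.1.headD d :: q.2.2.2)) PT_length ?_ ?_ ?_
      (fun l => 2 * sz l + 1) (((PB.const 2).mul PB.self).add (PB.const 1)) ?_
    · exact (PT.id.pair (PT.const [])).congr (fun l => by simp)
    · refine PT.pair (PT.tail (PT.fst.comp (PT.snd.comp PT.snd))) (PT.cons ?_
        (PT.snd.comp (PT.snd.comp PT.snd)))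
      exact PT.headD'.comp ((PT.fst.comp (PT.snd.comp PT.snd)).pair (PT.const d))
    · intro l i hi
      simp only
      rw [List.tail_drop, List.take_add_one, List.headD_eq_head?_getD, List.head?_drop]
      obtain ⟨a, ha⟩ : ∃ a, l[i]? = some a := ⟨l[i], by simp [hi]⟩
      rw [ha]
      simp
    · intro l i _
      show sz (l.drop i, (l.take i).reverse) ≤ 2 * sz l + 1
      rw [sz_pair, sz_reverse]
      have := sz_drop_le l i
      have := sz_take_le l i
      omega
  refine (PT.snd.comp h).congr (fun l => ?_)
  simp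

/-! ### Binary natural numbers -/

/-- Natural numbers encoded in binary. -/
structure Bn where
  /-- the value -/
  v : ℕ

instance : Enc Bn := ⟨fun b => enc (Nat.bits b.v)⟩

lemma enc_Bn (b : Bn) : enc b = enc (Nat.bits b.v) := rfl

lemma sz_bits_le (l : List Bool) : sz l ≤ 4 * l.length + 1 := by
  induction l with
  | nil => rw [sz_nil]; simp
  | cons a l ih => rw [sz_cons, List.length_cons]; have := sz_bool_le a; omega

lemma sz_Bn_le (b : Bn) : sz b ≤ 4 * b.v.size + 1 := by
  have := sz_bits_le (Nat.bits b.v)
  rw [Nat.size_eq_bits_len] at this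
  exact this

lemma size_le_sz (b : Bn) : b.v.size + 1 ≤ sz b := by
  have := sz_list_ge (Nat.bits b.v)
  rw [Nat.size_eq_bits_len] at this
  exact this

lemma PT_bit : PT (fun p : Bool × Bn => (⟨Nat.bit p.1 p.2.v⟩ : Bn)) := by
  refine ⟨.cond .hd (.pair .hd .tl) (.cond .tl (.pair .hd .tl) .nil), fun _ => 10, PB.const 10, ?_, ?_⟩
  · refine PB.mono ((PB.const 4).mul PB.self |>.add (PB.const 5)) (fun p => ?_)
    obtain ⟨a, b⟩ := p
    have h1 := sz_Bn_le (⟨Nat.bit a b.v⟩ : Bn)
    have h2 : (Nat.bit a b.v).size ≤ b.v.size + 1 := by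
      by_cases h : Nat.bit a b.v = 0
      · rw [h]; simp
      · rw [Nat.size_bit h]
    have h3 := size_le_sz b
    rw [sz_pair]
    have := sz_pos a
    simp only at h1 ⊢
    omega
  · rintro ⟨a, ⟨n⟩⟩
    cases a with
    | true =>
      refine ⟨1 + (1 + 1 + 1) + 1, by norm_num, ?_⟩
      show Run _ (.node (encBool true) (enc (Nat.bits n))) (enc (Nat.bits (Nat.bit true n))) _
      rw [Nat.bits_append_bit n true (fun _ => rfl)]
      exact Run.cond_true (Run.hd_node (.node .nil .nil) _) (Run.pair (Run.hd_node _ _) (Run.tl_node _ _))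
    | false =>
      rcases Nat.eq_zero_or_pos n with rfl | hn
      · refine ⟨1 + (1 + 1 + 1) + 1, by norm_num, ?_⟩
        show Run _ (.node (encBool false) (enc (Nat.bits 0))) (enc (Nat.bits (Nat.bit false 0))) _
        have : Nat.bit false 0 = 0 := rfl
        rw [this, Nat.zero_bits]
        exact Run.cond_false (Run.hd_node _ _) (Run.cond_false (Run.tl_node _ _) (Run.nil _))
      · refine ⟨1 + (1 + (1 + 1 + 1) + 1) + 1, by norm_num, ?_⟩
        show Run _ (.node (encBool false) (enc (Nat.bits n))) (enc (Nat.bits (Nat.bit false n))) _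
        rw [Nat.bits_append_bit n false (fun h => by omega)]
        obtain ⟨c, l, hcl⟩ : ∃ c l, Nat.bits n = c :: l := by
          cases h : Nat.bits n with
          | nil =>
            have : n.bits.length = n.size := Nat.size_eq_bits_len n
            rw [h] at this
            have h0 : n.size = 0 := by simpa using this.symm
            rw [Nat.size_eq_zero] at h0
            omega
          | cons c l => exact ⟨c, l, rfl⟩
        rw [hcl]
        exact Run.cond_false (Run.hd_node _ _) (Run.cond_true (Run.tl_node _ (.node (enc c) (enc l)))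
          (Run.pair (Run.hd_node _ _) (Run.tl_node _ _)))

lemma PT_half : PT (fun b : Bn => (⟨b.v / 2⟩ : Bn)) := by
  refine ⟨.tl, fun _ => 1, PB.const 1, ?_, ?_⟩
  · refine PB.mono ((PB.const 4).mul PB.self |>.add (PB.const 1)) (fun b => ?_)
    have h1 := sz_Bn_le (⟨b.v / 2⟩ : Bn)
    have h2 : (b.v / 2).size ≤ b.v.size := Nat.size_le_size (Nat.div_le_self _ _)
    have h3 := size_le_sz b
    simp only at h1
    show sz (⟨b.v / 2⟩ : Bn) ≤ 4 * sz b + 1
    omega
  · intro b
    refine ⟨1, le_rfl, ?_⟩
    show Run .tl (enc (Nat.bits b.v)) (enc (Nat.bits (b.v / 2))) 1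
    rw [← Nat.div2_val, Nat.div2_bits_eq_tail]
    cases Nat.bits b.v with
    | nil => exact Run.tl_nil
    | cons c l => exact Run.tl_node _ _

lemma PT_odd : PT (fun b : Bn => b.v.bodd) := by
  refine ⟨.hd, fun _ => 1, PB.const 1, PB.mono (PB.const 3) (fun b => sz_bool_le _), ?_⟩
  intro b
  refine ⟨1, le_rfl, ?_⟩
  show Run .hd (enc (Nat.bits b.v)) (enc b.v.bodd) 1
  rw [Nat.bodd_eq_bits_head]
  cases Nat.bits b.v with
  | nil => exact Run.hd_nil
  | cons c l => exact Run.hd_node _ _

lemma PT_nz : PT (fun b : Bn => decide (b.v ≠ 0)) := by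
  refine ⟨.cond .id (.pair .nil .nil) .nil, fun _ => 10, PB.const 10,
    PB.mono (PB.const 3) (fun b => sz_bool_le _), ?_⟩
  rintro ⟨n⟩
  rcases Nat.eq_zero_or_pos n with rfl | hn
  · refine ⟨1 + 1 + 1, by norm_num, ?_⟩
    show Run _ (enc (Nat.bits 0)) (encBool (decide ((0 : ℕ) ≠ 0))) _
    rw [Nat.zero_bits]
    exact Run.cond_false (Run.id _) (Run.nil _)
  · refine ⟨1 + (1 + 1 + 1) + 1, by norm_num, ?_⟩
    show Run _ (enc (Nat.bits n)) (encBool (decide (n ≠ 0))) _
    have h : decide (n ≠ 0) = true := by simp; omega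
    rw [h]
    obtain ⟨c, l, hcl⟩ : ∃ c l, Nat.bits n = c :: l := by
      cases h : Nat.bits n with
      | nil =>
        have : n.bits.length = n.size := Nat.size_eq_bits_len n
        rw [h] at this
        have h0 : n.size = 0 := by simpa using this.symm
        rw [Nat.size_eq_zero] at h0
        omega
      | cons c l => exact ⟨c, l, rfl⟩
    rw [hcl]
    exact Run.cond_true (Run.id (.node (enc c) (enc l))) (Run.pair (Run.nil _) (Run.nil _))

/-- The list of bits. -/
lemma PT_bits : PT (fun b : Bn => Nat.bits b.v) :=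
  ⟨.id, fun _ => 1, PB.const 1, PB.self, fun _ => ⟨1, le_rfl, Run.id _⟩⟩

/-- The binary length, in unary. -/
lemma PT_size : PT (fun b : Bn => b.v.size) :=
  (PT_length.comp PT_bits).congr (fun b => Nat.size_eq_bits_len _)

end Pool.Agent.H79.Tet
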