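import Mathlib
import Pool.Agent.H79.Tet.Bin

namespace Pool.Agent.H79.Tet

open Pool.Agent.H7.Comp

variable {α β γ δ σ : Type} [Enc α] [Enc β] [Enc γ] [Enc δ] [Enc σ]

lemma div_pow_eq_bit (m j : ℕ) : m / 2 ^ j = Nat.bit (m.testBit j) (m / 2 ^ (j + 1)) := by
  have h := Nat.bit_testBit_zero_shiftRight_one (m >>> j)
  rw [Nat.testBit_shiftRight, add_zero, ← Nat.shiftRight_add] at h
  rw [← Nat.shiftRight_eq_div_pow, ← Nat.shiftRight_eq_div_pow, h]

lemma revbits_getD (m i : ℕ) (hi : i < m.size) :
    ((Nat.bits m).reverse.drop i).headD false = m.testBit (m.size - 1 - i) := by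
  rw [List.headD_eq_head?_getD, List.head?_drop, Nat.testBit_eq_inth]
  have hlen := Nat.size_eq_bits_len m
  rw [List.getElem?_reverse (by omega), hlen, List.getI_eq_getElem _ (by omega),
    List.getElem?_eq_getElem (by omega)]
  rfl

/-- Recursion on the binary notation. -/
theorem PT.binRec {m : α → Bn} {F : α → ℕ → σ} {step : α × Bool × Bn × σ → σ} (hm : PT m)
    (h0 : PT (fun x => F x 0)) (hstep : PT step)
    (hF : ∀ x b n, (n = 0 → b = true) → Nat.bit b n ≤ (m x).v →
      F x (Nat.bit b n) = step (x, b, ⟨n⟩, F x n))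
    (S : α → ℕ) (hS : PB S) (hb : ∀ x n, n ≤ (m x).v → sz (F x n) ≤ S x) :
    PT (fun x => F x (m x).v) := by
  have hrev : PT (fun x => (Nat.bits (m x).v).reverse) :=
    (PT_reverse false).comp (PT_bits.comp hm)
  -- work with the list of bits added to the input
  have hmain : PT (fun x => ((fun (x : α) (i : ℕ) =>
      ((Nat.bits (m x).v).reverse.drop i, (⟨(m x).v / 2 ^ ((m x).v.size - i)⟩ : Bn),
        F x ((m x).v / 2 ^ ((m x).v.size - i)))) x (m x).v.size)) := by
    refine PT.iterClosed (fun (x : α) (i : ℕ) =>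
      ((Nat.bits (m x).v).reverse.drop i, (⟨(m x).v / 2 ^ ((m x).v.size - i)⟩ : Bn),
        F x ((m x).v / 2 ^ ((m x).v.size - i))))
      (fun q => (q.2.2.1.tail, (⟨Nat.bit (q.2.2.1.headD false) q.2.2.2.1.v⟩ : Bn),
        step (q.1, q.2.2.1.headD false, q.2.2.2.1, q.2.2.2.2)))
      (PT_size.comp hm) ?_ ?_ ?_
      (fun x => sz (Nat.bits (m x).v) + (4 * sz (m x) + 1) + S x + 10) ?_ ?_
    · refine (hrev.pair ((PT.const (⟨0⟩ : Bn)).pair h0)).congr (fun x => ?_)
      have : (m x).v / 2 ^ ((m x).v.size - 0) = 0 := by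
        rw [Nat.sub_zero]
        exact Nat.div_eq_of_lt (Nat.lt_size_self _)
      simp only [this, List.drop_zero]
    · have hl : PT (fun q : α × ℕ × (List Bool × Bn × σ) => q.2.2.1) :=
        PT.fst.comp (PT.snd.comp PT.snd)
      have hh : PT (fun q : α × ℕ × (List Bool × Bn × σ) => q.2.2.1.headD false) :=
        PT.headD'.comp (hl.pair (PT.const false))
      have hn : PT (fun q : α × ℕ × (List Bool × Bn × σ) => q.2.2.2.1) :=
        PT.fst.comp (PT.snd.comp (PT.snd.comp PT.snd))
      have hs : PT (fun q : α × ℕ × (List Bool × Bn × σ) => q.2.2.2.2) :=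
        PT.snd.comp (PT.snd.comp (PT.snd.comp PT.snd))
      exact (PT.tail hl).pair ((PT_bit.comp (hh.pair hn)).pair
        (hstep.comp (PT.fst.pair (hh.pair (hn.pair hs)))))
    · intro x i hi
      have e1 : (m x).v.size - i = ((m x).v.size - 1 - i) + 1 := by omega
      have e2 : (m x).v.size - (i + 1) = (m x).v.size - 1 - i := by omega
      simp only
      rw [List.tail_drop, revbits_getD _ _ hi, e1, e2, ← div_pow_eq_bit]
      have hne : (m x).v / 2 ^ ((m x).v.size - 1 - i) ≠ 0 := by
        have h1 : (m x).v.size ≠ 0 := by omega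
        have h2 : 2 ^ ((m x).v.size - 1) ≤ (m x).v := by
          have := (Nat.lt_size (m := (m x).v.size - 1) (n := (m x).v)).mp (by omega)
          exact this
        have h3 : 2 ^ ((m x).v.size - 1 - i) ≤ (m x).v :=
          (Nat.pow_le_pow_right (by norm_num) (by omega)).trans h2
        have := Nat.div_pos h3 (by positivity)
        omega
      have hF' := hF x ((m x).v.testBit ((m x).v.size - 1 - i))
        ((m x).v / 2 ^ ((m x).v.size - 1 - i + 1)) (by
          intro h
          rw [div_pow_eq_bit, h] at hne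
          by_contra hb
          simp only [Bool.not_eq_true] at hb
          rw [hb] at hne
          exact hne rfl) (by
          rw [← div_pow_eq_bit]
          exact Nat.div_le_self _ _)
      rw [← div_pow_eq_bit] at hF'
      rw [hF']
    · refine ((((PT_bits.comp hm).size).add (((PB.const 4).mul hm.size).add (PB.const 1))).add
        hS).add (PB.const 10)
    · intro x i _
      show sz ((Nat.bits (m x).v).reverse.drop i, (⟨(m x).v / 2 ^ ((m x).v.size - i)⟩ : Bn),
        F x ((m x).v / 2 ^ ((m x).v.size - i))) ≤ _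
      rw [sz_pair, sz_pair]
      have h1 := sz_drop_le (Nat.bits (m x).v).reverse i
      rw [sz_reverse] at h1
      have h2 := sz_Bn_le (⟨(m x).v / 2 ^ ((m x).v.size - i)⟩ : Bn)
      have h3 : ((m x).v / 2 ^ ((m x).v.size - i)).size ≤ (m x).v.size :=
        Nat.size_le_size (Nat.div_le_self _ _)
      have h4 := size_le_sz (m x)
      have h5 := hb x ((m x).v / 2 ^ ((m x).v.size - i)) (Nat.div_le_self _ _)
      simp only at h2
      omega
  refine (PT.snd.comp (PT.snd.comp hmain)).congr (fun x => ?_)
  simp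

/-! ### Value of a list of bits, most significant first -/

/-- value of a list of bits, most significant first -/
def vl (l : List Bool) : ℕ := l.foldl (fun n b => Nat.bit b n) 0

lemma vl_aux (l : List Bool) (n : ℕ) :
    l.foldl (fun n b => Nat.bit b n) n = n * 2 ^ l.length + vl l := by
  induction l generalizing n with
  | nil => simp [vl]
  | cons b l ih =>
    have h1 : vl (b :: l) = b.toNat * 2 ^ l.length + vl l := by
      show l.foldl (fun n b => Nat.bit b n) (Nat.bit b 0) = _
      rw [ih, Nat.bit_val]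
      ring
    rw [List.foldl_cons, ih, h1, Nat.bit_val, List.length_cons]
    ring

lemma vl_cons (b : Bool) (l : List Bool) : vl (b :: l) = b.toNat * 2 ^ l.length + vl l := by
  show l.foldl (fun n b => Nat.bit b n) (Nat.bit b 0) = _
  rw [vl_aux, Nat.bit_val]
  ring

lemma vl_lt (l : List Bool) : vl l < 2 ^ l.length := by
  induction l with
  | nil => simp [vl]
  | cons b l ih =>
    rw [vl_cons, List.length_cons, pow_succ]
    have : b.toNat ≤ 1 := Bool.toNat_le b
    nlinarith [Nat.mul_le_mul_right (2 ^ l.length) this]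

lemma size_foldl (l : List Bool) : (vl l).size ≤ l.length := by
  rw [Nat.size_le]
  exact vl_lt l

lemma PT_vl : PT (fun l : List Bool => (⟨vl l⟩ : Bn)) := by
  have h : PT (fun l : List Bool => ((fun (l : List Bool) (i : ℕ) =>
      (l.drop i, (⟨vl (l.take i)⟩ : Bn))) l l.length)) := by
    refine PT.iterClosed (fun (l : List Bool) (i : ℕ) => (l.drop i, (⟨vl (l.take i)⟩ : Bn)))
      (fun q => (q.2.2.1.tail, (⟨Nat.bit (q.2.2.1.headD false) q.2.2.2.v⟩ : Bn)))
      PT_length ?_ ?_ ?_ (fun l => 10 * sz l + 10)
      (((PB.const 10).mul PB.self).add (PB.const 10)) ?_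
    · exact (PT.id.pair (PT.const (⟨0⟩ : Bn))).congr (fun l => by simp [vl])
    · have hl : PT (fun q : List Bool × ℕ × (List Bool × Bn) => q.2.2.1) :=
        PT.fst.comp (PT.snd.comp PT.snd)
      exact (PT.tail hl).pair (PT_bit.comp ((PT.headD'.comp (hl.pair (PT.const false))).pair
        (PT.snd.comp (PT.snd.comp PT.snd))))
    · intro l i hi
      simp only
      rw [List.tail_drop, List.headD_eq_head?_getD, List.head?_drop, List.take_add_one,
        List.getElem?_eq_getElem hi]
      simp only [Option.toList_some, Option.getD_some]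
      unfold vl
      rw [List.foldl_append]
      rfl
    · intro l i _
      show sz (l.drop i, (⟨vl (l.take i)⟩ : Bn)) ≤ 10 * sz l + 10
      rw [sz_pair]
      have h1 := sz_drop_le l i
      have h2 := sz_Bn_le (⟨vl (l.take i)⟩ : Bn)
      have h3 := size_foldl (l.take i)
      have h4 := sz_list_ge l
      have h5 : (l.take i).length ≤ l.length := by simp
      simp only at h2
      omega
  refine (PT.snd.comp h).congr (fun l => ?_)
  simp

end Pool.Agent.H79.Tet
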