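import Mathlib
import Pool.Agent.H79.Tet.Bin2

namespace Pool.Agent.H79.Tet

open Pool.Agent.H7.Comp

set_option linter.unusedSimpArgs false

variable {α β γ δ σ : Type} [Enc α] [Enc β] [Enc γ] [Enc δ] [Enc σ]

/-- Boolean functions are computable. -/
lemma PT_bool1 (f : Bool → β) {a : α → Bool} (ha : PT a) : PT (fun x => f (a x)) := by
  refine (PT.ite' ha (PT.const (f true)) (PT.const (f false))).congr (fun x => ?_)
  cases a x <;> rfl

lemma PT_bool2 (f : Bool → Bool → β) {a b : α → Bool} (ha : PT a) (hb : PT b) :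
    PT (fun x => f (a x) (b x)) := by
  refine (PT.ite' ha (PT_bool1 (f true) hb) (PT_bool1 (f false) hb)).congr (fun x => ?_)
  cases a x <;> rfl

lemma PT_bool3 (f : Bool → Bool → Bool → β) {a b c : α → Bool} (ha : PT a) (hb : PT b)
    (hc : PT c) : PT (fun x => f (a x) (b x) (c x)) := by
  refine (PT.ite' ha (PT_bool2 (f true) hb hc) (PT_bool2 (f false) hb hc)).congr (fun x => ?_)
  cases a x <;> rfl

/-- One step of a bitwise pass. -/
def passStep (f g : Bool → Bool → Bool → Bool)
    (q : (Bn × Bn) × ℕ × (Bn × Bn × Bool × List Bool)) : Bn × Bn × Bool × List Bool :=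
  (⟨q.2.2.1.v / 2⟩, ⟨q.2.2.2.1.v / 2⟩, g q.2.2.1.v.bodd q.2.2.2.1.v.bodd q.2.2.2.2.1,
    f q.2.2.1.v.bodd q.2.2.2.1.v.bodd q.2.2.2.2.1 :: q.2.2.2.2.2)

/-- bitwise pass -/
def pass (f g : Bool → Bool → Bool → Bool) (x : Bn × Bn) (i : ℕ) : Bn × Bn × Bool × List Bool :=
  iter (passStep f g) x (x.1, x.2, false, []) i

lemma pass_zero (f g : Bool → Bool → Bool → Bool) (x : Bn × Bn) :
    pass f g x 0 = (x.1, x.2, false, []) := rfl

lemma pass_succ (f g : Bool → Bool → Bool → Bool) (x : Bn × Bn) (i : ℕ) :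
    pass f g x (i + 1) = passStep f g (x, i, pass f g x i) := rfl

lemma pass_basic (f g : Bool → Bool → Bool → Bool) (x : Bn × Bn) (i : ℕ) :
    (pass f g x i).1.v = x.1.v / 2 ^ i ∧ (pass f g x i).2.1.v = x.2.v / 2 ^ i ∧
      (pass f g x i).2.2.2.length = i := by
  induction i with
  | zero => simp [pass_zero]
  | succ i ih =>
    obtain ⟨h1, h2, h3⟩ := ih
    rw [pass_succ]
    refine ⟨?_, ?_, ?_⟩
    · show (pass f g x i).1.v / 2 = _
      rw [h1, Nat.div_div_eq_div_mul, pow_succ]
    · show (pass f g x i).2.1.v / 2 = _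
      rw [h2, Nat.div_div_eq_div_mul, pow_succ]
    · show (_ :: (pass f g x i).2.2.2).length = _
      rw [List.length_cons, h3]

theorem PT_pass (f g : Bool → Bool → Bool → Bool) :
    PT (fun x : Bn × Bn => pass f g x (x.1.v.size + x.2.v.size + 1)) := by
  have hA : PT (fun q : (Bn × Bn) × ℕ × (Bn × Bn × Bool × List Bool) => q.2.2.1) :=
    PT.fst.comp (PT.snd.comp PT.snd)
  have hB : PT (fun q : (Bn × Bn) × ℕ × (Bn × Bn × Bool × List Bool) => q.2.2.2.1) :=
    PT.fst.comp (PT.snd.comp (PT.snd.comp PT.snd))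
  have hC : PT (fun q : (Bn × Bn) × ℕ × (Bn × Bn × Bool × List Bool) => q.2.2.2.2.1) :=
    PT.fst.comp (PT.snd.comp (PT.snd.comp (PT.snd.comp PT.snd)))
  have hD : PT (fun q : (Bn × Bn) × ℕ × (Bn × Bn × Bool × List Bool) => q.2.2.2.2.2) :=
    PT.snd.comp (PT.snd.comp (PT.snd.comp (PT.snd.comp PT.snd)))
  have hstep : PT (passStep f g) :=
    (PT_half.comp hA).pair ((PT_half.comp hB).pair
      ((PT_bool3 g (PT_odd.comp hA) (PT_odd.comp hB) hC).pair
        (PT.cons (PT_bool3 f (PT_odd.comp hA) (PT_odd.comp hB) hC) hD)))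
  have hn : PT (fun x : Bn × Bn => x.1.v.size + x.2.v.size + 1) :=
    ((PT_size.comp PT.fst).add (PT_size.comp PT.snd)).add (PT.const 1)
  refine PT.iter (n := fun x : Bn × Bn => x.1.v.size + x.2.v.size + 1)
    (init := fun x => (x.1, x.2, false, [])) hn
    (PT.fst.pair (PT.snd.pair ((PT.const false).pair (PT.const []))))
    hstep (fun x => 10 * sz x + 50) (((PB.const 10).mul PB.self).add (PB.const 50)) ?_
  intro x i hi
  obtain ⟨h1, h2, h3⟩ := pass_basic f g x i
  change sz (pass f g x i) ≤ 10 * sz x + 50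
  generalize pass f g x i = y at *
  obtain ⟨a, b, c, l⟩ := y
  simp only at h1 h2 h3
  rw [sz_pair, sz_pair, sz_pair]
  have e1 := sz_Bn_le a
  have e2 := sz_Bn_le b
  have e3 : a.v.size ≤ x.1.v.size := by rw [h1]; exact Nat.size_le_size (Nat.div_le_self _ _)
  have e4 : b.v.size ≤ x.2.v.size := by rw [h2]; exact Nat.size_le_size (Nat.div_le_self _ _)
  have e5 := sz_bits_le l
  have e6 := sz_bool_le c
  have e7 : sz x = sz x.1 + sz x.2 + 1 := rfl
  have e8 := size_le_sz x.1
  have e9 := size_le_sz x.2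
  omega

lemma mod_pow_succ (a i : ℕ) : a % 2 ^ (i + 1) = a % 2 ^ i + (a / 2 ^ i).bodd.toNat * 2 ^ i := by
  rw [Nat.mod_pow_succ, Nat.mod_two_of_bodd]
  cases (a / 2 ^ i).bodd <;> simp

lemma pass_add (x : Bn × Bn) (i : ℕ) :
    vl (pass (fun a b c => xor a (xor b c)) (fun a b c => (a && b) || (c && (a || b))) x i).2.2.2 +
      (pass (fun a b c => xor a (xor b c)) (fun a b c => (a && b) || (c && (a || b))) x i).2.2.1.toNat
        * 2 ^ i = x.1.v % 2 ^ i + x.2.v % 2 ^ i := by
  induction i with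
  | zero => simp [pass_zero, vl, Nat.mod_one]
  | succ i ih =>
    obtain ⟨h1, h2, h3⟩ := pass_basic (fun a b c => xor a (xor b c))
      (fun a b c => (a && b) || (c && (a || b))) x i
    rw [pass_succ]
    generalize pass (fun a b c => xor a (xor b c)) (fun a b c => (a && b) || (c && (a || b))) x i
      = y at *
    obtain ⟨a, b, c, l⟩ := y
    simp only [passStep] at *
    rw [vl_cons, h3, mod_pow_succ, mod_pow_succ, ← h1, ← h2, pow_succ]
    cases a.v.bodd <;> cases b.v.bodd <;> cases c <;>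
      simp only [Bool.xor_false, Bool.xor_true, Bool.not_false, Bool.not_true, Bool.and_true,
        Bool.and_false, Bool.or_true, Bool.or_false, Bool.true_and, Bool.false_and, Bool.true_or,
        Bool.false_or, Bool.toNat_true, Bool.toNat_false, Bool.false_xor, Bool.true_xor] at ih ⊢ <;>
      omega

lemma pass_sub (x : Bn × Bn) (i : ℕ) :
    vl (pass (fun a b c => xor a (xor b c)) (fun a b c => bif xor a b then b else c) x i).2.2.2 +
      x.2.v % 2 ^ i = x.1.v % 2 ^ i + 
      (pass (fun a b c => xor a (xor b c)) (fun a b c => bif xor a b then b else c) x i).2.2.1.toNat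
        * 2 ^ i := by
  induction i with
  | zero => simp [pass_zero, vl, Nat.mod_one]
  | succ i ih =>
    obtain ⟨h1, h2, h3⟩ := pass_basic (fun a b c => xor a (xor b c))
      (fun a b c => bif xor a b then b else c) x i
    rw [pass_succ]
    generalize pass (fun a b c => xor a (xor b c)) (fun a b c => bif xor a b then b else c) x i
      = y at *
    obtain ⟨a, b, c, l⟩ := y
    simp only [passStep] at *
    rw [vl_cons, h3, mod_pow_succ, mod_pow_succ, ← h1, ← h2, pow_succ]
    cases a.v.bodd <;> cases b.v.bodd <;> cases c <;>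
      simp only [Bool.xor_false, Bool.xor_true, Bool.not_false, Bool.not_true, Bool.and_true,
        Bool.and_false, Bool.or_true, Bool.or_false, Bool.true_and, Bool.false_and, Bool.true_or,
        Bool.false_or, Bool.toNat_true, Bool.toNat_false, Bool.false_xor, Bool.true_xor,
        cond_true, cond_false] at ih ⊢ <;>
      omega

/-- Addition. -/
theorem PT_add : PT (fun x : Bn × Bn => (⟨x.1.v + x.2.v⟩ : Bn)) := by
  have h := PT_pass (fun a b c => xor a (xor b c)) (fun a b c => (a && b) || (c && (a || b)))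
  have h2 := PT_vl.comp (PT.snd.comp (PT.snd.comp (PT.snd.comp h)))
  refine h2.congr (fun x => ?_)
  have h3 := pass_add x (x.1.v.size + x.2.v.size + 1)
  have e1 : x.1.v < 2 ^ (x.1.v.size + x.2.v.size) := lt_of_lt_of_le (Nat.lt_size_self _)
    (Nat.pow_le_pow_right (by norm_num) (by omega))
  have e2 : x.2.v < 2 ^ (x.1.v.size + x.2.v.size) := lt_of_lt_of_le (Nat.lt_size_self _)
    (Nat.pow_le_pow_right (by norm_num) (by omega))
  have e3 : 2 ^ (x.1.v.size + x.2.v.size + 1) = 2 ^ (x.1.v.size + x.2.v.size) * 2 := pow_succ _ _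
  rw [Nat.mod_eq_of_lt (by omega), Nat.mod_eq_of_lt (by omega)] at h3
  congr 1
  generalize (pass (fun a b c => xor a (xor b c)) (fun a b c => (a && b) || (c && (a || b))) x
    (x.1.v.size + x.2.v.size + 1)).2.2.1 = c at *
  cases c
  · simpa using h3
  · simp only [Bool.toNat_true, one_mul] at h3
    omega

/-- Comparison. -/
theorem PT_lt : PT (fun x : Bn × Bn => decide (x.1.v < x.2.v)) := by
  have h := PT_pass (fun a b c => xor a (xor b c)) (fun a b c => bif xor a b then b else c)
  refine (PT.fst.comp (PT.snd.comp (PT.snd.comp h))).congr (fun x => ?_)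
  have h3 := pass_sub x (x.1.v.size + x.2.v.size + 1)
  obtain ⟨_, _, h4⟩ := pass_basic (fun a b c => xor a (xor b c))
      (fun a b c => bif xor a b then b else c) x (x.1.v.size + x.2.v.size + 1)
  have e1 : x.1.v < 2 ^ (x.1.v.size + x.2.v.size) := lt_of_lt_of_le (Nat.lt_size_self _)
    (Nat.pow_le_pow_right (by norm_num) (by omega))
  have e2 : x.2.v < 2 ^ (x.1.v.size + x.2.v.size) := lt_of_lt_of_le (Nat.lt_size_self _)
    (Nat.pow_le_pow_right (by norm_num) (by omega))
  have e3 : 2 ^ (x.1.v.size + x.2.v.size + 1) = 2 ^ (x.1.v.size + x.2.v.size) * 2 := pow_succ _ _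
  rw [Nat.mod_eq_of_lt (by omega), Nat.mod_eq_of_lt (by omega)] at h3
  have h5 := vl_lt (pass (fun a b c => xor a (xor b c)) (fun a b c => bif xor a b then b else c) x
    (x.1.v.size + x.2.v.size + 1)).2.2.2
  rw [h4] at h5
  generalize (pass (fun a b c => xor a (xor b c)) (fun a b c => bif xor a b then b else c) x
    (x.1.v.size + x.2.v.size + 1)).2.2.1 = c at *
  cases c
  · simp only [Bool.toNat_false, zero_mul, add_zero] at h3
    symm
    rw [decide_eq_false_iff_not]
    omega
  · simp only [Bool.toNat_true, one_mul] at h3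
    symm
    rw [decide_eq_true_iff]
    omega

/-- Truncated subtraction. -/
theorem PT_sub : PT (fun x : Bn × Bn => (⟨x.1.v - x.2.v⟩ : Bn)) := by
  have h := PT_pass (fun a b c => xor a (xor b c)) (fun a b c => bif xor a b then b else c)
  have h2 := PT.ite' PT_lt (PT.const (⟨0⟩ : Bn)) (PT_vl.comp (PT.snd.comp (PT.snd.comp (PT.snd.comp h))))
  refine h2.congr (fun x => ?_)
  by_cases hlt : x.1.v < x.2.v
  · simp only [hlt, decide_true, cond_true]
    congr 1
    omega
  · simp only [hlt, decide_false, cond_false]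
    have h3 := pass_sub x (x.1.v.size + x.2.v.size + 1)
    obtain ⟨_, _, h4⟩ := pass_basic (fun a b c => xor a (xor b c))
        (fun a b c => bif xor a b then b else c) x (x.1.v.size + x.2.v.size + 1)
    have e1 : x.1.v < 2 ^ (x.1.v.size + x.2.v.size) := lt_of_lt_of_le (Nat.lt_size_self _)
      (Nat.pow_le_pow_right (by norm_num) (by omega))
    have e2 : x.2.v < 2 ^ (x.1.v.size + x.2.v.size) := lt_of_lt_of_le (Nat.lt_size_self _)
      (Nat.pow_le_pow_right (by norm_num) (by omega))
    have e3 : 2 ^ (x.1.v.size + x.2.v.size + 1) = 2 ^ (x.1.v.size + x.2.v.size) * 2 := pow_succ _ _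
    rw [Nat.mod_eq_of_lt (by omega), Nat.mod_eq_of_lt (by omega)] at h3
    have h5 := vl_lt (pass (fun a b c => xor a (xor b c)) (fun a b c => bif xor a b then b else c) x
      (x.1.v.size + x.2.v.size + 1)).2.2.2
    rw [h4] at h5
    congr 1
    generalize (pass (fun a b c => xor a (xor b c)) (fun a b c => bif xor a b then b else c) x
      (x.1.v.size + x.2.v.size + 1)).2.2.1 = c at *
    cases c
    · simp only [Bool.toNat_false, zero_mul, add_zero] at h3
      omega
    · simp only [Bool.toNat_true, one_mul] at h3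
      omega

end Pool.Agent.H79.Tet
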