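import Mathlib
import Pool.Agent.H79.Tet.Bin3

namespace Pool.Agent.H79.Tet

open Pool.Agent.H7.Comp

variable {α β γ δ σ : Type} [Enc α] [Enc β] [Enc γ] [Enc δ] [Enc σ]

/-- polynomially bounded binary length -/
lemma PB_size {f : α → Bn} (hf : PT f) : PB (fun x => (f x).v.size) :=
  PB.mono hf.size (fun x => by
    have := size_le_sz (f x)
    show (f x).v.size ≤ sz (f x)
    omega)

lemma PB_sz_of_size {f : α → Bn} {S : α → ℕ} (hS : PB S) (h : ∀ x, (f x).v.size ≤ S x) :
    PB (fun x => sz (f x)) :=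
  PB.mono (((PB.const 4).mul hS).add (PB.const 1)) (fun x => by
    have h1 := sz_Bn_le (f x)
    have h2 := h x
    show sz (f x) ≤ 4 * S x + 1
    omega)

lemma size_mul_le (a b : ℕ) : (a * b).size ≤ a.size + b.size := by
  rw [Nat.size_le, pow_add]
  exact Nat.mul_lt_mul'' (Nat.lt_size_self _) (Nat.lt_size_self _)

lemma size_add_le (a b : ℕ) : (a + b).size ≤ a.size + b.size + 1 := by
  rw [Nat.size_le]
  have e1 : a < 2 ^ (a.size + b.size) := lt_of_lt_of_le (Nat.lt_size_self _)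
    (Nat.pow_le_pow_right (by norm_num) (by omega))
  have e2 : b < 2 ^ (a.size + b.size) := lt_of_lt_of_le (Nat.lt_size_self _)
    (Nat.pow_le_pow_right (by norm_num) (by omega))
  rw [pow_succ]
  omega

/-- Multiplication. -/
theorem PT_mul : PT (fun x : Bn × Bn => (⟨x.1.v * x.2.v⟩ : Bn)) := by
  refine PT.binRec (m := fun x : Bn × Bn => x.2) (F := fun x n => (⟨x.1.v * n⟩ : Bn))
    (step := fun q : (Bn × Bn) × Bool × Bn × Bn =>
      bif q.2.1 then (⟨Nat.bit false q.2.2.2.v + q.1.1.v⟩ : Bn) else ⟨Nat.bit false q.2.2.2.v⟩)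
    PT.snd ?_ ?_ ?_ (fun x => 4 * (x.1.v.size + x.2.v.size) + 1) ?_ ?_
  · exact (PT.const (⟨0⟩ : Bn)).congr (fun x => by simp)
  · have hd : PT (fun q : (Bn × Bn) × Bool × Bn × Bn => (⟨Nat.bit false q.2.2.2.v⟩ : Bn)) :=
      PT_bit.comp ((PT.const false).pair (PT.snd.comp (PT.snd.comp PT.snd)))
    exact PT.ite' (PT.fst.comp PT.snd) (PT_add.comp (hd.pair (PT.fst.comp PT.fst))) hd
  · intro x b n _ _
    cases b
    · simp only [cond_false, Nat.bit_val]
      congr 1
      simp only [Bool.toNat_false, add_zero]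
      ring
    · simp only [cond_true, Nat.bit_val]
      congr 1
      simp only [Bool.toNat_false, Bool.toNat_true, add_zero]
      ring
  · exact ((PB.const 4).mul ((PB_size PT.fst).add (PB_size PT.snd))).add (PB.const 1)
  · intro x n hn
    have h1 := sz_Bn_le (⟨x.1.v * n⟩ : Bn)
    have h2 := size_mul_le x.1.v n
    have h3 : n.size ≤ x.2.v.size := Nat.size_le_size hn
    simp only at h1
    omega

/-- Division with remainder. -/
theorem PT_divmod : PT (fun x : Bn × Bn => ((⟨x.1.v / x.2.v⟩ : Bn), (⟨x.1.v % x.2.v⟩ : Bn))) := by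
  refine PT.binRec (m := fun x : Bn × Bn => x.1)
    (F := fun x n => ((⟨n / x.2.v⟩ : Bn), (⟨n % x.2.v⟩ : Bn)))
    (step := fun q : (Bn × Bn) × Bool × Bn × (Bn × Bn) =>
      bif decide (Nat.bit q.2.1 q.2.2.2.2.v < q.1.2.v) || !(decide (q.1.2.v ≠ 0)) then
        ((⟨Nat.bit false q.2.2.2.1.v⟩ : Bn), (⟨Nat.bit q.2.1 q.2.2.2.2.v⟩ : Bn))
      else ((⟨Nat.bit true q.2.2.2.1.v⟩ : Bn), (⟨Nat.bit q.2.1 q.2.2.2.2.v - q.1.2.v⟩ : Bn)))
    PT.fst ?_ ?_ ?_ (fun x => 8 * x.1.v.size + 3) ?_ ?_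
  · exact (PT.const ((⟨0⟩ : Bn), (⟨0⟩ : Bn))).congr (fun x => by simp)
  · have hb : PT (fun q : (Bn × Bn) × Bool × Bn × (Bn × Bn) => q.2.1) := PT.fst.comp PT.snd
    have hq : PT (fun q : (Bn × Bn) × Bool × Bn × (Bn × Bn) => q.2.2.2.1) :=
      PT.fst.comp (PT.snd.comp (PT.snd.comp PT.snd))
    have hr : PT (fun q : (Bn × Bn) × Bool × Bn × (Bn × Bn) => q.2.2.2.2) :=
      PT.snd.comp (PT.snd.comp (PT.snd.comp PT.snd))
    have hd : PT (fun q : (Bn × Bn) × Bool × Bn × (Bn × Bn) => q.1.2) := PT.snd.comp PT.fst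
    have hR : PT (fun q : (Bn × Bn) × Bool × Bn × (Bn × Bn) => (⟨Nat.bit q.2.1 q.2.2.2.2.v⟩ : Bn)) :=
      PT_bit.comp (hb.pair hr)
    have hc := PT_bool2 (fun a b => a || !b) (PT_lt.comp (hR.pair hd)) (PT_nz.comp hd)
    exact PT.ite' hc ((PT_bit.comp ((PT.const false).pair hq)).pair hR)
      ((PT_bit.comp ((PT.const true).pair hq)).pair (PT_sub.comp (hR.pair hd)))
  · intro x b n _ _
    obtain ⟨⟨a⟩, ⟨d⟩⟩ := x
    simp only
    rcases Nat.eq_zero_or_pos d with rfl | hd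
    · simp
    · have hmod := Nat.mod_lt n hd
      have hdm := Nat.div_add_mod n d
      by_cases hlt : Nat.bit b (n % d) < d
      · simp only [hlt, decide_true, Bool.true_or, cond_true]
        have h1 : Nat.bit b n = d * (2 * (n / d)) + Nat.bit b (n % d) := by
          rw [Nat.bit_val, Nat.bit_val]
          nlinarith
        have h2 : Nat.bit b n / d = 2 * (n / d) := by
          rw [h1, Nat.mul_add_div hd, Nat.div_eq_of_lt hlt, add_zero]
        have h3 : Nat.bit b n % d = Nat.bit b (n % d) := by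
          rw [h1, Nat.mul_add_mod, Nat.mod_eq_of_lt hlt]
        rw [h2, h3]
        simp [Nat.bit_val]
      · have hd0 : decide (d ≠ 0) = true := by simp; omega
        simp only [hlt, decide_false, Bool.false_or, hd0, Bool.not_true, cond_false]
        have hb2 : Nat.bit b (n % d) = 2 * (n % d) + b.toNat := Nat.bit_val _ _
        have hb3 : b.toNat ≤ 1 := Bool.toNat_le b
        have h1 : Nat.bit b n = d * (2 * (n / d) + 1) + (Nat.bit b (n % d) - d) := by
          have : Nat.bit b n = 2 * n + b.toNat := Nat.bit_val _ _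
          have h5 : d * (2 * (n / d) + 1) = 2 * (d * (n / d)) + d := by ring
          rw [h5]
          omega
        have hlt2 : Nat.bit b (n % d) - d < d := by omega
        have h2 : Nat.bit b n / d = 2 * (n / d) + 1 := by
          rw [h1, Nat.mul_add_div hd, Nat.div_eq_of_lt hlt2, add_zero]
        have h3 : Nat.bit b n % d = Nat.bit b (n % d) - d := by
          rw [h1, Nat.mul_add_mod, Nat.mod_eq_of_lt hlt2]
        rw [h2, h3]
        simp [Nat.bit_val]
  · exact ((PB.const 8).mul (PB_size PT.fst)).add (PB.const 3)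
  · intro x n hn
    have h1 := sz_Bn_le (⟨n / x.2.v⟩ : Bn)
    have h2 := sz_Bn_le (⟨n % x.2.v⟩ : Bn)
    have h3 : (n / x.2.v).size ≤ x.1.v.size := Nat.size_le_size ((Nat.div_le_self _ _).trans hn)
    have h4 : (n % x.2.v).size ≤ x.1.v.size := Nat.size_le_size ((Nat.mod_le _ _).trans hn)
    show sz ((⟨n / x.2.v⟩ : Bn), (⟨n % x.2.v⟩ : Bn)) ≤ _
    rw [sz_pair]
    simp only at h1 h2
    omega

/-! ### Integers -/

instance : Enc ℤ := ⟨fun z => enc (decide (z < 0), (⟨z.natAbs⟩ : Bn))⟩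

lemma enc_int (z : ℤ) : enc z = enc (decide (z < 0), (⟨z.natAbs⟩ : Bn)) := rfl

lemma sz_int_le (z : ℤ) : sz z ≤ 4 * z.natAbs.size + 5 := by
  have h1 : sz z = sz (decide (z < 0)) + sz (⟨z.natAbs⟩ : Bn) + 1 := rfl
  have h2 := sz_Bn_le (⟨z.natAbs⟩ : Bn)
  have h3 := sz_bool_le (decide (z < 0))
  simp only at h2
  omega

lemma size_le_sz_int (z : ℤ) : z.natAbs.size + 1 ≤ sz z := by
  have h1 : sz z = sz (decide (z < 0)) + sz (⟨z.natAbs⟩ : Bn) + 1 := rfl
  have h2 := size_le_sz (⟨z.natAbs⟩ : Bn)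
  simp only at h2
  omega

lemma PT_isNeg : PT (fun z : ℤ => decide (z < 0)) :=
  ⟨.hd, fun _ => 1, PB.const 1, PB.mono (PB.const 3) (fun _ => sz_bool_le _),
    fun _ => ⟨1, le_rfl, Run.hd_node _ _⟩⟩

lemma PT_abs : PT (fun z : ℤ => (⟨z.natAbs⟩ : Bn)) :=
  ⟨.tl, fun _ => 1, PB.const 1, PB.mono PB.self (fun z => by
    have h1 : sz z = sz (decide (z < 0)) + sz (⟨z.natAbs⟩ : Bn) + 1 := rfl
    show sz (⟨z.natAbs⟩ : Bn) ≤ sz z
    omega),
    fun _ => ⟨1, le_rfl, Run.tl_node _ _⟩⟩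

lemma PT_ofSign : PT (fun p : Bool × Bn => (bif p.1 then -(p.2.v : ℤ) else (p.2.v : ℤ))) := by
  refine ⟨.pair (.cond .tl .hd .nil) .tl, fun _ => 10, PB.const 10, ?_, ?_⟩
  · refine PB.mono ((PB.const 4).mul PB.self |>.add (PB.const 5)) (fun p => ?_)
    obtain ⟨s, b⟩ := p
    show sz (bif s then -(b.v : ℤ) else (b.v : ℤ)) ≤ 4 * sz (s, b) + 5
    have h1 := sz_int_le (bif s then -(b.v : ℤ) else (b.v : ℤ))
    have h2 : (bif s then -(b.v : ℤ) else (b.v : ℤ)).natAbs = b.v := by cases s <;> simp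
    rw [h2] at h1
    rw [sz_pair]
    have := size_le_sz b
    omega
  · rintro ⟨s, ⟨n⟩⟩
    have h2 : (bif s then -(n : ℤ) else (n : ℤ)).natAbs = n := by cases s <;> simp
    show ∃ t, t ≤ 10 ∧ Run _ (.node (enc s) (enc (⟨n⟩ : Bn)))
      (.node (enc (decide ((bif s then -(n : ℤ) else (n : ℤ)) < 0)))
        (enc (⟨(bif s then -(n : ℤ) else (n : ℤ)).natAbs⟩ : Bn))) t
    rw [h2]
    rcases Nat.eq_zero_or_pos n with rfl | hn
    · have h3 : decide ((bif s then -((0 : ℕ) : ℤ) else ((0 : ℕ) : ℤ)) < 0) = false := by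
        cases s <;> simp
      rw [h3]
      refine ⟨_, ?_, Run.pair (Run.cond_false (Run.tl_node _ _) (Run.nil _)) (Run.tl_node _ _)⟩
      norm_num
    · have h3 : decide ((bif s then -(n : ℤ) else (n : ℤ)) < 0) = s := by
        cases s
        · simp
        · simp; omega
      rw [h3]
      obtain ⟨c, l, hcl⟩ : ∃ c l, Nat.bits n = c :: l := by
        cases h : Nat.bits n with
        | nil =>
          have : n.bits.length = n.size := Nat.size_eq_bits_len n
          rw [h] at this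
          have h0 : n.size = 0 := by simpa using this.symm
          rw [Nat.size_eq_zero] at h0
          omega
        | cons c l => exact ⟨c, l, rfl⟩
      have h4 : enc (⟨n⟩ : Bn) = .node (enc c) (enc l) := by
        rw [enc_Bn]
        simp only
        rw [hcl]
        rfl
      rw [h4]
      refine ⟨_, ?_, Run.pair (Run.cond_true (Run.tl_node _ _) (Run.hd_node _ _)) (Run.tl_node _ _)⟩
      norm_num

end Pool.Agent.H79.Tet
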