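import Mathlib
import Pool.Agent.H79.Tet.Bin4

namespace Pool.Agent.H79.Tet

open Pool.Agent.H7.Comp

variable {α β γ δ σ : Type} [Enc α] [Enc β] [Enc γ] [Enc δ] [Enc σ]

lemma sgn_abs (z : ℤ) : (bif decide (z < 0) then -(z.natAbs : ℤ) else (z.natAbs : ℤ)) = z := by
  by_cases h : z < 0
  · simp only [h, decide_true, cond_true]; omega
  · simp only [h, decide_false, cond_false]; omega

lemma PT_ineg {f : α → ℤ} (hf : PT f) : PT (fun x => - f x) := by
  have h := PT_ofSign.comp ((PT_bool1 (fun b => !b) (PT_isNeg.comp hf)).pair (PT_abs.comp hf))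
  refine h.congr (fun x => ?_)
  show (bif !decide (f x < 0) then -((f x).natAbs : ℤ) else ((f x).natAbs : ℤ)) = - f x
  by_cases h : f x < 0
  · simp only [h, decide_true, Bool.not_true, cond_false]; omega
  · simp only [h, decide_false, Bool.not_false, cond_true]; omega

/-- natural numbers in binary as integers -/
lemma PT_ofBn {f : α → Bn} (hf : PT f) : PT (fun x => ((f x).v : ℤ)) :=
  (PT_ofSign.comp ((PT.const false).pair hf)).congr (fun x => rfl)

lemma PT_iadd {f g : α → ℤ} (hf : PT f) (hg : PT g) : PT (fun x => f x + g x) := by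
  have ha : PT (fun x => (⟨(f x).natAbs⟩ : Bn)) := PT_abs.comp hf
  have hb : PT (fun x => (⟨(g x).natAbs⟩ : Bn)) := PT_abs.comp hg
  have hs : PT (fun x => decide (f x < 0)) := PT_isNeg.comp hf
  have ht : PT (fun x => decide (g x < 0)) := PT_isNeg.comp hg
  have hsum : PT (fun x => (⟨(f x).natAbs + (g x).natAbs⟩ : Bn)) := PT_add.comp (ha.pair hb)
  have hd1 : PT (fun x => (⟨(f x).natAbs - (g x).natAbs⟩ : Bn)) := PT_sub.comp (ha.pair hb)
  have hd2 : PT (fun x => (⟨(g x).natAbs - (f x).natAbs⟩ : Bn)) := PT_sub.comp (hb.pair ha)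
  have hlt : PT (fun x => decide ((f x).natAbs < (g x).natAbs)) := PT_lt.comp (ha.pair hb)
  have hsame := PT_ofSign.comp (hs.pair hsum)
  have h1 := PT_ofSign.comp (ht.pair hd2)
  have h2 := PT_ofSign.comp (hs.pair hd1)
  have h := PT.ite' (PT_bool2 (fun a b => xor a b) hs ht) (PT.ite' hlt h1 h2) hsame
  refine h.congr (fun x => ?_)
  generalize f x = a
  generalize g x = b
  by_cases h1 : a < 0 <;> by_cases h2 : b < 0 <;> by_cases h3 : a.natAbs < b.natAbs <;>
    simp only [h1, h2, h3, decide_true, decide_false, Bool.xor_true, Bool.xor_false, Bool.not_true,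
      Bool.not_false, cond_true, cond_false] <;> omega

lemma PT_isub {f g : α → ℤ} (hf : PT f) (hg : PT g) : PT (fun x => f x - g x) :=
  (PT_iadd hf (PT_ineg hg)).congr (fun x => by ring)

lemma PT_imul {f g : α → ℤ} (hf : PT f) (hg : PT g) : PT (fun x => f x * g x) := by
  have ha : PT (fun x => (⟨(f x).natAbs⟩ : Bn)) := PT_abs.comp hf
  have hb : PT (fun x => (⟨(g x).natAbs⟩ : Bn)) := PT_abs.comp hg
  have hs : PT (fun x => decide (f x < 0)) := PT_isNeg.comp hf
  have ht : PT (fun x => decide (g x < 0)) := PT_isNeg.comp hg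
  have h := PT_ofSign.comp ((PT_bool2 (fun a b => xor a b) hs ht).pair (PT_mul.comp (ha.pair hb)))
  refine h.congr (fun x => ?_)
  show (bif xor (decide (f x < 0)) (decide (g x < 0)) then
    -(((f x).natAbs * (g x).natAbs : ℕ) : ℤ) else (((f x).natAbs * (g x).natAbs : ℕ) : ℤ)) = _
  generalize f x = a
  generalize g x = b
  push_cast
  by_cases h1 : a < 0 <;> by_cases h2 : b < 0
  · rw [abs_of_neg h1, abs_of_neg h2]
    simp only [h1, h2, decide_true, Bool.xor_true, Bool.not_true, cond_false]
    ring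
  · rw [abs_of_neg h1, abs_of_nonneg (by omega)]
    simp only [h1, h2, decide_true, decide_false, Bool.xor_false, cond_true]
    ring
  · rw [abs_of_neg h2, abs_of_nonneg (by omega)]
    simp only [h1, h2, decide_true, decide_false, Bool.false_xor, cond_true]
    ring
  · rw [abs_of_nonneg (by omega), abs_of_nonneg (by omega)]
    simp only [h1, h2, decide_false, Bool.xor_false, cond_false]

lemma PTp_ineg {f : α → ℤ} (hf : PT f) : PTp (fun x => f x < 0) :=
  ⟨fun x => decide (f x < 0), PT_isNeg.comp hf, fun x => by simp⟩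

lemma PTp_ilt {f g : α → ℤ} (hf : PT f) (hg : PT g) : PTp (fun x => f x < g x) :=
  (PTp_ineg (PT_isub hf hg)).congr (fun x => by constructor <;> intro h <;> omega)

lemma PTp_ile {f g : α → ℤ} (hf : PT f) (hg : PT g) : PTp (fun x => f x ≤ g x) :=
  (PTp_ilt hg hf).not.congr (fun x => by constructor <;> intro h <;> omega)

lemma PTp_ieq {f g : α → ℤ} (hf : PT f) (hg : PT g) : PTp (fun x => f x = g x) :=
  ((PTp_ile hf hg).and (PTp_ile hg hf)).congr (fun x => by constructor <;> intro h <;> omega)

/-- division of a nonnegative number -/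
lemma PT_idiv_nonneg {f g : α → ℤ} (hf : PT f) (hg : PT g) :
    PT (fun x => (((f x).natAbs / (g x).natAbs : ℕ) : ℤ)) :=
  PT_ofBn (PT.fst.comp (PT_divmod.comp ((PT_abs.comp hf).pair (PT_abs.comp hg))))

/-- Euclidean division. -/
lemma PT_idiv {f g : α → ℤ} (hf : PT f) (hg : PT g) : PT (fun x => f x / g x) := by
  classical
  -- positive divisor
  have hpos : ∀ {f g : α → ℤ}, PT f → PT g → PT (fun x => if 0 < g x then f x / g x else 0) := by
    intro f g hf hg
    have h1 := PT_idiv_nonneg hf hg
    -- for negative `f`: `-(( -f + g - 1) / g)`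
    have h2 := PT_ineg (PT_idiv_nonneg (PT_isub (PT_iadd (PT_ineg hf) hg) (PT.const (1 : ℤ))) hg)
    have h := PT.ite (PTp_ilt (PT.const (0 : ℤ)) hg) (PT.ite (PTp_ineg hf) h2 h1) (PT.const (0 : ℤ))
    refine h.congr (fun x => ?_)
    by_cases hg0 : 0 < g x
    · simp only [hg0, if_true]
      by_cases hf0 : f x < 0
      · simp only [hf0, if_true]
        have e1 : (((-f x + g x - 1).natAbs / (g x).natAbs : ℕ) : ℤ) = (-f x + g x - 1) / g x := by
          rw [Int.natCast_div, Int.natAbs_of_nonneg (by omega), Int.natAbs_of_nonneg (by omega)]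
        rw [e1]
        -- -((-a + b - 1)/b) = a / b
        have h3 := Int.emod_add_mul_ediv (f x) (g x)
        have h4 := Int.emod_nonneg (f x) (by omega : g x ≠ 0)
        have h5 := Int.emod_lt_of_pos (f x) hg0
        have h6 : (-f x + g x - 1) / g x = -(f x / g x) := by
          have : -f x + g x - 1 = (g x - 1 - f x % g x) + g x * (-(f x / g x)) := by linarith
          rw [this, Int.add_mul_ediv_left _ _ (by omega),
            Int.ediv_eq_zero_of_lt (by omega) (by omega), zero_add]
        rw [h6]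
        ring
      · simp only [hf0, if_false]
        rw [Int.natCast_div, Int.natAbs_of_nonneg (by omega), Int.natAbs_of_nonneg (by omega)]
    · simp only [hg0, if_false]
  have h := PT_isub (hpos hf hg) (hpos hf (PT_ineg hg))
  refine h.congr (fun x => ?_)
  rcases lt_trichotomy (g x) 0 with h0 | h0 | h0
  · simp only [show ¬ (0 < g x) by omega, show 0 < - g x by omega, if_true, if_false,
      Int.ediv_neg]
    ring
  · simp [h0]
  · simp only [h0, show ¬ (0 < - g x) by omega, if_true, if_false]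
    ring

lemma PT_imod {f g : α → ℤ} (hf : PT f) (hg : PT g) : PT (fun x => f x % g x) :=
  (PT_isub hf (PT_imul hg (PT_idiv hf hg))).congr (fun x => by
    have := Int.emod_add_mul_ediv (f x) (g x)
    linarith)

/-- absolute value -/
lemma PT_inatAbs {f : α → ℤ} (hf : PT f) : PT (fun x => ((f x).natAbs : ℤ)) :=
  PT_ofBn (PT_abs.comp hf)

/-- binary length of the absolute value, in unary -/
lemma PT_isize {f : α → ℤ} (hf : PT f) : PT (fun x => (f x).natAbs.size) :=
  PT_size.comp (PT_abs.comp hf)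

lemma PB_isize {f : α → ℤ} (hf : PT f) : PB (fun x => (f x).natAbs.size) :=
  PB.mono hf.size (fun x => by
    have := size_le_sz_int (f x)
    show (f x).natAbs.size ≤ sz (f x)
    omega)

/-- unary to binary -/
lemma PT_cast {f : α → ℕ} (hf : PT f) : PT (fun x => (f x : ℤ)) := by
  have h : PT (fun n : ℕ => ((fun (_ : ℕ) (i : ℕ) => (i : ℤ)) n n)) := by
    refine PT.iterClosed (fun (_ : ℕ) (i : ℕ) => (i : ℤ)) (fun q => q.2.2 + 1) PT.id
      ((PT.const (0 : ℤ)).congr (fun x => by simp))
      (PT_iadd (PT.snd.comp PT.snd) (PT.const (1 : ℤ))) (fun x i _ => by push_cast; ring)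
      (fun n => 4 * n + 5) (((PB.const 4).mul PB.natval).add (PB.const 5)) ?_
    intro n i hi
    have h1 := sz_int_le (i : ℤ)
    have h2 : (i : ℤ).natAbs.size ≤ i := by
      rw [Int.natAbs_natCast, Nat.size_le]
      exact Nat.lt_two_pow_self
    omega
  exact h.comp hf

/-- powers of two with unary exponent -/
lemma PT_two_pow {f : α → ℕ} (hf : PT f) : PT (fun x => (2 : ℤ) ^ f x) := by
  have h : PT (fun n : ℕ => ((fun (_ : ℕ) (i : ℕ) => (2 : ℤ) ^ i) n n)) := by
    refine PT.iterClosed (fun (_ : ℕ) (i : ℕ) => (2 : ℤ) ^ i) (fun q => q.2.2 * 2) PT.id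
      ((PT.const (1 : ℤ)).congr (fun x => by simp))
      (PT_imul (PT.snd.comp PT.snd) (PT.const (2 : ℤ))) (fun x i _ => by rw [pow_succ])
      (fun n => 4 * (n + 1) + 5) (((PB.const 4).mul (PB.natval.add (PB.const 1))).add (PB.const 5)) ?_
    intro n i hi
    have h1 := sz_int_le ((2 : ℤ) ^ i)
    have h2 : ((2 : ℤ) ^ i).natAbs.size ≤ i + 1 := by
      rw [Int.natAbs_pow, Nat.size_le, pow_succ]
      have : (2 : ℤ).natAbs = 2 := rfl
      rw [this]
      have : 0 < 2 ^ i := by positivity
      omega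
    omega
  exact h.comp hf

/-- general power with unary exponent -/
lemma PT_ipow {f : α → ℤ} {g : α → ℕ} (hf : PT f) (hg : PT g) : PT (fun x => f x ^ g x) := by
  have h : PT (fun p : ℤ × ℕ => ((fun (p : ℤ × ℕ) (i : ℕ) => p.1 ^ i) p p.2)) := by
    refine PT.iterClosed (fun (p : ℤ × ℕ) (i : ℕ) => p.1 ^ i) (fun q => q.2.2 * q.1.1) PT.snd
      ((PT.const (1 : ℤ)).congr (fun x => by simp))
      (PT_imul (PT.snd.comp PT.snd) (PT.fst.comp PT.fst)) (fun x i _ => by rw [pow_succ])
      (fun p => 4 * (p.2 * p.1.natAbs.size + 1) + 5) (((PB.const 4).mul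
        (((PT.value PT.snd).mul (PB_isize PT.fst)).add (PB.const 1))).add (PB.const 5)) ?_
    intro p i hi
    have h1 := sz_int_le (p.1 ^ i)
    have h2 : (p.1 ^ i).natAbs.size ≤ i * p.1.natAbs.size + 1 := by
      clear h1 hi
      induction i with
      | zero => simp
      | succ i ih =>
        rw [pow_succ, Int.natAbs_mul]
        have := size_mul_le (p.1 ^ i).natAbs p.1.natAbs
        have : (i + 1) * p.1.natAbs.size = i * p.1.natAbs.size + p.1.natAbs.size := by ring
        omega
    have h3 := Nat.mul_le_mul_right p.1.natAbs.size hi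
    omega
  exact h.comp (hf.pair hg)

end Pool.Agent.H79.Tet
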