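import Mathlib

/-!
# Reduction of ternary positive definite forms of determinant one
-/

namespace Pool.Agent.H79.Tet

/-- A symmetric `3 × 3` matrix `[[a,b,c],[b,d,e],[c,e,f]]` together with a vector `(u,v,w)`. -/
structure St where
  a : ℤ
  b : ℤ
  c : ℤ
  d : ℤ
  e : ℤ
  f : ℤ
  u : ℤ
  v : ℤ
  w : ℤ

namespace St

/-- leading `2 × 2` minor -/
def h (s : St) : ℤ := s.a * s.d - s.b * s.b

/-- the minor on the first and third basis vector -/
def h' (s : St) : ℤ := s.a * s.f - s.c * s.c

/-- numerator of the second Gram-Schmidt coefficient -/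
def num (s : St) : ℤ := s.a * s.e - s.b * s.c

/-- determinant -/
def det (s : St) : ℤ :=
  s.a * (s.d * s.f - s.e * s.e) - s.b * (s.b * s.f - s.e * s.c) + s.c * (s.b * s.e - s.d * s.c)

/-- the value of the adjoint form on the vector -/
def val (s : St) : ℤ :=
  s.u * s.u * (s.d * s.f - s.e * s.e) + s.v * s.v * (s.a * s.f - s.c * s.c) +
    s.w * s.w * (s.a * s.d - s.b * s.b) + 2 * s.u * s.v * (s.c * s.e - s.b * s.f) +
    2 * s.u * s.w * (s.b * s.e - s.c * s.d) + 2 * s.v * s.w * (s.b * s.c - s.a * s.e)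

/-- rounding of `x / y` -/
def rnd (x y : ℤ) : ℤ := (2 * x + y) / (2 * y)

lemma rnd_spec {x y : ℤ} (hy : 0 < y) :
    2 * (x - rnd x y * y) ≤ y ∧ -y ≤ 2 * (x - rnd x y * y) := by
  unfold rnd
  have h1 := Int.emod_add_mul_ediv (2 * x + y) (2 * y)
  have h2 := Int.emod_nonneg (2 * x + y) (by omega : 2 * y ≠ 0)
  have h3 := Int.emod_lt_of_pos (2 * x + y) (by omega : 0 < 2 * y)
  constructor <;> nlinarith

/-- add `-q` times the first basis vector to the second one -/
def r12 (q : ℤ) (s : St) : St :=
  { a := s.a, b := s.b - q * s.a, c := s.c, d := s.d - 2 * q * s.b + q * q * s.a,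
    e := s.e - q * s.c, f := s.f, u := s.u, v := s.v - q * s.u, w := s.w }

/-- add `-q` times the second basis vector to the third one -/
def r23 (q : ℤ) (s : St) : St :=
  { a := s.a, b := s.b, c := s.c - q * s.b, d := s.d,
    e := s.e - q * s.d, f := s.f - 2 * q * s.e + q * q * s.d, u := s.u, v := s.v,
    w := s.w - q * s.v }

/-- add `-q` times the first basis vector to the third one -/
def r13 (q : ℤ) (s : St) : St :=
  { a := s.a, b := s.b, c := s.c - q * s.a, d := s.d,
    e := s.e - q * s.b, f := s.f - 2 * q * s.c + q * q * s.a, u := s.u, v := s.v,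
    w := s.w - q * s.u }

/-- swap the first two basis vectors -/
def sw12 (s : St) : St :=
  { a := s.d, b := s.b, c := s.e, d := s.a, e := s.c, f := s.f, u := s.v, v := s.u, w := s.w }

/-- swap the last two basis vectors -/
def sw23 (s : St) : St :=
  { a := s.a, b := s.c, c := s.b, d := s.f, e := s.e, f := s.d, u := s.u, v := s.w, w := s.v }

/-- size reduction -/
def red (s : St) : St :=
  let s1 := r12 (rnd s.b s.a) s
  let s2 := r23 (rnd s1.num s1.h) s1
  r13 (rnd s2.c s2.a) s2

/-- one step of the algorithm -/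
def step (s : St) : St :=
  if 8 * (red s).d < 7 * (red s).a then sw12 (red s)
  else if 8 * (red s).h' < 7 * (red s).h then sw23 (red s) else red s

lemma r12_h (q : ℤ) (s : St) : (r12 q s).h = s.h := by simp only [r12, h]; ring
lemma r12_det (q : ℤ) (s : St) : (r12 q s).det = s.det := by simp only [r12, det]; ring
lemma r12_val (q : ℤ) (s : St) : (r12 q s).val = s.val := by simp only [r12, val]; ring
lemma r23_h (q : ℤ) (s : St) : (r23 q s).h = s.h := by simp only [r23, h]
lemma r23_det (q : ℤ) (s : St) : (r23 q s).det = s.det := by simp only [r23, det]; ring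
lemma r23_val (q : ℤ) (s : St) : (r23 q s).val = s.val := by simp only [r23, val]; ring
lemma r13_h (q : ℤ) (s : St) : (r13 q s).h = s.h := by simp only [r13, h]
lemma r13_det (q : ℤ) (s : St) : (r13 q s).det = s.det := by simp only [r13, det]; ring
lemma r13_val (q : ℤ) (s : St) : (r13 q s).val = s.val := by simp only [r13, val]; ring
lemma sw12_h (s : St) : (sw12 s).h = s.h := by simp only [sw12, h]; ring
lemma sw12_det (s : St) : (sw12 s).det = s.det := by simp only [sw12, det]; ring
lemma sw12_val (s : St) : (sw12 s).val = s.val := by simp only [sw12, val]; ring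
lemma sw23_h (s : St) : (sw23 s).h = s.h' := by simp only [sw23, h, h']
lemma sw23_det (s : St) : (sw23 s).det = s.det := by simp only [sw23, det]; ring
lemma sw23_val (s : St) : (sw23 s).val = s.val := by simp only [sw23, val]; ring

/-- positive definite of determinant one -/
structure Good (s : St) : Prop where
  a_pos : 0 < s.a
  h_pos : 0 < s.h
  det_one : s.det = 1

lemma key_identity (s : St) : s.h * s.h' = s.a * s.det + s.num * s.num := by
  simp only [h, h', det, num]; ring

lemma Good.h'_pos {s : St} (hs : Good s) : 0 < s.h' := by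
  have h1 := key_identity s
  rw [hs.det_one] at h1
  have h2 : 0 < s.h * s.h' := by
    rw [h1]
    nlinarith [hs.a_pos, mul_self_nonneg s.num]
  exact (mul_pos_iff_of_pos_left hs.h_pos).mp h2

lemma Good.d_pos {s : St} (hs : Good s) : 0 < s.d := by
  have h1 := hs.h_pos
  unfold h at h1
  have h2 : 0 < s.a * s.d := by nlinarith [mul_self_nonneg s.b]
  exact (mul_pos_iff_of_pos_left hs.a_pos).mp h2

/-- the shape of a size-reduced state -/
structure Red (s : St) : Prop where
  b_le : 2 * s.b ≤ s.a
  b_ge : -s.a ≤ 2 * s.b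
  c_le : 2 * s.c ≤ s.a
  c_ge : -s.a ≤ 2 * s.c
  n_le : 2 * s.num ≤ s.h
  n_ge : -s.h ≤ 2 * s.num

lemma red_a (s : St) : (red s).a = s.a := rfl

lemma red_h (s : St) : (red s).h = s.h := by
  unfold red
  simp only
  rw [r13_h, r23_h, r12_h]

lemma red_det (s : St) : (red s).det = s.det := by
  unfold red
  simp only
  rw [r13_det, r23_det, r12_det]

lemma red_val (s : St) : (red s).val = s.val := by
  unfold red
  simp only
  rw [r13_val, r23_val, r12_val]

lemma red_good {s : St} (hs : Good s) : Good (red s) :=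
  ⟨by rw [red_a]; exact hs.a_pos, by rw [red_h]; exact hs.h_pos, by rw [red_det]; exact hs.det_one⟩

lemma red_red {s : St} (hs : Good s) : Red (red s) := by
  have ha := hs.a_pos
  have hh := hs.h_pos
  have h1 := rnd_spec (x := s.b) (y := s.a) ha
  set s1 := r12 (rnd s.b s.a) s with hs1
  have hh1 : 0 < s1.h := by rw [hs1, r12_h]; exact hh
  have h2 := rnd_spec (x := s1.num) (y := s1.h) hh1
  set s2 := r23 (rnd s1.num s1.h) s1 with hs2
  have ha2 : s2.a = s.a := rfl
  have h3 := rnd_spec (x := s2.c) (y := s2.a) ha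
  have hred : red s = r13 (rnd s2.c s2.a) s2 := rfl
  have hnum : (red s).num = s1.num - rnd s1.num s1.h * s1.h := by
    rw [hred]
    have e1 : (r13 (rnd s2.c s2.a) s2).num = s2.num := by simp only [r13, num]; ring
    rw [e1]
    generalize rnd s1.num s1.h = q at *
    simp only [hs2, r23, num, h]
    ring
  have hhred := red_h s
  have hh1' : s1.h = s.h := by rw [hs1, r12_h]
  refine ⟨?_, ?_, ?_, ?_, ?_, ?_⟩
  · show 2 * (s.b - rnd s.b s.a * s.a) ≤ s.a
    exact h1.1
  · show -s.a ≤ 2 * (s.b - rnd s.b s.a * s.a)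
    exact h1.2
  · show 2 * (s2.c - rnd s2.c s2.a * s2.a) ≤ s2.a
    exact h3.1
  · show -s2.a ≤ 2 * (s2.c - rnd s2.c s2.a * s2.a)
    exact h3.2
  · rw [hnum, hhred, ← hh1']; exact h2.1
  · rw [hnum, hhred, ← hh1']; exact h2.2

/-- the identity matrix -/
structure IsOne (s : St) : Prop where
  ha : s.a = 1
  hb : s.b = 0
  hc : s.c = 0
  hd : s.d = 1
  he : s.e = 0
  hf : s.f = 1

lemma sq_le_of_abs {x y : ℤ} (h1 : x ≤ y) (h2 : -y ≤ x) : x * x ≤ y * y := by nlinarith

/-- a reduced state where no swap happens is the identity -/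
lemma isOne_of_red {s : St} (hs : Good s) (hr : Red s) (h1 : ¬ 8 * s.d < 7 * s.a)
    (h2 : ¬ 8 * s.h' < 7 * s.h) : IsOne s := by
  have ha := hs.a_pos
  have hh := hs.h_pos
  have hkey := key_identity s
  rw [hs.det_one, mul_one] at hkey
  push Not at h1 h2
  have hb2 : (2 * s.b) * (2 * s.b) ≤ s.a * s.a := sq_le_of_abs hr.b_le hr.b_ge
  have hn2 : (2 * s.num) * (2 * s.num) ≤ s.h * s.h := sq_le_of_abs hr.n_le hr.n_ge
  have hdef : s.h = s.a * s.d - s.b * s.b := rfl
  have e1 : 5 * (s.a * s.a) ≤ 8 * s.h := by nlinarith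
  have e2 : 5 * (s.h * s.h) ≤ 8 * s.a := by nlinarith
  have ha1 : s.a ≤ 1 := by
    by_contra hcon
    push Not at hcon
    -- a ≥ 2: h ≥ 5a²/8, 8a ≥ 5 h² ≥ 125 a⁴/64
    have hA : 2 ≤ s.a := by omega
    have hh2 : 5 * s.a ≤ 4 * s.h := by nlinarith
    have : 25 * (s.a * s.a) ≤ 16 * (s.h * s.h) := by nlinarith
    nlinarith
  have ha' : s.a = 1 := by omega
  have hh1 : s.h ≤ 1 := by
    by_contra hcon
    push Not at hcon
    have : 2 ≤ s.h := by omega
    nlinarith
  have hh' : s.h = 1 := by omega
  have hb : s.b = 0 := by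
    have := hr.b_le
    have := hr.b_ge
    omega
  have hc : s.c = 0 := by
    have := hr.c_le
    have := hr.c_ge
    omega
  have hd : s.d = 1 := by
    rw [hdef, ha', hb] at hh'
    linarith
  have he : s.e = 0 := by
    have h3 := hr.n_le
    have h4 := hr.n_ge
    have h5 : s.num = s.e := by simp only [num, ha', hb]; ring
    rw [h5, hh'] at h3 h4
    omega
  have hf : s.f = 1 := by
    have h3 : s.h' = s.f := by simp only [St.h', ha', hc]; ring
    have h5 : s.num = s.e := by simp only [num, ha', hb]; ring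
    rw [h3, h5, he, hh', ha'] at hkey
    linarith
  exact ⟨ha', hb, hc, hd, he, hf⟩

lemma isOne_val {s : St} (hs : IsOne s) : s.val = s.u * s.u + s.v * s.v + s.w * s.w := by
  simp only [val, hs.ha, hs.hb, hs.hc, hs.hd, hs.he, hs.hf]; ring

lemma red_of_isOne {s : St} (hs : IsOne s) : red s = s := by
  obtain ⟨a, b, c, d, e, f, u, v, w⟩ := s
  obtain ⟨ha, hb, hc, hd, he, hf⟩ := hs
  simp only at ha hb hc hd he hf
  subst ha hb hc hd he hf
  simp [red, r12, r23, r13, rnd, num, h]

lemma step_of_isOne {s : St} (hs : IsOne s) : step s = s := by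
  unfold step
  rw [red_of_isOne hs]
  have h1 : ¬ 8 * s.d < 7 * s.a := by rw [hs.ha, hs.hd]; norm_num
  have h2 : ¬ 8 * s.h' < 7 * s.h := by
    simp only [h', h, hs.ha, hs.hb, hs.hc, hs.hd, hs.hf]; norm_num
  rw [if_neg h1, if_neg h2]

lemma step_good {s : St} (hs : Good s) : Good (step s) := by
  have hg := red_good hs
  unfold step
  split_ifs with h1 h2
  · refine ⟨?_, ?_, ?_⟩
    · show 0 < (red s).d
      exact hg.d_pos
    · rw [sw12_h]; exact hg.h_pos
    · rw [sw12_det]; exact hg.det_one
  · refine ⟨hg.a_pos, ?_, ?_⟩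
    · rw [sw23_h]; exact hg.h'_pos
    · rw [sw23_det]; exact hg.det_one
  · exact hg

lemma step_val (s : St) : (step s).val = s.val := by
  unfold step
  split_ifs with h1 h2
  · rw [sw12_val, red_val]
  · rw [sw23_val, red_val]
  · rw [red_val]

/-- the potential -/
def pot (s : St) : ℤ := s.a * s.h

lemma step_pot {s : St} (hs : Good s) : IsOne (step s) ∨ 8 * (step s).pot < 7 * s.pot := by
  have hg := red_good hs
  have ha := hg.a_pos
  have hh := hg.h_pos
  have e1 : (red s).a = s.a := red_a s
  have e2 : (red s).h = s.h := red_h s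
  unfold step
  split_ifs with h1 h2
  · right
    show 8 * ((red s).d * (sw12 (red s)).h) < 7 * (s.a * s.h)
    rw [sw12_h, ← e1, ← e2]
    nlinarith
  · right
    show 8 * ((red s).a * (sw23 (red s)).h) < 7 * (s.a * s.h)
    rw [sw23_h, ← e1, ← e2]
    nlinarith
  · left
    exact isOne_of_red hg (red_red hs) h1 h2

lemma pot_pos {s : St} (hs : Good s) : 1 ≤ s.pot := by
  have := mul_pos hs.a_pos hs.h_pos
  unfold pot
  omega

lemma iterate_good {s : St} (hs : Good s) (n : ℕ) : Good (step^[n] s) := by
  induction n with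
  | zero => exact hs
  | succ n ih => rw [Function.iterate_succ_apply']; exact step_good ih

lemma iterate_val (s : St) (n : ℕ) : (step^[n] s).val = s.val := by
  induction n with
  | zero => rfl
  | succ n ih => rw [Function.iterate_succ_apply', step_val, ih]

lemma iterate_pot {s : St} (hs : Good s) (n : ℕ) :
    IsOne (step^[n] s) ∨ 8 ^ n * (step^[n] s).pot ≤ 7 ^ n * s.pot := by
  induction n with
  | zero => right; simp
  | succ n ih =>
    rw [Function.iterate_succ_apply']
    rcases ih with ih | ih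
    · left
      rw [step_of_isOne ih]
      exact ih
    · rcases step_pot (iterate_good hs n) with h1 | h1
      · left; exact h1
      · right
        have h8 : (0 : ℤ) < 8 ^ n := by positivity
        have e : (8 : ℤ) ^ (n + 1) * (step (step^[n] s)).pot =
            8 ^ n * (8 * (step (step^[n] s)).pot) := by ring
        rw [e]
        have h2 : (8 : ℤ) ^ n * (8 * (step (step^[n] s)).pot) ≤ 8 ^ n * (7 * (step^[n] s).pot) :=
          mul_le_mul_of_nonneg_left h1.le h8.le
        have h3 : (7 : ℤ) ^ (n + 1) * s.pot = 7 * (7 ^ n * s.pot) := by ring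
        rw [h3]
        nlinarith

/-- After enough steps the matrix is the identity. -/
theorem iterate_isOne {s : St} (hs : Good s) (L : ℕ) (hL : s.pot < 2 ^ L) :
    IsOne (step^[6 * L] s) := by
  rcases iterate_pot hs (6 * L) with h | h
  · exact h
  · exfalso
    have h1 := pot_pos (iterate_good hs (6 * L))
    have h2 : (2 : ℤ) ^ L * 7 ^ (6 * L) ≤ 8 ^ (6 * L) := by
      rw [pow_mul, pow_mul, ← mul_pow]
      exact pow_le_pow_left₀ (by norm_num) (by norm_num) L
    have h3 : (0 : ℤ) < 8 ^ (6 * L) := by positivity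
    have h4 : (0 : ℤ) < 7 ^ (6 * L) := by positivity
    nlinarith

end St

end Pool.Agent.H79.Tet
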