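import Mathlib
import Pool.Agent.H79.Tet.Lll
import Pool.Agent.H79.Tet.Bin5

/-!
# The reduction algorithm in polynomial time
-/

namespace Pool.Agent.H79.Tet

open Pool.Agent.H7.Comp

namespace St

lemma sw12_good {s : St} (hs : Good s) : Good (sw12 s) :=
  ⟨hs.d_pos, by rw [sw12_h]; exact hs.h_pos, by rw [sw12_det]; exact hs.det_one⟩

lemma sw23_good {s : St} (hs : Good s) : Good (sw23 s) :=
  ⟨hs.a_pos, by rw [sw23_h]; exact hs.h'_pos, by rw [sw23_det]; exact hs.det_one⟩

lemma u_sq_le {s : St} (hs : Good s) : s.u * s.u ≤ s.a * s.val := by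
  have ha := hs.a_pos
  have hh := hs.h_pos
  have hdet := hs.det_one
  set α := s.a * s.v - s.b * s.u with hα
  set γ := s.a * s.w - s.c * s.u with hγ
  have h1 : s.a * s.a * s.val = s.a * s.det * (s.u * s.u) +
      (s.h' * (α * α) - 2 * s.num * α * γ + s.h * (γ * γ)) := by
    rw [hα, hγ]
    simp only [val, det, h, h', num]
    ring
  have h2 : s.h * (s.h' * (α * α) - 2 * s.num * α * γ + s.h * (γ * γ)) =
      (s.h * γ - s.num * α) * (s.h * γ - s.num * α) + (s.h * s.h' - s.num * s.num) * (α * α) := by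
    ring
  have h3 := key_identity s
  rw [hdet] at h1 h3
  have h4 : 0 ≤ s.h * (s.h' * (α * α) - 2 * s.num * α * γ + s.h * (γ * γ)) := by
    rw [h2]
    have h5 : s.h * s.h' - s.num * s.num = s.a := by linarith
    rw [h5]
    nlinarith [mul_self_nonneg (s.h * γ - s.num * α), mul_self_nonneg α]
  have h6 : 0 ≤ s.h' * (α * α) - 2 * s.num * α * γ + s.h * (γ * γ) := by
    by_contra hcon
    push Not at hcon
    nlinarith
  have h7 : s.a * (s.u * s.u) ≤ s.a * (s.a * s.val) := by nlinarith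
  exact le_of_mul_le_mul_left h7 ha

lemma v_sq_le {s : St} (hs : Good s) : s.v * s.v ≤ s.d * s.val := by
  have h := u_sq_le (sw12_good hs)
  rw [sw12_val] at h
  exact h

lemma w_sq_le {s : St} (hs : Good s) : s.w * s.w ≤ s.f * s.val := by
  have h := u_sq_le (sw12_good (sw23_good hs))
  rw [sw12_val, sw23_val] at h
  exact h

lemma val_nonneg {s : St} (hs : Good s) : 0 ≤ s.val := by
  have h := u_sq_le hs
  have ha := hs.a_pos
  by_contra hcon
  push Not at hcon
  nlinarith [mul_self_nonneg s.u]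

/-- all entries bounded -/
structure Bd (s : St) (B C : ℤ) : Prop where
  a1 : s.a ≤ B
  a2 : -B ≤ s.a
  b1 : s.b ≤ B
  b2 : -B ≤ s.b
  c1 : s.c ≤ B
  c2 : -B ≤ s.c
  d1 : s.d ≤ B
  d2 : -B ≤ s.d
  e1 : s.e ≤ B
  e2 : -B ≤ s.e
  f1 : s.f ≤ B
  f2 : -B ≤ s.f
  u1 : s.u ≤ C
  u2 : -C ≤ s.u
  v1 : s.v ≤ C
  v2 : -C ≤ s.v
  w1 : s.w ≤ C
  w2 : -C ≤ s.w

lemma abs_le_of_sq {x B M : ℤ} (hB : 1 ≤ B) (hM : 0 ≤ M) (h : x * x ≤ B * M) :
    x ≤ B * (1 + M) ∧ -(B * (1 + M)) ≤ x := by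
  have hBM : 0 ≤ B * M := by positivity
  have h1 : x * x ≤ (B * (1 + M)) * (B * (1 + M)) := by
    have h2 : B * M ≤ B * (1 + M) := by nlinarith
    have h3 : 1 ≤ B * (1 + M) := by nlinarith
    nlinarith
  have h3 : 0 ≤ B * (1 + M) := by nlinarith
  constructor
  · by_contra hcon; push Not at hcon; nlinarith
  · by_contra hcon; push Not at hcon; nlinarith

lemma red_bd {s : St} (hs : Good s) : Bd (red s) (1 + s.a + s.h) ((1 + s.a + s.h) * (1 + s.val)) := by
  have hg := red_good hs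
  have hr := red_red hs
  have ha : (red s).a = s.a := red_a s
  have hh : (red s).h = s.h := red_h s
  have hv : (red s).val = s.val := red_val s
  rw [← ha, ← hh, ← hv]
  generalize red s = t at *
  have ha0 := hg.a_pos
  have hh0 := hg.h_pos
  have hkey := key_identity t
  rw [hg.det_one, mul_one] at hkey
  have hb2 : (2 * t.b) * (2 * t.b) ≤ t.a * t.a := sq_le_of_abs hr.b_le hr.b_ge
  have hc2 : (2 * t.c) * (2 * t.c) ≤ t.a * t.a := sq_le_of_abs hr.c_le hr.c_ge
  have hn2 : (2 * t.num) * (2 * t.num) ≤ t.h * t.h := sq_le_of_abs hr.n_le hr.n_ge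
  have hdef : t.h = t.a * t.d - t.b * t.b := rfl
  have hdef' : t.h' = t.a * t.f - t.c * t.c := rfl
  have hnum : t.num = t.a * t.e - t.b * t.c := rfl
  have hd0 := hg.d_pos
  have hh'0 := hg.h'_pos
  have hf0 : 0 < t.f := (sw12_good (sw23_good hg)).a_pos
  -- d ≤ h + a
  have hd : t.d ≤ t.a + t.h := by
    by_contra hcon; push Not at hcon
    nlinarith
  -- h' ≤ a + h
  have hh' : t.h' ≤ t.a + t.h := by
    by_contra hcon; push Not at hcon
    nlinarith
  have hf : t.f ≤ 1 + t.a + t.h := by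
    by_contra hcon; push Not at hcon
    nlinarith
  have he1 : t.e ≤ 1 + t.a + t.h := by
    by_contra hcon; push Not at hcon
    have h1 : t.b * t.c ≤ t.a * t.a := by nlinarith [mul_self_nonneg (t.b - t.c)]
    have := hr.n_le
    nlinarith
  have he2 : -(1 + t.a + t.h) ≤ t.e := by
    by_contra hcon; push Not at hcon
    have h1 : -(t.a * t.a) ≤ t.b * t.c := by nlinarith [mul_self_nonneg (t.b + t.c)]
    have := hr.n_ge
    nlinarith
  have hv0 := val_nonneg hg
  have hB : 1 ≤ 1 + t.a + t.h := by omega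
  have hu : t.u * t.u ≤ (1 + t.a + t.h) * t.val :=
    (u_sq_le hg).trans (mul_le_mul_of_nonneg_right (by omega) hv0)
  have hvv : t.v * t.v ≤ (1 + t.a + t.h) * t.val :=
    (v_sq_le hg).trans (mul_le_mul_of_nonneg_right (by omega) hv0)
  have hw : t.w * t.w ≤ (1 + t.a + t.h) * t.val :=
    (w_sq_le hg).trans (mul_le_mul_of_nonneg_right hf hv0)
  obtain ⟨u1, u2⟩ := abs_le_of_sq hB hv0 hu
  obtain ⟨v1, v2⟩ := abs_le_of_sq hB hv0 hvv
  obtain ⟨w1, w2⟩ := abs_le_of_sq hB hv0 hw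
  have := hr.b_le
  have := hr.b_ge
  have := hr.c_le
  have := hr.c_ge
  exact ⟨by omega, by omega, by omega, by omega, by omega, by omega, by omega, by omega, he1, he2,
    hf, by omega, u1, u2, v1, v2, w1, w2⟩

lemma step_bd {s : St} (hs : Good s) :
    Bd (step s) (1 + s.a + s.h) ((1 + s.a + s.h) * (1 + s.val)) := by
  have h := red_bd hs
  unfold step
  split_ifs
  · exact ⟨h.d1, h.d2, h.b1, h.b2, h.e1, h.e2, h.a1, h.a2, h.c1, h.c2, h.f1, h.f2, h.v1, h.v2,
      h.u1, h.u2, h.w1, h.w2⟩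
  · exact ⟨h.a1, h.a2, h.c1, h.c2, h.b1, h.b2, h.f1, h.f2, h.e1, h.e2, h.d1, h.d2, h.u1, h.u2,
      h.w1, h.w2, h.v1, h.v2⟩
  · exact h

lemma step_mono {s : St} (hs : Good s) : (step s).a ≤ s.a ∧ (step s).h ≤ s.h := by
  have hg := red_good hs
  have ha := hg.a_pos
  have hh := hg.h_pos
  unfold step
  split_ifs with h1 h2
  · refine ⟨?_, ?_⟩
    · show (red s).d ≤ s.a
      rw [red_a] at h1 ha
      omega
    · rw [sw12_h, red_h]
  · refine ⟨?_, ?_⟩
    · show (red s).a ≤ s.a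
      rw [red_a]
    · rw [sw23_h]
      rw [red_h] at h2 hh
      omega
  · rw [red_h]; exact ⟨le_rfl, le_rfl⟩

lemma iterate_mono {s : St} (hs : Good s) (n : ℕ) :
    (step^[n] s).a ≤ s.a ∧ (step^[n] s).h ≤ s.h := by
  induction n with
  | zero => exact ⟨le_rfl, le_rfl⟩
  | succ n ih =>
    rw [Function.iterate_succ_apply']
    have := step_mono (iterate_good hs n)
    exact ⟨this.1.trans ih.1, this.2.trans ih.2⟩

lemma Bd.mono {s : St} {B C B' C' : ℤ} (h : Bd s B C) (hB : B ≤ B') (hC : C ≤ C') : Bd s B' C' := by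
  obtain ⟨h1, h2, h3, h4, h5, h6, h7, h8, h9, h10, h11, h12, h13, h14, h15, h16, h17, h18⟩ := h
  constructor <;> omega

lemma iterate_bd {s : St} (hs : Good s) (n : ℕ) :
    Bd (step^[n + 1] s) (1 + s.a + s.h) ((1 + s.a + s.h) * (1 + s.val)) := by
  rw [Function.iterate_succ_apply']
  have h1 := step_bd (iterate_good hs n)
  have h2 := iterate_mono hs n
  rw [iterate_val] at h1
  have hv := val_nonneg hs
  have h3 : 1 + (step^[n] s).a + (step^[n] s).h ≤ 1 + s.a + s.h := by linarith [h2.1, h2.2]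
  exact h1.mono h3 (mul_le_mul_of_nonneg_right h3 (by omega))

/-- the bound used to stop the computation if it leaves the good range -/
def cap (s : St) : ℤ := (1 + s.a.natAbs + s.h.natAbs) * (1 + s.val.natAbs)

/-- test of all entries against the cap -/
def small (s : St) (C : ℤ) : Prop :=
  ((s.a.natAbs : ℤ) ≤ C ∧ (s.b.natAbs : ℤ) ≤ C ∧ (s.c.natAbs : ℤ) ≤ C) ∧
  ((s.d.natAbs : ℤ) ≤ C ∧ (s.e.natAbs : ℤ) ≤ C ∧ (s.f.natAbs : ℤ) ≤ C) ∧
  ((s.u.natAbs : ℤ) ≤ C ∧ (s.v.natAbs : ℤ) ≤ C ∧ (s.w.natAbs : ℤ) ≤ C)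

instance (s : St) (C : ℤ) : Decidable (small s C) := by unfold small; infer_instance

/-- capped step -/
def stepC (C : ℤ) (s : St) : St := if small (step s) C then step s else s

/-- the capped algorithm -/
def lll (L : ℕ) (s : St) : St := (stepC (cap s))^[6 * L] s

lemma stepC_iterate {s : St} (hs : Good s) (n : ℕ) : (stepC (cap s))^[n] s = step^[n] s := by
  induction n with
  | zero => rfl
  | succ n ih =>
    rw [Function.iterate_succ_apply', Function.iterate_succ_apply', ih]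
    unfold stepC
    rw [if_pos]
    have h := iterate_bd hs n
    rw [Function.iterate_succ_apply'] at h
    have ha := hs.a_pos
    have hh := hs.h_pos
    have hv := val_nonneg hs
    have hcap : cap s = (1 + s.a + s.h) * (1 + s.val) := by
      unfold cap
      rw [Int.natAbs_of_nonneg ha.le, Int.natAbs_of_nonneg hh.le, Int.natAbs_of_nonneg hv]
    have hC : 1 + s.a + s.h ≤ cap s := by
      rw [hcap]
      nlinarith
    rw [← hcap] at h
    obtain ⟨h1, h2, h3, h4, h5, h6, h7, h8, h9, h10, h11, h12, h13, h14, h15, h16, h17, h18⟩ := h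
    refine ⟨⟨?_, ?_, ?_⟩, ⟨?_, ?_, ?_⟩, ⟨?_, ?_, ?_⟩⟩ <;> omega

/-- Correctness of the capped algorithm. -/
theorem lll_spec {s : St} (hs : Good s) {L : ℕ} (hL : s.pot < 2 ^ L) :
    (lll L s).u * (lll L s).u + (lll L s).v * (lll L s).v + (lll L s).w * (lll L s).w = s.val := by
  unfold lll
  rw [stepC_iterate hs]
  rw [← isOne_val (iterate_isOne hs L hL), iterate_val]

end St

end Pool.Agent.H79.Tet
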