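import Mathlib
import Pool.Agent.H79.Tet.Lll2

namespace Pool.Agent.H79.Tet

open Pool.Agent.H7.Comp

variable {α β γ δ σ : Type} [Enc α] [Enc β] [Enc γ] [Enc δ] [Enc σ]

/-- tuple of the entries -/
def St.tup (s : St) : ℤ × ℤ × ℤ × ℤ × ℤ × ℤ × ℤ × ℤ × ℤ :=
  (s.a, s.b, s.c, s.d, s.e, s.f, s.u, s.v, s.w)

instance : Enc St := ⟨fun s => enc s.tup⟩

lemma PT_tup : PT (fun s : St => s.tup) :=
  ⟨.id, fun _ => 1, PB.const 1, PB.self, fun _ => ⟨1, le_rfl, Run.id _⟩⟩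

lemma PT_mk {a b c d e f u v w : α → ℤ} (ha : PT a) (hb : PT b) (hc : PT c) (hd : PT d)
    (he : PT e) (hf : PT f) (hu : PT u) (hv : PT v) (hw : PT w) :
    PT (fun x => (⟨a x, b x, c x, d x, e x, f x, u x, v x, w x⟩ : St)) := by
  obtain ⟨p, T, hT, hs, hr⟩ := ha.pair (hb.pair (hc.pair (hd.pair (he.pair (hf.pair (hu.pair
    (hv.pair hw)))))))
  exact ⟨p, T, hT, hs, hr⟩

lemma PT_a {s : α → St} (hs : PT s) : PT (fun x => (s x).a) := PT.fst.comp (PT_tup.comp hs)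
lemma PT_b {s : α → St} (hs : PT s) : PT (fun x => (s x).b) :=
  PT.fst.comp (PT.snd.comp (PT_tup.comp hs))
lemma PT_c {s : α → St} (hs : PT s) : PT (fun x => (s x).c) :=
  PT.fst.comp (PT.snd.comp (PT.snd.comp (PT_tup.comp hs)))
lemma PT_d {s : α → St} (hs : PT s) : PT (fun x => (s x).d) :=
  PT.fst.comp (PT.snd.comp (PT.snd.comp (PT.snd.comp (PT_tup.comp hs))))
lemma PT_e {s : α → St} (hs : PT s) : PT (fun x => (s x).e) :=
  PT.fst.comp (PT.snd.comp (PT.snd.comp (PT.snd.comp (PT.snd.comp (PT_tup.comp hs)))))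
lemma PT_f {s : α → St} (hs : PT s) : PT (fun x => (s x).f) :=
  PT.fst.comp (PT.snd.comp (PT.snd.comp (PT.snd.comp (PT.snd.comp (PT.snd.comp
    (PT_tup.comp hs))))))
lemma PT_u {s : α → St} (hs : PT s) : PT (fun x => (s x).u) :=
  PT.fst.comp (PT.snd.comp (PT.snd.comp (PT.snd.comp (PT.snd.comp (PT.snd.comp (PT.snd.comp
    (PT_tup.comp hs)))))))
lemma PT_v {s : α → St} (hs : PT s) : PT (fun x => (s x).v) :=
  PT.fst.comp (PT.snd.comp (PT.snd.comp (PT.snd.comp (PT.snd.comp (PT.snd.comp (PT.snd.comp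
    (PT.snd.comp (PT_tup.comp hs))))))))
lemma PT_w {s : α → St} (hs : PT s) : PT (fun x => (s x).w) :=
  PT.snd.comp (PT.snd.comp (PT.snd.comp (PT.snd.comp (PT.snd.comp (PT.snd.comp (PT.snd.comp
    (PT.snd.comp (PT_tup.comp hs))))))))

lemma PT_h {s : α → St} (hs : PT s) : PT (fun x => (s x).h) :=
  PT_isub (PT_imul (PT_a hs) (PT_d hs)) (PT_imul (PT_b hs) (PT_b hs))
lemma PT_h' {s : α → St} (hs : PT s) : PT (fun x => (s x).h') :=
  PT_isub (PT_imul (PT_a hs) (PT_f hs)) (PT_imul (PT_c hs) (PT_c hs))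
lemma PT_num {s : α → St} (hs : PT s) : PT (fun x => (s x).num) :=
  PT_isub (PT_imul (PT_a hs) (PT_e hs)) (PT_imul (PT_b hs) (PT_c hs))

lemma PT_val {s : α → St} (hs : PT s) : PT (fun x => (s x).val) := by
  have a := PT_a hs
  have b := PT_b hs
  have c := PT_c hs
  have d := PT_d hs
  have e := PT_e hs
  have f := PT_f hs
  have u := PT_u hs
  have v := PT_v hs
  have w := PT_w hs
  have h2 : PT (fun _ : α => (2 : ℤ)) := PT.const 2
  exact PT_iadd (PT_iadd (PT_iadd (PT_iadd (PT_iadd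
    (PT_imul (PT_imul u u) (PT_isub (PT_imul d f) (PT_imul e e)))
    (PT_imul (PT_imul v v) (PT_isub (PT_imul a f) (PT_imul c c))))
    (PT_imul (PT_imul w w) (PT_isub (PT_imul a d) (PT_imul b b))))
    (PT_imul (PT_imul (PT_imul h2 u) v) (PT_isub (PT_imul c e) (PT_imul b f))))
    (PT_imul (PT_imul (PT_imul h2 u) w) (PT_isub (PT_imul b e) (PT_imul c d))))
    (PT_imul (PT_imul (PT_imul h2 v) w) (PT_isub (PT_imul b c) (PT_imul a e)))

lemma PT_rnd {f g : α → ℤ} (hf : PT f) (hg : PT g) : PT (fun x => St.rnd (f x) (g x)) :=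
  PT_idiv (PT_iadd (PT_imul (PT.const (2 : ℤ)) hf) hg) (PT_imul (PT.const (2 : ℤ)) hg)

lemma PT_r12 {q : α → ℤ} {s : α → St} (hq : PT q) (hs : PT s) :
    PT (fun x => St.r12 (q x) (s x)) := by
  have h2 : PT (fun _ : α => (2 : ℤ)) := PT.const 2
  exact PT_mk (PT_a hs) (PT_isub (PT_b hs) (PT_imul hq (PT_a hs))) (PT_c hs)
    (PT_iadd (PT_isub (PT_d hs) (PT_imul (PT_imul h2 hq) (PT_b hs)))
      (PT_imul (PT_imul hq hq) (PT_a hs)))
    (PT_isub (PT_e hs) (PT_imul hq (PT_c hs))) (PT_f hs) (PT_u hs)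
    (PT_isub (PT_v hs) (PT_imul hq (PT_u hs))) (PT_w hs)

lemma PT_r23 {q : α → ℤ} {s : α → St} (hq : PT q) (hs : PT s) :
    PT (fun x => St.r23 (q x) (s x)) := by
  have h2 : PT (fun _ : α => (2 : ℤ)) := PT.const 2
  exact PT_mk (PT_a hs) (PT_b hs) (PT_isub (PT_c hs) (PT_imul hq (PT_b hs))) (PT_d hs)
    (PT_isub (PT_e hs) (PT_imul hq (PT_d hs)))
    (PT_iadd (PT_isub (PT_f hs) (PT_imul (PT_imul h2 hq) (PT_e hs)))
      (PT_imul (PT_imul hq hq) (PT_d hs)))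
    (PT_u hs) (PT_v hs) (PT_isub (PT_w hs) (PT_imul hq (PT_v hs)))

lemma PT_r13 {q : α → ℤ} {s : α → St} (hq : PT q) (hs : PT s) :
    PT (fun x => St.r13 (q x) (s x)) := by
  have h2 : PT (fun _ : α => (2 : ℤ)) := PT.const 2
  exact PT_mk (PT_a hs) (PT_b hs) (PT_isub (PT_c hs) (PT_imul hq (PT_a hs))) (PT_d hs)
    (PT_isub (PT_e hs) (PT_imul hq (PT_b hs)))
    (PT_iadd (PT_isub (PT_f hs) (PT_imul (PT_imul h2 hq) (PT_c hs)))
      (PT_imul (PT_imul hq hq) (PT_a hs)))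
    (PT_u hs) (PT_v hs) (PT_isub (PT_w hs) (PT_imul hq (PT_u hs)))

lemma PT_red : PT (fun s : St => St.red s) := by
  have h1 : PT (fun s : St => St.r12 (St.rnd s.b s.a) s) :=
    PT_r12 (PT_rnd (PT_b PT.id) (PT_a PT.id)) PT.id
  have h2 : PT (fun s1 : St => St.r23 (St.rnd s1.num s1.h) s1) :=
    PT_r23 (PT_rnd (PT_num PT.id) (PT_h PT.id)) PT.id
  have h3 : PT (fun s2 : St => St.r13 (St.rnd s2.c s2.a) s2) :=
    PT_r13 (PT_rnd (PT_c PT.id) (PT_a PT.id)) PT.id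
  exact h3.comp (h2.comp h1)

lemma PT_sw12 {s : α → St} (hs : PT s) : PT (fun x => St.sw12 (s x)) :=
  PT_mk (PT_d hs) (PT_b hs) (PT_e hs) (PT_a hs) (PT_c hs) (PT_f hs) (PT_v hs) (PT_u hs) (PT_w hs)

lemma PT_sw23 {s : α → St} (hs : PT s) : PT (fun x => St.sw23 (s x)) :=
  PT_mk (PT_a hs) (PT_c hs) (PT_b hs) (PT_f hs) (PT_e hs) (PT_d hs) (PT_u hs) (PT_w hs) (PT_v hs)

lemma PT_step : PT (fun s : St => St.step s) := by
  have h8 : PT (fun _ : St => (8 : ℤ)) := PT.const 8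
  have h7 : PT (fun _ : St => (7 : ℤ)) := PT.const 7
  exact PT.ite (PTp_ilt (PT_imul h8 (PT_d PT_red)) (PT_imul h7 (PT_a PT_red))) (PT_sw12 PT_red)
    (PT.ite (PTp_ilt (PT_imul h8 (PT_h' PT_red)) (PT_imul h7 (PT_h PT_red))) (PT_sw23 PT_red)
      PT_red)

lemma PTp_small {s : α → St} {C : α → ℤ} (hs : PT s) (hC : PT C) :
    PTp (fun x => St.small (s x) (C x)) :=
  ((PTp_ile (PT_inatAbs (PT_a hs)) hC).and ((PTp_ile (PT_inatAbs (PT_b hs)) hC).and
    (PTp_ile (PT_inatAbs (PT_c hs)) hC))).and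
  (((PTp_ile (PT_inatAbs (PT_d hs)) hC).and ((PTp_ile (PT_inatAbs (PT_e hs)) hC).and
    (PTp_ile (PT_inatAbs (PT_f hs)) hC))).and
  ((PTp_ile (PT_inatAbs (PT_u hs)) hC).and ((PTp_ile (PT_inatAbs (PT_v hs)) hC).and
    (PTp_ile (PT_inatAbs (PT_w hs)) hC))))

lemma PT_cap {s : α → St} (hs : PT s) : PT (fun x => St.cap (s x)) :=
  PT_imul (PT_iadd (PT_iadd (PT.const (1 : ℤ)) (PT_inatAbs (PT_a hs))) (PT_inatAbs (PT_h hs)))
    (PT_iadd (PT.const (1 : ℤ)) (PT_inatAbs (PT_val hs)))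

lemma sz_St (s : St) : sz s = sz s.a + (sz s.b + (sz s.c + (sz s.d + (sz s.e + (sz s.f +
    (sz s.u + (sz s.v + sz s.w + 1) + 1) + 1) + 1) + 1) + 1) + 1) + 1 := rfl

lemma sz_int_le_of_natAbs_le {z C : ℤ} (h : (z.natAbs : ℤ) ≤ C) : sz z ≤ 4 * C.natAbs.size + 5 := by
  have h1 := sz_int_le z
  have h2 : z.natAbs.size ≤ C.natAbs.size := Nat.size_le_size (by omega)
  omega

lemma sz_small {s : St} {C : ℤ} (h : St.small s C) : sz s ≤ 9 * (4 * C.natAbs.size + 5) + 8 := by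
  obtain ⟨⟨h1, h2, h3⟩, ⟨h4, h5, h6⟩, ⟨h7, h8, h9⟩⟩ := h
  rw [sz_St]
  have := sz_int_le_of_natAbs_le h1
  have := sz_int_le_of_natAbs_le h2
  have := sz_int_le_of_natAbs_le h3
  have := sz_int_le_of_natAbs_le h4
  have := sz_int_le_of_natAbs_le h5
  have := sz_int_le_of_natAbs_le h6
  have := sz_int_le_of_natAbs_le h7
  have := sz_int_le_of_natAbs_le h8
  have := sz_int_le_of_natAbs_le h9
  omega

/-- The reduction algorithm runs in polynomial time. -/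
theorem PT_lll : PT (fun p : ℕ × St => St.lll p.1 p.2) := by
  have h : PT (fun p : ℕ × St => ((fun (p : ℕ × St) (i : ℕ) =>
      (St.stepC (St.cap p.2))^[i] p.2) p (6 * p.1))) := by
    refine PT.iterClosed (fun (p : ℕ × St) (i : ℕ) => (St.stepC (St.cap p.2))^[i] p.2)
      (fun q => if St.small (St.step q.2.2) (St.cap q.1.2) then St.step q.2.2 else q.2.2)
      ((PT.const 6).mul PT.fst) (PT.snd.congr (fun p => rfl)) ?_ ?_
      (fun p => 9 * (4 * (St.cap p.2).natAbs.size + 5) + 8 + sz p.2) ?_ ?_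
    · have hs : PT (fun q : (ℕ × St) × ℕ × St => St.step q.2.2) :=
        PT_step.comp (PT.snd.comp PT.snd)
      exact PT.ite (PTp_small hs (PT_cap (PT.snd.comp PT.fst))) hs (PT.snd.comp PT.snd)
    · intro p i _
      rw [Function.iterate_succ_apply']
      rfl
    · refine ((((PB.const 9).mul (((PB.const 4).mul (PB_isize (PT_cap PT.snd))).add
        (PB.const 5))).add (PB.const 8))).add PB.snd
    · intro p i _
      induction i with
      | zero => show sz p.2 ≤ _; omega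
      | succ i ih =>
        rw [Function.iterate_succ_apply']
        unfold St.stepC
        split_ifs with hsm
        · have := sz_small hsm
          unfold St.stepC at this
          omega
        · have h2 := ih (by omega)
          exact h2
  exact h

end Pool.Agent.H79.Tet
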