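import Mathlib
import Pool.Agent.H79.Tet.Lll3

/-!
# Modular arithmetic: extended Euclid, powers in `ℤ[√-M] / n`, square roots
-/

namespace Pool.Agent.H79.Tet

open Pool.Agent.H7.Comp

variable {α β γ δ σ : Type} [Enc α] [Enc β] [Enc γ] [Enc δ] [Enc σ]

/-- a positive modulus -/
def pm (n : ℤ) : ℤ := if 0 < n then n else 1

lemma pm_pos (n : ℤ) : 0 < pm n := by unfold pm; split_ifs <;> omega
lemma pm_eq {n : ℤ} (h : 0 < n) : pm n = n := if_pos h
lemma PT_pm {f : α → ℤ} (hf : PT f) : PT (fun x => pm (f x)) :=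
  PT.ite (PTp_ilt (PT.const (0 : ℤ)) hf) hf (PT.const (1 : ℤ))

/-- one step of the extended Euclidean algorithm; the modulus is `m > 0` -/
def egStep (m : ℤ) (q : ℤ × ℤ × ℤ × ℤ) : ℤ × ℤ × ℤ × ℤ :=
  if q.2.1 = 0 then q else (q.2.1, q.1 % q.2.1, q.2.2.2, (q.2.2.1 - q.1 / q.2.1 * q.2.2.2) % m)

/-- the state after `i` steps -/
def eg (a n : ℤ) (i : ℕ) : ℤ × ℤ × ℤ × ℤ := (egStep (pm n))^[i] (pm n, a % pm n, 0, 1 % pm n)

lemma eg_zero (a n : ℤ) : eg a n 0 = (pm n, a % pm n, 0, 1 % pm n) := rfl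
lemma eg_succ (a n : ℤ) (i : ℕ) : eg a n (i + 1) = egStep (pm n) (eg a n i) :=
  Function.iterate_succ_apply' _ _ _

/-- invariants of the Euclidean algorithm -/
lemma eg_inv (a n : ℤ) (i : ℕ) :
    (0 < (eg a n i).1 ∧ (eg a n i).1 ≤ pm n) ∧ (0 ≤ (eg a n i).2.1 ∧ (eg a n i).2.1 < (eg a n i).1) ∧
    (0 ≤ (eg a n i).2.2.1 ∧ (eg a n i).2.2.1 < pm n) ∧
    (0 ≤ (eg a n i).2.2.2 ∧ (eg a n i).2.2.2 < pm n) ∧
    pm n ∣ (eg a n i).1 - (eg a n i).2.2.1 * a ∧ pm n ∣ (eg a n i).2.1 - (eg a n i).2.2.2 * a ∧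
    Int.gcd (eg a n i).1 (eg a n i).2.1 = Int.gcd a (pm n) := by
  have hm := pm_pos n
  set m := pm n with hmdef
  induction i with
  | zero =>
    rw [eg_zero, ← hmdef]
    simp only
    refine ⟨⟨hm, le_rfl⟩, ⟨Int.emod_nonneg _ hm.ne', Int.emod_lt_of_pos _ hm⟩, ⟨le_rfl, hm⟩,
      ⟨Int.emod_nonneg _ hm.ne', Int.emod_lt_of_pos _ hm⟩, ?_, ?_, ?_⟩
    · simp
    · have h1 : a % m = a - m * (a / m) := by have := Int.emod_add_mul_ediv a m; linarith
      have h2 : (1 : ℤ) % m = 1 - m * (1 / m) := by have := Int.emod_add_mul_ediv 1 m; linarith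
      rw [h1, h2]
      exact ⟨-(a / m) + 1 / m * a, by ring⟩
    · rw [Int.gcd_comm m, Int.gcd_emod]
  | succ i ih =>
    rw [eg_succ, ← hmdef]
    obtain ⟨⟨h1, h2⟩, ⟨h3, h4⟩, ⟨h5, h6⟩, ⟨h7, h8⟩, h9, h10, h11⟩ := ih
    generalize eg a n i = q at *
    obtain ⟨r0, r1, s0, s1⟩ := q
    simp only [egStep] at *
    by_cases hr : r1 = 0
    · rw [if_pos hr]
      exact ⟨⟨h1, h2⟩, ⟨h3, h4⟩, ⟨h5, h6⟩, ⟨h7, h8⟩, h9, h10, h11⟩
    · rw [if_neg hr]
      simp only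
      have hr1 : 0 < r1 := by omega
      refine ⟨⟨hr1, by omega⟩, ⟨Int.emod_nonneg _ hr, Int.emod_lt_of_pos _ hr1⟩, ⟨h7, h8⟩,
        ⟨Int.emod_nonneg _ hm.ne', Int.emod_lt_of_pos _ hm⟩, h10, ?_, ?_⟩
      · obtain ⟨x, hx⟩ := h9
        obtain ⟨y, hy⟩ := h10
        have e1 : r0 % r1 = r0 - r1 * (r0 / r1) := by have := Int.emod_add_mul_ediv r0 r1; linarith
        have e2 : (s0 - r0 / r1 * s1) % m = (s0 - r0 / r1 * s1) - m * ((s0 - r0 / r1 * s1) / m) := by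
          have := Int.emod_add_mul_ediv (s0 - r0 / r1 * s1) m; linarith
        rw [e1, e2]
        refine ⟨x - r0 / r1 * y + (s0 - r0 / r1 * s1) / m * a, ?_⟩
        linear_combination hx - r0 / r1 * hy
      · rw [← h11, Int.gcd_comm r1, Int.gcd_emod]

/-- halving in two steps -/
lemma eg_half (a n : ℤ) (i : ℕ) : (eg a n (i + 2)).2.1 = 0 ∨
    2 * (eg a n (i + 2)).2.1 < (eg a n i).2.1 := by
  obtain ⟨⟨h1, h2⟩, ⟨h3, h4⟩, _⟩ := eg_inv a n i
  rw [eg_succ, eg_succ]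
  generalize eg a n i = q at *
  obtain ⟨r0, r1, s0, s1⟩ := q
  simp only [egStep] at *
  by_cases hr : r1 = 0
  · left; simp [hr]
  · rw [if_neg hr]
    simp only
    have hr1 : 0 < r1 := by omega
    have h5 := Int.emod_nonneg r0 hr
    have h6 := Int.emod_lt_of_pos r0 hr1
    by_cases hr2 : r0 % r1 = 0
    · left; rw [if_pos hr2]; exact hr2
    · rw [if_neg hr2]
      simp only
      right
      have hr3 : 0 < r0 % r1 := by omega
      have h7 := Int.emod_lt_of_pos r1 hr3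
      have h8 := Int.emod_add_mul_ediv r1 (r0 % r1)
      have h9 : 1 ≤ r1 / (r0 % r1) := (Int.le_ediv_iff_mul_le hr3).mpr (by omega)
      nlinarith

lemma eg_stop (a n : ℤ) (i : ℕ) (h : (eg a n i).2.1 = 0) : (eg a n (i + 1)) = eg a n i := by
  rw [eg_succ, egStep, if_pos h]

lemma eg_stop' (a n : ℤ) (i j : ℕ) (h : (eg a n i).2.1 = 0) : (eg a n (i + j)) = eg a n i := by
  induction j with
  | zero => rfl
  | succ j ih => rw [← add_assoc, eg_stop _ _ _ (by rw [ih]; exact h), ih]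

lemma eg_bound (a n : ℤ) (j : ℕ) : (eg a n (2 * j)).2.1 = 0 ∨
    2 ^ j * (eg a n (2 * j)).2.1 < pm n := by
  induction j with
  | zero =>
    right
    obtain ⟨⟨h1, h2⟩, ⟨h3, h4⟩, _⟩ := eg_inv a n 0
    simp only [mul_zero, pow_zero, one_mul]
    omega
  | succ j ih =>
    rw [show 2 * (j + 1) = 2 * j + 2 by ring]
    rcases ih with h | h
    · left; rw [eg_stop' _ _ _ _ h]; exact h
    · rcases eg_half a n (2 * j) with h2 | h2
      · left; exact h2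
      · right
        rw [pow_succ]
        have : (0 : ℤ) < 2 ^ j := by positivity
        nlinarith

/-- number of steps -/
def egLen (n : ℤ) : ℕ := 2 * ((pm n).natAbs.size + 1)

/-- result of the algorithm -/
@[irreducible] def egF (p : ℤ × ℤ) : ℤ × ℤ × ℤ × ℤ := eg p.1 p.2 (egLen p.2)

lemma egF_eq (a n : ℤ) : egF (a, n) = eg a n (egLen n) := by unfold egF; rfl

/-- modular inverse -/
def minv (a n : ℤ) : ℤ := (egF (a, n)).2.2.1

/-- greatest common divisor -/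
def gcdz (a n : ℤ) : ℤ := (egF (a, n)).1

lemma eg_final (a n : ℤ) : (eg a n (egLen n)).2.1 = 0 := by
  rcases eg_bound a n ((pm n).natAbs.size + 1) with h | h
  · exact h
  · have h : (2 : ℤ) ^ ((pm n).natAbs.size + 1) * (eg a n (egLen n)).2.1 < pm n := h
    by_contra hcon
    obtain ⟨_, ⟨h3, _⟩, _⟩ := eg_inv a n (egLen n)
    have h1 : 1 ≤ (eg a n (egLen n)).2.1 := by omega
    have h2 : (2 : ℤ) ^ ((pm n).natAbs.size + 1) < pm n := by
      refine lt_of_le_of_lt ?_ h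
      have : (0 : ℤ) < 2 ^ ((pm n).natAbs.size + 1) := by positivity
      nlinarith [h1]
    have h4 : (pm n).natAbs < 2 ^ ((pm n).natAbs.size) := Nat.lt_size_self _
    have h5 : (pm n : ℤ) < 2 ^ ((pm n).natAbs.size) := by
      have := pm_pos n
      have h6 : ((pm n).natAbs : ℤ) < 2 ^ ((pm n).natAbs.size) := by exact_mod_cast h4
      omega
    have h7 : (2 : ℤ) ^ ((pm n).natAbs.size) ≤ 2 ^ ((pm n).natAbs.size + 1) :=
      pow_le_pow_right₀ (by norm_num) (by omega)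
    omega

lemma gcdz_eq {a n : ℤ} (hn : 0 < n) : gcdz a n = Int.gcd a n := by
  obtain ⟨⟨h1, _⟩, _, _, _, _, _, h⟩ := eg_inv a n (egLen n)
  rw [eg_final, Int.gcd_zero_right, pm_eq hn] at h
  unfold gcdz
  rw [egF_eq]
  omega

lemma minv_spec {a n : ℤ} (hn : 0 < n) (h : Int.gcd a n = 1) : n ∣ minv a n * a - 1 := by
  obtain ⟨⟨h1, _⟩, _, _, _, h5, _, h6⟩ := eg_inv a n (egLen n)
  rw [eg_final, Int.gcd_zero_right, pm_eq hn, h] at h6
  rw [pm_eq hn] at h5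
  have h7 : (eg a n (egLen n)).1 = 1 := by omega
  rw [h7] at h5
  have := (dvd_neg.mpr h5)
  have e : -(1 - (eg a n (egLen n)).2.2.1 * a) = minv a n * a - 1 := by
    unfold minv; rw [egF_eq]; ring
  rwa [e] at this

lemma minv_bounds (a n : ℤ) : 0 ≤ minv a n ∧ minv a n < pm n := by
  obtain ⟨_, _, h, _⟩ := eg_inv a n (egLen n)
  unfold minv
  rw [egF_eq]
  exact h

lemma natAbs_size_le {x y : ℤ} (h0 : 0 ≤ x) (h : x ≤ y) : x.natAbs.size ≤ y.natAbs.size :=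
  Nat.size_le_size (by omega)

theorem PT_eg0 : PT (fun p : ℤ × ℤ => eg p.1 p.2 (egLen p.2)) := by
  have hpm : PT (fun p : ℤ × ℤ => pm p.2) := PT_pm PT.snd
  refine PT.iterClosed (fun (p : ℤ × ℤ) (i : ℕ) => eg p.1 p.2 i)
    (fun q => egStep (pm q.1.2) q.2.2) ?_ ?_ ?_ (fun p i _ => eg_succ _ _ _)
    (fun p => 4 * (4 * (pm p.2).natAbs.size + 5) + 3) ?_ ?_
  · exact ((PT.const 2).mul ((PT_isize hpm).add (PT.const 1)))
  · exact (hpm.pair ((PT_imod PT.fst hpm).pair ((PT.const (0 : ℤ)).pair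
      (PT_imod (PT.const (1 : ℤ)) hpm)))).congr (fun p => rfl)
  · have hm : PT (fun q : (ℤ × ℤ) × ℕ × (ℤ × ℤ × ℤ × ℤ) => pm q.1.2) :=
      PT_pm (PT.snd.comp PT.fst)
    have hst : PT (fun q : (ℤ × ℤ) × ℕ × (ℤ × ℤ × ℤ × ℤ) => q.2.2) := PT.snd.comp PT.snd
    have h0 := PT.fst.comp hst
    have h1 := PT.fst.comp (PT.snd.comp hst)
    have h2 := PT.fst.comp (PT.snd.comp (PT.snd.comp hst))
    have h3 := PT.snd.comp (PT.snd.comp (PT.snd.comp hst))
    exact PT.ite (PTp_ieq h1 (PT.const (0 : ℤ))) hst (h1.pair ((PT_imod h0 h1).pair (h3.pair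
      (PT_imod (PT_isub h2 (PT_imul (PT_idiv h0 h1) h3)) hm))))
  · exact (((PB.const 4).mul (((PB.const 4).mul (PB_isize hpm)).add (PB.const 5)))).add (PB.const 3)
  · intro p i _
    obtain ⟨⟨h1, h2⟩, ⟨h3, h4⟩, ⟨h5, h6⟩, ⟨h7, h8⟩, _⟩ := eg_inv p.1 p.2 i
    generalize eg p.1 p.2 i = q at *
    obtain ⟨r0, r1, s0, s1⟩ := q
    simp only at *
    rw [sz_pair, sz_pair, sz_pair]
    have e1 := sz_int_le r0
    have e2 := sz_int_le r1
    have e3 := sz_int_le s0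
    have e4 := sz_int_le s1
    have f1 := natAbs_size_le h1.le h2
    have f2 := natAbs_size_le h3 (by omega : r1 ≤ pm p.2)
    have f3 := natAbs_size_le h5 (by omega : s0 ≤ pm p.2)
    have f4 := natAbs_size_le h7 (by omega : s1 ≤ pm p.2)
    omega

theorem PT_eg : PT egF := by
  have h := PT_eg0
  refine h.congr (fun p => ?_)
  unfold egF
  rfl

lemma PT_minv {f g : α → ℤ} (hf : PT f) (hg : PT g) : PT (fun x => minv (f x) (g x)) :=
  PT.fst.comp (PT.snd.comp (PT.snd.comp (PT_eg.comp (hf.pair hg))))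

lemma PT_gcdz {f g : α → ℤ} (hf : PT f) (hg : PT g) : PT (fun x => gcdz (f x) (g x)) :=
  PT.fst.comp (PT_eg.comp (hf.pair hg))

end Pool.Agent.H79.Tet
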