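import Mathlib
import Pool.Agent.H79.Tet.Alg1

/-!
# Powers in `ℤ[√-M] / n` and square roots of `-M`
-/

namespace Pool.Agent.H79.Tet

open Pool.Agent.H7.Comp

variable {α β γ δ σ : Type} [Enc α] [Enc β] [Enc γ] [Enc δ] [Enc σ]

/-- the element `z + √-M` -/
def qw (M z : ℤ) : ℤ√(-M) := ⟨z, 1⟩

/-- the power of `z + √-M`, modulo `n` -/
def qF (M z n : ℤ) (e : ℕ) : ℤ × ℤ := ((qw M z ^ e).re % pm n, (qw M z ^ e).im % pm n)

/-- squaring -/
def qsq (M n : ℤ) (p : ℤ × ℤ) : ℤ × ℤ :=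
  ((p.1 * p.1 - M * (p.2 * p.2)) % pm n, (2 * (p.1 * p.2)) % pm n)

/-- multiplication by `z + √-M` -/
def qml (M z n : ℤ) (p : ℤ × ℤ) : ℤ × ℤ :=
  ((p.1 * z - M * p.2) % pm n, (p.1 + p.2 * z) % pm n)

lemma emod_modEq (a m : ℤ) : a % m ≡ a [ZMOD m] := Int.mod_modEq a m

lemma qF_double (M z n : ℤ) (e : ℕ) : qF M z n (2 * e) = qsq M n (qF M z n e) := by
  have h1 := emod_modEq (qw M z ^ e).re (pm n)
  have h2 := emod_modEq (qw M z ^ e).im (pm n)
  unfold qF qsq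
  rw [show 2 * e = e + e by ring, pow_add, Zsqrtd.re_mul, Zsqrtd.im_mul]
  refine Prod.ext ?_ ?_
  · simp only
    have h3 := (h1.mul h1).sub ((h2.mul h2).mul_left M)
    refine (Int.ModEq.trans ?_ h3.symm)
    refine congrArg (fun t => t % pm n) ?_
    ring
  · simp only
    have h3 := (h1.mul h2).mul_left 2
    refine (Int.ModEq.trans ?_ h3.symm)
    refine congrArg (fun t => t % pm n) ?_
    ring

lemma qF_succ (M z n : ℤ) (e : ℕ) : qF M z n (e + 1) = qml M z n (qF M z n e) := by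
  have h1 := emod_modEq (qw M z ^ e).re (pm n)
  have h2 := emod_modEq (qw M z ^ e).im (pm n)
  unfold qF qml
  rw [pow_succ, Zsqrtd.re_mul, Zsqrtd.im_mul]
  refine Prod.ext ?_ ?_
  · simp only
    have h3 := (h1.mul_right z).sub (h2.mul_left M)
    refine (Int.ModEq.trans ?_ h3.symm)
    refine congrArg (fun t => t % pm n) ?_
    simp only [qw]
    ring
  · simp only
    have h3 := h1.add (h2.mul_right z)
    refine (Int.ModEq.trans ?_ h3.symm)
    refine congrArg (fun t => t % pm n) ?_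
    simp only [qw]
    ring

lemma qF_bit (M z n : ℤ) (b : Bool) (e : ℕ) : qF M z n (Nat.bit b e) =
    bif b then qml M z n (qsq M n (qF M z n e)) else qsq M n (qF M z n e) := by
  cases b
  · rw [Nat.bit_val, Bool.toNat_false, add_zero, qF_double]; rfl
  · rw [Nat.bit_val, Bool.toNat_true, qF_succ, qF_double]; rfl

lemma qF_bounds (M z n : ℤ) (e : ℕ) : (0 ≤ (qF M z n e).1 ∧ (qF M z n e).1 ≤ pm n) ∧
    (0 ≤ (qF M z n e).2 ∧ (qF M z n e).2 ≤ pm n) :=
  ⟨⟨Int.emod_nonneg _ (pm_pos n).ne', (Int.emod_lt_of_pos _ (pm_pos n)).le⟩,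
    ⟨Int.emod_nonneg _ (pm_pos n).ne', (Int.emod_lt_of_pos _ (pm_pos n)).le⟩⟩

lemma PT_qsq {M n : α → ℤ} {p : α → ℤ × ℤ} (hM : PT M) (hn : PT n) (hp : PT p) :
    PT (fun x => qsq (M x) (n x) (p x)) := by
  have h1 := PT.fst.comp hp
  have h2 := PT.snd.comp hp
  exact (PT_imod (PT_isub (PT_imul h1 h1) (PT_imul hM (PT_imul h2 h2))) (PT_pm hn)).pair
    (PT_imod (PT_imul (PT.const (2 : ℤ)) (PT_imul h1 h2)) (PT_pm hn))

lemma PT_qml {M z n : α → ℤ} {p : α → ℤ × ℤ} (hM : PT M) (hz : PT z) (hn : PT n) (hp : PT p) :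
    PT (fun x => qml (M x) (z x) (n x) (p x)) := by
  have h1 := PT.fst.comp hp
  have h2 := PT.snd.comp hp
  exact (PT_imod (PT_isub (PT_imul h1 hz) (PT_imul hM h2)) (PT_pm hn)).pair
    (PT_imod (PT_iadd h1 (PT_imul h2 hz)) (PT_pm hn))

theorem PT_qF : PT (fun x : (ℤ × ℤ × ℤ) × Bn => qF x.1.1 x.1.2.1 x.1.2.2 x.2.v) := by
  have hM : PT (fun q : ((ℤ × ℤ × ℤ) × Bn) × Bool × Bn × (ℤ × ℤ) => q.1.1.1) :=
    PT.fst.comp (PT.fst.comp PT.fst)
  have hz : PT (fun q : ((ℤ × ℤ × ℤ) × Bn) × Bool × Bn × (ℤ × ℤ) => q.1.1.2.1) :=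
    PT.fst.comp (PT.snd.comp (PT.fst.comp PT.fst))
  have hn : PT (fun q : ((ℤ × ℤ × ℤ) × Bn) × Bool × Bn × (ℤ × ℤ) => q.1.1.2.2) :=
    PT.snd.comp (PT.snd.comp (PT.fst.comp PT.fst))
  have hst : PT (fun q : ((ℤ × ℤ × ℤ) × Bn) × Bool × Bn × (ℤ × ℤ) => q.2.2.2) :=
    PT.snd.comp (PT.snd.comp PT.snd)
  have hn' : PT (fun x : (ℤ × ℤ × ℤ) × Bn => pm x.1.2.2) :=
    PT_pm (PT.snd.comp (PT.snd.comp PT.fst))
  refine PT.binRec (m := fun x : (ℤ × ℤ × ℤ) × Bn => x.2)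
    (F := fun x e => qF x.1.1 x.1.2.1 x.1.2.2 e)
    (step := fun q => bif q.2.1 then qml q.1.1.1 q.1.1.2.1 q.1.1.2.2
      (qsq q.1.1.1 q.1.1.2.2 q.2.2.2) else qsq q.1.1.1 q.1.1.2.2 q.2.2.2)
    PT.snd ?_ ?_ ?_ (fun x => 2 * (4 * (pm x.1.2.2).natAbs.size + 5) + 1) ?_ ?_
  · refine ((PT_imod (PT.const (1 : ℤ)) hn').pair (PT.const (0 : ℤ))).congr (fun x => ?_)
    simp [qF]
  · exact PT.ite' (PT.fst.comp PT.snd) (PT_qml hM hz hn (PT_qsq hM hn hst)) (PT_qsq hM hn hst)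
  · intro x b e _ _
    exact qF_bit _ _ _ b e
  · exact ((PB.const 2).mul (((PB.const 4).mul (PB_isize hn')).add (PB.const 5))).add (PB.const 1)
  · intro x e _
    obtain ⟨⟨h1, h2⟩, ⟨h3, h4⟩⟩ := qF_bounds x.1.1 x.1.2.1 x.1.2.2 e
    generalize qF x.1.1 x.1.2.1 x.1.2.2 e = q at *
    obtain ⟨u, v⟩ := q
    simp only at *
    rw [sz_pair]
    have e1 := sz_int_le u
    have e2 := sz_int_le v
    have f1 := natAbs_size_le h1 h2
    have f2 := natAbs_size_le h3 h4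
    omega

/-- the power, as a function of all the data -/
@[irreducible] def qG (x : (ℤ × ℤ × ℤ) × Bn) : ℤ × ℤ := qF x.1.1 x.1.2.1 x.1.2.2 x.2.v

lemma qG_eq (M z n : ℤ) (b : Bn) : qG ((M, z, n), b) = qF M z n b.v := by unfold qG; rfl

lemma PT_qG : PT qG := by
  have h := PT_qF
  refine h.congr (fun p => ?_)
  unfold qG
  rfl

/-- the candidate for a square root of `-M` modulo `n` -/
def rt (M z n : ℤ) : ℤ := minv (qG ((M, z, n), ⟨((n - 1) / 2).natAbs⟩)).2 n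

lemma PT_rt {M z n : α → ℤ} (hM : PT M) (hz : PT z) (hn : PT n) :
    PT (fun x => rt (M x) (z x) (n x)) := by
  have h1 : PT (fun x => (⟨((n x - 1) / 2).natAbs⟩ : Bn)) :=
    PT_abs.comp (PT_idiv (PT_isub hn (PT.const (1 : ℤ))) (PT.const (2 : ℤ)))
  exact PT_minv (PT.snd.comp (PT_qG.comp ((hM.pair (hz.pair hn)).pair h1))) hn

lemma rt_nonneg (M z n : ℤ) : 0 ≤ rt M z n := (minv_bounds _ _).1

/-! ### Success for prime moduli -/

/-- If exactly one of `z + r`, `z - r` is a square modulo `p`, where `r² = -M`, then the candidate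
is a square root of `-M`. -/
theorem rt_prime {p : ℕ} [Fact p.Prime] (hp2 : p ≠ 2) {M : ℤ} {r : ZMod p}
    (hr : r * r = -(M : ZMod p)) (hr0 : r ≠ 0) {z : ℤ}
    (hz : quadraticChar (ZMod p) ((z : ZMod p) + r) * quadraticChar (ZMod p) ((z : ZMod p) - r) = -1) :
    (p : ℤ) ∣ rt M z p * rt M z p + M := by
  have hp : p.Prime := Fact.out
  have hpodd : p % 2 = 1 := hp.eq_two_or_odd.resolve_left hp2
  have hppos : (0 : ℤ) < p := by exact_mod_cast hp.pos
  set m : ℕ := p / 2 with hm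
  have hmn : (((p : ℤ) - 1) / 2).natAbs = m := by omega
  -- the two ring homomorphisms
  have hrM : r * r = ((-M : ℤ) : ZMod p) := by rw [hr]; push_cast; rfl
  have hrM' : (-r) * (-r) = ((-M : ℤ) : ZMod p) := by rw [neg_mul_neg, hrM]
  let f : ℤ√(-M) →+* ZMod p := Zsqrtd.lift ⟨r, hrM⟩
  let g : ℤ√(-M) →+* ZMod p := Zsqrtd.lift ⟨-r, hrM'⟩
  have hf : ∀ x : ℤ√(-M), f x = (x.re : ZMod p) + (x.im : ZMod p) * r := fun x => rfl
  have hg : ∀ x : ℤ√(-M), g x = (x.re : ZMod p) + (x.im : ZMod p) * (-r) := fun x => rfl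
  set u : ℤ := (qw M z ^ m).re with hu
  set v : ℤ := (qw M z ^ m).im with hv
  have h1 : (u : ZMod p) + (v : ZMod p) * r = ((z : ZMod p) + r) ^ m := by
    rw [← hf, map_pow, hf]
    simp [qw]
  have h2 : (u : ZMod p) + (v : ZMod p) * (-r) = ((z : ZMod p) - r) ^ m := by
    rw [← hg, map_pow, hg]
    simp [qw, sub_eq_add_neg]
  have hchar : ringChar (ZMod p) ≠ 2 := by rw [ZMod.ringChar_zmod_n]; exact hp2
  have h3 := quadraticChar_eq_pow_of_char_ne_two' hchar ((z : ZMod p) + r)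
  have h4 := quadraticChar_eq_pow_of_char_ne_two' hchar ((z : ZMod p) - r)
  rw [ZMod.card] at h3 h4
  -- the sign
  obtain ⟨a, ha, hav⟩ : ∃ a : ZMod p, a * a = 1 ∧ (v : ZMod p) * r = a := by
    have h2p : (2 : ZMod p) ≠ 0 := by
      intro h
      have : ((2 : ℕ) : ZMod p) = 0 := by exact_mod_cast h
      rw [ZMod.natCast_eq_zero_iff] at this
      exact hp2 ((Nat.prime_dvd_prime_iff_eq hp Nat.prime_two).mp this)
    rcases Int.mul_eq_neg_one_iff_eq_one_or_neg_one.mp hz with ⟨e1, e2⟩ | ⟨e1, e2⟩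
    · refine ⟨1, by ring, ?_⟩
      rw [e1] at h3
      rw [e2] at h4
      rw [← h3] at h1
      rw [← h4] at h2
      push_cast at h1 h2
      have : (2 : ZMod p) * ((v : ZMod p) * r) = 2 * 1 := by linear_combination h1 - h2
      exact mul_left_cancel₀ h2p this
    · refine ⟨-1, by ring, ?_⟩
      rw [e1] at h3
      rw [e2] at h4
      rw [← h3] at h1
      rw [← h4] at h2
      push_cast at h1 h2
      have : (2 : ZMod p) * ((v : ZMod p) * r) = 2 * (-1) := by linear_combination h1 - h2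
      exact mul_left_cancel₀ h2p this
  have hv0 : (v : ZMod p) ≠ 0 := by
    intro h0
    rw [h0, zero_mul] at hav
    rw [← hav] at ha
    simp at ha
  -- the inverse
  have hqF : ((qF M z p (((p : ℤ) - 1) / 2).natAbs).2 : ZMod p) = v := by
    rw [hmn]
    show (((qw M z ^ m).im % pm (p : ℤ) : ℤ) : ZMod p) = _
    rw [pm_eq hppos]
    simp [hv]
  have hgcd : Int.gcd (qF M z p (((p : ℤ) - 1) / 2).natAbs).2 p = 1 := by
    rw [Int.gcd_comm, ← Int.isCoprime_iff_gcd_eq_one]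
    rw [(Nat.prime_iff_prime_int.mp hp).coprime_iff_not_dvd]
    intro hdvd
    rw [← ZMod.intCast_zmod_eq_zero_iff_dvd, hqF] at hdvd
    exact hv0 hdvd
  have h5 := minv_spec hppos hgcd
  rw [← ZMod.intCast_zmod_eq_zero_iff_dvd] at h5 ⊢
  push_cast at h5 ⊢
  rw [hqF] at h5
  have hrt : minv (qF M z p (((p : ℤ) - 1) / 2).natAbs).2 p = rt M z p := by
    unfold rt; rw [qG_eq]
  rw [hrt] at h5
  have h6 : (rt M z p : ZMod p) = a * r := by
    have e1 : (rt M z p : ZMod p) * (v : ZMod p) = 1 := sub_eq_zero.mp h5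
    have e2 : (a * r) * (v : ZMod p) = 1 := by
      rw [← ha]
      linear_combination a * hav
    exact mul_right_cancel₀ hv0 (e1.trans e2.symm)
  rw [h6]
  linear_combination (r * r) * ha + hr

end Pool.Agent.H79.Tet
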