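import Mathlib
import Pool.Agent.H79.Tet.Alg2

/-!
# Binary-valued natural number functions, bounded conversions, factorials
-/

namespace Pool.Agent.H79.Tet

open Pool.Agent.H7.Comp
open scoped Nat

variable {α β γ δ σ : Type} [Enc α] [Enc β] [Enc γ] [Enc δ] [Enc σ]

/-- Natural number functions computable in polynomial time with binary output. -/
def PN (f : α → ℕ) : Prop := PT (fun x => (f x : ℤ))

lemma PN.congr {f g : α → ℕ} (hf : PN f) (h : ∀ x, f x = g x) : PN g := by
  have : f = g := funext h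
  rwa [← this]
lemma PN.of {f : α → ℕ} (hf : PT f) : PN f := PT_cast hf
lemma PN.const (a : ℕ) : PN (fun _ : α => a) := PT.const (a : ℤ)
lemma PN.add {f g : α → ℕ} (hf : PN f) (hg : PN g) : PN (fun x => f x + g x) :=
  (PT_iadd hf hg).congr (fun x => by push_cast; rfl)
lemma PN.mul {f g : α → ℕ} (hf : PN f) (hg : PN g) : PN (fun x => f x * g x) :=
  (PT_imul hf hg).congr (fun x => by push_cast; rfl)
lemma PN.div {f g : α → ℕ} (hf : PN f) (hg : PN g) : PN (fun x => f x / g x) :=
  (PT_idiv hf hg).congr (fun x => by push_cast; rfl)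
lemma PN.mod {f g : α → ℕ} (hf : PN f) (hg : PN g) : PN (fun x => f x % g x) :=
  (PT_imod hf hg).congr (fun x => by push_cast; rfl)
lemma PN.pow {f g : α → ℕ} (hf : PN f) (hg : PT g) : PN (fun x => f x ^ g x) :=
  (PT_ipow hf hg).congr (fun x => by push_cast; rfl)
lemma PN.natAbs {f : α → ℤ} (hf : PT f) : PN (fun x => (f x).natAbs) := PT_inatAbs hf
lemma PN.comp {g : β → ℕ} {f : α → β} (hg : PN g) (hf : PT f) : PN (fun x => g (f x)) :=
  PT.comp (g := fun y => (g y : ℤ)) hg hf
lemma PN.bn {f : α → Bn} (hf : PT f) : PN (fun x => (f x).v) := PT_ofBn hf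
lemma PN.toBn {f : α → ℕ} (hf : PN f) : PT (fun x => (⟨f x⟩ : Bn)) :=
  (PT_abs.comp hf).congr (fun x => by simp)
lemma PN.ple {f g : α → ℕ} (hf : PN f) (hg : PN g) : PTp (fun x => f x ≤ g x) :=
  (PTp_ile hf hg).congr (fun x => by simp)
lemma PN.plt {f g : α → ℕ} (hf : PN f) (hg : PN g) : PTp (fun x => f x < g x) :=
  (PTp_ilt hf hg).congr (fun x => by simp)
lemma PN.peq {f g : α → ℕ} (hf : PN f) (hg : PN g) : PTp (fun x => f x = g x) :=
  (PTp_ieq hf hg).congr (fun x => by simp)

/-- Conversion to unary below a unary bound. -/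
lemma PN.toU {f g : α → ℕ} (hf : PN f) (hg : PT g) (h : ∀ x, f x ≤ g x) : PT f := by
  have hb : PTp (fun q : α × ℕ × ℕ => q.2.1 < f q.1) :=
    PN.plt (PN.of (PT.fst.comp PT.snd)) (hf.comp PT.fst)
  have hF : PT (fun x => (fun (x : α) (i : ℕ) => min i (f x)) x (g x)) := by
    refine PT.iterClosed (fun (x : α) (i : ℕ) => min i (f x))
      (fun q => if q.2.1 < f q.1 then q.2.2 + 1 else q.2.2) hg ?_ ?_ ?_
      (fun x => 2 * g x + 1) ?_ ?_
    · exact (PT.const 0).congr (fun x => by simp)
    · exact PT.ite hb (PT.succ.comp (PT.snd.comp PT.snd)) (PT.snd.comp PT.snd)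
    · intro x i _
      simp only
      split_ifs with h1
      · omega
      · omega
    · exact ((PB.const 2).mul hg.value).add (PB.const 1)
    · intro x i hi
      rw [sz_nat]
      have : min i (f x) ≤ i := min_le_left _ _
      omega
  exact hF.congr (fun x => min_eq_right (h x))

/-- constant powers, unary -/
lemma PT_upow {f : α → ℕ} (hf : PT f) (c : ℕ) : PT (fun x => f x ^ c) := by
  induction c with
  | zero => exact (PT.const 1).congr (fun x => by simp)
  | succ c ih => exact (ih.mul hf).congr (fun x => by rw [pow_succ])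

lemma fact_size (i : ℕ) : (i !).size ≤ i * i + 1 := by
  rw [Nat.size_le]
  have h1 : i ! ≤ i ^ i := Nat.factorial_le_pow i
  have h2 : i ^ i ≤ (2 ^ i) ^ i := Nat.pow_le_pow_left (Nat.lt_two_pow_self).le i
  rw [← pow_mul] at h2
  have h3 : 2 ^ (i * i) < 2 ^ (i * i + 1) := Nat.pow_lt_pow_right (by norm_num) (by omega)
  omega

/-- factorials of unary numbers -/
lemma PN.fact {f : α → ℕ} (hf : PT f) : PN (fun x => (f x) !) := by
  have h : PT (fun n : ℕ => ((fun (_ : ℕ) (i : ℕ) => ((i ! : ℕ) : ℤ)) n n)) := by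
    refine PT.iterClosed (fun (_ : ℕ) (i : ℕ) => ((i ! : ℕ) : ℤ))
      (fun q => ((q.2.1 + 1 : ℕ) : ℤ) * q.2.2) PT.id
      ((PT.const (1 : ℤ)).congr (fun x => by simp))
      (PT_imul (PT_cast (PT.succ.comp (PT.fst.comp PT.snd))) (PT.snd.comp PT.snd))
      (fun x i _ => by simp only [Nat.factorial_succ]; push_cast; ring)
      (fun n => 4 * (n * n + 1) + 5) ?_ ?_
    · exact (((PB.const 4).mul ((PB.natval.mul PB.natval).add (PB.const 1)))).add (PB.const 5)
    · intro n i hi
      have h1 := sz_int_le ((i ! : ℕ) : ℤ)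
      rw [Int.natAbs_natCast] at h1
      have h2 := fact_size i
      have h3 : i * i ≤ n * n := Nat.mul_le_mul hi hi
      omega
  exact h.comp hf

/-- A function with finitely many values. -/
lemma PT_finite {f : α → ℤ} (hf : PT f) (F : ℕ → β) (d : β) (m : ℕ) :
    PT (fun x => if 0 ≤ f x ∧ f x < m then F (f x).natAbs else d) := by
  induction m with
  | zero =>
    refine (PT.const d).congr (fun x => ?_)
    rw [if_neg]
    push_cast
    omega
  | succ m ih =>
    refine (PT.ite (PTp_ieq hf (PT.const (m : ℤ))) (PT.const (F m)) ih).congr (fun x => ?_)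
    by_cases h : f x = m
    · rw [if_pos h, if_pos]
      · rw [h]; simp
      · rw [h]; push_cast; omega
    · rw [if_neg h]
      by_cases h2 : 0 ≤ f x ∧ f x < m
      · rw [if_pos h2, if_pos]
        push_cast; omega
      · rw [if_neg h2, if_neg]
        push_cast
        omega

end Pool.Agent.H79.Tet
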