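import Mathlib
import Pool.Agent.H79.Tet.Alg3

/-!
# Digits and the chain of random factors
-/

namespace Pool.Agent.H79.Tet

open Pool.Agent.H7.Comp
open scoped Nat

variable {α β γ δ σ : Type} [Enc α] [Enc β] [Enc γ] [Enc δ] [Enc σ]

/-- number of dyadic scales -/
@[irreducible] def KK (Λ : ℕ) : ℕ := (max Λ 1) ^ 202
/-- bound for the small primes -/
@[irreducible] def BB (Λ : ℕ) : ℕ := Λ ^ 820
/-- number of steps of the walk -/
@[irreducible] def kk (Λ : ℕ) : ℕ := 24 * Λ ^ 203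
/-- number of digits -/
@[irreducible] def DD (Λ : ℕ) : ℕ := 2 * KK Λ * 2 ^ KK Λ * 2 ^ (2 * KK Λ)
/-- the scale -/
def de (Λ w : ℕ) : ℕ := w / 2 % KK Λ
/-- the number in the dyadic block -/
def dn (Λ w : ℕ) : ℕ := 2 ^ de Λ w + w / 2 / KK Λ % 2 ^ de Λ w
/-- the auxiliary random element -/
def dz (Λ w : ℕ) : ℕ := w / 2 / KK Λ / 2 ^ KK Λ
/-- digit number `i` -/
def dg (Λ V i : ℕ) : ℕ := V / DD Λ ^ i % DD Λ

lemma KK_eq {Λ : ℕ} (h : 1 ≤ Λ) : KK Λ = Λ ^ 202 := by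
  unfold KK; rw [max_eq_left h]
lemma BB_eq (Λ : ℕ) : BB Λ = Λ ^ 820 := by unfold BB; rfl
lemma kk_eq (Λ : ℕ) : kk Λ = 24 * Λ ^ 203 := by unfold kk; rfl
lemma DD_eq (Λ : ℕ) : DD Λ = 2 * KK Λ * 2 ^ KK Λ * 2 ^ (2 * KK Λ) := by unfold DD; rfl
lemma KK_pos (Λ : ℕ) : 0 < KK Λ := by
  unfold KK
  exact Nat.pos_of_ne_zero (pow_ne_zero _ (by omega))
lemma DD_pos (Λ : ℕ) : 0 < DD Λ := by
  rw [DD_eq]
  have := KK_pos Λ
  positivity

lemma de_lt (Λ w : ℕ) : de Λ w < KK Λ := Nat.mod_lt _ (KK_pos Λ)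
lemma dn_pos (Λ w : ℕ) : 0 < dn Λ w := by unfold dn; positivity
lemma dn_ge (Λ w : ℕ) : 2 ^ de Λ w ≤ dn Λ w := by unfold dn; omega
lemma dn_lt (Λ w : ℕ) : dn Λ w < 2 ^ (de Λ w + 1) := by
  unfold dn
  have := Nat.mod_lt (w / 2 / KK Λ) (show 0 < 2 ^ de Λ w by positivity)
  rw [pow_succ]
  omega
lemma dn_le (Λ w : ℕ) : dn Λ w ≤ 2 ^ KK Λ :=
  ((dn_lt Λ w).trans_le (Nat.pow_le_pow_right (by norm_num) (de_lt Λ w))).le

lemma PT_max {f g : α → ℕ} (hf : PT f) (hg : PT g) : PT (fun x => max (f x) (g x)) :=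
  (PT.ite (PTp.lt hf hg) hg hf).congr (fun x => by split_ifs <;> omega)

lemma PT_KK {f : α → ℕ} (hf : PT f) : PT (fun x => KK (f x)) :=
  (PT_upow (PT_max hf (PT.const 1)) 202).congr (fun x => by unfold KK; rfl)
lemma PT_BB {f : α → ℕ} (hf : PT f) : PT (fun x => BB (f x)) :=
  (PT_upow hf 820).congr (fun x => by unfold BB; rfl)
lemma PT_kk {f : α → ℕ} (hf : PT f) : PT (fun x => kk (f x)) :=
  ((PT.const 24).mul (PT_upow hf 203)).congr (fun x => by unfold kk; rfl)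
lemma PN_DD {f : α → ℕ} (hf : PT f) : PN (fun x => DD (f x)) :=
  ((((PN.const 2).mul (PN.of (PT_KK hf))).mul ((PN.const 2).pow (PT_KK hf))).mul
    ((PN.const 2).pow ((PT.const 2).mul (PT_KK hf)))).congr (fun x => by rw [DD_eq])

lemma PT_de {f w : α → ℕ} (hf : PT f) (hw : PN w) : PT (fun x => de (f x) (w x)) := by
  refine PN.toU (g := fun x => KK (f x)) ?_ (PT_KK hf) (fun x => (de_lt _ _).le)
  exact (hw.div (PN.const 2)).mod (PN.of (PT_KK hf))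

lemma PN_dn {f w : α → ℕ} (hf : PT f) (hw : PN w) : PN (fun x => dn (f x) (w x)) :=
  ((PN.const 2).pow (PT_de hf hw)).add (((hw.div (PN.const 2)).div (PN.of (PT_KK hf))).mod
    ((PN.const 2).pow (PT_de hf hw)))

lemma PN_dz {f w : α → ℕ} (hf : PT f) (hw : PN w) : PN (fun x => dz (f x) (w x)) :=
  ((hw.div (PN.const 2)).div (PN.of (PT_KK hf))).div ((PN.const 2).pow (PT_KK hf))

lemma PN_dg {f V i : α → ℕ} (hf : PT f) (hV : PN V) (hi : PT i) :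
    PN (fun x => dg (f x) (V x) (i x)) :=
  (hV.div ((PN_DD hf).pow hi)).mod (PN_DD hf)

/-- acceptance of a square root of `-M` -/
def Acc (M z n : ℤ) : Prop := (rt M z n * rt M z n + M) % n = 0

instance (M z n : ℤ) : Decidable (Acc M z n) := by unfold Acc; infer_instance

lemma PTp_Acc {M z n : α → ℤ} (hM : PT M) (hz : PT z) (hn : PT n) :
    PTp (fun x => Acc (M x) (z x) (n x)) :=
  PTp_ieq (PT_imod (PT_iadd (PT_imul (PT_rt hM hz hn) (PT_rt hM hz hn)) hM) hn) (PT.const (0 : ℤ))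

/-- acceptance of a digit -/
def Ok (Λ : ℕ) (M : ℤ) (w : ℕ) : Prop :=
  (w % 2 = 1 ∧ Λ ^ 2 ≤ de Λ w) ∧
    (gcdz (M * ((BB Λ) ! : ℕ)) (dn Λ w) = 1 ∧ Acc M (dz Λ w) (dn Λ w))

instance (Λ : ℕ) (M : ℤ) (w : ℕ) : Decidable (Ok Λ M w) := by unfold Ok; infer_instance

lemma PTp_Ok {f w : α → ℕ} {M : α → ℤ} (hf : PT f) (hM : PT M) (hw : PN w) :
    PTp (fun x => Ok (f x) (M x) (w x)) := by
  have h1 : PTp (fun x => w x % 2 = 1) := (hw.mod (PN.const 2)).peq (PN.const 1)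
  have h2 : PTp (fun x => f x ^ 2 ≤ de (f x) (w x)) := PTp.le (PT_upow hf 2) (PT_de hf hw)
  have h3 : PTp (fun x => gcdz (M x * ((BB (f x)) ! : ℕ)) (dn (f x) (w x)) = 1) :=
    PTp_ieq (PT_gcdz (PT_imul hM (PN.fact (PT_BB hf))) (PN_dn hf hw)) (PT.const (1 : ℤ))
  have h4 : PTp (fun x => Acc (M x) (dz (f x) (w x)) (dn (f x) (w x))) :=
    PTp_Acc hM (PN_dz hf hw) (PN_dn hf hw)
  exact (h1.and h2).and (h3.and h4)

/-- Chinese remaindering -/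
def crt (S s n t : ℤ) : ℤ := s + S * (((t - s) * minv S n) % n)

lemma PT_crt {S s n t : α → ℤ} (hS : PT S) (hs : PT s) (hn : PT n) (ht : PT t) :
    PT (fun x => crt (S x) (s x) (n x) (t x)) :=
  PT_iadd hs (PT_imul hS (PT_imod (PT_imul (PT_isub ht hs) (PT_minv hS hn)) hn))

/-- one step of the chain -/
def upd (Λ : ℕ) (M : ℤ) (w : ℕ) (p : ℤ × ℤ) : ℤ × ℤ :=
  if Ok Λ M w then (p.1 * dn Λ w, crt p.1 p.2 (dn Λ w) (rt M (dz Λ w) (dn Λ w))) else p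

lemma PT_upd {f w : α → ℕ} {M : α → ℤ} {p : α → ℤ × ℤ} (hf : PT f) (hM : PT M) (hw : PN w)
    (hp : PT p) : PT (fun x => upd (f x) (M x) (w x) (p x)) := by
  have h1 := PT.fst.comp hp
  have h2 := PT.snd.comp hp
  exact PT.ite (PTp_Ok hf hM hw) ((PT_imul h1 (PN_dn hf hw)).pair
    (PT_crt h1 h2 (PN_dn hf hw) (PT_rt hM (PN_dz hf hw) (PN_dn hf hw)))) hp

/-- the chain -/
def chain (Λ : ℕ) (M : ℤ) (V : ℕ) : ℕ → ℤ × ℤ
  | 0 => (1, 0)
  | i + 1 => upd Λ M (dg Λ V i) (chain Λ M V i)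

lemma chain_inv (Λ : ℕ) (M : ℤ) (V i : ℕ) : 0 < (chain Λ M V i).1 ∧
    (chain Λ M V i).1 ≤ 2 ^ (KK Λ * i) ∧ 0 ≤ (chain Λ M V i).2 ∧
    (chain Λ M V i).2 < (chain Λ M V i).1 := by
  induction i with
  | zero => simp [chain]
  | succ i ih =>
    obtain ⟨h1, h2, h3, h4⟩ := ih
    rw [chain, upd]
    generalize chain Λ M V i = p at *
    obtain ⟨S, s⟩ := p
    simp only at *
    have hpow : (2 : ℤ) ^ (KK Λ * i) ≤ 2 ^ (KK Λ * (i + 1)) :=
      pow_le_pow_right₀ (by norm_num) (by nlinarith)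
    split_ifs with hok
    · simp only
      have hn : (0 : ℤ) < dn Λ (dg Λ V i) := by exact_mod_cast dn_pos _ _
      have hn2 : (dn Λ (dg Λ V i) : ℤ) ≤ 2 ^ KK Λ := by exact_mod_cast dn_le _ _
      set n : ℤ := ((dn Λ (dg Λ V i) : ℕ) : ℤ) with hndef
      set t := rt M (dz Λ (dg Λ V i)) n with ht
      have h5 := Int.emod_nonneg ((t - s) * minv S n) hn.ne'
      have h6 := Int.emod_lt_of_pos ((t - s) * minv S n) hn
      refine ⟨by positivity, ?_, ?_, ?_⟩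
      · rw [Nat.mul_succ, pow_add]
        exact mul_le_mul h2 hn2 hn.le (by positivity)
      · unfold crt
        positivity
      · unfold crt
        nlinarith
    · exact ⟨h1, h2.trans hpow, h3, h4⟩

/-- the chain as a function of all the data -/
@[irreducible] def chainF (x : (ℕ × ℤ) × Bn) : ℤ × ℤ := chain x.1.1 x.1.2 x.2.v (kk x.1.1)

lemma chainF_eq (Λ : ℕ) (M : ℤ) (V : Bn) : chainF ((Λ, M), V) = chain Λ M V.v (kk Λ) := by
  unfold chainF; rfl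

theorem PT_chain0 : PT (fun x : (ℕ × ℤ) × Bn => chain x.1.1 x.1.2 x.2.v (kk x.1.1)) := by
  refine PT.iterClosed (fun (x : (ℕ × ℤ) × Bn) (i : ℕ) => chain x.1.1 x.1.2 x.2.v i)
    (fun q => upd q.1.1.1 q.1.1.2 (dg q.1.1.1 q.1.2.v q.2.1) q.2.2) (PT_kk (PT.fst.comp PT.fst))
    ((PT.const ((1 : ℤ), (0 : ℤ))).congr (fun x => rfl)) ?_ (fun x i _ => rfl)
    (fun x => 2 * (4 * (KK x.1.1 * kk x.1.1 + 1) + 5) + 1) ?_ ?_
  · have hΛ : PT (fun q : ((ℕ × ℤ) × Bn) × ℕ × (ℤ × ℤ) => q.1.1.1) :=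
      PT.fst.comp (PT.fst.comp PT.fst)
    have hM : PT (fun q : ((ℕ × ℤ) × Bn) × ℕ × (ℤ × ℤ) => q.1.1.2) :=
      PT.snd.comp (PT.fst.comp PT.fst)
    have hV : PT (fun q : ((ℕ × ℤ) × Bn) × ℕ × (ℤ × ℤ) => q.1.2) := PT.snd.comp PT.fst
    exact PT_upd hΛ hM (PN_dg hΛ (PN.bn hV) (PT.fst.comp PT.snd)) (PT.snd.comp PT.snd)
  · have h1 : PT (fun x : (ℕ × ℤ) × Bn => x.1.1) := PT.fst.comp PT.fst
    exact ((PB.const 2).mul (((PB.const 4).mul (((PT_KK h1).value.mul (PT_kk h1).value).add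
      (PB.const 1))).add (PB.const 5))).add (PB.const 1)
  · intro x i hi
    obtain ⟨h1, h2, h3, h4⟩ := chain_inv x.1.1 x.1.2 x.2.v i
    generalize chain x.1.1 x.1.2 x.2.v i = p at *
    obtain ⟨S, s⟩ := p
    simp only at *
    rw [sz_pair]
    have e1 := sz_int_le S
    have e2 := sz_int_le s
    have h5 : (2 : ℤ) ^ (KK x.1.1 * i) ≤ 2 ^ (KK x.1.1 * kk x.1.1) :=
      pow_le_pow_right₀ (by norm_num) (Nat.mul_le_mul_left _ hi)
    have key : ∀ y : ℤ, 0 ≤ y → y ≤ 2 ^ (KK x.1.1 * kk x.1.1) →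
        y.natAbs.size ≤ KK x.1.1 * kk x.1.1 + 1 := by
      intro y hy0 hy
      rw [Nat.size_le]
      have : (y.natAbs : ℤ) < 2 ^ (KK x.1.1 * kk x.1.1 + 1) := by
        rw [Int.natAbs_of_nonneg hy0, pow_succ]
        have : (0 : ℤ) < 2 ^ (KK x.1.1 * kk x.1.1) := by positivity
        linarith
      exact_mod_cast this
    have f1 := key S h1.le (h2.trans h5)
    have f2 := key s h3 (h4.le.trans (h2.trans h5))
    omega

theorem PT_chainF : PT chainF := by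
  have h := PT_chain0
  refine h.congr (fun p => ?_)
  unfold chainF
  rfl

end Pool.Agent.H79.Tet
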