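import Mathlib
import Pool.Agent.H79.Tet.Alg4
import Pool.Agent.H79.Tet.Lll3

/-!
# Three squares from a root of `-M`
-/

namespace Pool.Agent.H79.Tet

open Pool.Agent.H7.Comp
open scoped Nat

variable {α β γ δ σ : Type} [Enc α] [Enc β] [Enc γ] [Enc δ] [Enc σ]

/-- make a residue modulo an odd number odd -/
def mkOdd (c Q : ℤ) : ℤ := if c % 2 = 0 then c + Q else c

lemma PT_mkOdd {c Q : α → ℤ} (hc : PT c) (hQ : PT Q) : PT (fun x => mkOdd (c x) (Q x)) :=
  PT.ite (PTp_ieq (PT_imod hc (PT.const (2 : ℤ))) (PT.const (0 : ℤ))) (PT_iadd hc hQ) hc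

lemma mkOdd_odd {c Q : ℤ} (hQ : Q % 2 = 1) : mkOdd c Q % 2 = 1 := by
  unfold mkOdd; split_ifs <;> omega

lemma mkOdd_dvd (c Q : ℤ) : Q ∣ mkOdd c Q - c := by
  unfold mkOdd; split_ifs <;> simp

lemma mkOdd_nonneg {c Q : ℤ} (hc : 0 ≤ c) (hQ : 0 ≤ Q) : 0 ≤ mkOdd c Q := by
  unfold mkOdd; split_ifs <;> omega

/-- the form of determinant one built from `Q`, with `2Q = -1` modulo `M`, and a square root `s` of
`-M` modulo `Q` -/
def frm (M Q s : ℤ) : St :=
  ⟨(mkOdd (((2 * Q + 1) / M * s) % Q) Q * mkOdd (((2 * Q + 1) / M * s) % Q) Q + (2 * Q + 1) / M)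
      / (2 * Q), mkOdd (((2 * Q + 1) / M * s) % Q) Q, 1, 2 * Q, 0, M, 1, 0, M⟩

/-- the reduction algorithm as a function of all the data -/
@[irreducible] def lllF (p : ℕ × St) : St := St.lll p.1 p.2

lemma lllF_eq (L : ℕ) (s : St) : lllF (L, s) = St.lll L s := by unfold lllF; rfl

theorem PT_lllF : PT lllF := by
  have h := PT_lll
  refine h.congr (fun p => ?_)
  unfold lllF
  rfl

/-- the reduced form -/
def sq3 (M Q s : ℤ) : St := lllF ((frm M Q s).pot.natAbs.size, frm M Q s)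

theorem sq3_spec {M Q s : ℤ} (hM : 0 < M) (hMo : M % 2 = 1) (hQ : 0 < Q) (hQo : Q % 2 = 1)
    (hQM : M ∣ 2 * Q + 1) (hs : Q ∣ s * s + M) :
    (sq3 M Q s).u * (sq3 M Q s).u + (sq3 M Q s).v * (sq3 M Q s).v +
      (sq3 M Q s).w * (sq3 M Q s).w = M := by
  obtain ⟨b, hb⟩ := hQM
  have hbdiv : (2 * Q + 1) / M = b := by
    rw [hb]; exact Int.mul_ediv_cancel_left _ hM.ne'
  have hb0 : 0 < b := by
    by_contra h
    have : M * b ≤ 0 := by nlinarith
    omega
  have hbo : b % 2 = 1 := by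
    rcases Int.emod_two_eq_zero_or_one b with h | h
    · exfalso
      obtain ⟨k, hk⟩ := Int.dvd_of_emod_eq_zero h
      rw [hk] at hb
      have : M * (2 * k) = 2 * (M * k) := by ring
      omega
    · exact h
  set c : ℤ := mkOdd ((b * s) % Q) Q with hc
  have hco : c % 2 = 1 := mkOdd_odd hQo
  have hcQ : Q ∣ c - b * s := by
    have h1 : Q ∣ c - (b * s) % Q := mkOdd_dvd _ _
    have h2 : Q ∣ (b * s) % Q - b * s := by
      have := Int.emod_add_mul_ediv (b * s) Q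
      exact ⟨-(b * s / Q), by linear_combination this⟩
    have := dvd_add h1 h2
    rwa [sub_add_sub_cancel] at this
  have hdvdQ : Q ∣ c * c + b := by
    obtain ⟨k, hk⟩ := hcQ
    obtain ⟨l, hl⟩ := hs
    have e : c = b * s + Q * k := by linarith
    refine ⟨2 * b * s * k + Q * k * k + b * b * l - 2 * b, ?_⟩
    rw [e]
    linear_combination b * b * hl + b * hb
  have hdvd2 : (2 : ℤ) ∣ c * c + b := by
    obtain ⟨k, hk⟩ : ∃ k, c = 2 * k + 1 := ⟨c / 2, by omega⟩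
    obtain ⟨l, hl⟩ : ∃ l, b = 2 * l + 1 := ⟨b / 2, by omega⟩
    exact ⟨2 * k * k + 2 * k + l + 1, by rw [hk, hl]; ring⟩
  have hcop : IsCoprime (2 : ℤ) Q := ⟨-(Q / 2), 1, by omega⟩
  obtain ⟨a, ha⟩ : (2 * Q) ∣ c * c + b := hcop.mul_dvd hdvd2 hdvdQ
  have hadiv : (c * c + b) / (2 * Q) = a := by
    rw [ha]; exact Int.mul_ediv_cancel_left _ (by omega)
  have ha0 : 0 < a := by
    by_contra h
    have h1 : 2 * Q * a ≤ 0 := by nlinarith
    nlinarith [mul_self_nonneg c]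
  have hfrm : frm M Q s = ⟨a, c, 1, 2 * Q, 0, M, 1, 0, M⟩ := by
    unfold frm
    rw [hbdiv, ← hc, hadiv]
  have hgood : St.Good (frm M Q s) := by
    rw [hfrm]
    refine ⟨ha0, ?_, ?_⟩
    · show 0 < a * (2 * Q) - c * c
      nlinarith
    · show a * (2 * Q * M - 0 * 0) - c * (c * M - 0 * 1) + 1 * (c * 0 - 2 * Q * 1) = 1
      linear_combination (-M) * ha - hb
  have hval : (frm M Q s).val = M := by
    rw [hfrm]
    simp only [St.val]
    linear_combination (-M * M) * ha - M * hb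
  have := St.lll_spec hgood (L := (frm M Q s).pot.natAbs.size) (by
    have h1 : (frm M Q s).pot.natAbs < 2 ^ (frm M Q s).pot.natAbs.size := Nat.lt_size_self _
    have h2 : ((frm M Q s).pot.natAbs : ℤ) < 2 ^ (frm M Q s).pot.natAbs.size := by
      exact_mod_cast h1
    have h3 : (frm M Q s).pot ≤ (frm M Q s).pot.natAbs := Int.le_natAbs
    omega)
  rw [hval] at this
  unfold sq3
  rw [lllF_eq]
  exact this

/-- the odd residue modulo `2M` of the last factor -/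
def rres (M S : ℤ) : ℤ := mkOdd ((-(minv (2 * S) M)) % M) M

/-- the last factor -/
def lastN (Λ : ℕ) (M S : ℤ) (w : ℕ) : ℤ := rres M S + 2 * M * dn Λ w

/-- the result of the attempt, from the state of the chain and the last digit -/
def endF (Λ : ℕ) (M : ℤ) (p : ℤ × ℤ) (w : ℕ) : St :=
  sq3 M (p.1 * lastN Λ M p.1 w)
    (crt p.1 p.2 (lastN Λ M p.1 w) (rt M (dz Λ w) (lastN Λ M p.1 w)))

/-- the attempt to write `M` as a sum of three squares -/
def att (Λ : ℕ) (M : ℤ) (V : ℕ) : St := endF Λ M (chainF ((Λ, M), ⟨V⟩)) (dg Λ V (kk Λ))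

lemma rres_spec {M S : ℤ} (hM : 0 < M) (hMo : M % 2 = 1) (hS : Int.gcd (2 * S) M = 1) :
    M ∣ 2 * S * rres M S + 1 ∧ rres M S % 2 = 1 ∧ 0 < rres M S ∧ rres M S < 2 * M := by
  have h0 := Int.emod_nonneg (-(minv (2 * S) M)) hM.ne'
  have h1 := Int.emod_lt_of_pos (-(minv (2 * S) M)) hM
  have hodd : rres M S % 2 = 1 := mkOdd_odd hMo
  refine ⟨?_, hodd, ?_, ?_⟩
  · have h2 : M ∣ rres M S - (-(minv (2 * S) M)) % M := mkOdd_dvd _ _
    have h3 : M ∣ (-(minv (2 * S) M)) % M - (-(minv (2 * S) M)) := by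
      have := Int.emod_add_mul_ediv (-(minv (2 * S) M)) M
      exact ⟨-(-(minv (2 * S) M) / M), by linear_combination this⟩
    have h4 := minv_spec hM hS
    obtain ⟨x, hx⟩ := h2
    obtain ⟨y, hy⟩ := h3
    obtain ⟨z, hz⟩ := h4
    exact ⟨2 * S * (x + y) - z, by linear_combination (2 * S) * (hx + hy) - hz⟩
  · have : 0 ≤ rres M S := mkOdd_nonneg h0 hM.le
    omega
  · show mkOdd ((-(minv (2 * S) M)) % M) M < 2 * M
    unfold mkOdd
    split_ifs <;> omega

lemma crt_spec {S s n t : ℤ} (hn : 0 < n) (h : Int.gcd S n = 1) {M : ℤ} (hS : S ∣ s * s + M)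
    (hN : n ∣ t * t + M) : S * n ∣ crt S s n t * crt S s n t + M := by
  have h1 := minv_spec hn h
  have hcop : IsCoprime S n := Int.isCoprime_iff_gcd_eq_one.mpr h
  have hX := Int.emod_add_mul_ediv ((t - s) * minv S n) n
  set X := ((t - s) * minv S n) % n with hXdef
  have e1 : S ∣ crt S s n t * crt S s n t + M := by
    obtain ⟨k, hk⟩ := hS
    exact ⟨k + 2 * s * X + S * X * X, by unfold crt; rw [← hXdef]; linear_combination hk⟩
  have e2 : n ∣ crt S s n t - t := by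
    obtain ⟨k, hk⟩ := h1
    refine ⟨(t - s) * k - S * (((t - s) * minv S n) / n), ?_⟩
    unfold crt
    rw [← hXdef]
    linear_combination S * hX + (t - s) * hk
  have e3 : n ∣ crt S s n t * crt S s n t + M := by
    obtain ⟨k, hk⟩ := e2
    obtain ⟨l, hl⟩ := hN
    have e : crt S s n t = t + n * k := by linarith
    rw [e]
    exact ⟨l + 2 * t * k + n * k * k, by linear_combination hl⟩
  exact hcop.mul_dvd e1 e3

/-- Correctness of the last step. -/
theorem endF_spec {Λ : ℕ} {M : ℤ} {p : ℤ × ℤ} {w : ℕ} (hM : 0 < M) (hMo : M % 2 = 1)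
    (hS : 0 < p.1) (hSo : p.1 % 2 = 1) (hSM : Int.gcd (2 * p.1) M = 1) (hs : p.1 ∣ p.2 * p.2 + M)
    (hco : Int.gcd p.1 (lastN Λ M p.1 w) = 1)
    (hN : lastN Λ M p.1 w ∣ rt M (dz Λ w) (lastN Λ M p.1 w) * rt M (dz Λ w) (lastN Λ M p.1 w) + M) :
    (endF Λ M p w).u * (endF Λ M p w).u + (endF Λ M p w).v * (endF Λ M p w).v +
      (endF Λ M p w).w * (endF Λ M p w).w = M := by
  obtain ⟨r1, r2, r3, r4⟩ := rres_spec hM hMo hSM
  have hdn : (0 : ℤ) < dn Λ w := by exact_mod_cast dn_pos _ _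
  have hNpos : 0 < lastN Λ M p.1 w := by unfold lastN; positivity
  have hNodd : lastN Λ M p.1 w % 2 = 1 := by
    unfold lastN
    have : 2 * M * (dn Λ w : ℤ) = 2 * (M * dn Λ w) := by ring
    omega
  refine sq3_spec hM hMo (by positivity) ?_ ?_ (crt_spec hNpos hco hs hN)
  · rw [Int.mul_emod, hSo, hNodd]; norm_num
  · obtain ⟨k, hk⟩ := r1
    exact ⟨k + 4 * p.1 * dn Λ w, by unfold lastN; linear_combination hk⟩

/-! ### Polynomial time -/

lemma PT_frm {M Q s : α → ℤ} (hM : PT M) (hQ : PT Q) (hs : PT s) :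
    PT (fun x => frm (M x) (Q x) (s x)) := by
  have h2 : PT (fun _ : α => (2 : ℤ)) := PT.const 2
  have h1 : PT (fun _ : α => (1 : ℤ)) := PT.const 1
  have h0 : PT (fun _ : α => (0 : ℤ)) := PT.const 0
  have h2Q := PT_imul h2 hQ
  have hb := PT_idiv (PT_iadd h2Q h1) hM
  have hc := PT_mkOdd (PT_imod (PT_imul hb hs) hQ) hQ
  exact PT_mk (PT_idiv (PT_iadd (PT_imul hc hc) hb) h2Q) hc h1 h2Q h0 hM h1 h0 hM

lemma PT_sq3 {M Q s : α → ℤ} (hM : PT M) (hQ : PT Q) (hs : PT s) :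
    PT (fun x => sq3 (M x) (Q x) (s x)) := by
  have hf := PT_frm hM hQ hs
  have hp : PT (fun x => (frm (M x) (Q x) (s x)).pot) := PT_imul (PT_a hf) (PT_h hf)
  exact PT_lllF.comp ((PT_isize hp).pair hf)

lemma PT_rres {M S : α → ℤ} (hM : PT M) (hS : PT S) : PT (fun x => rres (M x) (S x)) :=
  PT_mkOdd (PT_imod (PT_ineg (PT_minv (PT_imul (PT.const (2 : ℤ)) hS) hM)) hM) hM

lemma PT_lastN {f w : α → ℕ} {M S : α → ℤ} (hf : PT f) (hM : PT M) (hS : PT S) (hw : PN w) :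
    PT (fun x => lastN (f x) (M x) (S x) (w x)) :=
  PT_iadd (PT_rres hM hS) (PT_imul (PT_imul (PT.const (2 : ℤ)) hM) (PN_dn hf hw))

lemma PT_endF {f w : α → ℕ} {M : α → ℤ} {p : α → ℤ × ℤ} (hf : PT f) (hM : PT M) (hp : PT p)
    (hw : PN w) : PT (fun x => endF (f x) (M x) (p x) (w x)) := by
  have h1 := PT.fst.comp hp
  have h2 := PT.snd.comp hp
  have hN := PT_lastN hf hM h1 hw
  exact PT_sq3 hM (PT_imul h1 hN) (PT_crt h1 h2 hN (PT_rt hM (PN_dz hf hw) hN))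

lemma PT_att {f V : α → ℕ} {M : α → ℤ} (hf : PT f) (hM : PT M) (hV : PN V) :
    PT (fun x => att (f x) (M x) (V x)) :=
  PT_endF hf hM (PT_chainF.comp ((hf.pair hM).pair hV.toBn)) (PN_dg hf hV (PT_kk hf))

end Pool.Agent.H79.Tet
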