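import Mathlib

/-!
# Choice of the two free variables: congruences
-/

namespace Pool.Agent.H79.Tet

/-- the cubic -/
def fc (x : ℤ) : ℤ := x * x * x - x

/-- its derivative -/
def fd (x : ℤ) : ℤ := 3 * x * x - 1

lemma fc_mod {m x y : ℤ} (h : m ∣ x - y) : m ∣ fc x - fc y := by
  obtain ⟨k, hk⟩ := h
  exact ⟨k * (x * x + x * y + y * y - 1), by unfold fc; linear_combination (x * x + x * y + y * y - 1) * hk⟩

lemma fd_mod {m x y : ℤ} (h : m ∣ x - y) : m ∣ fd x - fd y := by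
  obtain ⟨k, hk⟩ := h
  exact ⟨k * (3 * (x + y)), by unfold fd; linear_combination (3 * (x + y)) * hk⟩

/-- two-dimensional Hensel lifting -/
lemma hensel2 {β N X₀ Y₀ δ : ℤ} (h1 : 5 ∣ fc X₀ + fc Y₀ - N) (h2 : 5 ∣ fd Y₀ + β * fd X₀)
    (hδ : 5 ∣ δ * (fd X₀ * (6 * Y₀) - 6 * X₀ * β * fd Y₀) - 1) (e : ℕ) :
    ∃ X Y : ℤ, 5 ∣ X - X₀ ∧ 5 ∣ Y - Y₀ ∧ 5 ^ (e + 1) ∣ fc X + fc Y - N ∧
      5 ^ (e + 1) ∣ fd Y + β * fd X := by
  induction e with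
  | zero => exact ⟨X₀, Y₀, by simp, by simp, by simpa using h1, by simpa using h2⟩
  | succ e ih =>
    obtain ⟨X, Y, hX, hY, ⟨A, hA⟩, ⟨B, hB⟩⟩ := ih
    have hΔ : 5 ∣ δ * (fd X * (6 * Y) - 6 * X * β * fd Y) - 1 := by
      obtain ⟨k1, e1⟩ := fd_mod hX
      obtain ⟨k2, e2⟩ := fd_mod hY
      obtain ⟨k3, e3⟩ := hX
      obtain ⟨k4, e4⟩ := hY
      obtain ⟨k5, e5⟩ := hδ
      refine ⟨k5 + δ * (6 * (k1 * Y + fd X₀ * k4) - 6 * β * (k3 * fd Y + X₀ * k2)), ?_⟩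
      linear_combination e5 + δ * (6 * (Y * e1 + fd X₀ * e4) - 6 * β * (fd Y * e3 + X₀ * e2))
    obtain ⟨κ, hκ⟩ := hΔ
    set s : ℤ := 5 ^ e with hs
    have hs1 : (5 : ℤ) ^ (e + 1) = 5 * s := by rw [hs, pow_succ]; ring
    have hs2 : (5 : ℤ) ^ (e + 1 + 1) = 25 * s := by rw [hs, pow_succ, pow_succ]; ring
    rw [hs1] at hA hB
    rw [hs2]
    set a : ℤ := -δ * (6 * Y * A - fd Y * B) with ha
    set b : ℤ := -δ * (fd X * B - 6 * β * X * A) with hb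
    have k1 : A + fd X * a + fd Y * b = -(5 * κ) * A := by
      rw [ha, hb]; linear_combination (-A) * hκ
    have k2 : B + 6 * Y * b + 6 * β * X * a = -(5 * κ) * B := by
      rw [ha, hb]; linear_combination (-B) * hκ
    refine ⟨X + 5 * s * a, Y + 5 * s * b, ?_, ?_, ?_, ?_⟩
    · have : X + 5 * s * a - X₀ = (X - X₀) + 5 * (s * a) := by ring
      rw [this]
      exact dvd_add hX (dvd_mul_right _ _)
    · have : Y + 5 * s * b - Y₀ = (Y - Y₀) + 5 * (s * b) := by ring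
      rw [this]
      exact dvd_add hY (dvd_mul_right _ _)
    · refine ⟨-κ * A + s * (3 * X * a * a + 3 * Y * b * b + 5 * s * (a * a * a + b * b * b)), ?_⟩
      unfold fc at hA ⊢
      unfold fd at k1
      linear_combination hA + (5 * s) * k1
    · refine ⟨-κ * B + s * (3 * b * b + 3 * β * a * a), ?_⟩
      unfold fd at hB ⊢
      linear_combination hB + (5 * s) * k2

/-- starting values modulo 5 -/
lemma start5 (n H : ℤ) (hH : 5 ∣ H) : ∃ X₀ Y₀ β₀ δ : ℤ, (0 ≤ X₀ ∧ X₀ < 5) ∧ (1 ≤ β₀ ∧ β₀ ≤ 4) ∧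
    5 ∣ fc X₀ + fc Y₀ - 6 * n ∧ 5 ∣ fd Y₀ + (H + β₀) * fd X₀ ∧
    5 ∣ δ * (fd X₀ * (6 * Y₀) - 6 * X₀ * (H + β₀) * fd Y₀) - 1 := by
  obtain ⟨K, hK⟩ := hH
  have h5 : n % 5 = 0 ∨ n % 5 = 1 ∨ n % 5 = 2 ∨ n % 5 = 3 ∨ n % 5 = 4 := by omega
  unfold fc fd
  rcases h5 with h | h | h | h | h
  · refine ⟨0, 1, 2, -1, by norm_num, by norm_num, ?_, ?_, ?_⟩ <;> norm_num <;> omega
  · refine ⟨2, 0, 1, 3, by norm_num, by norm_num, ?_, ?_, ?_⟩ <;> norm_num <;> omega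
  · refine ⟨2, 2, 4, -1, by norm_num, by norm_num, ?_, ?_, ?_⟩ <;> norm_num <;> omega
  · refine ⟨3, 3, 4, 1, by norm_num, by norm_num, ?_, ?_, ?_⟩ <;> norm_num <;> omega
  · refine ⟨3, 0, 1, 2, by norm_num, by norm_num, ?_, ?_, ?_⟩ <;> norm_num <;> omega

/-- uniqueness of lifts -/
lemma lift_unique {x y X₀ : ℤ} (hx : 5 ∣ x - X₀) (hy : 5 ∣ y - X₀) {e : ℕ}
    (h : 5 ^ e ∣ fc x - fc y) : 5 ^ e ∣ x - y := by
  have h1 : fc x - fc y = (x - y) * (x * x + x * y + y * y - 1) := by unfold fc; ring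
  rw [h1] at h
  refine IsCoprime.dvd_of_dvd_mul_right ?_ h
  refine IsCoprime.pow_left ?_
  have h5 : Prime (5 : ℤ) := by norm_num
  rw [h5.coprime_iff_not_dvd]
  intro h2
  obtain ⟨k, hk⟩ := hx
  obtain ⟨l, hl⟩ := hy
  have h3 : 5 ∣ 3 * (X₀ * X₀) - 1 := by
    obtain ⟨m, hm⟩ := h2
    refine ⟨m - (X₀ * (k * 3 + l * 3) + 5 * (k * k + k * l + l * l)), ?_⟩
    have e1 : x = X₀ + 5 * k := by linarith
    have e2 : y = X₀ + 5 * l := by linarith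
    rw [e1, e2] at hm
    linear_combination hm
  have h4 : (X₀ * X₀) % 5 = 0 ∨ (X₀ * X₀) % 5 = 1 ∨ (X₀ * X₀) % 5 = 4 := by
    have h6 : X₀ % 5 = 0 ∨ X₀ % 5 = 1 ∨ X₀ % 5 = 2 ∨ X₀ % 5 = 3 ∨ X₀ % 5 = 4 := by omega
    rw [Int.mul_emod]
    rcases h6 with h | h | h | h | h <;> rw [h] <;> norm_num
  omega

/-- the candidate pair stays a solution along the lattice -/
lemma lattice_sol {n x₀ Y s β₀ a b H : ℤ} (h1 : s * H ^ 2 ∣ fc x₀ + fc Y - 6 * n)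
    (h2 : H ^ 2 ∣ fd Y + (H + β₀) * fd x₀) (h3 : s * H ^ 2 ∣ s * s) :
    s * H ^ 2 ∣ fc (x₀ + s * (a * (H + β₀) - b * (β₀ * β₀))) + fc (Y + s * (a + b * (H - β₀))) -
      6 * n := by
  obtain ⟨k1, e1⟩ := h1
  obtain ⟨k2, e2⟩ := h2
  obtain ⟨k3, e3⟩ := h3
  set U := a * (H + β₀) - b * (β₀ * β₀) with hU
  set W := a + b * (H - β₀) with hW
  have e4 : U - (H + β₀) * W = -b * H ^ 2 := by rw [hU, hW]; ring
  refine ⟨k1 + (-b * fd x₀ + k2 * W) + k3 * (3 * x₀ * U * U + 3 * Y * W * W +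
    s * (U * U * U + W * W * W)), ?_⟩
  unfold fc fd at *
  linear_combination e1 + s * (3 * x₀ * x₀ - 1) * e4 + s * W * e2 +
    (3 * x₀ * U * U + 3 * Y * W * W + s * (U * U * U + W * W * W)) * e3

/-- residues modulo 7 -/
lemma res7 (c : ℤ) : ∃ x y : ℤ, 7 ∣ fc x + fc y - c := by
  have h7 : c % 7 = 0 ∨ c % 7 = 1 ∨ c % 7 = 2 ∨ c % 7 = 3 ∨ c % 7 = 4 ∨ c % 7 = 5 ∨ c % 7 = 6 := by
    omega
  unfold fc
  rcases h7 with h | h | h | h | h | h | h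
  · exact ⟨0, 0, by norm_num; omega⟩
  · exact ⟨5, 0, by norm_num; omega⟩
  · exact ⟨5, 5, by norm_num; omega⟩
  · exact ⟨3, 0, by norm_num; omega⟩
  · exact ⟨4, 0, by norm_num; omega⟩
  · exact ⟨4, 5, by norm_num; omega⟩
  · exact ⟨2, 0, by norm_num; omega⟩

/-- choice of the residues of the lattice coordinates modulo 7 -/
lemma lattice7 {s H β₀ x₀ Y : ℤ} (hs : ∃ σ, 7 ∣ s * σ - 1) (hH : 7 ∣ H - 1) (xs ys : ℤ) :
    ∃ as bs : ℤ, ∀ a b : ℤ, 7 ∣ a - as → 7 ∣ b - bs →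
      7 ∣ x₀ + s * (a * (H + β₀) - b * (β₀ * β₀)) - xs ∧ 7 ∣ Y + s * (a + b * (H - β₀)) - ys := by
  obtain ⟨σ, κ, hσ⟩ := hs
  obtain ⟨η, hη⟩ := hH
  have hH' : H = 1 + 7 * η := by linarith
  subst hH'
  refine ⟨σ * (ys - Y) - ((1 + β₀) * (σ * (ys - Y)) - σ * (xs - x₀)) * (1 - β₀),
    (1 + β₀) * (σ * (ys - Y)) - σ * (xs - x₀), ?_⟩
  intro a b ⟨k, hk⟩ ⟨l, hl⟩
  constructor
  · refine ⟨s * (a * η) + s * ((1 + β₀) * k - β₀ * β₀ * l) + κ * (xs - x₀), ?_⟩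
    have ea : a = σ * (ys - Y) - ((1 + β₀) * (σ * (ys - Y)) - σ * (xs - x₀)) * (1 - β₀) + 7 * k := by
      linarith
    have eb : b = (1 + β₀) * (σ * (ys - Y)) - σ * (xs - x₀) + 7 * l := by linarith
    rw [eb, ea]
    linear_combination (xs - x₀) * hσ
  · refine ⟨s * (b * η) + s * (k + l * (1 - β₀)) + κ * (ys - Y), ?_⟩
    have ea : a = σ * (ys - Y) - ((1 + β₀) * (σ * (ys - Y)) - σ * (xs - x₀)) * (1 - β₀) + 7 * k := by
      linarith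
    have eb : b = (1 + β₀) * (σ * (ys - Y)) - σ * (xs - x₀) + 7 * l := by linarith
    rw [ea, eb]
    linear_combination (ys - Y) * hσ

end Pool.Agent.H79.Tet
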