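import Mathlib
import Pool.Agent.H79.Tet.Cand1
import Pool.Agent.H79.Tet.Alg1

/-!
# Choice of the two free variables: sizes
-/

namespace Pool.Agent.H79.Tet

lemma fc_mono {u v : ℤ} (hu : 0 ≤ u) (h : u ≤ v) : fc u ≤ fc v := by
  unfold fc
  rcases eq_or_lt_of_le (hu.trans h) with h0 | h0
  · have : u = 0 := by omega
    rw [← h0, this]
  · have h1 : 0 ≤ (v - u) * (v * v + u * v + u * u - 1) := by
      apply mul_nonneg (by omega)
      nlinarith
    nlinarith

lemma fc_nonneg {u : ℤ} (hu : 0 ≤ u) : 0 ≤ fc u := by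
  have := fc_mono le_rfl hu
  simpa [fc] using this

lemma fc_le_cube {u t : ℤ} (ht : 0 ≤ t) (h : u ≤ t) : fc u ≤ t * t * t := by
  by_cases hu : 0 ≤ u
  · have h1 := fc_mono hu h
    unfold fc at *
    linarith
  · push Not at hu
    have h2 : fc u ≤ 0 := by
      unfold fc
      have : u * (u * u - 1) ≤ 0 := by
        apply mul_nonpos_of_nonpos_of_nonneg (by omega)
        nlinarith
      nlinarith
    have : 0 ≤ t * t * t := by positivity
    linarith

lemma fc_diff {u v t : ℤ} (h : u ≤ v) (hu : -(11 * t) ≤ u) (hv : v ≤ 11 * t) :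
    fc v - fc u ≤ (v - u) * (363 * (t * t)) := by
  have h1 : fc v - fc u = (v - u) * (u * u + u * v + v * v - 1) := by unfold fc; ring
  rw [h1]
  apply mul_le_mul_of_nonneg_left _ (by omega)
  have e1 : u * u ≤ 121 * (t * t) := by nlinarith
  have e2 : v * v ≤ 121 * (t * t) := by nlinarith
  nlinarith [mul_self_nonneg (u - v)]

/-- The window. -/
lemma window {n t s β₀ x₀ Y : ℤ} (hs : 244140625 ≤ s) (ht : t = s * 244140625)
    (hn1 : t * t * t ≤ n) (hn2 : n < 125 * (t * t * t)) (hx0 : 0 ≤ x₀) (hx1 : x₀ < t)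
    (hY0 : 0 ≤ Y) (hY1 : Y < 244140625) (hβ1 : 1 ≤ β₀) (hβ2 : β₀ ≤ 4) :
    ∃ A : ℤ, 1 ≤ A ∧ A ≤ 156250 ∧ ∀ a b : ℤ, A ≤ a → a ≤ A + 6 → 0 ≤ b → b ≤ 6 →
      0 ≤ x₀ + s * (a * (15625 + β₀) - b * (β₀ * β₀)) ∧
      x₀ + s * (a * (15625 + β₀) - b * (β₀ * β₀)) < 11 * t ∧
      0 ≤ Y + s * (a + b * (15625 - β₀)) ∧
      48 * n - 12 * (t * t * t) + 24 * t ≤ 8 * (fc (x₀ + s * (a * (15625 + β₀) - b * (β₀ * β₀))) +
        fc (Y + s * (a + b * (15625 - β₀)))) ∧
      8 * (fc (x₀ + s * (a * (15625 + β₀) - b * (β₀ * β₀))) +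
        fc (Y + s * (a + b * (15625 - β₀)))) < 48 * n - 6 * (t * t * t) + 24 * t := by
  classical
  have ht0 : 0 < t := by omega
  have hst : s ≤ t := by omega
  set T := t * t * t with hT
  have hT0 : 0 < T := by positivity
  have htT : t ≤ T := by
    rw [hT]
    nlinarith [mul_pos ht0 ht0]
  have hββ : 1 ≤ β₀ * β₀ ∧ β₀ * β₀ ≤ 16 := ⟨by nlinarith, by nlinarith⟩
  set P : ℕ → Prop := fun A => 48 * n - 12 * T + 24 * t ≤
    8 * (fc (x₀ + s * ((A : ℤ) * (15625 + β₀) - 6 * (β₀ * β₀))) + fc (Y + s * (A : ℤ))) with hP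
  have hP1 : P 156250 := by
    simp only [hP]
    have h1 : 10 * t ≤ x₀ + s * (((156250 : ℕ) : ℤ) * (15625 + β₀) - 6 * (β₀ * β₀)) := by
      push_cast
      nlinarith [hββ.2]
    have h2 := fc_mono (by omega) h1
    have h3 : 0 ≤ fc (Y + s * ((156250 : ℕ) : ℤ)) := fc_nonneg (by positivity)
    have h4 : fc (10 * t) = 1000 * T - 10 * t := by unfold fc; rw [hT]; ring
    linarith
  have hex : ∃ A, P A := ⟨_, hP1⟩
  set A := Nat.find hex with hA
  have hPA : P A := Nat.find_spec hex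
  have hAle : A ≤ 156250 := Nat.find_min' hex hP1
  have hP0 : ¬ P 0 := by
    simp only [hP, Nat.cast_zero, zero_mul, mul_zero, add_zero, zero_sub]
    have h1 : x₀ + s * -(6 * (β₀ * β₀)) ≤ t := by nlinarith [hββ.1]
    have h2 := fc_le_cube ht0.le h1
    have h3 := fc_le_cube ht0.le (show Y ≤ t by omega)
    rw [← hT] at h2 h3
    push Not
    linarith
  have hA1 : 1 ≤ A := by
    rcases Nat.eq_zero_or_pos A with h | h
    · rw [h] at hPA; exact absurd hPA hP0
    · exact h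
  have hPA' : ¬ P (A - 1) := Nat.find_min hex (by omega)
  simp only [hP] at hPA'
  push Not at hPA'
  have hcast : ((A - 1 : ℕ) : ℤ) = (A : ℤ) - 1 := by push_cast [Nat.cast_sub hA1]; ring
  rw [hcast] at hPA'
  set u := x₀ + s * (((A : ℤ) - 1) * (15625 + β₀) - 6 * (β₀ * β₀)) with hu
  set y := Y + s * ((A : ℤ) - 1) with hy
  have hA1' : (1 : ℤ) ≤ A := by exact_mod_cast hA1
  have hAle' : (A : ℤ) ≤ 156250 := by exact_mod_cast hAle
  have hy0 : 0 ≤ y := by
    rw [hy]
    have : 0 ≤ s * ((A : ℤ) - 1) := mul_nonneg (by omega) (by omega)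
    omega
  have hyt : y ≤ t := by
    rw [hy, ht]
    nlinarith
  have hulow : -t ≤ u := by
    rw [hu, ht]
    have : 0 ≤ ((A : ℤ) - 1) * (15625 + β₀) := mul_nonneg (by omega) (by omega)
    nlinarith [hββ.2]
  have hu10 : u < 10 * t := by
    by_contra hcon
    push Not at hcon
    have h2 := fc_mono (by omega) hcon
    have h3 := fc_nonneg hy0
    have h4 : fc (10 * t) = 1000 * T - 10 * t := by unfold fc; rw [hT]; ring
    linarith
  refine ⟨A, hA1', hAle', ?_⟩
  intro a b ha1 ha2 hb1 hb2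
  -- the increments
  set X' := x₀ + s * (a * (15625 + β₀) - b * (β₀ * β₀)) with hX'
  set Y' := Y + s * (a + b * (15625 - β₀)) with hY'
  set τ := s * 15625 with hτ
  have htτ : t = τ * 15625 := by rw [ht, hτ]; ring
  have hτ0 : 0 < τ := by omega
  have d1 : X' - u = s * ((a - A + 1) * (15625 + β₀) + (6 - b) * (β₀ * β₀)) := by
    rw [hX', hu]; ring
  have d2 : Y' - y = s * ((a - A + 1) + b * (15625 - β₀)) := by rw [hY', hy]; ring
  have hs0 : 0 < s := by omega
  have i1 : 0 ≤ (a - A + 1) * (15625 + β₀) := mul_nonneg (by omega) (by omega)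
  have i2 : 0 ≤ (6 - b) * (β₀ * β₀) := mul_nonneg (by omega) (by positivity)
  have i3 : 0 ≤ b * (15625 - β₀) := mul_nonneg hb1 (by omega)
  have i4 : (a - A + 1) * (15625 + β₀) ≤ 7 * 15629 :=
    mul_le_mul (by omega) (by omega) (by omega) (by norm_num)
  have i5 : (6 - b) * (β₀ * β₀) ≤ 6 * 16 :=
    mul_le_mul (by omega) hββ.2 (by positivity) (by norm_num)
  have i6 : b * (15625 - β₀) ≤ 6 * 15625 :=
    mul_le_mul hb2 (by omega) (by omega) (by norm_num)
  have j1 : 0 ≤ X' - u := by rw [d1]; exact mul_nonneg hs0.le (by omega)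
  have j2 : 0 ≤ Y' - y := by rw [d2]; exact mul_nonneg hs0.le (by omega)
  have j3 : X' - u ≤ 8 * τ := by
    rw [d1, hτ, show 8 * (s * 15625) = s * (8 * 15625) by ring]
    exact mul_le_mul_of_nonneg_left (by omega) hs0.le
  have j4 : Y' - y ≤ 8 * τ := by
    rw [d2, hτ, show 8 * (s * 15625) = s * (8 * 15625) by ring]
    exact mul_le_mul_of_nonneg_left (by omega) hs0.le
  -- comparison with the point `A`
  set uA := x₀ + s * ((A : ℤ) * (15625 + β₀) - 6 * (β₀ * β₀)) with huA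
  have k1 : uA ≤ X' := by
    have : X' - uA = s * ((a - A) * (15625 + β₀) + (6 - b) * (β₀ * β₀)) := by
      rw [hX', huA]; ring
    have h2 : 0 ≤ s * ((a - A) * (15625 + β₀) + (6 - b) * (β₀ * β₀)) := by
      apply mul_nonneg hs0.le
      have : 0 ≤ (a - A) * (15625 + β₀) := mul_nonneg (by omega) (by omega)
      omega
    omega
  have k2 : Y + s * (A : ℤ) ≤ Y' := by
    have : Y' - (Y + s * A) = s * ((a - A) + b * (15625 - β₀)) := by rw [hY']; ring
    have h2 : 0 ≤ s * ((a - A) + b * (15625 - β₀)) := mul_nonneg hs0.le (by omega)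
    omega
  have k3 : 0 ≤ uA := by
    rw [huA]
    have h3 : 1 * 15625 ≤ (A : ℤ) * (15625 + β₀) := mul_le_mul hA1' (by omega) (by norm_num) (by omega)
    have : 0 ≤ s * ((A : ℤ) * (15625 + β₀) - 6 * (β₀ * β₀)) := mul_nonneg hs0.le (by
      have := hββ.2; omega)
    omega
  have k4 : 0 ≤ Y + s * (A : ℤ) := by positivity
  have l1 := fc_mono k3 k1
  have l2 := fc_mono k4 k2
  simp only [hP] at hPA
  rw [← huA] at hPA
  have m1 : fc X' - fc u ≤ (X' - u) * (363 * (t * t)) := fc_diff (by omega) (by omega) (by omega)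
  have m2 : fc Y' - fc y ≤ (Y' - y) * (363 * (t * t)) := fc_diff (by omega) (by omega) (by omega)
  have htt : 0 ≤ 363 * (t * t) := by positivity
  have m3 : (X' - u) * (363 * (t * t)) ≤ 8 * τ * (363 * (t * t)) := mul_le_mul_of_nonneg_right j3 htt
  have m4 : (Y' - y) * (363 * (t * t)) ≤ 8 * τ * (363 * (t * t)) := mul_le_mul_of_nonneg_right j4 htt
  have m5 : T = 15625 * (τ * (t * t)) := by rw [hT]; nth_rw 1 [htτ]; ring
  have m6 : 0 < τ * (t * t) := by positivity
  have m7 : 8 * τ * (363 * (t * t)) = 2904 * (τ * (t * t)) := by ring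
  refine ⟨by omega, by omega, by omega, ?_, ?_⟩
  · linarith
  · rw [m7] at m3 m4
    have hlt : 8 * (fc X' + fc Y') < (48 * n - 12 * T + 24 * t) + 46464 * (τ * (t * t)) := by
      linarith
    have : 46464 * (τ * (t * t)) ≤ 6 * T := by rw [m5]; linarith
    linarith

end Pool.Agent.H79.Tet
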