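import Mathlib
import Pool.Agent.H79.Tet.Cand2

/-!
# Existence of good candidates
-/

namespace Pool.Agent.H79.Tet

/-- one step of the one-dimensional lifting -/
def liftStep (X c t x : ℤ) : ℤ := (x - fd X * fd X * fd X * (fc x - c)) % pm t

/-- lifting of a root -/
def lift (X c t : ℤ) (i : ℕ) : ℤ := (liftStep X c t)^[i] X

lemma lift_zero (X c t : ℤ) : lift X c t 0 = X := rfl
lemma lift_succ (X c t : ℤ) (i : ℕ) : lift X c t (i + 1) = liftStep X c t (lift X c t i) :=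
  Function.iterate_succ_apply' _ _ _

lemma lift_bounds {X c t : ℤ} {i : ℕ} (hi : 1 ≤ i) : 0 ≤ lift X c t i ∧ lift X c t i < pm t := by
  obtain ⟨k, rfl⟩ : ∃ k, i = k + 1 := ⟨i - 1, by omega⟩
  rw [lift_succ]
  exact ⟨Int.emod_nonneg _ (pm_pos t).ne', Int.emod_lt_of_pos _ (pm_pos t)⟩

lemma fd_pow4 (X : ℤ) : 5 ∣ fd X * fd X * fd X * fd X - 1 := by
  have h6 : X % 5 = 0 ∨ X % 5 = 1 ∨ X % 5 = 2 ∨ X % 5 = 3 ∨ X % 5 = 4 := by omega
  obtain ⟨k, hk⟩ : ∃ k, X = 5 * k + X % 5 := ⟨X / 5, by omega⟩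
  have key : ∀ r : ℤ, 5 ∣ fd r * fd r * fd r * fd r - 1 → 5 ∣ fd (5 * k + r) * fd (5 * k + r) *
      fd (5 * k + r) * fd (5 * k + r) - 1 := by
    intro r ⟨m, hm⟩
    obtain ⟨l, hl⟩ : (5 : ℤ) ∣ fd (5 * k + r) - fd r := fd_mod ⟨k, by ring⟩
    have e : fd (5 * k + r) = fd r + 5 * l := by linarith
    rw [e]
    refine ⟨m + (4 * fd r ^ 3 * l + 6 * fd r ^ 2 * 5 * l ^ 2 + 4 * fd r * 25 * l ^ 3 + 125 * l ^ 4), ?_⟩
    linear_combination hm
  rw [hk]
  apply key
  rcases h6 with h | h | h | h | h <;> rw [h] <;> unfold fd <;> norm_num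

lemma lift_spec {X c : ℤ} {j : ℕ} (hj : 1 ≤ j) (h : 5 ∣ fc X - c) (i : ℕ) :
    5 ∣ lift X c (5 ^ j) i - X ∧ ∀ e, e ≤ i + 1 → e ≤ j → 5 ^ e ∣ fc (lift X c (5 ^ j) i) - c := by
  induction i with
  | zero =>
    rw [lift_zero]
    refine ⟨by simp, fun e he _ => ?_⟩
    rcases (by omega : e = 0 ∨ e = 1) with rfl | rfl
    · simp
    · simpa using h
  | succ i ih =>
    obtain ⟨ih1, ih2⟩ := ih
    rw [lift_succ]
    set x := lift X c (5 ^ j) i with hx
    have hpm : pm (5 ^ j) = 5 ^ j := pm_eq (by positivity)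
    set x'' := x - fd X * fd X * fd X * (fc x - c) with hx''
    have hstep : (5 : ℤ) ^ j ∣ liftStep X c (5 ^ j) x - x'' := by
      unfold liftStep
      rw [hpm, ← hx'']
      have := Int.emod_add_mul_ediv x'' (5 ^ j)
      exact ⟨-(x'' / 5 ^ j), by linear_combination this⟩
    have h5j : (5 : ℤ) ∣ 5 ^ j := dvd_pow_self 5 (by omega)
    have h5 : (5 : ℤ) ∣ fc x - c := by
      have := ih2 1 (by omega) hj
      simpa using this
    constructor
    · have e1 : (5 : ℤ) ∣ liftStep X c (5 ^ j) x - x'' := h5j.trans hstep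
      have e2 : (5 : ℤ) ∣ x'' - x := by
        have : x'' - x = (fc x - c) * (-(fd X * fd X * fd X)) := by rw [hx'']; ring
        rw [this]
        exact Dvd.dvd.mul_right h5 _
      have := dvd_add (dvd_add e1 e2) ih1
      have e : liftStep X c (5 ^ j) x - x'' + (x'' - x) + (x - X) = liftStep X c (5 ^ j) x - X := by
        ring
      rwa [e] at this
    · intro e he hej
      have h6 : (5 : ℤ) ^ e ∣ fc (liftStep X c (5 ^ j) x) - fc x'' :=
        fc_mod ((pow_dvd_pow 5 hej).trans hstep)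
      suffices h7 : (5 : ℤ) ^ e ∣ fc x'' - c by
        have := dvd_add h6 h7
        rwa [sub_add_sub_cancel] at this
      rcases Nat.eq_zero_or_pos e with rfl | hepos
      · simp
      obtain ⟨e', rfl⟩ : ∃ e', e = e' + 1 := ⟨e - 1, by omega⟩
      obtain ⟨A, hA⟩ := ih2 e' (by omega) (by omega)
      obtain ⟨B, hB⟩ := h5
      obtain ⟨κ, hκ⟩ := fd_pow4 X
      obtain ⟨μ, hμ⟩ : (5 : ℤ) ∣ fd x - fd X := fd_mod ih1
      set g := fd X * fd X * fd X with hg
      have hg1 : g * fd x - 1 = 5 * (κ + g * μ) := by linear_combination hκ + g * hμ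
      rw [pow_succ]
      refine ⟨-A * (κ + g * μ) + A * B * (3 * x * g * g) - A * B * (fc x - c) * g ^ 3, ?_⟩
      have e1 : fc x'' - c = (fc x - c) * (1 - g * fd x) + (fc x - c) * (fc x - c) *
          (3 * x * g * g) - (fc x - c) * (fc x - c) * (fc x - c) * g ^ 3 := by
        rw [hx'']
        unfold fc fd
        ring
      rw [e1]
      linear_combination (-(5 * (κ + g * μ))) * hA - (fc x - c) * hg1 +
        (3 * x * g * g) * ((fc x - c) * hA + 5 ^ e' * A * hB) -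
        g ^ 3 * ((fc x - c) * (fc x - c) * hA + 5 ^ e' * A * (fc x - c) * hB)

/-- the lift is the residue of any solution -/
lemma lift_eq {X c x : ℤ} {j : ℕ} (hj : 1 ≤ j) (hx : 5 ∣ x - X) (h : 5 ^ j ∣ fc x - c) :
    lift X c (5 ^ j) j = x % 5 ^ j := by
  have h5j : (5 : ℤ) ∣ 5 ^ j := dvd_pow_self 5 (by omega)
  have h1 : (5 : ℤ) ∣ fc X - c := by
    have e1 : (5 : ℤ) ∣ fc x - fc X := fc_mod hx
    have e2 := h5j.trans h
    have := dvd_sub e2 e1
    have e : fc x - c - (fc x - fc X) = fc X - c := by ring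
    rwa [e] at this
  obtain ⟨h2, h3⟩ := lift_spec hj h1 j
  have h4 := h3 j (by omega) le_rfl
  have h5 : (5 : ℤ) ^ j ∣ lift X c (5 ^ j) j - x := by
    refine lift_unique h2 hx ?_
    have := dvd_sub h4 h
    have e : fc (lift X c (5 ^ j) j) - c - (fc x - c) = fc (lift X c (5 ^ j) j) - fc x := by ring
    rwa [e] at this
  obtain ⟨h6, h7⟩ := lift_bounds (X := X) (c := c) (t := 5 ^ j) hj
  rw [pm_eq (by positivity)] at h7
  have h9 : lift X c (5 ^ j) j % 5 ^ j = x % 5 ^ j := (Int.modEq_iff_dvd.mpr h5).symm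
  rwa [Int.emod_eq_of_lt h6 h7] at h9

end Pool.Agent.H79.Tet
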