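import Mathlib
import Pool.Agent.H79.Tet.Cand3

/-!
# Existence of good candidates, assembly
-/

namespace Pool.Agent.H79.Tet

lemma M8 {q t : ℤ} (h : t % 2 = 1) : (8 * q - t * t + 4) % 8 = 3 := by
  obtain ⟨k, hk⟩ : ∃ k, t = 2 * k + 1 := ⟨t / 2, by omega⟩
  have e1 : t * t = 4 * (k * (k + 1)) + 1 := by rw [hk]; ring
  obtain ⟨l, hl⟩ : (2 : ℤ) ∣ k * (k + 1) := (Int.even_mul_succ_self k).two_dvd
  rw [e1, hl]
  omega

lemma M_range {n t M F : ℤ} (ht : 0 < t)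
    (hM6 : 6 * t * M = 8 * (6 * n - F) - 6 * (t * t * t) + 24 * t)
    (k4 : 48 * n - 12 * (t * t * t) + 24 * t ≤ 8 * F)
    (k5 : 8 * F < 48 * n - 6 * (t * t * t) + 24 * t) : 0 < M ∧ M ≤ t * t := by
  constructor
  · by_contra hcon
    push Not at hcon
    have : 6 * t * M ≤ 0 := mul_nonpos_of_nonneg_of_nonpos (by linarith) hcon
    linarith
  · by_contra hcon
    push Not at hcon
    have h7 : 6 * t * (t * t) < 6 * t * M := mul_lt_mul_of_pos_left hcon (by linarith)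
    have h8 : 6 * t * (t * t) = 6 * (t * t * t) := by ring
    linarith

lemma M7 {n t M X Y Xs Ys ρ : ℤ} (h7t : ¬ (7 : ℤ) ∣ t)
    (hM6 : 6 * t * M = 8 * (6 * n - X - Y) - 6 * (t * t * t) + 24 * t)
    (f1 : (7 : ℤ) ∣ X - Xs) (f2 : (7 : ℤ) ∣ Y - Ys)
    (g1 : (7 : ℤ) ∣ Xs + Ys - (6 * n + t * t * t + 3 * t + t * ρ)) : 7 ∣ M - ρ := by
  have f3 : (7 : ℤ) ∣ t * (M - ρ) := by
    obtain ⟨z1, hz1⟩ := f1
    obtain ⟨z2, hz2⟩ := f2
    obtain ⟨z3, hz3⟩ := g1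
    refine ⟨t * M + z1 + z2 + z3 - (6 * n - X - Y) + t * t * t - 3 * t, ?_⟩
    have e5 : X + Y - (6 * n + t * t * t + 3 * t + t * ρ) = 7 * (z1 + z2 + z3) := by
      linear_combination hz1 + hz2 + hz3
    linear_combination e5 - hM6
  exact ((by norm_num : Prime (7 : ℤ)).dvd_or_dvd f3).resolve_left h7t

lemma six_dvd_fc (z : ℤ) : 6 ∣ fc z := by
  have hz : fc z = z * z * z - z := rfl
  have h2 : (2 : ℤ) ∣ fc z := by
    rw [hz]
    rcases Int.emod_two_eq_zero_or_one z with h | h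
    · obtain ⟨k, hk⟩ := Int.dvd_of_emod_eq_zero h
      exact ⟨4 * k * k * k - k, by rw [hk]; ring⟩
    · obtain ⟨k, hk⟩ : ∃ k, z = 2 * k + 1 := ⟨z / 2, by omega⟩
      exact ⟨4 * k * k * k + 6 * k * k + 2 * k, by rw [hk]; ring⟩
  have h3 : (3 : ℤ) ∣ fc z := by
    rw [hz]
    rcases (by omega : z % 3 = 0 ∨ z % 3 = 1 ∨ z % 3 = 2) with h | h | h
    · obtain ⟨k, hk⟩ : ∃ k, z = 3 * k := ⟨z / 3, by omega⟩
      exact ⟨9 * k * k * k - k, by rw [hk]; ring⟩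
    · obtain ⟨k, hk⟩ : ∃ k, z = 3 * k + 1 := ⟨z / 3, by omega⟩
      exact ⟨9 * k * k * k + 9 * k * k + 2 * k, by rw [hk]; ring⟩
    · obtain ⟨k, hk⟩ : ∃ k, z = 3 * k + 2 := ⟨z / 3, by omega⟩
      exact ⟨9 * k * k * k + 18 * k * k + 11 * k + 2, by rw [hk]; ring⟩
  omega

lemma toN {z : ℤ} {c : ℕ} (h0 : 0 ≤ z) (h1 : z < c) : z.toNat < c := by omega

lemma v_bounds {A r b β₀ : ℤ} (hA1 : 1 ≤ A) (hA2 : A ≤ 156250) (hr0 : 0 ≤ r) (hr1 : r < 7)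
    (hb0 : 0 ≤ b) (hb1 : b < 7) (hβ1 : 1 ≤ β₀) (hβ4 : β₀ ≤ 4) :
    0 ≤ A + r + b * (15625 - β₀) ∧ A + r + b * (15625 - β₀) < 265625 := by
  have h1 : 0 ≤ b * (15625 - β₀) := mul_nonneg (by omega) (by omega)
  have h2 : b * (15625 - β₀) ≤ 6 * 15625 := mul_le_mul (by omega) (by omega) (by omega) (by norm_num)
  omega

/-- Existence of a good candidate with prescribed residue modulo 7. -/
theorem cand_exists {n : ℤ} {j : ℕ} (hj : 24 ≤ j) (h1 : 125 ^ j ≤ n) (h2 : n < 125 * 125 ^ j)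
    (ρ : ℤ) : ∃ X w v Y : ℕ, X < 5 ∧ w < 11 ∧ v < 265625 ∧ Y < 244140625 ∧ ∃ x y M : ℤ,
      y = Y + 5 ^ (j - 12) * v ∧ x = lift X (6 * n - fc y) (5 ^ j) j + 5 ^ j * w ∧
      M % 8 = 3 ∧ 7 ∣ M - ρ ∧ 0 < M ∧ M ≤ 5 ^ j * 5 ^ j ∧ 0 ≤ x ∧ 0 ≤ y ∧
      6 * 5 ^ j * M = 8 * (6 * n - fc x - fc y) - 6 * (5 ^ j * 5 ^ j * 5 ^ j) + 24 * 5 ^ j := by
  set t : ℤ := 5 ^ j with ht
  set s : ℤ := 5 ^ (j - 12) with hs
  have hts : t = s * 244140625 := by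
    rw [ht, hs, show (244140625 : ℤ) = 5 ^ 12 by norm_num, ← pow_add]
    congr 1
    omega
  have hs12 : 244140625 ≤ s := by
    rw [hs, show (244140625 : ℤ) = 5 ^ 12 by norm_num]
    exact pow_le_pow_right₀ (by norm_num) (by omega)
  have ht3 : t * t * t = 125 ^ j := by
    rw [ht, show (125 : ℤ) = 5 ^ 3 by norm_num, ← pow_mul, ← pow_add, ← pow_add]
    congr 1
    ring
  have hss : t ∣ s * s := by
    rw [ht, hs, ← pow_add]
    exact pow_dvd_pow 5 (by omega)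
  have h5s : (5 : ℤ) ∣ s := by rw [hs]; exact dvd_pow_self 5 (by omega)
  have ht0 : 0 < t := by omega
  have hs0 : 0 < s := by omega
  -- starting values
  obtain ⟨X₀, Y₀, β₀, δ, ⟨hX0, hX5⟩, ⟨hβ1, hβ4⟩, a1, a2, a3⟩ := start5 n 15625 (by norm_num)
  obtain ⟨X₁, Y₁, b1, b2, b3, b4⟩ := hensel2 a1 a2 a3 11
  norm_num only at b3 b4
  -- reduce `Y`
  set Y : ℤ := Y₁ % 244140625 with hY
  have hYmod : (244140625 : ℤ) ∣ Y - Y₁ := by
    have := Int.emod_add_mul_ediv Y₁ 244140625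
    exact ⟨-(Y₁ / 244140625), by rw [hY]; linear_combination this⟩
  have hY0 : 0 ≤ Y := Int.emod_nonneg _ (by norm_num)
  have hY1 : Y < 244140625 := Int.emod_lt_of_pos _ (by norm_num)
  have h512 : (5 : ℤ) ∣ 244140625 := by norm_num
  have c1 : (5 : ℤ) ∣ Y - Y₀ := by
    have := dvd_add (h512.trans hYmod) b2
    rwa [sub_add_sub_cancel] at this
  have c2 : (5 : ℤ) ∣ fc X₀ - (6 * n - fc Y) := by
    have e1 : (5 : ℤ) ∣ fc Y - fc Y₀ := fc_mod c1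
    have := dvd_add a1 e1
    have e : fc X₀ + fc Y₀ - 6 * n + (fc Y - fc Y₀) = fc X₀ - (6 * n - fc Y) := by ring
    rwa [e] at this
  -- the lift
  set x₀ := lift X₀ (6 * n - fc Y) t j with hx₀
  have hj1 : 1 ≤ j := by omega
  obtain ⟨d1, d2⟩ := lift_spec hj1 c2 j
  have d3 := d2 j (by omega) le_rfl
  rw [← ht, ← hx₀] at d1 d3
  obtain ⟨d4, d5⟩ := lift_bounds (X := X₀) (c := 6 * n - fc Y) (t := t) hj1
  rw [pm_eq ht0, ← hx₀] at d5
  rw [← hx₀] at d4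
  have ht512 : (244140625 : ℤ) ∣ t := ⟨s, by rw [hts]; ring⟩
  have e1 : (244140625 : ℤ) ∣ x₀ - X₁ := by
    have h512' : (244140625 : ℤ) = 5 ^ 12 := by norm_num
    rw [h512']
    refine lift_unique d1 b1 ?_
    rw [← h512']
    have f1 : (244140625 : ℤ) ∣ fc x₀ - (6 * n - fc Y) := ht512.trans d3
    have f2 : (244140625 : ℤ) ∣ fc Y - fc Y₁ := fc_mod hYmod
    have := dvd_sub (dvd_sub f1 f2) b3
    have e : fc x₀ - (6 * n - fc Y) - (fc Y - fc Y₁) - (fc X₁ + fc Y₁ - 6 * n) = fc x₀ - fc X₁ := by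
      ring
    rwa [e] at this
  have e2 : (15625 : ℤ) ^ 2 ∣ fd Y + (15625 + β₀) * fd x₀ := by
    norm_num only
    have f1 : (244140625 : ℤ) ∣ fd x₀ - fd X₁ := fd_mod e1
    have f2 : (244140625 : ℤ) ∣ fd Y - fd Y₁ := fd_mod hYmod
    have := dvd_add (dvd_add b4 f2) (Dvd.dvd.mul_left f1 (15625 + β₀))
    have e : fd Y₁ + (15625 + β₀) * fd X₁ + (fd Y - fd Y₁) + (15625 + β₀) * (fd x₀ - fd X₁) =
        fd Y + (15625 + β₀) * fd x₀ := by ring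
    rwa [e] at this
  have e3 : s * 15625 ^ 2 ∣ fc x₀ + fc Y - 6 * n := by
    have : s * 15625 ^ 2 = t := by rw [hts]; norm_num
    rw [this]
    have e : fc x₀ + fc Y - 6 * n = fc x₀ - (6 * n - fc Y) := by ring
    rw [e]
    exact d3
  have e4 : s * 15625 ^ 2 ∣ s * s := by
    have : s * 15625 ^ 2 = t := by rw [hts]; norm_num
    rw [this]
    exact hss
  -- residues modulo 7
  have hσ : ∃ σ, 7 ∣ s * σ - 1 := by
    refine ⟨3 ^ (j - 12), ?_⟩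
    rw [hs, ← mul_pow]
    have h15 : ((5 : ℤ) * 3 - 1) ∣ (5 * 3) ^ (j - 12) - 1 := sub_one_dvd_pow_sub_one _ _
    exact (show (7 : ℤ) ∣ 5 * 3 - 1 by norm_num).trans h15
  have h7t : ¬ (7 : ℤ) ∣ t := by
    rw [ht]
    intro h
    have := (by norm_num : Prime (7 : ℤ)).dvd_of_dvd_pow h
    norm_num at this
  obtain ⟨xs, ys, g1⟩ := res7 (6 * n + t * t * t + 3 * t + t * ρ)
  obtain ⟨as, bs, g2⟩ := lattice7 (β₀ := β₀) (x₀ := x₀) (Y := Y) hσ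
    (by norm_num : (7 : ℤ) ∣ 15625 - 1) xs ys
  obtain ⟨A, hA1, hA2, hwin⟩ := window (n := n) hs12 hts (by rw [ht3]; exact h1)
    (by rw [ht3]; exact h2) d4 d5 hY0 hY1 hβ1 hβ4
  set b := bs % 7 with hb
  set a := A + (as - A) % 7 with ha
  have hb7 : (7 : ℤ) ∣ b - bs := by omega
  have ha7 : (7 : ℤ) ∣ a - as := by omega
  obtain ⟨g3, g4⟩ := g2 a b ha7 hb7
  obtain ⟨k1, k2, k3, k4, k5⟩ := hwin a b (by omega) (by omega) (by omega) (by omega)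
  have hsol := lattice_sol (a := a) (b := b) e3 e2 e4
  set x := x₀ + s * (a * (15625 + β₀) - b * (β₀ * β₀)) with hx
  set y := Y + s * (a + b * (15625 - β₀)) with hy
  have hst2 : s * 15625 ^ 2 = t := by rw [hts]; norm_num
  rw [hst2] at hsol
  -- the number `M`
  have hcop : IsCoprime (6 : ℤ) t := by
    rw [ht]
    refine IsCoprime.pow_right ?_
    exact ⟨1, -1, by norm_num⟩
  obtain ⟨q, hq⟩ : 6 * t ∣ 6 * n - fc x - fc y := by
    refine hcop.mul_dvd ?_ ?_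
    · exact dvd_sub (dvd_sub (dvd_mul_right _ _) (six_dvd_fc x)) (six_dvd_fc y)
    · have := (dvd_neg.mpr hsol)
      have e : -(fc x + fc y - 6 * n) = 6 * n - fc x - fc y := by ring
      rwa [e] at this
  set M : ℤ := 8 * q - t * t + 4 with hM
  have hM6 : 6 * t * M = 8 * (6 * n - fc x - fc y) - 6 * (t * t * t) + 24 * t := by
    rw [hM, hq]; ring
  have htodd : t % 2 = 1 := by
    rw [ht]
    have : Odd ((5 : ℤ) ^ j) := Odd.pow (by decide)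
    exact Int.odd_iff.mp this
  have hM8 : M % 8 = 3 := by rw [hM]; exact M8 htodd
  obtain ⟨hM0, hMt⟩ : 0 < M ∧ M ≤ t * t :=
    M_range (F := fc x + fc y) ht0 (by rw [hM6]; ring) k4 k5
  have hM7 : 7 ∣ M - ρ := M7 h7t hM6 (fc_mod g3) (fc_mod g4) g1
  -- the index
  have hb0 : 0 ≤ bs % 7 := Int.emod_nonneg _ (by norm_num)
  have hb1 : bs % 7 < 7 := Int.emod_lt_of_pos _ (by norm_num)
  have hr0 : 0 ≤ (as - A) % 7 := Int.emod_nonneg _ (by norm_num)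
  have hr1 : (as - A) % 7 < 7 := Int.emod_lt_of_pos _ (by norm_num)
  obtain ⟨hv0, hv1⟩ : 0 ≤ a + b * (15625 - β₀) ∧ a + b * (15625 - β₀) < 265625 :=
    v_bounds hA1 hA2 hr0 hr1 hb0 hb1 hβ1 hβ4
  have hw0 : 0 ≤ x / t := Int.ediv_nonneg k1 ht0.le
  have hw1 : x / t < 11 := by
    rw [Int.ediv_lt_iff_lt_mul ht0]; exact k2
  refine ⟨X₀.toNat, (x / t).toNat, (a + b * (15625 - β₀)).toNat, Y.toNat, toN hX0 hX5,
    toN hw0 hw1, toN hv0 hv1, toN hY0 hY1, x, y, M, ?_, ?_, hM8, hM7, hM0, hMt, k1, k3, ?_⟩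
  · rw [Int.toNat_of_nonneg hY0, Int.toNat_of_nonneg hv0]
  · rw [Int.toNat_of_nonneg hX0, Int.toNat_of_nonneg hw0]
    have f1 : (5 : ℤ) ∣ x - X₀ := by
      have : x - X₀ = (x₀ - X₀) + s * (a * (15625 + β₀) - b * (β₀ * β₀)) := by rw [hx]; ring
      rw [this]
      exact dvd_add d1 (Dvd.dvd.mul_right h5s _)
    have f2 : (5 : ℤ) ^ j ∣ fc x - (6 * n - fc y) := by
      rw [← ht]
      have : fc x - (6 * n - fc y) = fc x + fc y - 6 * n := by ring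
      rw [this]
      exact hsol
    rw [ht, lift_eq hj1 f1 f2, ← ht]
    exact (Int.emod_add_mul_ediv x t).symm
  · exact hM6

end Pool.Agent.H79.Tet
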