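import Mathlib
import Pool.Agent.H79.Tet.Alg5
import Pool.Agent.H79.Tet.Cand4

/-!
# One trial
-/

namespace Pool.Agent.H79.Tet

open Pool.Agent.H7.Comp
open scoped Nat

variable {α β γ δ σ : Type} [Enc α] [Enc β] [Enc γ] [Enc δ] [Enc σ]

/-! ### First success -/

/-- the first nonempty list -/
def firstL (f : ℕ → List β) : ℕ → List β
  | 0 => []
  | m + 1 => if 0 < (firstL f m).length then firstL f m else f m

omit [Enc β] in
lemma firstL_mem (f : ℕ → List β) (m : ℕ) : firstL f m = [] ∨ ∃ i < m, firstL f m = f i ∧ f i ≠ [] := by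
  induction m with
  | zero => left; rfl
  | succ m ih =>
    rw [firstL]
    split_ifs with h
    · rcases ih with h1 | ⟨i, hi, h1, h2⟩
      · left; exact h1
      · right; exact ⟨i, by omega, h1, h2⟩
    · by_cases h2 : f m = []
      · left; exact h2
      · right; exact ⟨m, by omega, rfl, h2⟩

omit [Enc β] in
lemma firstL_ne (f : ℕ → List β) {m i : ℕ} (hi : i < m) (h : f i ≠ []) : firstL f m ≠ [] := by
  induction m with
  | zero => omega
  | succ m ih =>
    rw [firstL]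
    split_ifs with h1
    · intro h2; rw [h2] at h1; simp at h1
    · rcases Nat.lt_succ_iff_lt_or_eq.mp hi with h3 | h3
      · exfalso
        apply h1
        exact List.length_pos_iff.mpr (ih h3)
      · rw [← h3]; exact h

lemma sz_firstL (f : ℕ → List β) (m S : ℕ) (h : ∀ i < m, sz (f i) ≤ S) : sz (firstL f m) ≤ S + 1 := by
  rcases firstL_mem f m with h1 | ⟨i, hi, h1, _⟩
  · rw [h1, sz_nil]; omega
  · rw [h1]; have := h i hi; omega

theorem PT_firstL {f : α → ℕ → List β} {n : α → ℕ} (hn : PT n)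
    (hf : PT (fun p : α × ℕ => f p.1 p.2)) : PT (fun x => firstL (f x) (n x)) := by
  obtain ⟨c, hc⟩ := hf.size
  let M : α → ℕ := fun x => (sz x + (2 * n x + 1) + 1 + 2) ^ c
  have hM : PB M := by
    have h1 : PB (fun x : α => sz x + (2 * n x + 1) + 1) := by
      refine ((PB.self).add ?_).add (PB.const 1)
      exact PB.mono hn.size (fun x => by
        show 2 * n x + 1 ≤ sz (n x)
        rw [sz_nat])
    obtain ⟨d, hd⟩ := h1
    refine ⟨(d + 1) * c, fun x => ?_⟩
    have h3 := base_ge x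
    have h4 : 1 ≤ (sz x + 2) ^ d := Nat.one_le_pow _ _ (by omega)
    have h5 : sz x + (2 * n x + 1) + 1 + 2 ≤ (sz x + 2) ^ (d + 1) := by
      rw [pow_succ]
      have := hd x
      simp only at this
      nlinarith
    rw [pow_mul]
    exact Nat.pow_le_pow_left h5 c
  refine PT.iterClosed (n := n) (fun x i => firstL (f x) i)
    (fun q => if 0 < q.2.2.length then q.2.2 else f q.1 q.2.1) hn ?_ ?_ ?_
    (fun x => M x + 1) ?_ ?_
  · exact (PT.const []).congr (fun x => rfl)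
  · exact PT.ite (PTp.lt (PT.const 0) (PT_length.comp (PT.snd.comp PT.snd)))
      (PT.snd.comp PT.snd) (hf.comp (PT.fst.pair (PT.fst.comp PT.snd)))
  · intro x i _
    rfl
  · exact hM.add (PB.const 1)
  · intro x i hi
    refine sz_firstL _ _ _ (fun j hj => ?_)
    refine (hc (x, j)).trans ?_
    apply Nat.pow_le_pow_left
    rw [sz_pair, sz_nat]
    omega

/-! ### The exponent -/

/-- the exponent of 5 -/
@[irreducible] def jj (n : ℕ) : ℕ := Nat.log 125 n

lemma jj_eq (n : ℕ) : jj n = Nat.log 125 n := by unfold jj; rfl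

lemma log_le_size (n : ℕ) : Nat.log 125 n ≤ n.size := by
  rcases Nat.eq_zero_or_pos n with rfl | hn
  · simp
  · have h1 : 125 ^ Nat.log 125 n ≤ n := Nat.pow_log_le_self 125 hn.ne'
    have h2 : n < 2 ^ n.size := Nat.lt_size_self n
    have h3 : 2 ^ Nat.log 125 n ≤ 125 ^ Nat.log 125 n := Nat.pow_le_pow_left (by norm_num) _
    have h4 : 2 ^ Nat.log 125 n < 2 ^ n.size := by omega
    exact ((Nat.pow_lt_pow_iff_right (by norm_num)).mp h4).le

lemma PT_usize {n : α → ℕ} (hn : PN n) : PT (fun x => (n x).size) :=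
  (PT_isize (f := fun x => (n x : ℤ)) hn).congr (fun x => by rw [Int.natAbs_natCast])

lemma PT_jj {n : α → ℕ} (hn : PN n) : PT (fun x => jj (n x)) := by
  have h : PT (fun x => (fun (x : α) (i : ℕ) => min i (Nat.log 125 (n x))) x (n x).size) := by
    refine PT.iterClosed (fun (x : α) (i : ℕ) => min i (Nat.log 125 (n x)))
      (fun q => if 125 ^ (q.2.1 + 1) ≤ n q.1 then q.2.2 + 1 else q.2.2) (PT_usize hn) ?_ ?_ ?_
      (fun x => 2 * (n x).size + 1) ?_ ?_
    · exact (PT.const 0).congr (fun x => by simp)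
    · refine PT.ite ?_ (PT.succ.comp (PT.snd.comp PT.snd)) (PT.snd.comp PT.snd)
      exact PN.ple ((PN.const 125).pow (PT.succ.comp (PT.fst.comp PT.snd))) (hn.comp PT.fst)
    · intro x i _
      simp only
      rcases Nat.eq_zero_or_pos (n x) with h0 | h0
      · rw [h0]
        simp
      · by_cases h1 : 125 ^ (i + 1) ≤ n x
        · rw [if_pos h1]
          have : i + 1 ≤ Nat.log 125 (n x) := Nat.le_log_of_pow_le (by norm_num) h1
          omega
        · rw [if_neg h1]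
          have : ¬ (i + 1 ≤ Nat.log 125 (n x)) := fun h2 =>
            h1 (Nat.pow_le_of_le_log h0.ne' h2)
          omega
    · exact ((PB.const 2).mul (PT_usize hn).value).add (PB.const 1)
    · intro x i hi
      rw [sz_nat]
      have : min i (Nat.log 125 (n x)) ≤ i := min_le_left _ _
      omega
  refine h.congr (fun x => ?_)
  simp only
  rw [jj_eq]
  exact min_eq_right (log_le_size _)

/-! ### The lift -/

lemma PT_fc {f : α → ℤ} (hf : PT f) : PT (fun x => fc (f x)) :=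
  PT_isub (PT_imul (PT_imul hf hf) hf) hf

lemma PT_fd {f : α → ℤ} (hf : PT f) : PT (fun x => fd (f x)) :=
  PT_isub (PT_imul (PT_imul (PT.const (3 : ℤ)) hf) hf) (PT.const (1 : ℤ))

/-- the lift as a function of all the data -/
@[irreducible] def liftF (q : (ℤ × ℤ × ℤ) × ℕ) : ℤ := lift q.1.1 q.1.2.1 q.1.2.2 q.2

lemma liftF_eq (X c t : ℤ) (i : ℕ) : liftF ((X, c, t), i) = lift X c t i := by unfold liftF; rfl

lemma PT_lift0 : PT (fun q : (ℤ × ℤ × ℤ) × ℕ => lift q.1.1 q.1.2.1 q.1.2.2 q.2) := by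
  have ht : PT (fun q : (ℤ × ℤ × ℤ) × ℕ => pm q.1.2.2) := PT_pm (PT.snd.comp (PT.snd.comp PT.fst))
  have hX : PT (fun q : (ℤ × ℤ × ℤ) × ℕ => q.1.1) := PT.fst.comp PT.fst
  refine PT.iterClosed (fun (q : (ℤ × ℤ × ℤ) × ℕ) (i : ℕ) => lift q.1.1 q.1.2.1 q.1.2.2 i)
    (fun r => liftStep r.1.1.1 r.1.1.2.1 r.1.1.2.2 r.2.2) PT.snd ?_ ?_
    (fun q i _ => lift_succ _ _ _ _)
    (fun q => sz q.1.1 + (4 * (pm q.1.2.2).natAbs.size + 5)) ?_ ?_
  · exact hX.congr (fun q => (lift_zero _ _ _).symm)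
  · have h1 : PT (fun r : ((ℤ × ℤ × ℤ) × ℕ) × ℕ × ℤ => r.1.1.1) :=
      PT.fst.comp (PT.fst.comp PT.fst)
    have h2 : PT (fun r : ((ℤ × ℤ × ℤ) × ℕ) × ℕ × ℤ => r.1.1.2.1) :=
      PT.fst.comp (PT.snd.comp (PT.fst.comp PT.fst))
    have h3 : PT (fun r : ((ℤ × ℤ × ℤ) × ℕ) × ℕ × ℤ => r.1.1.2.2) :=
      PT.snd.comp (PT.snd.comp (PT.fst.comp PT.fst))
    have h4 : PT (fun r : ((ℤ × ℤ × ℤ) × ℕ) × ℕ × ℤ => r.2.2) := PT.snd.comp PT.snd
    have hd := PT_fd h1
    exact PT_imod (PT_isub h4 (PT_imul (PT_imul (PT_imul hd hd) hd) (PT_isub (PT_fc h4) h2)))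
      (PT_pm h3)
  · exact hX.size.add (((PB.const 4).mul (PB_isize ht)).add (PB.const 5))
  · intro q i _
    rcases Nat.eq_zero_or_pos i with rfl | hi
    · rw [lift_zero]; omega
    · obtain ⟨h1, h2⟩ := lift_bounds (X := q.1.1) (c := q.1.2.1) (t := q.1.2.2) hi
      have h3 := sz_int_le (lift q.1.1 q.1.2.1 q.1.2.2 i)
      have h4 := natAbs_size_le h1 h2.le
      omega

lemma PT_liftF : PT liftF := by
  have h := PT_lift0
  refine h.congr (fun p => ?_)
  unfold liftF
  rfl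

/-! ### Candidates -/

/-- number of candidates -/
@[irreducible] def CC : ℕ := 55 * 265625 * 244140625

/-- the second free variable -/
def candY (n i : ℕ) : ℤ := ((i / 55 / 265625 : ℕ) : ℤ) + 5 ^ (jj n - 12) * ((i / 55 % 265625 : ℕ) : ℤ)

/-- the first free variable -/
def candX (n i : ℕ) : ℤ := liftF ((((i % 5 : ℕ) : ℤ), 6 * n - fc (candY n i), 5 ^ jj n), jj n) +
  5 ^ jj n * ((i / 5 % 11 : ℕ) : ℤ)

/-- the number to be written as a sum of three squares -/
def candM (n i : ℕ) : ℤ := (8 * (6 * n - fc (candX n i) - fc (candY n i)) -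
  6 * (5 ^ jj n * 5 ^ jj n * 5 ^ jj n) + 24 * 5 ^ jj n) / (6 * 5 ^ jj n)

lemma PT_candY {n i : α → ℕ} (hn : PN n) (hi : PT i) : PT (fun x => candY (n x) (i x)) :=
  PT_iadd (PT_cast ((hi.div (PT.const 55)).div (PT.const 265625)))
    (PT_imul (PT_ipow (PT.const (5 : ℤ)) ((PT_jj hn).sub (PT.const 12)))
      (PT_cast ((hi.div (PT.const 55)).mod (PT.const 265625))))

lemma PT_candX {n i : α → ℕ} (hn : PN n) (hi : PT i) : PT (fun x => candX (n x) (i x)) := by
  have hj := PT_jj hn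
  have ht := PT_ipow (PT.const (5 : ℤ)) hj
  have hc := PT_isub (PT_imul (PT.const (6 : ℤ)) hn) (PT_fc (PT_candY hn hi))
  exact PT_iadd (PT_liftF.comp (((PT_cast (hi.mod (PT.const 5))).pair (hc.pair ht)).pair hj))
    (PT_imul ht (PT_cast ((hi.div (PT.const 5)).mod (PT.const 11))))

lemma PT_candM {n i : α → ℕ} (hn : PN n) (hi : PT i) : PT (fun x => candM (n x) (i x)) := by
  have ht := PT_ipow (PT.const (5 : ℤ)) (PT_jj hn)
  exact PT_idiv (PT_iadd (PT_isub (PT_imul (PT.const (8 : ℤ)) (PT_isub (PT_isub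
    (PT_imul (PT.const (6 : ℤ)) hn) (PT_fc (PT_candX hn hi))) (PT_fc (PT_candY hn hi))))
    (PT_imul (PT.const (6 : ℤ)) (PT_imul (PT_imul ht ht) ht))) (PT_imul (PT.const (24 : ℤ)) ht))
    (PT_imul (PT.const (6 : ℤ)) ht)

end Pool.Agent.H79.Tet
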