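import Mathlib
import Pool.Agent.H79.Tet.Alg6

/-!
# Output and verification
-/

namespace Pool.Agent.H79.Tet

open Pool.Agent.H7.Comp
open scoped Nat

variable {α β γ δ σ : Type} [Enc α] [Enc β] [Enc γ] [Enc δ] [Enc σ]

/-- The tetrahedral numbers. -/
def tetra (m : ℕ) : ℕ := m * (m + 1) * (m + 2) / 6

lemma six_tetra (m : ℕ) : 6 * tetra m = m * (m + 1) * (m + 2) := by
  unfold tetra
  have h : 6 ∣ m * (m + 1) * (m + 2) := by
    have h2 : 2 ∣ m * (m + 1) * (m + 2) :=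
      Dvd.dvd.mul_right (Nat.even_mul_succ_self m).two_dvd _
    have h3 : 3 ∣ m * (m + 1) * (m + 2) := by
      rcases (by omega : m % 3 = 0 ∨ m % 3 = 1 ∨ m % 3 = 2) with h | h | h
      · exact Dvd.dvd.mul_right (Dvd.dvd.mul_right (Nat.dvd_of_mod_eq_zero h) _) _
      · exact Dvd.dvd.mul_left (by omega) _
      · exact Dvd.dvd.mul_right (Dvd.dvd.mul_left (by omega) _) _
    omega
  omega

/-- `l` is a representation of `n` by at most eight tetrahedral numbers -/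
def IsRep (n : ℕ) (l : List ℕ) : Prop :=
  1 ≤ l.length ∧ l.length ≤ 8 ∧ (∀ m ∈ l, 1 ≤ m) ∧ (l.map tetra).sum = n

/-- the values of a list of binary numbers -/
def vals (l : List Bn) : List ℕ := l.map Bn.v

lemma enc_vals (l : List Bn) : enc l = enc ((vals l).map Nat.bits) := by
  induction l with
  | nil => rfl
  | cons a l ih =>
    show Tr.node (enc a) (enc l) = Tr.node (enc (Nat.bits a.v)) (enc ((vals l).map Nat.bits))
    rw [ih]
    rfl

/-- put a value in front of the output list -/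
def pc (v : ℤ) (l : List Bn) : List Bn := if 2 ≤ v then ⟨(v - 1).natAbs⟩ :: l else l

lemma PT_pc {v : α → ℤ} {l : α → List Bn} (hv : PT v) (hl : PT l) :
    PT (fun x => pc (v x) (l x)) :=
  PT.ite (PTp_ile (PT.const (2 : ℤ)) hv) (PT.cons (PT_abs.comp (PT_isub hv (PT.const (1 : ℤ)))) hl) hl

lemma pc_sum {v : ℤ} (hv : 0 ≤ v) (l : List Bn) :
    6 * (((vals (pc v l)).map tetra).sum : ℤ) = fc v + 6 * (((vals l).map tetra).sum : ℤ) := by
  unfold pc
  split_ifs with h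
  · have h1 : vals (⟨(v - 1).natAbs⟩ :: l) = (v - 1).natAbs :: vals l := rfl
    rw [h1, List.map_cons, List.sum_cons]
    push_cast
    have h2 := six_tetra (v - 1).natAbs
    have h3 : (6 : ℤ) * (tetra (v - 1).natAbs : ℤ) = ((v - 1).natAbs : ℤ) *
        (((v - 1).natAbs : ℤ) + 1) * (((v - 1).natAbs : ℤ) + 2) := by exact_mod_cast h2
    have h4 : ((v - 1).natAbs : ℤ) = v - 1 := Int.natAbs_of_nonneg (by omega)
    rw [h4] at h3
    unfold fc
    linear_combination h3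
  · have : v = 0 ∨ v = 1 := by omega
    rcases this with rfl | rfl <;> simp [fc]

lemma pc_pos {v : ℤ} {l : List Bn} (h : ∀ m ∈ vals l, 1 ≤ m) : ∀ m ∈ vals (pc v l), 1 ≤ m := by
  unfold pc
  split_ifs with h1
  · intro m hm
    have h2 : vals (⟨(v - 1).natAbs⟩ :: l) = (v - 1).natAbs :: vals l := rfl
    rw [h2, List.mem_cons] at hm
    rcases hm with rfl | hm
    · omega
    · exact h m hm
  · exact h

lemma pc_len (v : ℤ) (l : List Bn) : (vals (pc v l)).length ≤ (vals l).length + 1 := by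
  unfold pc
  split_ifs
  · have h2 : vals (⟨(v - 1).natAbs⟩ :: l) = (v - 1).natAbs :: vals l := rfl
    rw [h2, List.length_cons]
  · omega

/-- the eight values from `x`, `y`, `t` and three squares -/
def out8 (x y t u v w : ℤ) : List Bn :=
  pc x (pc y (pc ((t + u) / 2) (pc ((t - u) / 2) (pc ((t + v) / 2) (pc ((t - v) / 2)
    (pc ((t + w) / 2) (pc ((t - w) / 2) [])))))))

/-- verification -/
def chk8 (n : ℕ) (x y t u v w : ℤ) : Prop :=
  ((0 ≤ x ∧ 0 ≤ y) ∧ ((0 ≤ (t + u) / 2 ∧ 0 ≤ (t - u) / 2) ∧ ((0 ≤ (t + v) / 2 ∧ 0 ≤ (t - v) / 2) ∧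
    (0 ≤ (t + w) / 2 ∧ 0 ≤ (t - w) / 2)))) ∧
  fc x + (fc y + (fc ((t + u) / 2) + (fc ((t - u) / 2) + (fc ((t + v) / 2) + (fc ((t - v) / 2) +
    (fc ((t + w) / 2) + fc ((t - w) / 2))))))) = 6 * n

instance (n : ℕ) (x y t u v w : ℤ) : Decidable (chk8 n x y t u v w) := by
  unfold chk8; infer_instance

/-- verified output -/
def res8 (n : ℕ) (x y t u v w : ℤ) : List Bn :=
  if chk8 n x y t u v w then out8 x y t u v w else []

lemma res8_spec {n : ℕ} {x y t u v w : ℤ} (h : res8 n x y t u v w ≠ []) :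
    IsRep n (vals (res8 n x y t u v w)) := by
  unfold res8 at h ⊢
  split_ifs at h ⊢ with hc
  · obtain ⟨⟨⟨h1, h2⟩, ⟨h3, h4⟩, ⟨h5, h6⟩, ⟨h7, h8⟩⟩, hsum⟩ := hc
    refine ⟨?_, ?_, ?_, ?_⟩
    · unfold vals
      rw [List.length_map]
      exact List.length_pos_iff.mpr h
    · unfold out8
      have e0 : (vals ([] : List Bn)).length = 0 := rfl
      have e1 := pc_len ((t - w) / 2) []
      have e2 := pc_len ((t + w) / 2) (pc ((t - w) / 2) [])
      have e3 := pc_len ((t - v) / 2) (pc ((t + w) / 2) (pc ((t - w) / 2) []))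
      have e4 := pc_len ((t + v) / 2) (pc ((t - v) / 2) (pc ((t + w) / 2) (pc ((t - w) / 2) [])))
      have e5 := pc_len ((t - u) / 2) (pc ((t + v) / 2) (pc ((t - v) / 2) (pc ((t + w) / 2)
        (pc ((t - w) / 2) []))))
      have e6 := pc_len ((t + u) / 2) (pc ((t - u) / 2) (pc ((t + v) / 2) (pc ((t - v) / 2)
        (pc ((t + w) / 2) (pc ((t - w) / 2) [])))))
      have e7 := pc_len y (pc ((t + u) / 2) (pc ((t - u) / 2) (pc ((t + v) / 2) (pc ((t - v) / 2)
        (pc ((t + w) / 2) (pc ((t - w) / 2) []))))))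
      have e8 := pc_len x (pc y (pc ((t + u) / 2) (pc ((t - u) / 2) (pc ((t + v) / 2)
        (pc ((t - v) / 2) (pc ((t + w) / 2) (pc ((t - w) / 2) [])))))))
      omega
    · unfold out8
      have e0 : ∀ m ∈ vals ([] : List Bn), 1 ≤ m := by intro m hm; simp [vals] at hm
      exact pc_pos (pc_pos (pc_pos (pc_pos (pc_pos (pc_pos (pc_pos (pc_pos e0)))))))
    · have h9 : 6 * (((vals (out8 x y t u v w)).map tetra).sum : ℤ) = 6 * n := by
        unfold out8
        rw [pc_sum h1, pc_sum h2, pc_sum h3, pc_sum h4, pc_sum h5, pc_sum h6, pc_sum h7, pc_sum h8]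
        have e0 : (((vals ([] : List Bn)).map tetra).sum : ℤ) = 0 := rfl
        rw [e0]
        linarith
      have h10 : (((vals (out8 x y t u v w)).map tetra).sum : ℤ) = n := by linarith
      exact_mod_cast h10
  · exact absurd rfl h

lemma res8_ne {n : ℕ} (hn : 0 < n) {x y t u v w : ℤ} (h : chk8 n x y t u v w) :
    res8 n x y t u v w ≠ [] := by
  unfold res8
  rw [if_pos h]
  obtain ⟨⟨⟨h1, h2⟩, ⟨h3, h4⟩, ⟨h5, h6⟩, ⟨h7, h8⟩⟩, hsum⟩ := h
  intro hnil
  have h9 : 6 * (((vals (out8 x y t u v w)).map tetra).sum : ℤ) = 6 * n := by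
    unfold out8
    rw [pc_sum h1, pc_sum h2, pc_sum h3, pc_sum h4, pc_sum h5, pc_sum h6, pc_sum h7, pc_sum h8]
    have e0 : (((vals ([] : List Bn)).map tetra).sum : ℤ) = 0 := rfl
    rw [e0]
    linarith
  rw [hnil] at h9
  have e0 : (((vals ([] : List Bn)).map tetra).sum : ℤ) = 0 := rfl
  rw [e0] at h9
  have : (0 : ℤ) < n := by exact_mod_cast hn
  linarith

lemma sq_mod8 (z : ℤ) : z * z % 8 = 0 ∨ z * z % 8 = 1 ∨ z * z % 8 = 4 := by
  have h : z % 8 = 0 ∨ z % 8 = 1 ∨ z % 8 = 2 ∨ z % 8 = 3 ∨ z % 8 = 4 ∨ z % 8 = 5 ∨ z % 8 = 6 ∨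
      z % 8 = 7 := by omega
  rw [Int.mul_emod]
  rcases h with h | h | h | h | h | h | h | h <;> rw [h] <;> norm_num

lemma odd_of_sq8 {z : ℤ} (h : z * z % 8 = 1) : z % 2 = 1 := by
  rcases Int.emod_two_eq_zero_or_one z with h1 | h1
  · exfalso
    obtain ⟨k, hk⟩ := Int.dvd_of_emod_eq_zero h1
    have : z * z = 4 * (k * k) := by rw [hk]; ring
    omega
  · exact h1

lemma fc_pair {t u : ℤ} (ht : t % 2 = 1) (hu : u % 2 = 1) :
    4 * (fc ((t + u) / 2) + fc ((t - u) / 2)) = t * t * t + 3 * t * (u * u) - 4 * t := by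
  obtain ⟨a, ha⟩ : ∃ a, (t + u) = 2 * a := ⟨(t + u) / 2, by omega⟩
  obtain ⟨b, hb⟩ : ∃ b, (t - u) = 2 * b := ⟨(t - u) / 2, by omega⟩
  have e1 : (t + u) / 2 = a := by omega
  have e2 : (t - u) / 2 = b := by omega
  have e3 : t = a + b := by omega
  have e4 : u = a - b := by omega
  rw [e1, e2, e3, e4]
  unfold fc
  ring

/-- The check succeeds for a sum of three squares. -/
lemma chk8_of {n : ℕ} {x y t u v w M : ℤ} (hx : 0 ≤ x) (hy : 0 ≤ y) (ht : t % 2 = 1) (ht0 : 0 < t)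
    (hM : M % 8 = 3) (hMt : M ≤ t * t) (hsq : u * u + v * v + w * w = M)
    (h : 6 * t * M = 8 * (6 * n - fc x - fc y) - 6 * (t * t * t) + 24 * t) :
    chk8 n x y t u v w := by
  have hu := sq_mod8 u
  have hv := sq_mod8 v
  have hw := sq_mod8 w
  have hu1 : u * u % 8 = 1 := by omega
  have hv1 : v * v % 8 = 1 := by omega
  have hw1 : w * w % 8 = 1 := by omega
  have ou := odd_of_sq8 hu1
  have ov := odd_of_sq8 hv1
  have ow := odd_of_sq8 hw1
  have key : ∀ z : ℤ, z * z ≤ t * t → -t ≤ z ∧ z ≤ t := by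
    intro z hz
    exact ⟨by nlinarith, by nlinarith⟩
  have mu := mul_self_nonneg u
  have mv := mul_self_nonneg v
  have mw := mul_self_nonneg w
  obtain ⟨u1, u2⟩ := key u (by linarith)
  obtain ⟨v1, v2⟩ := key v (by linarith)
  obtain ⟨w1, w2⟩ := key w (by linarith)
  have p1 := fc_pair ht ou
  have p2 := fc_pair ht ov
  have p3 := fc_pair ht ow
  refine ⟨⟨⟨hx, hy⟩, ⟨?_, ?_⟩, ⟨?_, ?_⟩, ⟨?_, ?_⟩⟩, ?_⟩
  · clear * - u1; omega
  · clear * - u2; omega
  · clear * - v1; omega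
  · clear * - v2; omega
  · clear * - w1; omega
  · clear * - w2; omega
  · have e : 3 * t * M = 3 * t * (u * u) + 3 * t * (v * v) + 3 * t * (w * w) := by
      rw [← hsq]; ring
    linarith

/-! ### Polynomial time -/

lemma PT_res8 {n : α → ℕ} {x y t u v w : α → ℤ} (hn : PN n) (hx : PT x) (hy : PT y) (ht : PT t)
    (hu : PT u) (hv : PT v) (hw : PT w) :
    PT (fun z => res8 (n z) (x z) (y z) (t z) (u z) (v z) (w z)) := by
  have c2 : PT (fun _ : α => (2 : ℤ)) := PT.const 2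
  have h1 := PT_idiv (PT_iadd ht hu) c2
  have h2 := PT_idiv (PT_isub ht hu) c2
  have h3 := PT_idiv (PT_iadd ht hv) c2
  have h4 := PT_idiv (PT_isub ht hv) c2
  have h5 := PT_idiv (PT_iadd ht hw) c2
  have h6 := PT_idiv (PT_isub ht hw) c2
  have z : ∀ {f : α → ℤ}, PT f → PTp (fun x => 0 ≤ f x) := fun hf => PTp_ile (PT.const (0 : ℤ)) hf
  have hc : PTp (fun q => chk8 (n q) (x q) (y q) (t q) (u q) (v q) (w q)) :=
    (((z hx).and (z hy)).and (((z h1).and (z h2)).and (((z h3).and (z h4)).and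
      ((z h5).and (z h6))))).and (PTp_ieq (PT_iadd (PT_fc hx) (PT_iadd (PT_fc hy) (PT_iadd (PT_fc h1)
      (PT_iadd (PT_fc h2) (PT_iadd (PT_fc h3) (PT_iadd (PT_fc h4) (PT_iadd (PT_fc h5)
      (PT_fc h6)))))))) (PT_imul (PT.const (6 : ℤ)) hn))
  exact PT.ite hc (PT_pc hx (PT_pc hy (PT_pc h1 (PT_pc h2 (PT_pc h3 (PT_pc h4 (PT_pc h5 (PT_pc h6
    (PT.const ([] : List Bn)))))))))) (PT.const ([] : List Bn))

/-- the attempt with candidate `i` -/
def tryI (Λ n V i : ℕ) : List Bn :=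
  res8 n (candX n i) (candY n i) (5 ^ jj n) (att Λ (candM n i) V).u (att Λ (candM n i) V).v
    (att Λ (candM n i) V).w

lemma PT_tryI {f n V i : α → ℕ} (hf : PT f) (hn : PN n) (hV : PN V) (hi : PT i) :
    PT (fun x => tryI (f x) (n x) (V x) (i x)) := by
  have ha := PT_att hf (PT_candM hn hi) hV
  exact PT_res8 hn (PT_candX hn hi) (PT_candY hn hi) (PT_ipow (PT.const (5 : ℤ)) (PT_jj hn))
    (PT_u ha) (PT_v ha) (PT_w ha)

/-- one trial -/
def trial (Λ n V : ℕ) : List Bn := firstL (tryI Λ n V) CC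

lemma PT_trial {f n V : α → ℕ} (hf : PT f) (hn : PN n) (hV : PN V) :
    PT (fun x => trial (f x) (n x) (V x)) :=
  PT_firstL (f := fun x i => tryI (f x) (n x) (V x) i) (PT.const CC)
    (PT_tryI (hf.comp PT.fst) (hn.comp PT.fst) (hV.comp PT.fst) PT.snd)

lemma trial_spec {Λ n V : ℕ} (h : trial Λ n V ≠ []) : IsRep n (vals (trial Λ n V)) := by
  rcases firstL_mem (tryI Λ n V) CC with h1 | ⟨i, _, h1, h2⟩
  · exact absurd h1 h
  · unfold trial
    rw [h1]
    exact res8_spec h2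

end Pool.Agent.H79.Tet
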