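import Mathlib
import Pool.Agent.H79.Tet.Alg7

/-!
# Exhaustive search
-/

namespace Pool.Agent.H79.Tet

open Pool.Agent.H7.Comp
open scoped Nat

variable {α β γ δ σ : Type} [Enc α] [Enc β] [Enc γ] [Enc δ] [Enc σ]

/-- digit of an index -/
def dgt (b i j : ℕ) : ℕ := i / b ^ j % b

lemma exists_index (b k : ℕ) (f : ℕ → ℕ) (hf : ∀ j < k, f j < b) :
    ∃ i < b ^ k, ∀ j < k, dgt b i j = f j := by
  induction k with
  | zero => exact ⟨0, by simp, fun j hj => by omega⟩
  | succ k ih =>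
    obtain ⟨i, hi, h⟩ := ih (fun j hj => hf j (by omega))
    have hb : 0 < b := by have := hf k (by omega); omega
    have hbk : 0 < b ^ k := by positivity
    refine ⟨i + b ^ k * f k, ?_, fun j hj => ?_⟩
    · have := hf k (by omega)
      rw [pow_succ]
      calc i + b ^ k * f k < b ^ k + b ^ k * f k := by omega
        _ = b ^ k * (f k + 1) := by ring
        _ ≤ b ^ k * b := Nat.mul_le_mul_left _ this
    · unfold dgt
      rcases Nat.lt_succ_iff_lt_or_eq.mp hj with h3 | h3
      · have e : b ^ k = b ^ j * (b * b ^ (k - j - 1)) := by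
          rw [← pow_succ', ← pow_add]; congr 1; omega
        rw [e, mul_assoc, Nat.add_mul_div_left _ _ (by positivity), mul_assoc,
          Nat.add_mul_mod_self_left]
        exact h j h3
      · subst h3
        rw [Nat.add_mul_div_left _ _ hbk, Nat.div_eq_of_lt hi, zero_add,
          Nat.mod_eq_of_lt (hf j (by omega))]

lemma sum_getD (f : ℕ → ℕ) (hf : f 0 = 0) (l : List ℕ) (k : ℕ) (h : l.length ≤ k) :
    ∑ j ∈ Finset.range k, f (l.getD j 0) = (l.map f).sum := by
  induction l generalizing k with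
  | nil => simp [hf]
  | cons a l ih =>
    rw [List.length_cons] at h
    obtain ⟨k', rfl⟩ : ∃ k', k = k' + 1 := ⟨k - 1, by omega⟩
    rw [Finset.sum_range_succ']
    simp only [List.getD_cons_succ, List.getD_cons_zero, List.map_cons, List.sum_cons]
    rw [ih k' (by omega)]
    ring

/-- output for eight values -/
def outG (b i : ℕ) : List Bn :=
  pc (dgt b i 0) (pc (dgt b i 1) (pc (dgt b i 2) (pc (dgt b i 3) (pc (dgt b i 4) (pc (dgt b i 5)
    (pc (dgt b i 6) (pc (dgt b i 7) [])))))))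

/-- the check -/
def chkG (n b i : ℕ) : Prop :=
  fc (dgt b i 0) + (fc (dgt b i 1) + (fc (dgt b i 2) + (fc (dgt b i 3) + (fc (dgt b i 4) +
    (fc (dgt b i 5) + (fc (dgt b i 6) + fc (dgt b i 7))))))) = 6 * n

instance (n b i : ℕ) : Decidable (chkG n b i) := by unfold chkG; infer_instance

/-- verified output -/
def resG (n b i : ℕ) : List Bn := if chkG n b i then outG b i else []

lemma outG_sum (b i : ℕ) : 6 * (((vals (outG b i)).map tetra).sum : ℤ) =
    fc (dgt b i 0) + (fc (dgt b i 1) + (fc (dgt b i 2) + (fc (dgt b i 3) + (fc (dgt b i 4) +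
    (fc (dgt b i 5) + (fc (dgt b i 6) + fc (dgt b i 7))))))) := by
  have z : ∀ j, (0 : ℤ) ≤ ((dgt b i j : ℕ) : ℤ) := fun j => by positivity
  unfold outG
  rw [pc_sum (z 0), pc_sum (z 1), pc_sum (z 2), pc_sum (z 3), pc_sum (z 4), pc_sum (z 5),
    pc_sum (z 6), pc_sum (z 7)]
  have e0 : (((vals ([] : List Bn)).map tetra).sum : ℤ) = 0 := rfl
  rw [e0]
  ring

lemma resG_spec {n b i : ℕ} (h : resG n b i ≠ []) : IsRep n (vals (resG n b i)) := by
  unfold resG at h ⊢
  split_ifs at h ⊢ with hc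
  · refine ⟨?_, ?_, ?_, ?_⟩
    · unfold vals
      rw [List.length_map]
      exact List.length_pos_iff.mpr h
    · unfold outG
      have key : ∀ (v : ℤ) (l : List Bn) (k : ℕ), (vals l).length ≤ k →
          (vals (pc v l)).length ≤ k + 1 := fun v l k hk => (pc_len v l).trans (by omega)
      exact key _ _ 7 (key _ _ 6 (key _ _ 5 (key _ _ 4 (key _ _ 3 (key _ _ 2 (key _ _ 1
        (key _ _ 0 (le_refl _))))))))
    · unfold outG
      have e0 : ∀ m ∈ vals ([] : List Bn), 1 ≤ m := by intro m hm; simp [vals] at hm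
      exact pc_pos (pc_pos (pc_pos (pc_pos (pc_pos (pc_pos (pc_pos (pc_pos e0)))))))
    · have h1 := outG_sum b i
      unfold chkG at hc
      rw [hc] at h1
      have h10 : (((vals (outG b i)).map tetra).sum : ℤ) = n := by linarith
      exact_mod_cast h10
  · exact absurd rfl h

lemma resG_ne {n b i : ℕ} (hn : 0 < n) (hc : chkG n b i) : resG n b i ≠ [] := by
  unfold resG
  rw [if_pos hc]
  intro hnil
  have h1 := outG_sum b i
  unfold chkG at hc
  rw [hc, hnil] at h1
  have e0 : (((vals ([] : List Bn)).map tetra).sum : ℤ) = 0 := rfl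
  rw [e0] at h1
  have : (0 : ℤ) < n := by exact_mod_cast hn
  linarith

/-- exhaustive search -/
def fb (N n : ℕ) : List Bn := firstL (resG n (N + 2)) ((N + 2) ^ 8)

lemma fb_spec {N n : ℕ} (h : fb N n ≠ []) : IsRep n (vals (fb N n)) := by
  rcases firstL_mem (resG n (N + 2)) ((N + 2) ^ 8) with h1 | ⟨i, _, h1, h2⟩
  · exact absurd h1 h
  · unfold fb
    rw [h1]
    exact resG_spec h2

lemma le_tetra (m : ℕ) : m ≤ tetra m := by
  have h := six_tetra m
  have : 6 * m ≤ m * (m + 1) * (m + 2) := by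
    rcases Nat.eq_zero_or_pos m with rfl | hm
    · simp
    · have h1 : 2 * 3 ≤ (m + 1) * (m + 2) := Nat.mul_le_mul (by omega) (by omega)
      calc 6 * m = m * (2 * 3) := by ring
        _ ≤ m * ((m + 1) * (m + 2)) := Nat.mul_le_mul_left _ h1
        _ = _ := by ring
  omega

lemma fb_ne {N n : ℕ} (hn : 0 < n) (hN : n ≤ N) {l : List ℕ} (hl : IsRep n l) : fb N n ≠ [] := by
  obtain ⟨h1, h2, h3, h4⟩ := hl
  have hle : ∀ m ∈ l, m ≤ n := by
    intro m hm
    have h5 : tetra m ≤ (l.map tetra).sum := by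
      apply List.single_le_sum (fun _ _ => Nat.zero_le _)
      exact List.mem_map_of_mem hm
    have := le_tetra m
    omega
  have hget : ∀ j, l.getD j 0 ≤ n := by
    intro j
    by_cases hj : j < l.length
    · rw [List.getD_eq_getElem _ _ hj]
      exact hle _ (List.getElem_mem hj)
    · rw [List.getD_eq_default _ _ (by omega)]
      omega
  obtain ⟨i, hi, hdg⟩ := exists_index (N + 2) 8 (fun j => l.getD j 0 + 1) (fun j _ => by
    have := hget j; show l.getD j 0 + 1 < N + 2; omega)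
  refine firstL_ne _ hi (resG_ne hn ?_)
  have hsum := sum_getD tetra rfl l 8 h2
  rw [h4] at hsum
  have hfc : ∀ j < 8, fc (dgt (N + 2) i j) = 6 * (tetra (l.getD j 0) : ℤ) := by
    intro j hj
    rw [hdg j hj]
    have h5 := six_tetra (l.getD j 0)
    have h6 : (6 : ℤ) * (tetra (l.getD j 0) : ℤ) = ((l.getD j 0 : ℕ) : ℤ) *
        (((l.getD j 0 : ℕ) : ℤ) + 1) * (((l.getD j 0 : ℕ) : ℤ) + 2) := by exact_mod_cast h5
    rw [h6]
    push_cast
    unfold fc
    ring
  unfold chkG
  rw [hfc 0 (by norm_num), hfc 1 (by norm_num), hfc 2 (by norm_num), hfc 3 (by norm_num),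
    hfc 4 (by norm_num), hfc 5 (by norm_num), hfc 6 (by norm_num), hfc 7 (by norm_num)]
  have h7 : (∑ j ∈ Finset.range 8, (tetra (l.getD j 0) : ℤ)) = n := by exact_mod_cast hsum
  simp only [Finset.sum_range_succ, Finset.sum_range_zero] at h7
  linarith

/-! ### Polynomial time in the unary size -/

lemma PT_dgt {b i : α → ℕ} (hb : PT b) (hi : PT i) (j : ℕ) : PT (fun x => dgt (b x) (i x) j) :=
  (hi.div (PT_upow hb j)).mod hb

lemma PT_resG {n b i : α → ℕ} (hn : PN n) (hb : PT b) (hi : PT i) :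
    PT (fun x => resG (n x) (b x) (i x)) := by
  have d : ∀ j, PT (fun x => ((dgt (b x) (i x) j : ℕ) : ℤ)) := fun j => PT_cast (PT_dgt hb hi j)
  have s6 := PT_iadd (PT_fc (d 6)) (PT_fc (d 7))
  have s5 := PT_iadd (PT_fc (d 5)) s6
  have s4 := PT_iadd (PT_fc (d 4)) s5
  have s3 := PT_iadd (PT_fc (d 3)) s4
  have s2 := PT_iadd (PT_fc (d 2)) s3
  have s1 := PT_iadd (PT_fc (d 1)) s2
  have s0 := PT_iadd (PT_fc (d 0)) s1
  have hc : PTp (fun x => chkG (n x) (b x) (i x)) := PTp_ieq s0 (PT_imul (PT.const (6 : ℤ)) hn)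
  have o7 := PT_pc (d 7) (PT.const ([] : List Bn))
  have o6 := PT_pc (d 6) o7
  have o5 := PT_pc (d 5) o6
  have o4 := PT_pc (d 4) o5
  have o3 := PT_pc (d 3) o4
  have o2 := PT_pc (d 2) o3
  have o1 := PT_pc (d 1) o2
  have o0 := PT_pc (d 0) o1
  exact PT.ite hc o0 (PT.const ([] : List Bn))

lemma PT_fb : PT (fun x : Bn × ℕ => fb x.2 x.1.v) := by
  have h2 : PT (fun x : Bn × ℕ => x.2 + 2) := PT.snd.add (PT.const 2)
  refine PT_firstL (f := fun (x : Bn × ℕ) i => resG x.1.v (x.2 + 2) i) (PT_upow h2 8) ?_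
  exact PT_resG (PN.bn (PT.fst.comp PT.fst)) (h2.comp PT.fst) PT.snd

end Pool.Agent.H79.Tet
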