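import Mathlib

/-!
# Prime sums of Dirichlet characters at `1 + δ`

Elementary upper bounds for `∑ p, Re χ(p) p^{-σ}`.
-/

namespace Pool.Agent.H79.Tet

open Complex Finset

/-- `∑_p Re χ(p) p^{-σ}`. -/
noncomputable def PS {N : ℕ} (χ : DirichletCharacter ℂ N) (σ : ℝ) : ℝ :=
  ∑' p : Nat.Primes, (χ (p : ℕ)).re * ((p : ℕ) : ℝ) ^ (-σ)

/-- `∑_p p^{-σ}`. -/
noncomputable def P0 (σ : ℝ) : ℝ := ∑' p : Nat.Primes, ((p : ℕ) : ℝ) ^ (-σ)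

lemma summable_P0 {σ : ℝ} (hσ : 1 < σ) : Summable (fun p : Nat.Primes => ((p : ℕ) : ℝ) ^ (-σ)) :=
  Nat.Primes.summable_rpow.mpr (by linarith)

lemma re_le_one {N : ℕ} (χ : DirichletCharacter ℂ N) (a : ZMod N) : |(χ a).re| ≤ 1 :=
  (abs_re_le_norm _).trans (χ.norm_le_one a)

lemma summable_PS {N : ℕ} (χ : DirichletCharacter ℂ N) {σ : ℝ} (hσ : 1 < σ) :
    Summable (fun p : Nat.Primes => (χ (p : ℕ)).re * ((p : ℕ) : ℝ) ^ (-σ)) := by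
  refine Summable.of_norm_bounded (summable_P0 hσ) (fun p => ?_)
  rw [norm_mul]
  have h1 := re_le_one χ ((p : ℕ) : ZMod N)
  have h2 : (0 : ℝ) ≤ ((p : ℕ) : ℝ) ^ (-σ) := Real.rpow_nonneg (by positivity) _
  rw [Real.norm_of_nonneg h2, Real.norm_eq_abs]
  nlinarith

lemma re_log_ge {z : ℂ} (hz : ‖z‖ ≤ 1 / 2) : z.re - ‖z‖ ^ 2 ≤ (-log (1 - z)).re := by
  have h1 : ‖-z‖ < 1 := by rw [norm_neg]; linarith
  have h2 := norm_log_one_add_sub_self_le h1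
  rw [norm_neg] at h2
  have h3 : ‖log (1 + -z) - -z‖ ≤ ‖z‖ ^ 2 := by
    refine h2.trans ?_
    have h4 : (1 - ‖z‖)⁻¹ ≤ 2 := by
      rw [inv_le_comm₀ (by linarith) (by norm_num)]
      linarith
    have h5 : 0 ≤ ‖z‖ ^ 2 := by positivity
    nlinarith
  have h6 : |(log (1 + -z) - -z).re| ≤ ‖z‖ ^ 2 := (abs_re_le_norm _).trans h3
  have h7 := abs_le.mp h6
  have e : (1 : ℂ) - z = 1 + -z := sub_eq_add_neg _ _
  rw [e]
  simp only [sub_re, neg_re] at h7 ⊢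
  linarith [h7.2]

lemma re_log_le {z : ℂ} (hz : ‖z‖ ≤ 1 / 2) : (-log (1 - z)).re ≤ z.re + ‖z‖ ^ 2 := by
  have h1 : ‖-z‖ < 1 := by rw [norm_neg]; linarith
  have h2 := norm_log_one_add_sub_self_le h1
  rw [norm_neg] at h2
  have h3 : ‖log (1 + -z) - -z‖ ≤ ‖z‖ ^ 2 := by
    refine h2.trans ?_
    have h4 : (1 - ‖z‖)⁻¹ ≤ 2 := by
      rw [inv_le_comm₀ (by linarith) (by norm_num)]
      linarith
    have h5 : 0 ≤ ‖z‖ ^ 2 := by positivity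
    nlinarith
  have h6 : |(log (1 + -z) - -z).re| ≤ ‖z‖ ^ 2 := (abs_re_le_norm _).trans h3
  have h7 := abs_le.mp h6
  have e : (1 : ℂ) - z = 1 + -z := sub_eq_add_neg _ _
  rw [e]
  simp only [sub_re, neg_re] at h7 ⊢
  linarith [h7.1]

lemma summable_sq : Summable (fun p : Nat.Primes => ((p : ℕ) : ℝ) ^ (-(2 : ℝ))) :=
  Nat.Primes.summable_rpow.mpr (by norm_num)

/-- `∑_{n ≥ 2} n^{-2} ≤ 1`. -/
lemma sum_sq_le (s : Finset ℕ) (hs : ∀ n ∈ s, 2 ≤ n) :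
    ∑ n ∈ s, ((n : ℝ) ^ 2)⁻¹ ≤ 1 := by
  obtain ⟨K, hK⟩ : ∃ K, s ⊆ Finset.Ico 2 (K + 2) := by
    refine ⟨s.sup id, fun n hn => ?_⟩
    rw [Finset.mem_Ico]
    have : n ≤ s.sup id := Finset.le_sup (f := id) hn
    exact ⟨hs n hn, by omega⟩
  have h1 : ∑ n ∈ s, ((n : ℝ) ^ 2)⁻¹ ≤ ∑ n ∈ Finset.Ico 2 (K + 2), ((n : ℝ) ^ 2)⁻¹ :=
    Finset.sum_le_sum_of_subset_of_nonneg hK (fun _ _ _ => by positivity)
  have h2 : ∀ K : ℕ, ∑ n ∈ Finset.Ico 2 (K + 2), ((n : ℝ) ^ 2)⁻¹ ≤ 1 - 1 / ((K : ℝ) + 1) := by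
    intro K
    induction K with
    | zero => simp
    | succ K ih =>
      rw [show K + 1 + 2 = (K + 2) + 1 by ring, Finset.sum_Ico_succ_top (by omega)]
      have h3 : (((K + 2 : ℕ) : ℝ) ^ 2)⁻¹ ≤ 1 / ((K : ℝ) + 1) - 1 / ((K : ℝ) + 2) := by
        push_cast
        rw [div_sub_div _ _ (by positivity) (by positivity), inv_eq_one_div,
          div_le_div_iff₀ (by positivity) (by positivity)]
        nlinarith [sq_nonneg (K : ℝ)]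
      push_cast at h3 ih ⊢
      have h4 : (K : ℝ) + 1 + 1 = K + 2 := by ring
      rw [h4]
      linarith
  refine h1.trans ((h2 K).trans ?_)
  have : (0 : ℝ) ≤ 1 / ((K : ℝ) + 1) := by positivity
  linarith

lemma tsum_sq_le : ∑' p : Nat.Primes, ((p : ℕ) : ℝ) ^ (-(2 : ℝ)) ≤ 1 := by
  refine summable_sq.tsum_le_of_sum_le (fun s => ?_)
  have h1 : ∑ p ∈ s, ((p : ℕ) : ℝ) ^ (-(2 : ℝ)) = ∑ n ∈ s.map ⟨fun p : Nat.Primes => (p : ℕ),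
      Nat.Primes.coe_nat_injective⟩, ((n : ℝ) ^ 2)⁻¹ := by
    rw [Finset.sum_map]
    refine Finset.sum_congr rfl (fun p _ => ?_)
    rw [Real.rpow_neg (by positivity)]
    norm_num
  rw [h1]
  refine sum_sq_le _ (fun n hn => ?_)
  rw [Finset.mem_map] at hn
  obtain ⟨p, _, rfl⟩ := hn
  exact p.2.two_le

/-- The Euler product bounds the prime sum. -/
lemma PS_le {N : ℕ} (χ : DirichletCharacter ℂ N) {σ : ℝ} (hσ : 1 < σ) :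
    PS χ σ ≤ Real.log ‖LSeries (fun n => χ n) σ‖ + 1 := by
  have hs : 1 < ((σ : ℂ)).re := by simpa using hσ
  have h1 := DirichletCharacter.LSeries_eulerProduct_exp_log χ hs
  have hsum := DirichletCharacter.summable_neg_log_one_sub_mul_prime_cpow χ hs
  rw [← h1, norm_exp, Real.log_exp]
  have hcpow : ∀ p : Nat.Primes, ((p : ℕ) : ℂ) ^ (-(σ : ℂ)) = ((((p : ℕ) : ℝ) ^ (-σ) : ℝ) : ℂ) := by
    intro p
    rw [Complex.ofReal_cpow (by positivity)]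
    simp
  have hz : ∀ p : Nat.Primes, ‖χ (p : ℕ) * ((p : ℕ) : ℂ) ^ (-(σ : ℂ))‖ ≤ ((p : ℕ) : ℝ) ^ (-σ) := by
    intro p
    rw [norm_mul, hcpow, Complex.norm_real, Real.norm_of_nonneg (Real.rpow_nonneg (by positivity) _)]
    have := χ.norm_le_one ((p : ℕ) : ZMod N)
    have h2 : (0 : ℝ) ≤ ((p : ℕ) : ℝ) ^ (-σ) := Real.rpow_nonneg (by positivity) _
    nlinarith
  have hp2 : ∀ p : Nat.Primes, ((p : ℕ) : ℝ) ^ (-σ) ≤ 1 / 2 := by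
    intro p
    have hp : (2 : ℝ) ≤ (p : ℕ) := by exact_mod_cast p.2.two_le
    calc ((p : ℕ) : ℝ) ^ (-σ) ≤ ((p : ℕ) : ℝ) ^ (-(1 : ℝ)) :=
          Real.rpow_le_rpow_of_exponent_le (by linarith) (by linarith)
      _ = 1 / ((p : ℕ) : ℝ) := by rw [Real.rpow_neg_one, one_div]
      _ ≤ 1 / 2 := by
          apply one_div_le_one_div_of_le (by norm_num) hp
  have hsq : ∀ p : Nat.Primes, ‖χ (p : ℕ) * ((p : ℕ) : ℂ) ^ (-(σ : ℂ))‖ ^ 2 ≤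
      ((p : ℕ) : ℝ) ^ (-(2 : ℝ)) := by
    intro p
    have hp : (2 : ℝ) ≤ (p : ℕ) := by exact_mod_cast p.2.two_le
    have h3 : (0 : ℝ) ≤ ‖χ (p : ℕ) * ((p : ℕ) : ℂ) ^ (-(σ : ℂ))‖ := norm_nonneg _
    have h4 : ((p : ℕ) : ℝ) ^ (-σ) ≤ ((p : ℕ) : ℝ) ^ (-(1 : ℝ)) :=
      Real.rpow_le_rpow_of_exponent_le (by linarith) (by linarith)
    calc ‖χ (p : ℕ) * ((p : ℕ) : ℂ) ^ (-(σ : ℂ))‖ ^ 2 ≤ (((p : ℕ) : ℝ) ^ (-(1 : ℝ))) ^ 2 :=
          pow_le_pow_left₀ h3 ((hz p).trans h4) 2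
      _ = ((p : ℕ) : ℝ) ^ (-(2 : ℝ)) := by
          rw [← Real.rpow_natCast, ← Real.rpow_mul (by positivity)]
          norm_num
  have hre : (∑' p : Nat.Primes, -log (1 - χ (p : ℕ) * ((p : ℕ) : ℂ) ^ (-(σ : ℂ)))).re =
      ∑' p : Nat.Primes, (-log (1 - χ (p : ℕ) * ((p : ℕ) : ℂ) ^ (-(σ : ℂ)))).re :=
    Complex.re_tsum hsum
  rw [hre]
  have hsr : Summable (fun p : Nat.Primes =>
      (-log (1 - χ (p : ℕ) * ((p : ℕ) : ℂ) ^ (-(σ : ℂ)))).re) :=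
    (Complex.hasSum_re hsum.hasSum).summable
  have h5 : PS χ σ - ∑' p : Nat.Primes, ((p : ℕ) : ℝ) ^ (-(2 : ℝ)) ≤
      ∑' p : Nat.Primes, (-log (1 - χ (p : ℕ) * ((p : ℕ) : ℂ) ^ (-(σ : ℂ)))).re := by
    rw [PS, ← (summable_PS χ hσ).tsum_sub summable_sq]
    refine Summable.tsum_le_tsum (fun p => ?_) ((summable_PS χ hσ).sub summable_sq) hsr
    have h6 := re_log_ge ((hz p).trans (hp2 p))
    have h7 : (χ (p : ℕ) * ((p : ℕ) : ℂ) ^ (-(σ : ℂ))).re =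
        (χ (p : ℕ)).re * ((p : ℕ) : ℝ) ^ (-σ) := by
      rw [hcpow, Complex.re_mul_ofReal]
    rw [h7] at h6
    have := hsq p
    linarith
  have := tsum_sq_le
  linarith

end Pool.Agent.H79.Tet
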