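import Mathlib
import Pool.Agent.H79.Tet.NT

namespace Pool.Agent.H79.Tet

open Complex Finset

lemma sum_char_range {N : ℕ} [NeZero N] {χ : DirichletCharacter ℂ N} (hχ : χ ≠ 1) :
    ∑ a ∈ range N, χ (a : ZMod N) = 0 := by
  rw [← MulChar.sum_eq_zero_of_ne_one hχ]
  refine Finset.sum_bij' (fun a _ => (a : ZMod N)) (fun x _ => x.val) ?_ ?_ ?_ ?_ ?_
  · intro a _; exact Finset.mem_univ _
  · intro x _; exact Finset.mem_range.mpr (ZMod.val_lt x)
  · intro a ha; exact ZMod.val_cast_of_lt (Finset.mem_range.mp ha)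
  · intro x _; exact ZMod.natCast_zmod_val x
  · intro a _; rfl

lemma sum_range_blocks (g : ℕ → ℂ) (N K : ℕ) :
    ∑ n ∈ range (K * N), g n = ∑ m ∈ range K, ∑ a ∈ range N, g (m * N + a) := by
  induction K with
  | zero => simp
  | succ K ih =>
    rw [Finset.sum_range_succ, ← ih, show (K + 1) * N = K * N + N by ring,
      Finset.sum_range_add]

/-- Trivial bound for `L(σ, χ)`. -/
lemma norm_L_le {N : ℕ} [NeZero N] {χ : DirichletCharacter ℂ N} (hχ : χ ≠ 1) {σ : ℝ}
    (hσ : 1 < σ) : ‖LSeries (fun n => χ n) σ‖ ≤ 2 + Real.log N := by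
  have hN : 0 < N := Nat.pos_of_ne_zero (NeZero.ne N)
  have hs : 1 < ((σ : ℂ)).re := by simpa using hσ
  set g : ℕ → ℂ := fun n => χ (n : ZMod N) * (((n : ℝ) ^ (-σ) : ℝ) : ℂ) with hg
  have hterm : ∀ n, LSeries.term (fun n => χ n) σ n = g n := by
    intro n
    rcases Nat.eq_zero_or_pos n with rfl | hn
    · simp [hg, Real.zero_rpow (by linarith : -σ ≠ 0)]
    · rw [LSeries.term_of_ne_zero (by omega), hg]
      simp only
      rw [Complex.ofReal_cpow (by positivity), div_eq_mul_inv, ← Complex.cpow_neg]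
      simp
  have hsum : Summable g := by
    have := DirichletCharacter.LSeriesSummable_of_one_lt_re χ hs
    unfold LSeriesSummable at this
    refine this.congr (fun n => ?_)
    exact hterm n
  have hL : LSeries (fun n => χ n) σ = ∑' n, g n := tsum_congr hterm
  have hlim : Filter.Tendsto (fun K : ℕ => ∑ n ∈ range (K * N), g n) Filter.atTop
      (nhds (LSeries (fun n => χ n) σ)) := by
    rw [hL]
    exact hsum.hasSum.tendsto_sum_nat.comp (Filter.tendsto_id.atTop_mul_const' hN)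
  -- first block
  have h0 : ‖∑ a ∈ range N, g (0 * N + a)‖ ≤ 1 + Real.log N := by
    have h1 : ‖∑ a ∈ range N, g (0 * N + a)‖ ≤ ∑ a ∈ range N, ((a : ℝ))⁻¹ := by
      refine (norm_sum_le _ _).trans (Finset.sum_le_sum (fun a _ => ?_))
      rw [zero_mul, zero_add, hg]
      simp only
      rw [norm_mul, Complex.norm_real]
      rcases Nat.eq_zero_or_pos a with rfl | ha
      · simp [Real.zero_rpow (by linarith : -σ ≠ 0)]
      · rw [Real.norm_of_nonneg (Real.rpow_nonneg (by positivity) _)]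
        have h2 : ((a : ℝ)) ^ (-σ) ≤ ((a : ℝ)) ^ (-(1 : ℝ)) :=
          Real.rpow_le_rpow_of_exponent_le (by exact_mod_cast ha) (by linarith)
        rw [Real.rpow_neg_one] at h2
        have h3 : ‖χ (a : ZMod N)‖ ≤ 1 := χ.norm_le_one _
        have h4 : (0 : ℝ) ≤ (a : ℝ) ^ (-σ) := Real.rpow_nonneg (by positivity) _
        nlinarith
    refine h1.trans ?_
    obtain ⟨N', rfl⟩ : ∃ N', N = N' + 1 := ⟨N - 1, by omega⟩
    have h2 : ∑ a ∈ range (N' + 1), ((a : ℝ))⁻¹ = ((harmonic N' : ℚ) : ℝ) := by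
      rw [Finset.sum_range_succ', harmonic]
      push_cast
      simp
    rw [h2]
    refine (harmonic_le_one_add_log N').trans ?_
    rcases Nat.eq_zero_or_pos N' with rfl | hN'
    · simp
    · have := Real.log_le_log (x := (N' : ℝ)) (y := ((N' + 1 : ℕ) : ℝ)) (by exact_mod_cast hN')
        (by push_cast; linarith)
      linarith
  -- other blocks
  have hm : ∀ m, ‖∑ a ∈ range N, g ((m + 1) * N + a)‖ ≤
      N * ((((m + 1) * N : ℕ) : ℝ) ^ (-σ) - (((m + 2) * N : ℕ) : ℝ) ^ (-σ)) := by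
    intro m
    have h1 : ∑ a ∈ range N, g ((m + 1) * N + a) = ∑ a ∈ range N, χ (a : ZMod N) *
        (((((m + 1) * N + a : ℕ) : ℝ) ^ (-σ) - (((m + 1) * N : ℕ) : ℝ) ^ (-σ) : ℝ) : ℂ) := by
      have h2 : ∑ a ∈ range N, χ (a : ZMod N) * (((((m + 1) * N : ℕ) : ℝ) ^ (-σ) : ℝ) : ℂ) = 0 := by
        rw [← Finset.sum_mul, sum_char_range hχ, zero_mul]
      rw [← sub_zero (∑ a ∈ range N, g ((m + 1) * N + a)), ← h2, ← Finset.sum_sub_distrib]
      refine Finset.sum_congr rfl (fun a _ => ?_)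
      rw [hg]
      simp only
      have h3 : (((m + 1) * N + a : ℕ) : ZMod N) = (a : ZMod N) := by
        push_cast
        simp
      rw [h3, Complex.ofReal_sub]
      ring
    rw [h1]
    refine (norm_sum_le _ _).trans ?_
    have h4 : ∀ a ∈ range N, ‖χ (a : ZMod N) *
        (((((m + 1) * N + a : ℕ) : ℝ) ^ (-σ) - (((m + 1) * N : ℕ) : ℝ) ^ (-σ) : ℝ) : ℂ)‖ ≤
        (((m + 1) * N : ℕ) : ℝ) ^ (-σ) - (((m + 2) * N : ℕ) : ℝ) ^ (-σ) := by
      intro a ha
      have haN : a < N := Finset.mem_range.mp ha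
      rw [norm_mul, Complex.norm_real]
      have hpos : (0 : ℝ) < (((m + 1) * N : ℕ) : ℝ) := by
        have : 0 < (m + 1) * N := by positivity
        exact_mod_cast this
      have h5 : (((m + 1) * N + a : ℕ) : ℝ) ^ (-σ) ≤ (((m + 1) * N : ℕ) : ℝ) ^ (-σ) :=
        Real.rpow_le_rpow_of_nonpos hpos (by push_cast; linarith [(Nat.cast_nonneg a : (0:ℝ) ≤ a)])
          (by linarith)
      have h6 : (((m + 2) * N : ℕ) : ℝ) ^ (-σ) ≤ (((m + 1) * N + a : ℕ) : ℝ) ^ (-σ) := by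
        refine Real.rpow_le_rpow_of_nonpos ?_ ?_ (by linarith)
        · push_cast at hpos ⊢
          linarith [(Nat.cast_nonneg a : (0:ℝ) ≤ a)]
        · have : (m + 1) * N + a ≤ (m + 2) * N := by nlinarith
          exact_mod_cast this
      rw [Real.norm_of_nonpos (by linarith)]
      have h7 : ‖χ (a : ZMod N)‖ ≤ 1 := χ.norm_le_one _
      nlinarith [norm_nonneg (χ (a : ZMod N))]
    refine (Finset.sum_le_sum h4).trans ?_
    rw [Finset.sum_const, Finset.card_range, nsmul_eq_mul]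
  have htel : ∀ K : ℕ, ∑ m ∈ range K, ((((m + 1) * N : ℕ) : ℝ) ^ (-σ) -
      (((m + 2) * N : ℕ) : ℝ) ^ (-σ)) ≤ ((N : ℕ) : ℝ) ^ (-σ) := by
    intro K
    have h1 : ∑ m ∈ range K, ((((m + 1) * N : ℕ) : ℝ) ^ (-σ) -
      (((m + 2) * N : ℕ) : ℝ) ^ (-σ)) = ((N : ℕ) : ℝ) ^ (-σ) - (((K + 1) * N : ℕ) : ℝ) ^ (-σ) := by
      induction K with
      | zero => simp
      | succ K ih => rw [Finset.sum_range_succ, ih]; push_cast; ring_nf
    rw [h1]
    have : (0 : ℝ) ≤ (((K + 1) * N : ℕ) : ℝ) ^ (-σ) := Real.rpow_nonneg (by positivity) _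
    linarith
  have hbound : ∀ K : ℕ, ‖∑ n ∈ range ((K + 1) * N), g n‖ ≤ 2 + Real.log N := by
    intro K
    rw [sum_range_blocks, Finset.sum_range_succ']
    refine (norm_add_le _ _).trans ?_
    have h1 : ‖∑ m ∈ range K, ∑ a ∈ range N, g ((m + 1) * N + a)‖ ≤ 1 := by
      refine (norm_sum_le _ _).trans ((Finset.sum_le_sum (fun m _ => hm m)).trans ?_)
      rw [← Finset.mul_sum]
      have h2 := htel K
      have h3 : (N : ℝ) * (N : ℝ) ^ (-σ) ≤ 1 := by
        have h4 : (N : ℝ) ^ (-σ) ≤ (N : ℝ) ^ (-(1 : ℝ)) :=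
          Real.rpow_le_rpow_of_exponent_le (by exact_mod_cast hN) (by linarith)
        rw [Real.rpow_neg_one] at h4
        have hN' : (0 : ℝ) < N := by exact_mod_cast hN
        calc (N : ℝ) * (N : ℝ) ^ (-σ) ≤ N * (N : ℝ)⁻¹ := by
              exact mul_le_mul_of_nonneg_left h4 hN'.le
          _ = 1 := mul_inv_cancel₀ hN'.ne'
      have hN' : (0 : ℝ) ≤ N := by positivity
      have := mul_le_mul_of_nonneg_left h2 hN'
      linarith
    linarith
  have hlim2 := (hlim.comp (Filter.tendsto_add_atTop_nat 1)).norm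
  exact le_of_tendsto hlim2 (Filter.Eventually.of_forall hbound)

end Pool.Agent.H79.Tet
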