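import Mathlib
import Pool.Agent.H79.Tet.NT2

namespace Pool.Agent.H79.Tet

open Finset

/-- telescoping upper bound -/
lemma step_upper {δ : ℝ} (h0 : 0 < δ) (h1 : δ ≤ 1) (n : ℕ) (hn : 1 ≤ n) :
    δ * (((n + 1 : ℕ) : ℝ) ^ (-(1 + δ))) ≤ ((n : ℕ) : ℝ) ^ (-δ) - ((n + 1 : ℕ) : ℝ) ^ (-δ) := by
  have hn' : (1 : ℝ) ≤ n := by exact_mod_cast hn
  have hn1 : (0 : ℝ) < n + 1 := by linarith
  push_cast
  -- `y = 1/(n+1)`
  set y : ℝ := 1 / ((n : ℝ) + 1) with hy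
  have hy0 : 0 < y := by positivity
  have hy1 : y ≤ 1 / 2 := by
    rw [hy]; apply one_div_le_one_div_of_le (by norm_num); linarith
  have hb : (1 + (-y)) ^ δ ≤ 1 + δ * (-y) :=
    rpow_one_add_le_one_add_mul_self (by linarith) h0.le h1
  have hpos : 0 < (1 + (-y)) ^ δ := Real.rpow_pos_of_pos (by linarith) _
  have hn2 : (n : ℝ) = (n + 1) * (1 + (-y)) := by rw [hy]; field_simp; ring
  have h2 : (n : ℝ) ^ (-δ) = ((n : ℝ) + 1) ^ (-δ) * ((1 + (-y)) ^ δ)⁻¹ := by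
    conv_lhs => rw [hn2]
    rw [Real.mul_rpow hn1.le (by linarith), Real.rpow_neg (by linarith : (0:ℝ) ≤ 1 + -y)]
  have h3 : ((n : ℝ) + 1) ^ (-(1 + δ)) = ((n : ℝ) + 1) ^ (-δ) * y := by
    rw [neg_add, Real.rpow_add hn1, Real.rpow_neg_one, hy, one_div, mul_comm]
  rw [h2, h3]
  have h4 : 1 + δ * y ≤ ((1 + (-y)) ^ δ)⁻¹ := by
    rw [le_inv_comm₀ (by positivity) hpos]
    refine hb.trans ?_
    rw [le_inv_comm₀ (by nlinarith) (by positivity), inv_eq_one_div, le_div_iff₀ (by nlinarith)]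
    nlinarith [mul_pos h0 hy0, sq_nonneg (δ * y)]
  have h5 : 0 < ((n : ℝ) + 1) ^ (-δ) := Real.rpow_pos_of_pos hn1 _
  nlinarith [mul_le_mul_of_nonneg_left h4 h5.le]

/-- telescoping lower bound -/
lemma step_lower {δ : ℝ} (h0 : 0 < δ) (h1 : δ ≤ 1) (n : ℕ) (hn : 1 ≤ n) :
    ((n : ℕ) : ℝ) ^ (-δ) - ((n + 1 : ℕ) : ℝ) ^ (-δ) ≤ δ * (((n : ℕ) : ℝ) ^ (-(1 + δ))) := by
  have hn' : (1 : ℝ) ≤ n := by exact_mod_cast hn
  have hn1 : (0 : ℝ) < n := by linarith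
  push_cast
  set y : ℝ := 1 / (n : ℝ) with hy
  have hy0 : 0 < y := by positivity
  have hb : (1 + y) ^ δ ≤ 1 + δ * y :=
    rpow_one_add_le_one_add_mul_self (by linarith) h0.le h1
  have hpos : 0 < (1 + y) ^ δ := Real.rpow_pos_of_pos (by linarith) _
  have hn2 : (n : ℝ) + 1 = n * (1 + y) := by rw [hy]; field_simp
  have h2 : ((n : ℝ) + 1) ^ (-δ) = (n : ℝ) ^ (-δ) * ((1 + y) ^ δ)⁻¹ := by
    rw [hn2, Real.mul_rpow hn1.le (by linarith), Real.rpow_neg (by linarith : (0:ℝ) ≤ 1 + y)]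
  have h3 : (n : ℝ) ^ (-(1 + δ)) = (n : ℝ) ^ (-δ) * y := by
    rw [neg_add, Real.rpow_add hn1, Real.rpow_neg_one, hy, one_div, mul_comm]
  rw [h2, h3]
  have h4 : 1 - δ * y ≤ ((1 + y) ^ δ)⁻¹ := by
    have h6 : (1 + δ * y)⁻¹ ≤ ((1 + y) ^ δ)⁻¹ := inv_anti₀ hpos hb
    refine le_trans ?_ h6
    rw [inv_eq_one_div, le_div_iff₀ (by positivity)]
    nlinarith [mul_pos h0 hy0]
  have h5 : 0 < (n : ℝ) ^ (-δ) := Real.rpow_pos_of_pos hn1 _
  nlinarith [mul_le_mul_of_nonneg_left h4 h5.le]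

/-- the real zeta series -/
noncomputable def Zr (σ : ℝ) : ℝ := ∑' n : ℕ, (n : ℝ) ^ (-σ)

lemma summable_Zr {σ : ℝ} (hσ : 1 < σ) : Summable (fun n : ℕ => (n : ℝ) ^ (-σ)) :=
  Real.summable_nat_rpow.mpr (by linarith)

lemma Zr_le {δ : ℝ} (h0 : 0 < δ) (h1 : δ ≤ 1) : Zr (1 + δ) ≤ 1 + 1 / δ := by
  have key : ∀ K : ℕ, δ * ∑ n ∈ range (K + 2), (n : ℝ) ^ (-(1 + δ)) ≤
      δ + (1 - (((K + 1 : ℕ) : ℝ) ^ (-δ))) := by
    intro K
    induction K with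
    | zero =>
      have hz : (0 : ℝ) ^ (-(1 + δ)) = 0 := Real.zero_rpow (by linarith)
      simp only [zero_add, Finset.sum_range_succ, Finset.range_zero, Finset.sum_empty,
        Nat.cast_zero, Nat.cast_one, Real.one_rpow, hz]
      linarith
    | succ K ih =>
      rw [Finset.sum_range_succ, mul_add]
      have := step_upper h0 h1 (K + 1) (by omega)
      push_cast at this ih ⊢
      have e : (K : ℝ) + 1 + 1 = K + 2 := by ring
      rw [e] at this ⊢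
      linarith
  refine (summable_Zr (by linarith)).tsum_le_of_sum_range_le (fun n => ?_)
  have h2 := key n
  have h3 : (0 : ℝ) ≤ (((n + 1 : ℕ) : ℝ) ^ (-δ)) := Real.rpow_nonneg (by positivity) _
  have h4 : ∑ i ∈ range n, (i : ℝ) ^ (-(1 + δ)) ≤ ∑ i ∈ range (n + 2), (i : ℝ) ^ (-(1 + δ)) :=
    Finset.sum_le_sum_of_subset_of_nonneg (Finset.range_mono (by omega))
      (fun _ _ _ => Real.rpow_nonneg (by positivity) _)
  have h5 : δ * ∑ i ∈ range n, (i : ℝ) ^ (-(1 + δ)) ≤ δ + 1 := by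
    have := mul_le_mul_of_nonneg_left h4 h0.le
    linarith
  have h6 : 1 + 1 / δ = (δ + 1) / δ := by field_simp
  rw [h6, le_div_iff₀ h0]
  linarith

lemma le_Zr {δ : ℝ} (h0 : 0 < δ) (h1 : δ ≤ 1) : 1 / δ ≤ Zr (1 + δ) := by
  have key : ∀ K : ℕ, 1 - (((K + 1 : ℕ) : ℝ) ^ (-δ)) ≤
      δ * ∑ n ∈ range (K + 1), (n : ℝ) ^ (-(1 + δ)) := by
    intro K
    induction K with
    | zero =>
      have hz : (0 : ℝ) ^ (-(1 + δ)) = 0 := Real.zero_rpow (by linarith)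
      simp only [zero_add, Finset.sum_range_succ, Finset.range_zero, Finset.sum_empty,
        Nat.cast_zero, Nat.cast_one, Real.one_rpow, hz]
      linarith
    | succ K ih =>
      rw [Finset.sum_range_succ, mul_add]
      have := step_lower h0 h1 (K + 1) (by omega)
      push_cast at this ih ⊢
      have e : (K : ℝ) + 1 + 1 = K + 2 := by ring
      rw [e] at this ⊢
      linarith
  have h2 : ∀ K : ℕ, 1 - (((K + 1 : ℕ) : ℝ) ^ (-δ)) ≤ δ * Zr (1 + δ) := by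
    intro K
    refine (key K).trans (mul_le_mul_of_nonneg_left ?_ h0.le)
    exact (summable_Zr (by linarith)).sum_le_tsum _ (fun _ _ => Real.rpow_nonneg (by positivity) _)
  have h3 : Filter.Tendsto (fun K : ℕ => 1 - (((K + 1 : ℕ) : ℝ) ^ (-δ))) Filter.atTop
      (nhds (1 - 0)) := by
    refine Filter.Tendsto.const_sub _ ?_
    have h4 := (tendsto_rpow_neg_atTop h0).comp (tendsto_natCast_atTop_atTop (R := ℝ))
    exact h4.comp (Filter.tendsto_add_atTop_nat 1)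
  have h5 := le_of_tendsto h3 (Filter.Eventually.of_forall h2)
  rw [div_le_iff₀ h0]
  linarith

lemma LSeries_one_eq {σ : ℝ} (hσ : 1 < σ) :
    ‖LSeries (fun n => (1 : DirichletCharacter ℂ 1) n) σ‖ = Zr σ := by
  have h1 : LSeries (fun n => (1 : DirichletCharacter ℂ 1) n) σ = ((Zr σ : ℝ) : ℂ) := by
    rw [Zr, Complex.ofReal_tsum]
    refine tsum_congr (fun n => ?_)
    rcases Nat.eq_zero_or_pos n with rfl | hn
    · simp [Real.zero_rpow (by linarith : -σ ≠ 0)]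
    · rw [LSeries.term_of_ne_zero (by omega), MulChar.one_apply (isUnit_of_subsingleton _)]
      rw [Complex.ofReal_cpow (by positivity), one_div, ← Complex.cpow_neg]
      simp
  rw [h1, Complex.norm_real, Real.norm_of_nonneg]
  exact tsum_nonneg (fun n => Real.rpow_nonneg (by positivity) _)

lemma PS_one {σ : ℝ} : PS (1 : DirichletCharacter ℂ 1) σ = P0 σ := by
  unfold PS P0
  refine tsum_congr (fun p => ?_)
  rw [MulChar.one_apply (isUnit_of_subsingleton _)]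
  simp

/-- The reverse inequality for the trivial character. -/
lemma log_L_le {N : ℕ} (χ : DirichletCharacter ℂ N) {σ : ℝ} (hσ : 1 < σ) :
    Real.log ‖LSeries (fun n => χ n) σ‖ ≤ PS χ σ + 1 := by
  have hs : 1 < ((σ : ℂ)).re := by simpa using hσ
  have h1 := DirichletCharacter.LSeries_eulerProduct_exp_log χ hs
  have hsum := DirichletCharacter.summable_neg_log_one_sub_mul_prime_cpow χ hs
  rw [← h1, Complex.norm_exp, Real.log_exp]
  have hcpow : ∀ p : Nat.Primes, ((p : ℕ) : ℂ) ^ (-(σ : ℂ)) = ((((p : ℕ) : ℝ) ^ (-σ) : ℝ) : ℂ) := by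
    intro p
    rw [Complex.ofReal_cpow (by positivity)]
    simp
  have hz : ∀ p : Nat.Primes, ‖χ (p : ℕ) * ((p : ℕ) : ℂ) ^ (-(σ : ℂ))‖ ≤ ((p : ℕ) : ℝ) ^ (-σ) := by
    intro p
    rw [norm_mul, hcpow, Complex.norm_real, Real.norm_of_nonneg (Real.rpow_nonneg (by positivity) _)]
    have := χ.norm_le_one ((p : ℕ) : ZMod N)
    have h2 : (0 : ℝ) ≤ ((p : ℕ) : ℝ) ^ (-σ) := Real.rpow_nonneg (by positivity) _
    nlinarith
  have hp2 : ∀ p : Nat.Primes, ((p : ℕ) : ℝ) ^ (-σ) ≤ 1 / 2 := by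
    intro p
    have hp : (2 : ℝ) ≤ (p : ℕ) := by exact_mod_cast p.2.two_le
    calc ((p : ℕ) : ℝ) ^ (-σ) ≤ ((p : ℕ) : ℝ) ^ (-(1 : ℝ)) :=
          Real.rpow_le_rpow_of_exponent_le (by linarith) (by linarith)
      _ = 1 / ((p : ℕ) : ℝ) := by rw [Real.rpow_neg_one, one_div]
      _ ≤ 1 / 2 := by
          apply one_div_le_one_div_of_le (by norm_num) hp
  have hsq : ∀ p : Nat.Primes, ‖χ (p : ℕ) * ((p : ℕ) : ℂ) ^ (-(σ : ℂ))‖ ^ 2 ≤
      ((p : ℕ) : ℝ) ^ (-(2 : ℝ)) := by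
    intro p
    have hp : (2 : ℝ) ≤ (p : ℕ) := by exact_mod_cast p.2.two_le
    have h3 : (0 : ℝ) ≤ ‖χ (p : ℕ) * ((p : ℕ) : ℂ) ^ (-(σ : ℂ))‖ := norm_nonneg _
    have h4 : ((p : ℕ) : ℝ) ^ (-σ) ≤ ((p : ℕ) : ℝ) ^ (-(1 : ℝ)) :=
      Real.rpow_le_rpow_of_exponent_le (by linarith) (by linarith)
    calc ‖χ (p : ℕ) * ((p : ℕ) : ℂ) ^ (-(σ : ℂ))‖ ^ 2 ≤ (((p : ℕ) : ℝ) ^ (-(1 : ℝ))) ^ 2 :=
          pow_le_pow_left₀ h3 ((hz p).trans h4) 2
      _ = ((p : ℕ) : ℝ) ^ (-(2 : ℝ)) := by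
          rw [← Real.rpow_natCast, ← Real.rpow_mul (by positivity)]
          norm_num
  have hre : (∑' p : Nat.Primes, -Complex.log (1 - χ (p : ℕ) * ((p : ℕ) : ℂ) ^ (-(σ : ℂ)))).re =
      ∑' p : Nat.Primes, (-Complex.log (1 - χ (p : ℕ) * ((p : ℕ) : ℂ) ^ (-(σ : ℂ)))).re :=
    Complex.re_tsum hsum
  rw [hre]
  have hsr : Summable (fun p : Nat.Primes =>
      (-Complex.log (1 - χ (p : ℕ) * ((p : ℕ) : ℂ) ^ (-(σ : ℂ)))).re) :=
    (Complex.hasSum_re hsum.hasSum).summable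
  have h5 : ∑' p : Nat.Primes, (-Complex.log (1 - χ (p : ℕ) * ((p : ℕ) : ℂ) ^ (-(σ : ℂ)))).re ≤
      PS χ σ + ∑' p : Nat.Primes, ((p : ℕ) : ℝ) ^ (-(2 : ℝ)) := by
    rw [PS, ← (summable_PS χ hσ).tsum_add summable_sq]
    refine Summable.tsum_le_tsum (fun p => ?_) hsr ((summable_PS χ hσ).add summable_sq)
    have h6 := re_log_le ((hz p).trans (hp2 p))
    have h7 : (χ (p : ℕ) * ((p : ℕ) : ℂ) ^ (-(σ : ℂ))).re =
        (χ (p : ℕ)).re * ((p : ℕ) : ℝ) ^ (-σ) := by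
      rw [hcpow, Complex.re_mul_ofReal]
    rw [h7] at h6
    have := hsq p
    linarith
  have := tsum_sq_le
  linarith

lemma P0_ge {δ : ℝ} (h0 : 0 < δ) (h1 : δ ≤ 1) : Real.log (1 / δ) - 1 ≤ P0 (1 + δ) := by
  have h2 := log_L_le (1 : DirichletCharacter ℂ 1) (σ := 1 + δ) (by linarith)
  rw [PS_one, LSeries_one_eq (by linarith)] at h2
  have h3 := Real.log_le_log (by positivity) (le_Zr h0 h1)
  linarith

lemma P0_le {δ : ℝ} (h0 : 0 < δ) (h1 : δ ≤ 1) : P0 (1 + δ) ≤ Real.log (1 + 1 / δ) + 1 := by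
  have h2 := PS_le (1 : DirichletCharacter ℂ 1) (σ := 1 + δ) (by linarith)
  rw [PS_one, LSeries_one_eq (by linarith)] at h2
  have h4 : 0 < Zr (1 + δ) := lt_of_lt_of_le (by positivity) (le_Zr h0 h1)
  have h3 := Real.log_le_log h4 (Zr_le h0 h1)
  linarith

lemma PS_le_of_ne_one {N : ℕ} [NeZero N] {χ : DirichletCharacter ℂ N} (hχ : χ ≠ 1) {σ : ℝ}
    (hσ : 1 < σ) : PS χ σ ≤ Real.log (2 + Real.log N) + 1 := by
  have h1 := PS_le χ hσ
  have hN : 0 < N := Nat.pos_of_ne_zero (NeZero.ne N)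
  have hlog : 0 ≤ Real.log N := Real.log_nonneg (by exact_mod_cast hN)
  have h2 := norm_L_le hχ hσ
  rcases eq_or_lt_of_le (norm_nonneg (LSeries (fun n => χ n) σ)) with h3 | h3
  · rw [← h3, Real.log_zero] at h1
    have : 0 ≤ Real.log (2 + Real.log N) := Real.log_nonneg (by linarith)
    linarith
  · have := Real.log_le_log h3 h2
    linarith

end Pool.Agent.H79.Tet
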