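import Mathlib
import Pool.Agent.H79.Tet.NT3

namespace Pool.Agent.H79.Tet

open Finset
open scoped NumberTheorySymbols

/-- The Jacobi symbol as a Dirichlet character. -/
noncomputable def jchar (M : ℕ) [NeZero M] : DirichletCharacter ℂ M where
  toFun x := ((jacobiSym (x.val : ℤ) M : ℤ) : ℂ)
  map_one' := by
    have h1 : ((1 : ZMod M).val : ℤ) % M = 1 % M := by
      rcases eq_or_ne M 1 with rfl | h
      · omega
      · have : Fact (1 < M) := ⟨by have := NeZero.ne M; omega⟩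
        rw [ZMod.val_one]
        simp
    rw [jacobiSym.mod_left' h1, jacobiSym.one_left]
    simp
  map_mul' x y := by
    have h1 : ((x * y).val : ℤ) % M = ((x.val : ℤ) * y.val) % M := by
      rw [ZMod.val_mul]
      push_cast
      rw [Int.emod_emod_of_dvd _ (dvd_refl _)]
    rw [jacobiSym.mod_left' h1, jacobiSym.mul_left]
    push_cast
    rfl
  map_nonunit' x hx := by
    have h1 : ¬ Nat.Coprime x.val M := by
      intro h
      apply hx
      have := (ZMod.unitOfCoprime x.val h).isUnit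
      rwa [ZMod.coe_unitOfCoprime, ZMod.natCast_zmod_val] at this
    have h2 : jacobiSym (x.val : ℤ) M = 0 := by
      rw [jacobiSym.eq_zero_iff_not_coprime]
      rwa [Int.gcd_natCast_natCast]
    rw [h2]
    simp

lemma jchar_apply (M : ℕ) [NeZero M] (a : ℕ) :
    jchar M (a : ZMod M) = ((jacobiSym (a : ℤ) M : ℤ) : ℂ) := by
  show ((jacobiSym (((a : ZMod M)).val : ℤ) M : ℤ) : ℂ) = _
  have h1 : (((a : ZMod M)).val : ℤ) % M = (a : ℤ) % M := by
    rw [ZMod.val_natCast]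
    push_cast
    rw [Int.emod_emod_of_dvd _ (dvd_refl _)]
  rw [jacobiSym.mod_left' h1]

lemma jchar_re (M : ℕ) [NeZero M] (a : ℕ) :
    (jchar M (a : ZMod M)).re = ((jacobiSym (a : ℤ) M : ℤ) : ℝ) := by
  rw [jchar_apply]; exact Complex.intCast_re _

lemma jac_abs (a : ℤ) (M : ℕ) : -1 ≤ ((jacobiSym a M : ℤ) : ℝ) ∧ ((jacobiSym a M : ℤ) : ℝ) ≤ 1 := by
  rcases jacobiSym.trichotomy a M with h | h | h <;> rw [h] <;> norm_num

/-- two characters cannot both be exceptional -/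
lemma two_chars {M₁ M₂ : ℕ} [NeZero M₁] [NeZero M₂] {σ : ℝ} (hσ : 1 < σ) :
    0 ≤ P0 σ + PS (jchar M₁) σ + PS (jchar M₂) σ + PS (jchar (M₁ * M₂)) σ := by
  have h0 := summable_P0 hσ
  have h1 := summable_PS (jchar M₁) hσ
  have h2 := summable_PS (jchar M₂) hσ
  have h3 := summable_PS (jchar (M₁ * M₂)) hσ
  unfold P0 PS
  rw [← h0.tsum_add h1, ← (h0.add h1).tsum_add h2, ← ((h0.add h1).add h2).tsum_add h3]
  refine tsum_nonneg (fun p => ?_)
  rw [jchar_re, jchar_re, jchar_re, jacobiSym.mul_right]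
  push_cast
  have h4 := jac_abs ((p : ℕ) : ℤ) M₁
  have h5 := jac_abs ((p : ℕ) : ℤ) M₂
  have h6 : (0 : ℝ) ≤ ((p : ℕ) : ℝ) ^ (-σ) := Real.rpow_nonneg (by positivity) _
  have h7 : 0 ≤ (1 + ((jacobiSym ((p : ℕ) : ℤ) M₁ : ℤ) : ℝ)) *
      (1 + ((jacobiSym ((p : ℕ) : ℤ) M₂ : ℤ) : ℝ)) :=
    mul_nonneg (by linarith [h4.1]) (by linarith [h5.1])
  nlinarith [mul_nonneg h7 h6]

/-- the identity behind the gap -/
lemma gap_identity {M : ℕ} [NeZero M] (χ : DirichletCharacter ℂ M) {σ : ℝ} (hσ : 1 < σ) :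
    ∑' p : Nat.Primes, (1 + ((jacobiSym ((p : ℕ) : ℤ) M : ℤ) : ℝ)) * (1 - (χ (p : ℕ)).re) *
      ((p : ℕ) : ℝ) ^ (-σ) = P0 σ + PS (jchar M) σ - PS χ σ - PS (χ * jchar M) σ := by
  have h0 := summable_P0 hσ
  have h1 := summable_PS (jchar M) hσ
  have h2 := summable_PS χ hσ
  have h3 := summable_PS (χ * jchar M) hσ
  unfold P0 PS
  rw [← h0.tsum_add h1, ← (h0.add h1).tsum_sub h2, ← ((h0.add h1).sub h2).tsum_sub h3]
  refine tsum_congr (fun p => ?_)
  rw [jchar_re, MulChar.mul_apply, jchar_apply]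
  have : (χ ((p : ℕ) : ZMod M) * ((jacobiSym ((p : ℕ) : ℤ) M : ℤ) : ℂ)).re =
      (χ ((p : ℕ) : ZMod M)).re * ((jacobiSym ((p : ℕ) : ℤ) M : ℤ) : ℝ) := by
    rw [← Complex.ofReal_intCast, Complex.re_mul_ofReal]
  rw [this]
  ring

lemma gap_identity0 {M : ℕ} [NeZero M] {σ : ℝ} (hσ : 1 < σ) :
    ∑' p : Nat.Primes, (1 + ((jacobiSym ((p : ℕ) : ℤ) M : ℤ) : ℝ)) * 1 *
      ((p : ℕ) : ℝ) ^ (-σ) = P0 σ + PS (jchar M) σ := by
  have h0 := summable_P0 hσ
  have h1 := summable_PS (jchar M) hσ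
  unfold P0 PS
  rw [← h0.tsum_add h1]
  refine tsum_congr (fun p => ?_)
  rw [jchar_re]
  ring

/-- Tail of the zeta series. -/
lemma tail_le {δ : ℝ} (h0 : 0 < δ) (h1 : δ ≤ 1) (X : ℕ) (hX : 1 ≤ X) :
    ∑' n : ℕ, (if X < n then (n : ℝ) ^ (-(1 + δ)) else 0) ≤ (X : ℝ) ^ (-δ) / δ := by
  have hs : Summable (fun n : ℕ => (if X < n then (n : ℝ) ^ (-(1 + δ)) else 0)) := by
    refine Summable.of_nonneg_of_le (fun n => ?_) (fun n => ?_) (summable_Zr (σ := 1 + δ) (by linarith))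
    · split_ifs
      · exact Real.rpow_nonneg (by positivity) _
      · exact le_rfl
    · split_ifs
      · exact le_rfl
      · exact Real.rpow_nonneg (by positivity) _
  have key : ∀ K : ℕ, δ * ∑ n ∈ range (X + 1 + K), (if X < n then (n : ℝ) ^ (-(1 + δ)) else 0) ≤
      (X : ℝ) ^ (-δ) - ((X + K : ℕ) : ℝ) ^ (-δ) := by
    intro K
    induction K with
    | zero =>
      have : ∑ n ∈ range (X + 1 + 0), (if X < n then (n : ℝ) ^ (-(1 + δ)) else 0) = 0 := by
        refine Finset.sum_eq_zero (fun n hn => ?_)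
        rw [Finset.mem_range] at hn
        rw [if_neg (by omega)]
      rw [this]
      simp
    | succ K ih =>
      rw [show X + 1 + (K + 1) = (X + 1 + K) + 1 by ring, Finset.sum_range_succ, mul_add,
        if_pos (by omega)]
      have := step_upper h0 h1 (X + K) (by omega)
      rw [show X + 1 + K = X + K + 1 by ring] at *
      rw [show X + (K + 1) = X + K + 1 by ring]
      linarith
  have h2 : ∀ n : ℕ, ∑ i ∈ range n, (if X < i then (i : ℝ) ^ (-(1 + δ)) else 0) ≤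
      (X : ℝ) ^ (-δ) / δ := by
    intro n
    have h3 := key n
    have h4 : ∑ i ∈ range n, (if X < i then (i : ℝ) ^ (-(1 + δ)) else 0) ≤
        ∑ i ∈ range (X + 1 + n), (if X < i then (i : ℝ) ^ (-(1 + δ)) else 0) := by
      refine Finset.sum_le_sum_of_subset_of_nonneg (Finset.range_mono (by omega)) (fun i _ _ => ?_)
      split_ifs
      · exact Real.rpow_nonneg (by positivity) _
      · exact le_rfl
    have h5 : (0 : ℝ) ≤ ((X + n : ℕ) : ℝ) ^ (-δ) := Real.rpow_nonneg (by positivity) _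
    rw [le_div_iff₀ h0]
    nlinarith [mul_le_mul_of_nonneg_left h4 h0.le]
  exact hs.tsum_le_of_sum_range_le h2

end Pool.Agent.H79.Tet
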