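import Mathlib
import Pool.Agent.H79.Tet.NT4

namespace Pool.Agent.H79.Tet

open Finset
open scoped NumberTheorySymbols

/-- primes `p` in `[x₀, X]` with `(p/M) = 1` -/
def goodPrimes (M x₀ X : ℕ) : Finset ℕ :=
  (range (X + 1)).filter (fun p => p.Prime ∧ x₀ ≤ p ∧ jacobiSym (p : ℤ) M = 1)

lemma mem_goodPrimes {M x₀ X p : ℕ} :
    p ∈ goodPrimes M x₀ X ↔ p ≤ X ∧ p.Prime ∧ x₀ ≤ p ∧ jacobiSym (p : ℤ) M = 1 := by
  unfold goodPrimes
  rw [Finset.mem_filter, Finset.mem_range]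
  constructor
  · rintro ⟨h1, h2⟩; exact ⟨by omega, h2⟩
  · rintro ⟨h1, h2⟩; exact ⟨by omega, h2⟩

/-- Truncation of the prime sum. -/
lemma trunc {M x₀ X : ℕ} [NeZero M] (hM : M < x₀) (hx : 3 ≤ x₀) (hX : 1 ≤ X)
    (w : ℕ → ℝ) (hw0 : ∀ n, 0 ≤ w n) (hw2 : ∀ n, w n ≤ 2) {δ : ℝ} (h0 : 0 < δ) (h1' : δ ≤ 1) :
    ∑' p : Nat.Primes, (1 + ((jacobiSym ((p : ℕ) : ℤ) M : ℤ) : ℝ)) * w p *
      ((p : ℕ) : ℝ) ^ (-(1 + δ)) ≤ 2 * ∑ p ∈ goodPrimes M x₀ X, w p / p +
      4 * (Real.exp 1 * P0 (1 + 1 / Real.log x₀)) + 4 * ((X : ℝ) ^ (-δ) / δ) := by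
  have hlog : 1 ≤ Real.log x₀ := by
    rw [Real.le_log_iff_exp_le (by positivity)]
    have := Real.exp_one_lt_d9
    have h3 : (3 : ℝ) ≤ x₀ := by exact_mod_cast hx
    linarith
  set η : ℝ := 1 / Real.log x₀ with hη
  have hη0 : 0 < η := by positivity
  -- the three majorants
  let A : ℕ → ℝ := fun n => if n ∈ goodPrimes M x₀ X then 2 * (w n / n) else 0
  let C : ℕ → ℝ := fun n => if X < n then (n : ℝ) ^ (-(1 + δ)) else 0
  have hAsum : Summable A := summable_of_ne_finset_zero (s := goodPrimes M x₀ X)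
    (fun n hn => if_neg hn)
  have hCsum : Summable C := by
    refine Summable.of_nonneg_of_le (fun n => ?_) (fun n => ?_) (summable_Zr (σ := 1 + δ) (by linarith))
    · show 0 ≤ (if X < n then (n : ℝ) ^ (-(1 + δ)) else 0)
      split_ifs
      · exact Real.rpow_nonneg (by positivity) _
      · exact le_rfl
    · show (if X < n then (n : ℝ) ^ (-(1 + δ)) else 0) ≤ _
      split_ifs
      · exact le_rfl
      · exact Real.rpow_nonneg (by positivity) _
  have hinj := Nat.Primes.coe_nat_injective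
  have hA' : Summable (fun p : Nat.Primes => A p) := hAsum.comp_injective hinj
  have hC' : Summable (fun p : Nat.Primes => C p) := hCsum.comp_injective hinj
  have hB' : Summable (fun p : Nat.Primes => Real.exp 1 * ((p : ℕ) : ℝ) ^ (-(1 + η))) :=
    (summable_P0 (σ := 1 + η) (by linarith)).mul_left _
  have hA0 : ∀ n, 0 ≤ A n := by
    intro n
    show 0 ≤ (if n ∈ goodPrimes M x₀ X then 2 * (w n / n) else 0)
    split_ifs
    · have := hw0 n; positivity
    · exact le_rfl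
  have hC0 : ∀ n, 0 ≤ C n := by
    intro n
    show 0 ≤ (if X < n then (n : ℝ) ^ (-(1 + δ)) else 0)
    split_ifs
    · exact Real.rpow_nonneg (by positivity) _
    · exact le_rfl
  have hterm : ∀ p : Nat.Primes, (1 + ((jacobiSym ((p : ℕ) : ℤ) M : ℤ) : ℝ)) * w p *
      ((p : ℕ) : ℝ) ^ (-(1 + δ)) ≤ A p + 4 * (Real.exp 1 * ((p : ℕ) : ℝ) ^ (-(1 + η))) +
        4 * C p := by
    intro p
    have hp : (2 : ℝ) ≤ (p : ℕ) := by exact_mod_cast p.2.two_le
    have hp0 : (0 : ℝ) < (p : ℕ) := by linarith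
    have hJ := jac_abs ((p : ℕ) : ℤ) M
    have hwp0 := hw0 p
    have hwp2 := hw2 p
    have hpow : 0 < ((p : ℕ) : ℝ) ^ (-(1 + δ)) := Real.rpow_pos_of_pos hp0 _
    have hpow2 : 0 < ((p : ℕ) : ℝ) ^ (-(1 + η)) := Real.rpow_pos_of_pos hp0 _
    have hexp : 0 < Real.exp 1 := Real.exp_pos 1
    have hle4 : (1 + ((jacobiSym ((p : ℕ) : ℤ) M : ℤ) : ℝ)) * w p ≤ 4 := by nlinarith
    have hge0 : 0 ≤ (1 + ((jacobiSym ((p : ℕ) : ℤ) M : ℤ) : ℝ)) * w p :=
      mul_nonneg (by linarith [hJ.1]) hwp0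
    rcases lt_or_ge (p : ℕ) x₀ with hlt | hge
    · -- small primes
      have h5 : ((p : ℕ) : ℝ) ^ (-(1 + δ)) ≤ Real.exp 1 * ((p : ℕ) : ℝ) ^ (-(1 + η)) := by
        have h6 : ((p : ℕ) : ℝ) ^ η ≤ Real.exp 1 := by
          rw [← Real.exp_log hp0, ← Real.exp_mul]
          apply Real.exp_le_exp.mpr
          have h7 : Real.log (p : ℕ) ≤ Real.log x₀ :=
            Real.log_le_log hp0 (by exact_mod_cast hlt.le)
          rw [hη, mul_one_div, div_le_one (by positivity)]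
          exact h7
        have h8 : ((p : ℕ) : ℝ) ^ (-(1 + δ)) ≤ ((p : ℕ) : ℝ) ^ (-(1 : ℝ)) :=
          Real.rpow_le_rpow_of_exponent_le (by linarith) (by linarith)
        have h9 : ((p : ℕ) : ℝ) ^ (-(1 : ℝ)) = ((p : ℕ) : ℝ) ^ η * ((p : ℕ) : ℝ) ^ (-(1 + η)) := by
          rw [← Real.rpow_add hp0]; congr 1; ring
        rw [h9] at h8
        exact h8.trans (mul_le_mul_of_nonneg_right h6 hpow2.le)
      have := hA0 p
      have := hC0 p
      nlinarith [mul_le_mul_of_nonneg_right hle4 hpow.le]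
    · rcases le_or_gt (p : ℕ) X with hle | hgt
      · -- middle range
        rcases jacobiSym.trichotomy ((p : ℕ) : ℤ) M with h | h | h
        · exfalso
          rw [jacobiSym.eq_zero_iff_not_coprime, Int.gcd_natCast_natCast] at h
          apply h
          rw [← Nat.Coprime, p.2.coprime_iff_not_dvd]
          intro hdvd
          have := Nat.le_of_dvd (Nat.pos_of_ne_zero (NeZero.ne M)) hdvd
          omega
        · have hmem : (p : ℕ) ∈ goodPrimes M x₀ X := mem_goodPrimes.mpr ⟨hle, p.2, hge, h⟩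
          have hAp : A p = 2 * (w p / (p : ℕ)) := if_pos hmem
          rw [h, hAp]
          have h8 : ((p : ℕ) : ℝ) ^ (-(1 + δ)) ≤ ((p : ℕ) : ℝ)⁻¹ := by
            rw [← Real.rpow_neg_one]
            exact Real.rpow_le_rpow_of_exponent_le (by linarith) (by linarith)
          have h9 : w p * ((p : ℕ) : ℝ) ^ (-(1 + δ)) ≤ w p / (p : ℕ) := by
            rw [div_eq_mul_inv]
            exact mul_le_mul_of_nonneg_left h8 hwp0
          have := hC0 p
          have h10 : 0 ≤ Real.exp 1 * ((p : ℕ) : ℝ) ^ (-(1 + η)) := by positivity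
          push_cast
          nlinarith
        · rw [h]
          have := hC0 p
          have := hA0 p
          have h10 : 0 ≤ Real.exp 1 * ((p : ℕ) : ℝ) ^ (-(1 + η)) := by positivity
          push_cast
          nlinarith
      · have hCp : C p = ((p : ℕ) : ℝ) ^ (-(1 + δ)) := if_pos hgt
        rw [hCp]
        have := hA0 p
        have h10 : 0 ≤ Real.exp 1 * ((p : ℕ) : ℝ) ^ (-(1 + η)) := by positivity
        nlinarith [mul_le_mul_of_nonneg_right hle4 hpow.le]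
  have hrhs : Summable (fun p : Nat.Primes => A p +
      4 * (Real.exp 1 * ((p : ℕ) : ℝ) ^ (-(1 + η))) + 4 * C p) :=
    (hA'.add (hB'.mul_left 4)).add (hC'.mul_left 4)
  have hlhs : Summable (fun p : Nat.Primes => (1 + ((jacobiSym ((p : ℕ) : ℤ) M : ℤ) : ℝ)) * w p *
      ((p : ℕ) : ℝ) ^ (-(1 + δ))) := by
    refine Summable.of_nonneg_of_le (fun p => ?_) hterm hrhs
    have hJ := jac_abs ((p : ℕ) : ℤ) M
    exact mul_nonneg (mul_nonneg (by linarith [hJ.1]) (hw0 p)) (Real.rpow_nonneg (by positivity) _)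
  have hmain := hlhs.tsum_le_tsum hterm hrhs
  refine hmain.trans ?_
  rw [(hA'.add (hB'.mul_left 4)).tsum_add (hC'.mul_left 4), hA'.tsum_add (hB'.mul_left 4),
    tsum_mul_left, tsum_mul_left, tsum_mul_left]
  have hA1 : ∑' p : Nat.Primes, A p ≤ 2 * ∑ p ∈ goodPrimes M x₀ X, w p / p := by
    have h1 : ∑' p : Nat.Primes, A p ≤ ∑' n : ℕ, A n :=
      _root_.tsum_comp_le_tsum_of_inj hAsum hA0 hinj
    refine h1.trans (le_of_eq ?_)
    rw [tsum_eq_sum (s := goodPrimes M x₀ X) (fun n hn => if_neg hn), Finset.mul_sum]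
    exact Finset.sum_congr rfl (fun n hn => if_pos hn)
  have hC1 : ∑' p : Nat.Primes, C p ≤ (X : ℝ) ^ (-δ) / δ := by
    have h1 : ∑' p : Nat.Primes, C p ≤ ∑' n : ℕ, C n :=
      _root_.tsum_comp_le_tsum_of_inj hCsum hC0 hinj
    exact h1.trans (tail_le h0 h1' X hX)
  have hB1 : ∑' p : Nat.Primes, ((p : ℕ) : ℝ) ^ (-(1 + η)) = P0 (1 + η) := rfl
  rw [hB1]
  linarith

end Pool.Agent.H79.Tet
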