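import Mathlib
import Pool.Agent.H79.Tet.NT5

namespace Pool.Agent.H79.Tet

open Finset
open scoped NumberTheorySymbols

/-- The primes `p` in `[2^{Λ²}, 2^{Λ^201}]` with `(p/M) = 1`. -/
def gp (Λ M : ℕ) : Finset ℕ := goodPrimes M (2 ^ (Λ ^ 2)) (2 ^ (Λ ^ 201))

/-- The property of `M` that makes the random walk mix. -/
def Mix (Λ M : ℕ) [NeZero M] : Prop :=
  (1 ≤ ∑ p ∈ gp Λ M, (1 : ℝ) / p) ∧ ∀ χ : DirichletCharacter ℂ M, χ ≠ 1 → χ ≠ jchar M →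
    1 ≤ ∑ p ∈ gp Λ M, (1 - (χ (p : ZMod M)).re) / p

section
variable {Λ : ℕ}

lemma log_ge_one (hΛ : 3 ≤ Λ) : 1 ≤ Real.log Λ := by
  rw [Real.le_log_iff_exp_le (by positivity)]
  have := Real.exp_one_lt_d9
  have h3 : (3 : ℝ) ≤ Λ := by exact_mod_cast hΛ
  linarith

lemma log_bound1 (hΛ : 3 ≤ Λ) {M : ℕ} (hM0 : 0 < M) (hM : M ≤ 2 ^ Λ) :
    Real.log (2 + Real.log M) ≤ 2 * Real.log Λ := by
  have h3 : (3 : ℝ) ≤ Λ := by exact_mod_cast hΛ
  have h1 : Real.log M ≤ Λ := by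
    have h2 : Real.log M ≤ Real.log ((2 : ℝ) ^ Λ) :=
      Real.log_le_log (by exact_mod_cast hM0) (by exact_mod_cast hM)
    rw [Real.log_pow] at h2
    have := Real.log_two_lt_d9
    nlinarith
  have hlog : 0 ≤ Real.log M := Real.log_nonneg (by exact_mod_cast hM0)
  have h4 : Real.log (2 + Real.log M) ≤ Real.log ((Λ : ℝ) ^ 2) :=
    Real.log_le_log (by linarith) (by nlinarith)
  rwa [Real.log_pow] at h4

lemma log_bound2 (hΛ : 3 ≤ Λ) :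
    P0 (1 + 1 / Real.log ((2 ^ (Λ ^ 2) : ℕ) : ℝ)) ≤ 3 * Real.log Λ + 1 := by
  have h3 : (3 : ℝ) ≤ Λ := by exact_mod_cast hΛ
  have h5 : Real.log ((2 ^ (Λ ^ 2) : ℕ) : ℝ) = (Λ : ℝ) ^ 2 * Real.log 2 := by
    push_cast
    rw [Real.log_pow]
    push_cast
    ring
  have hl2 := Real.log_two_lt_d9
  have hl2' := Real.log_two_gt_d9
  have h6 : 1 ≤ Real.log ((2 ^ (Λ ^ 2) : ℕ) : ℝ) := by rw [h5]; nlinarith
  have h7 := P0_le (δ := 1 / Real.log ((2 ^ (Λ ^ 2) : ℕ) : ℝ)) (by positivity) (by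
    rw [div_le_one (by linarith)]; exact h6)
  rw [one_div_one_div] at h7
  refine h7.trans ?_
  have h8 : Real.log (1 + Real.log ((2 ^ (Λ ^ 2) : ℕ) : ℝ)) ≤ Real.log ((Λ : ℝ) ^ 3) := by
    apply Real.log_le_log (by linarith)
    rw [h5]
    nlinarith [sq_nonneg ((Λ : ℝ)), mul_nonneg (sq_nonneg (Λ : ℝ)) (by linarith : (0:ℝ) ≤ Λ - 3)]
  rw [Real.log_pow] at h8
  push_cast at h8 ⊢
  linarith

lemma tail_small (hΛ : 3 ≤ Λ) (hΛ2 : Λ ^ 200 ≤ 2 ^ Λ) :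
    ((2 ^ (Λ ^ 201) : ℕ) : ℝ) ^ (-(1 / (Λ : ℝ) ^ 200)) / (1 / (Λ : ℝ) ^ 200) ≤ 1 := by
  have h3 : (3 : ℝ) ≤ Λ := by exact_mod_cast hΛ
  have h1 : ((2 ^ (Λ ^ 201) : ℕ) : ℝ) ^ (-(1 / (Λ : ℝ) ^ 200)) = ((2 : ℝ) ^ Λ)⁻¹ := by
    push_cast
    rw [← Real.rpow_natCast, ← Real.rpow_mul (by norm_num)]
    have : ((Λ ^ 201 : ℕ) : ℝ) * (-(1 / (Λ : ℝ) ^ 200)) = -(Λ : ℝ) := by
      push_cast
      rw [show (201 : ℕ) = 200 + 1 by norm_num, pow_succ]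
      field_simp
    rw [this, Real.rpow_neg (by norm_num), Real.rpow_natCast]
  rw [h1, div_div_eq_mul_div, div_one, inv_mul_le_iff₀ (by positivity), mul_one]
  exact_mod_cast hΛ2

end

/-- At least one of `M₁`, `M₂` is good. -/
lemma one_good {Λ : ℕ} (hΛ : 3 ≤ Λ) {M₁ M₂ : ℕ} [NeZero M₁] [NeZero M₂]
    (h₁ : M₁ ≤ 2 ^ Λ) (h₂ : M₂ ≤ 2 ^ Λ) (h₁₂ : jchar (M₁ * M₂) ≠ 1) :
    (-(2 / 3) * Real.log ((Λ : ℝ) ^ 200) ≤ PS (jchar M₁) (1 + 1 / (Λ : ℝ) ^ 200)) ∨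
    (-(2 / 3) * Real.log ((Λ : ℝ) ^ 200) ≤ PS (jchar M₂) (1 + 1 / (Λ : ℝ) ^ 200)) := by
  have h3 : (3 : ℝ) ≤ Λ := by exact_mod_cast hΛ
  have hl := log_ge_one hΛ
  set δ : ℝ := 1 / (Λ : ℝ) ^ 200 with hδ
  have hpow : (1 : ℝ) ≤ (Λ : ℝ) ^ 200 := one_le_pow₀ (by linarith)
  have hδ0 : 0 < δ := by positivity
  have hδ1 : δ ≤ 1 := by rw [hδ, div_le_one (by positivity)]; exact hpow
  have h5 := two_chars (M₁ := M₁) (M₂ := M₂) (σ := 1 + δ) (by linarith)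
  have h6 := PS_le_of_ne_one h₁₂ (σ := 1 + δ) (by linarith)
  have h7 := P0_le hδ0 hδ1
  have hM1 : 0 < M₁ := Nat.pos_of_ne_zero (NeZero.ne _)
  have hM2 : 0 < M₂ := Nat.pos_of_ne_zero (NeZero.ne _)
  have h8 : Real.log (2 + Real.log ((M₁ * M₂ : ℕ) : ℝ)) ≤ 2 * Real.log ((2 * Λ : ℕ) : ℝ) := by
    refine log_bound1 (by omega) (by positivity) ?_
    rw [two_mul, pow_add]
    exact Nat.mul_le_mul h₁ h₂
  have h9 : Real.log ((2 * Λ : ℕ) : ℝ) = Real.log 2 + Real.log Λ := by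
    push_cast
    rw [Real.log_mul (by norm_num) (by positivity)]
  have h10 : Real.log (1 + 1 / δ) ≤ Real.log 2 + 200 * Real.log Λ := by
    have : Real.log (1 + 1 / δ) ≤ Real.log (2 * (Λ : ℝ) ^ 200) := by
      apply Real.log_le_log (by positivity)
      rw [hδ, one_div_one_div]
      linarith
    rw [Real.log_mul (by norm_num) (by positivity), Real.log_pow] at this
    push_cast at this
    exact this
  have hl2 := Real.log_two_lt_d9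
  by_contra hcon
  push Not at hcon
  obtain ⟨hc1, hc2⟩ := hcon
  rw [Real.log_pow] at hc1 hc2
  push_cast at hc1 hc2
  linarith

/-- The main analytic input. -/
theorem mix_of_good {Λ : ℕ} (hΛ : 3 ≤ Λ) (hΛ2 : Λ ^ 200 ≤ 2 ^ Λ) {M : ℕ} [NeZero M]
    (hM : M ≤ 2 ^ Λ)
    (hg : -(2 / 3) * Real.log ((Λ : ℝ) ^ 200) ≤ PS (jchar M) (1 + 1 / (Λ : ℝ) ^ 200)) :
    Mix Λ M := by
  have h3 : (3 : ℝ) ≤ Λ := by exact_mod_cast hΛ
  have hl := log_ge_one hΛ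
  set δ : ℝ := 1 / (Λ : ℝ) ^ 200 with hδ
  have hpow : (1 : ℝ) ≤ (Λ : ℝ) ^ 200 := one_le_pow₀ (by linarith)
  have hδ0 : 0 < δ := by positivity
  have hδ1 : δ ≤ 1 := by rw [hδ, div_le_one (by positivity)]; exact hpow
  have hM0 : 0 < M := Nat.pos_of_ne_zero (NeZero.ne _)
  have hMx : M < 2 ^ (Λ ^ 2) := by
    refine lt_of_le_of_lt hM (Nat.pow_lt_pow_right (by norm_num) ?_)
    nlinarith
  have hx3 : 3 ≤ 2 ^ (Λ ^ 2) := by
    have : 2 ^ 2 ≤ 2 ^ (Λ ^ 2) := Nat.pow_le_pow_right (by norm_num) (by nlinarith)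
    omega
  have hX : 1 ≤ 2 ^ (Λ ^ 201) := Nat.one_le_two_pow
  have hP := P0_ge hδ0 hδ1
  have hδlog : Real.log (1 / δ) = 200 * Real.log Λ := by
    rw [hδ, one_div_one_div, Real.log_pow]
    push_cast
    ring
  rw [Real.log_pow] at hg
  push_cast at hg
  have hsmall := log_bound2 hΛ
  have htail := tail_small hΛ hΛ2
  have hexp := Real.exp_one_lt_d9
  have hexp0 := Real.exp_pos 1
  have hprod : Real.exp 1 * P0 (1 + 1 / Real.log ((2 ^ (Λ ^ 2) : ℕ) : ℝ)) ≤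
      2.72 * (3 * Real.log Λ + 1) := by
    have h4 : Real.exp 1 * P0 (1 + 1 / Real.log ((2 ^ (Λ ^ 2) : ℕ) : ℝ)) ≤
        Real.exp 1 * (3 * Real.log Λ + 1) := mul_le_mul_of_nonneg_left hsmall hexp0.le
    have h5 : Real.exp 1 * (3 * Real.log Λ + 1) ≤ 2.72 * (3 * Real.log Λ + 1) :=
      mul_le_mul_of_nonneg_right (by linarith) (by linarith)
    linarith
  refine ⟨?_, fun χ hχ1 hχJ => ?_⟩
  · have h5 := trunc (M := M) hMx hx3 hX (fun _ => 1) (fun _ => by norm_num) (fun _ => by norm_num)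
      hδ0 hδ1
    rw [gap_identity0 (by linarith)] at h5
    show 1 ≤ ∑ p ∈ goodPrimes M (2 ^ (Λ ^ 2)) (2 ^ (Λ ^ 201)), (1 : ℝ) / p
    rw [← hδ] at htail
    linarith
  · have h5 := trunc (M := M) hMx hx3 hX (fun n => 1 - (χ (n : ZMod M)).re)
      (fun n => by
        have := (abs_le.mp (re_le_one χ (n : ZMod M))).2
        linarith)
      (fun n => by
        have := (abs_le.mp (re_le_one χ (n : ZMod M))).1
        linarith)
      hδ0 hδ1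
    rw [gap_identity χ (by linarith)] at h5
    show 1 ≤ ∑ p ∈ goodPrimes M (2 ^ (Λ ^ 2)) (2 ^ (Λ ^ 201)), (1 - (χ (p : ZMod M)).re) / p
    have h6 := PS_le_of_ne_one hχ1 (σ := 1 + δ) (by linarith)
    have h7 : χ * jchar M ≠ 1 := by
      intro h
      apply hχJ
      have hJ2 : jchar M * jchar M = 1 := by
        ext a
        rw [MulChar.mul_apply, MulChar.one_apply a.isUnit]
        have h9 : ((a : ZMod M)) = (((a : ZMod M)).val : ZMod M) := (ZMod.natCast_zmod_val _).symm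
        rw [h9, jchar_apply]
        have h10 : IsUnit ((((a : ZMod M)).val : ZMod M)) := by rw [← h9]; exact a.isUnit
        have h11 : Nat.Coprime ((a : ZMod M)).val M := (ZMod.isUnit_iff_coprime _ _).mp h10
        rcases jacobiSym.eq_one_or_neg_one (a := ((((a : ZMod M)).val : ℕ) : ℤ)) (b := M) (by
          rw [Int.gcd_natCast_natCast]; exact h11) with h | h <;> rw [h] <;> norm_num
      calc χ = χ * (jchar M * jchar M) := by rw [hJ2, mul_one]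
        _ = (χ * jchar M) * jchar M := by rw [mul_assoc]
        _ = jchar M := by rw [h, one_mul]
    have h8 := PS_le_of_ne_one h7 (σ := 1 + δ) (by linarith)
    have h9 := log_bound1 hΛ hM0 hM
    rw [← hδ] at htail
    linarith

end Pool.Agent.H79.Tet
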