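import Mathlib
import Pool.Agent.H79.Tet.NT6
import Pool.Agent.H79.Tet.Alg2

/-!
# Reciprocity and counting of good residues
-/

namespace Pool.Agent.H79.Tet

open Finset
open scoped NumberTheorySymbols

lemma jac_neg {M n : ℕ} (hM : M % 8 = 3) (hn : n % 2 = 1) : J(-(M : ℤ) | n) = J(n | M) := by
  have hno : Odd n := Nat.odd_iff.mpr hn
  have hMo : Odd M := Nat.odd_iff.mpr (by omega)
  rw [jacobiSym.neg _ hno]
  rcases (by omega : n % 4 = 1 ∨ n % 4 = 3) with h | h
  · rw [ZMod.χ₄_nat_one_mod_four h, one_mul,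
      ← jacobiSym.quadratic_reciprocity_one_mod_four h hMo]
  · rw [ZMod.χ₄_nat_three_mod_four h, jacobiSym.quadratic_reciprocity_three_mod_four (by omega) h]
    ring

lemma jac_of_root {M n : ℕ} (hM : M % 8 = 3) (hn : n % 2 = 1) (hco : n.Coprime M) {s : ℤ}
    (h : (n : ℤ) ∣ s * s + M) : J(n | M) = 1 := by
  rw [← jac_neg hM hn]
  have h1 : (-(M : ℤ)) % n = (s ^ 2) % n := by
    have : (n : ℤ) ∣ s ^ 2 - (-(M : ℤ)) := by
      have e : s ^ 2 - (-(M : ℤ)) = s * s + M := by ring
      rwa [e]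
    exact Int.ModEq.symm (Int.modEq_of_dvd this |>.symm)
  rw [jacobiSym.mod_left' h1]
  apply jacobiSym.sq_one'
  rw [← Int.isCoprime_iff_gcd_eq_one]
  have hc : IsCoprime (M : ℤ) (n : ℤ) := (Nat.isCoprime_iff_coprime.mpr hco).symm
  have h2 : IsCoprime (s * s) (n : ℤ) := by
    obtain ⟨k, hk⟩ := h
    have e : s * s = -(M : ℤ) + n * k := by linarith
    rw [e]
    exact (IsCoprime.add_mul_left_left_iff).mpr (hc.neg_left)
  exact IsCoprime.of_mul_left_left h2

lemma root_of_jac {M p : ℕ} (hM : M % 8 = 3) [Fact p.Prime] (hp2 : p ≠ 2) (h : J(p | M) = 1) :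
    ∃ r : ZMod p, r * r = -((M : ℤ) : ZMod p) ∧ r ≠ 0 := by
  have hp : p.Prime := Fact.out
  have hpodd : p % 2 = 1 := hp.eq_two_or_odd.resolve_left hp2
  rw [← jac_neg hM hpodd, ← jacobiSym.legendreSym.to_jacobiSym] at h
  have h0 : ((-(M : ℤ) : ℤ) : ZMod p) ≠ 0 := by
    intro h0
    rw [(legendreSym.eq_zero_iff p _).mpr h0] at h
    norm_num at h
  rw [legendreSym.eq_one_iff p h0] at h
  obtain ⟨r, hr⟩ := h
  refine ⟨r, ?_, ?_⟩
  · rw [← hr]; push_cast; rfl
  · rintro rfl
    rw [hr] at h0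
    simp at h0

lemma jchar_neg_one {M : ℕ} [NeZero M] (hM : M % 8 = 3) : jchar M (-1) = -1 := by
  have h1 : (-1 : ZMod M) = ((M - 1 : ℕ) : ZMod M) := by
    rw [Nat.cast_sub (by omega)]; simp
  rw [h1, jchar_apply]
  have h2 : ((M - 1 : ℕ) : ℤ) % M = (-1) % M := by
    rw [Nat.cast_sub (by omega)]
    push_cast
    rw [show ((M : ℤ) - 1) = -1 + M by ring, Int.add_emod_right]
  rw [jacobiSym.mod_left' h2, jacobiSym.at_neg_one (Nat.odd_iff.mpr (by omega)),
    ZMod.χ₄_nat_three_mod_four (by omega)]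
  norm_num

lemma jchar_two {M : ℕ} [NeZero M] (hM : M % 8 = 3) : jchar M 2 = -1 := by
  have h1 : (2 : ZMod M) = ((2 : ℕ) : ZMod M) := by norm_num
  rw [h1, jchar_apply]
  have : J(((2 : ℕ) : ℤ) | M) = -1 := by
    have e : (((2 : ℕ) : ℤ)) = 2 := rfl
    rw [e, jacobiSym.at_two (Nat.odd_iff.mpr (by omega)), ZMod.χ₈_nat_eq_if_mod_eight]
    rw [if_neg (by omega), if_neg (by omega)]
  rw [this]
  norm_num

lemma jchar_ne_one {M : ℕ} [NeZero M] (hM : M % 8 = 3) : jchar M ≠ 1 := by
  intro h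
  have h2 := jchar_two hM
  rw [h] at h2
  have h3 : IsUnit (2 : ZMod M) := by
    have : (2 : ZMod M) = ((2 : ℕ) : ZMod M) := by norm_num
    rw [this, ZMod.isUnit_iff_coprime]
    exact (Nat.coprime_primes Nat.prime_two Nat.prime_two |> fun _ => by
      rw [Nat.Prime.coprime_iff_not_dvd Nat.prime_two]
      omega)
  rw [MulChar.one_apply h3] at h2
  norm_num at h2

lemma jchar_mul_ne_one {M₁ M₂ : ℕ} [NeZero M₁] [NeZero M₂] (h1 : M₁ % 8 = 3) (h2 : M₂ % 8 = 3)
    (h71 : M₁ % 7 = 1) (h72 : M₂ % 7 = 3) : jchar (M₁ * M₂) ≠ 1 := by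
  intro h
  have h8 : (M₁ * M₂) % 8 = 1 := by rw [Nat.mul_mod, h1, h2]
  have h7 : (M₁ * M₂) % 7 = 3 := by rw [Nat.mul_mod, h71, h72]
  have h3 : jchar (M₁ * M₂) ((7 : ℕ) : ZMod (M₁ * M₂)) = -1 := by
    rw [jchar_apply]
    have h4 : J(((7 : ℕ) : ℤ) | M₁ * M₂) = J(((M₁ * M₂ : ℕ) : ℤ) | 7) := by
      rw [← jacobiSym.quadratic_reciprocity_one_mod_four (by omega) (by decide : Odd 7)]
    rw [h4]
    have h5 : ((M₁ * M₂ : ℕ) : ℤ) % ((7 : ℕ) : ℤ) = 3 % ((7 : ℕ) : ℤ) := by omega
    rw [jacobiSym.mod_left' h5]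
    have : J(3 | 7) = -1 := by norm_num
    rw [this]
    norm_num
  rw [h] at h3
  have h6 : IsUnit (((7 : ℕ) : ZMod (M₁ * M₂))) := by
    rw [ZMod.isUnit_iff_coprime, Nat.Prime.coprime_iff_not_dvd (by norm_num)]
    omega
  rw [MulChar.one_apply h6] at h3
  norm_num at h3

/-! ### The number of good residues -/

lemma card_nonsq {p : ℕ} [Fact p.Prime] (hp2 : p ≠ 2) :
    2 * (Finset.univ.filter (fun y : ZMod p => quadraticChar (ZMod p) y = -1)).card + 1 = p := by
  have hchar : ringChar (ZMod p) ≠ 2 := by rw [ZMod.ringChar_zmod_n]; exact hp2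
  have h1 := quadraticChar_sum_zero hchar
  have h2 : ∀ y : ZMod p, quadraticChar (ZMod p) y = 1 - (if y = 0 then 1 else 0) -
      2 * (if quadraticChar (ZMod p) y = -1 then 1 else 0) := by
    intro y
    by_cases hy : y = 0
    · rw [hy]; simp
    · rcases quadraticChar_dichotomy hy with h | h <;> rw [h] <;> simp [hy]
  rw [Finset.sum_congr rfl (fun y _ => h2 y)] at h1
  rw [Finset.sum_sub_distrib, Finset.sum_sub_distrib, ← Finset.mul_sum, Finset.sum_ite_eq' ] at h1
  simp only [Finset.sum_const, Finset.card_univ, ZMod.card, Finset.mem_univ, if_true,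
    Finset.sum_boole, nsmul_eq_mul, mul_one] at h1
  push_cast at h1
  omega

/-- the good residues modulo `p` -/
def goodRes (p : ℕ) [Fact p.Prime] (r : ZMod p) : Finset (ZMod p) :=
  Finset.univ.filter (fun z => quadraticChar (ZMod p) (z + r) * quadraticChar (ZMod p) (z - r) = -1)

lemma card_goodRes {p : ℕ} [Fact p.Prime] (hp2 : p ≠ 2) {r : ZMod p} (hr : r ≠ 0) :
    p ≤ 2 * (goodRes p r).card + 1 := by
  have hp : p.Prime := Fact.out
  have h1 := card_nonsq hp2
  have h2p : (2 : ZMod p) ≠ 0 := by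
    intro h
    have : ((2 : ℕ) : ZMod p) = 0 := by exact_mod_cast h
    rw [ZMod.natCast_eq_zero_iff] at this
    exact hp2 ((Nat.prime_dvd_prime_iff_eq hp Nat.prime_two).mp this)
  suffices h : (Finset.univ.filter (fun y : ZMod p => quadraticChar (ZMod p) y = -1)).card ≤
      (goodRes p r).card by omega
  refine Finset.card_le_card_of_injOn (fun y => r * (y + 1) / (y - 1)) ?_ ?_
  · intro y hy
    have hy' : quadraticChar (ZMod p) y = -1 := by simpa using hy
    have hy1 : y - 1 ≠ 0 := by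
      intro h
      rw [sub_eq_zero.mp h] at hy'
      simp at hy'
    have e1 : r * (y + 1) / (y - 1) + r = 2 * r / (y - 1) * y := by field_simp; ring
    have e2 : r * (y + 1) / (y - 1) - r = 2 * r / (y - 1) := by field_simp; ring
    have h3 : 2 * r / (y - 1) ≠ 0 := div_ne_zero (mul_ne_zero h2p hr) hy1
    have h4 : r * (y + 1) / (y - 1) ∈ goodRes p r := by
      rw [goodRes, Finset.mem_filter]
      refine ⟨Finset.mem_univ _, ?_⟩
      rw [e1, e2, map_mul, hy']
      have h5 := quadraticChar_sq_one h3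
      linear_combination -h5
    exact h4
  · intro y hy y' hy' hyy
    have hy1 : quadraticChar (ZMod p) y = -1 := by simpa using hy
    have hy1' : quadraticChar (ZMod p) y' = -1 := by simpa using hy'
    have hy2 : y - 1 ≠ 0 := by
      intro h
      rw [sub_eq_zero.mp h] at hy1
      simp at hy1
    have hy2' : y' - 1 ≠ 0 := by
      intro h
      rw [sub_eq_zero.mp h] at hy1'
      simp at hy1'
    simp only at hyy
    rw [div_eq_div_iff hy2 hy2'] at hyy
    have h3 : (2 * r) * (y - y') = 0 := by linear_combination -hyy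
    rcases mul_eq_zero.mp h3 with h | h
    · exact absurd h (mul_ne_zero h2p hr)
    · exact sub_eq_zero.mp h

/-- Number of `z < Z` in the good classes. -/
lemma count_good {p : ℕ} [Fact p.Prime] (hp2 : p ≠ 2) {r : ZMod p} (hr : r ≠ 0) (Z : ℕ)
    (hZ : 8 * p ≤ Z) (hp16 : 16 ≤ p) :
    Z ≤ 3 * ((Finset.range Z).filter (fun z => ((z : ℕ) : ZMod p) ∈ goodRes p r)).card := by
  have hpp : 0 < p := (Fact.out : p.Prime).pos
  set q := Z / p with hq
  have h1 : q * (goodRes p r).card ≤
      ((Finset.range Z).filter (fun z => ((z : ℕ) : ZMod p) ∈ goodRes p r)).card := by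
    have : (Finset.range q ×ˢ goodRes p r).card ≤
      ((Finset.range Z).filter (fun z => ((z : ℕ) : ZMod p) ∈ goodRes p r)).card := by
      refine Finset.card_le_card_of_injOn (fun x => x.2.val + p * x.1) ?_ ?_
      · rintro ⟨i, y⟩ hx
        rw [Finset.mem_coe, Finset.mem_product, Finset.mem_range] at hx
        obtain ⟨hi, hy⟩ := hx
        simp only at hi hy
        rw [Finset.mem_coe, Finset.mem_filter, Finset.mem_range]
        constructor
        · have h2 := ZMod.val_lt y
          have h3 : p * (i + 1) ≤ p * q := Nat.mul_le_mul_left _ hi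
          have h4 : p * q ≤ Z := Nat.mul_div_le Z p
          nlinarith
        · simp only
          push_cast
          rw [ZMod.natCast_zmod_val, ZMod.natCast_self, zero_mul, add_zero]
          exact hy
      · rintro ⟨i, y⟩ hx ⟨i', y'⟩ hx' h
        simp only at h
        have h2 := ZMod.val_lt y
        have h3 := ZMod.val_lt y'
        have h4 : (y.val + p * i) % p = (y'.val + p * i') % p := by rw [h]
        rw [Nat.add_mul_mod_self_left, Nat.add_mul_mod_self_left, Nat.mod_eq_of_lt h2,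
          Nat.mod_eq_of_lt h3] at h4
        have h5 : y = y' := ZMod.val_injective p h4
        subst h5
        have h6 : p * i = p * i' := by omega
        have h7 : i = i' := Nat.eq_of_mul_eq_mul_left hpp h6
        rw [h7]
    rwa [Finset.card_product, Finset.card_range] at this
  have h2 := card_goodRes hp2 hr
  have h3 : Z < p * (q + 1) := by
    rw [mul_comm]
    exact Nat.lt_mul_of_div_lt (Nat.lt_succ_self _) hpp
  have h4 : 8 ≤ q := (Nat.le_div_iff_mul_le hpp).mpr hZ
  nlinarith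

end Pool.Agent.H79.Tet
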