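import Mathlib
import Pool.Agent.H79.Tet.Alg5

/-!
# Uniform digits: counting lemmas
-/

namespace Pool.Agent.H79.Tet

open Finset

/-- Splitting a uniform number into a low and a high part. -/
lemma sum_split {R : Type*} [AddCommMonoid R] (A X : ℕ) (f : ℕ → ℕ → R) :
    ∑ v ∈ range (A * X), f (v % A) (v / A) = ∑ x ∈ range X, ∑ a ∈ range A, f a x := by
  induction X with
  | zero => simp
  | succ X ih =>
    rw [Nat.mul_succ, Finset.sum_range_add, ih, Finset.sum_range_succ]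
    congr 1
    refine Finset.sum_congr rfl (fun a ha => ?_)
    have ha' : a < A := Finset.mem_range.mp ha
    have hA : 0 < A := by omega
    rw [Nat.mul_add_mod, Nat.mod_eq_of_lt ha', Nat.mul_add_div hA, Nat.div_eq_of_lt ha', add_zero]

lemma sum_split' {R : Type*} [AddCommMonoid R] (A X : ℕ) (f : ℕ → ℕ → R) :
    ∑ v ∈ range (A * X), f (v % A) (v / A) = ∑ a ∈ range A, ∑ x ∈ range X, f a x := by
  rw [sum_split, Finset.sum_comm]

/-- reduction modulo a divisor of the range -/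
lemma sum_mod {R : Type*} [AddCommMonoid R] (A X : ℕ) (f : ℕ → R) :
    ∑ v ∈ range (A * X), f (v % A) = X • ∑ a ∈ range A, f a := by
  rw [sum_split A X (fun a _ => f a), Finset.sum_const, Finset.card_range]

/-- The digits of a uniform number. -/
lemma sum_dig {R : Type*} [AddCommMonoid R] (Λ : ℕ) (P : ℕ → ℕ → ℕ → ℕ → R) :
    ∑ w ∈ range (DD Λ), P (w % 2) (de Λ w) (dn Λ w) (dz Λ w) =
      ∑ c ∈ range 2, ∑ e ∈ range (KK Λ), 2 ^ (KK Λ - e) • ∑ m ∈ range (2 ^ e),
        ∑ z ∈ range (2 ^ (2 * KK Λ)), P c e (2 ^ e + m) z := by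
  set K := KK Λ with hK
  have h1 : DD Λ = 2 * (K * (2 ^ K * 2 ^ (2 * K))) := by rw [DD_eq]; ring
  rw [h1]
  -- name the function of the four components
  have h2 : ∀ w : ℕ, P (w % 2) (de Λ w) (dn Λ w) (dz Λ w) =
      (fun (c w' : ℕ) => (fun (e w'' : ℕ) => (fun (n z : ℕ) => P c e (2 ^ e + n % 2 ^ e) z)
        (w'' % 2 ^ K) (w'' / 2 ^ K)) (w' % K) (w' / K)) (w % 2) (w / 2) := by
    intro w
    simp only
    have he : w / 2 % K ≤ K := (Nat.mod_lt _ (KK_pos Λ)).le
    have : w / 2 / K % 2 ^ K % 2 ^ (w / 2 % K) = w / 2 / K % 2 ^ (w / 2 % K) :=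
      Nat.mod_mod_of_dvd _ (pow_dvd_pow 2 he)
    rw [this]
    rfl
  rw [Finset.sum_congr rfl (fun w _ => h2 w), sum_split' 2 (K * (2 ^ K * 2 ^ (2 * K)))
    (fun (c w' : ℕ) => (fun (e w'' : ℕ) => (fun (n z : ℕ) => P c e (2 ^ e + n % 2 ^ e) z)
        (w'' % 2 ^ K) (w'' / 2 ^ K)) (w' % K) (w' / K))]
  refine Finset.sum_congr rfl (fun c _ => ?_)
  rw [sum_split' K (2 ^ K * 2 ^ (2 * K)) (fun (e w'' : ℕ) =>
    (fun (n z : ℕ) => P c e (2 ^ e + n % 2 ^ e) z) (w'' % 2 ^ K) (w'' / 2 ^ K))]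
  refine Finset.sum_congr rfl (fun e he => ?_)
  have he' : e ≤ K := (Finset.mem_range.mp he).le
  rw [sum_split' (2 ^ K) (2 ^ (2 * K)) (fun (n z : ℕ) => P c e (2 ^ e + n % 2 ^ e) z)]
  have h3 : 2 ^ K = 2 ^ e * 2 ^ (K - e) := by rw [← pow_add]; congr 1; omega
  conv_lhs => rw [h3]
  rw [sum_mod (2 ^ e) (2 ^ (K - e)) (fun a => ∑ z ∈ range (2 ^ (2 * K)), P c e (2 ^ e + a) z)]

/-- counting version -/
lemma card_dig (Λ : ℕ) (P : ℕ → ℕ → ℕ → ℕ → Prop) [∀ a b c d, Decidable (P a b c d)] :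
    ((range (DD Λ)).filter (fun w => P (w % 2) (de Λ w) (dn Λ w) (dz Λ w))).card =
      ∑ c ∈ range 2, ∑ e ∈ range (KK Λ), 2 ^ (KK Λ - e) * ∑ m ∈ range (2 ^ e),
        ((range (2 ^ (2 * KK Λ))).filter (fun z => P c e (2 ^ e + m) z)).card := by
  rw [Finset.card_filter, sum_dig Λ (fun a b c d => if P a b c d then 1 else 0)]
  simp only [Finset.card_filter, smul_eq_mul]

/-- lower bound by one term -/
lemma card_dig_ge (Λ : ℕ) (P : ℕ → ℕ → ℕ → ℕ → Prop) [∀ a b c d, Decidable (P a b c d)]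
    (n₀ e₀ : ℕ) (h1 : 2 ^ e₀ ≤ n₀) (h2 : n₀ < 2 ^ (e₀ + 1)) (he : e₀ < KK Λ) :
    2 ^ KK Λ * ∑ c ∈ range 2, ((range (2 ^ (2 * KK Λ))).filter (fun z => P c e₀ n₀ z)).card ≤
      n₀ * ((range (DD Λ)).filter (fun w => P (w % 2) (de Λ w) (dn Λ w) (dz Λ w))).card := by
  rw [card_dig]
  have h3 : 2 ^ KK Λ = 2 ^ e₀ * 2 ^ (KK Λ - e₀) := by rw [← pow_add]; congr 1; omega
  rw [h3, mul_assoc]
  refine Nat.mul_le_mul h1 ?_
  rw [Finset.mul_sum]
  refine Finset.sum_le_sum (fun c _ => ?_)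
  refine le_trans ?_ (Finset.single_le_sum (f := fun e => 2 ^ (KK Λ - e) * ∑ m ∈ range (2 ^ e),
        ((range (2 ^ (2 * KK Λ))).filter (fun z => P c e (2 ^ e + m) z)).card)
    (fun _ _ => Nat.zero_le _) (Finset.mem_range.mpr he))
  refine Nat.mul_le_mul_left _ ?_
  have h4 : n₀ - 2 ^ e₀ ∈ range (2 ^ e₀) := by
    rw [Finset.mem_range, pow_succ] at *
    omega
  refine le_trans ?_ (Finset.single_le_sum (f := fun m =>
        ((range (2 ^ (2 * KK Λ))).filter (fun z => P c e₀ (2 ^ e₀ + m) z)).card)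
    (fun _ _ => Nat.zero_le _) h4)
  rw [show 2 ^ e₀ + (n₀ - 2 ^ e₀) = n₀ by omega]

/-- Few digits give a multiple of `q`. -/
lemma card_dig_dvd (Λ q B : ℕ) (hB : B ≤ 2 ^ (Λ ^ 2)) (hq : B ≤ q) (hB0 : 0 < B) :
    B * ((range (DD Λ)).filter (fun w => Λ ^ 2 ≤ de Λ w ∧ q ∣ dn Λ w)).card ≤ 2 * DD Λ := by
  have hq0 : 0 < q := by omega
  rw [card_dig Λ (fun _ e n _ => Λ ^ 2 ≤ e ∧ q ∣ n), Finset.mul_sum]
  have h1 : ∀ c ∈ range 2, B * ∑ e ∈ range (KK Λ), 2 ^ (KK Λ - e) * ∑ m ∈ range (2 ^ e),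
      ((range (2 ^ (2 * KK Λ))).filter (fun z => Λ ^ 2 ≤ e ∧ q ∣ 2 ^ e + m)).card ≤
      KK Λ * (2 ^ KK Λ * 2 ^ (2 * KK Λ) * 2) := by
    intro c _
    rw [Finset.mul_sum]
    refine (Finset.sum_le_card_nsmul _ _ (2 ^ KK Λ * 2 ^ (2 * KK Λ) * 2) ?_).trans ?_
    · intro e he
      have he' : e < KK Λ := Finset.mem_range.mp he
      by_cases hle : Λ ^ 2 ≤ e
      · have h3 : 2 ^ KK Λ = 2 ^ e * 2 ^ (KK Λ - e) := by rw [← pow_add]; congr 1; omega
        have h4 : ∀ m ∈ range (2 ^ e), ((range (2 ^ (2 * KK Λ))).filter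
            (fun z => Λ ^ 2 ≤ e ∧ q ∣ 2 ^ e + m)).card =
            (if q ∣ 2 ^ e + m then 1 else 0) * 2 ^ (2 * KK Λ) := by
          intro m _
          by_cases hd : q ∣ 2 ^ e + m
          · simp [hle, hd]
          · simp [hd]
        rw [Finset.sum_congr rfl h4, ← Finset.sum_mul, ← Finset.card_filter]
        have h5 : B * ((range (2 ^ e)).filter (fun m => q ∣ 2 ^ e + m)).card ≤ 2 * 2 ^ e := by
          have h6 : ((range (2 ^ e)).filter (fun m => q ∣ 2 ^ e + m)).card ≤ 2 ^ e / q + 1 := by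
            have h7 : ((range (2 ^ e)).filter (fun m => q ∣ 2 ^ e + m)).card ≤
                (range (2 ^ e / q + 1)).card := by
              refine Finset.card_le_card_of_injOn (fun m => m / q) ?_ ?_
              · intro m hm
                rw [Finset.mem_coe, Finset.mem_filter, Finset.mem_range] at hm
                rw [Finset.mem_coe, Finset.mem_range]
                exact Nat.lt_succ_of_le (Nat.div_le_div_right hm.1.le)
              · intro m hm m' hm' heq
                rw [Finset.mem_coe, Finset.mem_filter, Finset.mem_range] at hm hm'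
                simp only at heq
                have e1 : m % q = m' % q := by
                  have := (Nat.modEq_iff_dvd' (a := 2 ^ e + m) (b := 2 ^ e + m') (n := q))
                  have h8 : (2 ^ e + m) % q = (2 ^ e + m') % q := by
                    rw [Nat.mod_eq_zero_of_dvd hm.2, Nat.mod_eq_zero_of_dvd hm'.2]
                  exact Nat.ModEq.add_left_cancel' _ h8
                rw [← Nat.div_add_mod m q, ← Nat.div_add_mod m' q, heq, e1]
            rwa [Finset.card_range] at h7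
          have h8 : B * (2 ^ e / q) ≤ 2 ^ e := by
            calc B * (2 ^ e / q) ≤ q * (2 ^ e / q) := Nat.mul_le_mul_right _ hq
              _ ≤ 2 ^ e := Nat.mul_div_le _ _
          have h9 : B ≤ 2 ^ e := hB.trans (Nat.pow_le_pow_right (by norm_num) hle)
          calc B * ((range (2 ^ e)).filter (fun m => q ∣ 2 ^ e + m)).card
              ≤ B * (2 ^ e / q + 1) := Nat.mul_le_mul_left _ h6
            _ = B * (2 ^ e / q) + B := by ring
            _ ≤ 2 * 2 ^ e := by omega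
        calc B * (2 ^ (KK Λ - e) * (((range (2 ^ e)).filter (fun m => q ∣ 2 ^ e + m)).card
              * 2 ^ (2 * KK Λ)))
            = (B * ((range (2 ^ e)).filter (fun m => q ∣ 2 ^ e + m)).card) *
              (2 ^ (KK Λ - e) * 2 ^ (2 * KK Λ)) := by ring
          _ ≤ (2 * 2 ^ e) * (2 ^ (KK Λ - e) * 2 ^ (2 * KK Λ)) := Nat.mul_le_mul_right _ h5
          _ = 2 ^ KK Λ * 2 ^ (2 * KK Λ) * 2 := by rw [h3]; ring
      · have h4 : ∀ m ∈ range (2 ^ e), ((range (2 ^ (2 * KK Λ))).filter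
            (fun z => Λ ^ 2 ≤ e ∧ q ∣ 2 ^ e + m)).card = 0 := by
          intro m _
          simp [hle]
        rw [Finset.sum_congr rfl h4]
        simp
    · rw [Finset.card_range, smul_eq_mul]
  refine (Finset.sum_le_sum h1).trans ?_
  rw [Finset.sum_const, Finset.card_range, smul_eq_mul, DD_eq]
  apply le_of_eq
  ring

/-- low digits are unchanged by dropping the high ones -/
lemma dg_mod (Λ V i m : ℕ) (h : i < m) : dg Λ (V % DD Λ ^ m) i = dg Λ V i := by
  unfold dg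
  have h1 : DD Λ ^ m = DD Λ ^ i * DD Λ ^ (m - i) := by rw [← pow_add]; congr 1; omega
  rw [h1, Nat.mod_mul_right_div_self]
  exact Nat.mod_mod_of_dvd _ (dvd_pow_self _ (by omega))

/-- product formula for independent digits -/
lemma sum_prod_dg {R : Type*} [CommSemiring R] (Λ : ℕ) (g : ℕ → R) (m : ℕ) :
    ∑ V ∈ range (DD Λ ^ m), ∏ i ∈ range m, g (dg Λ V i) = (∑ w ∈ range (DD Λ), g w) ^ m := by
  induction m with
  | zero => simp
  | succ m ih =>
    have h1 : ∀ V ∈ range (DD Λ ^ (m + 1)), ∏ i ∈ range (m + 1), g (dg Λ V i) =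
        (fun V' w => (∏ i ∈ range m, g (dg Λ V' i)) * g w) (V % DD Λ ^ m) (V / DD Λ ^ m) := by
      intro V hV
      rw [Finset.mem_range] at hV
      rw [Finset.prod_range_succ]
      simp only
      congr 1
      · refine Finset.prod_congr rfl (fun i hi => ?_)
        rw [dg_mod _ _ _ _ (Finset.mem_range.mp hi)]
      · unfold dg
        rw [Nat.mod_eq_of_lt]
        rw [Nat.div_lt_iff_lt_mul (by have := DD_pos Λ; positivity)]
        rwa [pow_succ, mul_comm] at hV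
    rw [Finset.sum_congr rfl h1, pow_succ, sum_split' (DD Λ ^ m) (DD Λ)
      (fun V' w => (∏ i ∈ range m, g (dg Λ V' i)) * g w)]
    simp only [← Finset.mul_sum]
    rw [← Finset.sum_mul, ih, ← pow_succ]

end Pool.Agent.H79.Tet
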