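import Mathlib
import Pool.Agent.H79.Tet.Walk1
import Pool.Agent.H79.Tet.NT7

/-!
# Accepted digits
-/

namespace Pool.Agent.H79.Tet

open Finset
open scoped NumberTheorySymbols Nat

/-- the standing hypotheses on the size parameter `Λ` and the number `M` -/
structure Par (Λ M : ℕ) : Prop where
  hΛ : 3 ≤ Λ
  hΛ2 : Λ ^ 200 ≤ 2 ^ Λ
  hM : M % 8 = 3
  hM2 : M ≤ 2 ^ Λ

namespace Par

set_option exponentiation.threshold 1000

variable {Λ M : ℕ} (h : Par Λ M)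
include h

lemma ge200 : 200 ≤ Λ := by
  by_contra hcon
  have h1 : 3 ^ 200 ≤ Λ ^ 200 := Nat.pow_le_pow_left h.hΛ 200
  have h2 : 2 ^ Λ ≤ 2 ^ 200 := Nat.pow_le_pow_right (by norm_num) (by omega)
  have h3 : (2 : ℕ) ^ 200 < 3 ^ 200 := by norm_num
  have h4 := h.hΛ2
  omega

lemma M_pos : 0 < M := by have := h.hM; omega

lemma sq_ge : 5 * Λ + 10 ≤ Λ ^ 2 := by
  have := h.ge200
  nlinarith

lemma pow_le (j c : ℕ) (hj : j ≤ 200 * c) : Λ ^ j ≤ 2 ^ (c * Λ) := by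
  calc Λ ^ j ≤ Λ ^ (200 * c) := Nat.pow_le_pow_right (by have := h.hΛ; omega) hj
    _ = (Λ ^ 200) ^ c := by rw [pow_mul]
    _ ≤ (2 ^ Λ) ^ c := Nat.pow_le_pow_left h.hΛ2 c
    _ = 2 ^ (c * Λ) := by rw [← pow_mul, mul_comm]

lemma B_le : BB Λ ≤ 2 ^ (Λ ^ 2) := by
  rw [BB_eq]
  refine (h.pow_le 820 5 (by norm_num)).trans (Nat.pow_le_pow_right (by norm_num) ?_)
  have := h.sq_ge
  omega

lemma B_ge : 2 ≤ BB Λ := by
  rw [BB_eq]
  have h1 : Λ ^ 1 ≤ Λ ^ 820 := Nat.pow_le_pow_right (by have := h.hΛ; omega) (by norm_num)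
  rw [pow_one] at h1
  have := h.hΛ
  omega

lemma K_eq : KK Λ = Λ ^ 202 := KK_eq (by have := h.hΛ; omega)

lemma K_big : 3 * Λ ^ 201 ≤ KK Λ := by
  rw [h.K_eq, pow_succ]
  have := h.hΛ
  nlinarith [Nat.zero_le (Λ ^ 201)]

lemma p_facts {p : ℕ} (hp : p ∈ gp Λ M) : p.Prime ∧ BB Λ < p ∧ M < p ∧ 16 ≤ p ∧
    8 * p ≤ 2 ^ (2 * KK Λ) ∧ p ≠ 2 ∧ J(p | M) = 1 ∧ 2 ^ (Λ ^ 2) ≤ p ∧ p < 2 ^ KK Λ ∧ 8 * M ≤ p := by
  unfold gp at hp
  rw [mem_goodPrimes] at hp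
  obtain ⟨h1, h2, h3, h4⟩ := hp
  have hsq := h.sq_ge
  have e1 : 2 ^ (Λ + 3) ≤ 2 ^ (Λ ^ 2) := Nat.pow_le_pow_right (by norm_num) (by omega)
  have e2 : 2 ^ 4 ≤ 2 ^ (Λ ^ 2) := Nat.pow_le_pow_right (by norm_num) (by omega)
  have e3 := h.hM2
  have e4 := h.M_pos
  have e5 : BB Λ < 2 ^ (Λ ^ 2) := by
    rw [BB_eq]
    refine lt_of_le_of_lt (h.pow_le 820 5 (by norm_num)) (Nat.pow_lt_pow_right (by norm_num) ?_)
    omega
  have e6 : 1 ≤ Λ ^ 201 := Nat.one_le_pow _ _ (by have := h.hΛ; omega)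
  have e7 := h.K_big
  have e8 : 2 ^ (Λ ^ 201) * 8 ≤ 2 ^ (2 * KK Λ) := by
    rw [show (8 : ℕ) = 2 ^ 3 by norm_num, ← pow_add]
    exact Nat.pow_le_pow_right (by norm_num) (by omega)
  have e9 : 2 ^ (Λ ^ 201) < 2 ^ KK Λ := Nat.pow_lt_pow_right (by norm_num) (by omega)
  have e10 : 2 ^ (Λ + 3) = 2 ^ Λ * 8 := by rw [pow_add]; norm_num
  refine ⟨h2, by omega, by omega, by omega, by omega, by omega, h4, h3, by omega, by omega⟩

/-- consequences of acceptance -/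
lemma ok_facts {w : ℕ} (hok : Ok Λ M w) : Λ ^ 2 ≤ de Λ w ∧ (dn Λ w).Coprime M ∧
    (dn Λ w).Coprime (BB Λ)! ∧ dn Λ w % 2 = 1 ∧ J(dn Λ w | M) = 1 ∧
    ((dn Λ w : ℕ) : ℤ) ∣ rt M (dz Λ w) (dn Λ w) * rt M (dz Λ w) (dn Λ w) + M := by
  obtain ⟨⟨h1, h2⟩, h3, h4⟩ := hok
  have hn : (0 : ℤ) < ((dn Λ w : ℕ) : ℤ) := by exact_mod_cast dn_pos _ _
  rw [gcdz_eq hn] at h3
  have h5 : Nat.gcd (M * (BB Λ) !) (dn Λ w) = 1 := by
    have : Int.gcd ((M : ℤ) * ((BB Λ) ! : ℕ)) ((dn Λ w : ℕ) : ℤ) = Nat.gcd (M * (BB Λ) !) (dn Λ w) := by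
      rw [← Nat.cast_mul, Int.gcd_natCast_natCast]
    rw [this] at h3
    exact_mod_cast h3
  have h6 : (dn Λ w).Coprime (M * (BB Λ) !) := (Nat.coprime_comm.mp h5)
  have h7 : (dn Λ w).Coprime M := Nat.Coprime.coprime_mul_right_right h6
  have h8 : (dn Λ w).Coprime (BB Λ)! := Nat.Coprime.coprime_mul_left_right h6
  have h9 : dn Λ w % 2 = 1 := by
    by_contra hcon
    have h10 : 2 ∣ dn Λ w := by omega
    have h11 : 2 ∣ (BB Λ) ! := (Nat.prime_two.dvd_factorial).mpr h.B_ge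
    have := Nat.dvd_gcd h10 h11
    rw [h8] at this
    omega
  have h12 : ((dn Λ w : ℕ) : ℤ) ∣ rt M (dz Λ w) (dn Λ w) * rt M (dz Λ w) (dn Λ w) + M :=
    Int.dvd_of_emod_eq_zero h4
  exact ⟨h2, h7, h8, h9, jac_of_root h.hM h9 h7 h12, h12⟩

/-- primes are accepted when the auxiliary element is in a good class -/
lemma ok_prime {p : ℕ} (hp : p ∈ gp Λ M) [Fact p.Prime] {r : ZMod p}
    (hr : r * r = -((M : ℤ) : ZMod p)) (hr0 : r ≠ 0) {w : ℕ} (h1 : w % 2 = 1)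
    (hn : dn Λ w = p) (hz : ((dz Λ w : ℕ) : ZMod p) ∈ goodRes p r) : Ok Λ M w := by
  obtain ⟨q1, q2, q3, q4, q5, q6, q7, q8, q9, q10⟩ := h.p_facts hp
  refine ⟨⟨h1, ?_⟩, ?_, ?_⟩
  · have h2 := dn_lt Λ w
    rw [hn] at h2
    have h3 : 2 ^ (Λ ^ 2) < 2 ^ (de Λ w + 1) := lt_of_le_of_lt q8 h2
    have := (Nat.pow_lt_pow_iff_right (by norm_num : 1 < 2)).mp h3
    omega
  · rw [hn, gcdz_eq (by exact_mod_cast q1.pos)]
    have h2 : Int.gcd ((M : ℤ) * ((BB Λ) ! : ℕ)) ((p : ℕ) : ℤ) = Nat.gcd (M * (BB Λ) !) p := by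
      rw [← Nat.cast_mul, Int.gcd_natCast_natCast]
    rw [h2]
    have h3 : p.Coprime M := Nat.coprime_of_lt_prime h.M_pos.ne' q3 q1
    have h4 : p.Coprime (BB Λ)! := q1.coprime_factorial_of_lt q2
    have h5 : Nat.gcd (M * (BB Λ) !) p = 1 := Nat.coprime_comm.mp (Nat.Coprime.mul_right h3 h4)
    rw [h5]
    norm_num
  · rw [hn]
    have hz' : quadraticChar (ZMod p) (((dz Λ w : ℕ) : ZMod p) + r) *
        quadraticChar (ZMod p) (((dz Λ w : ℕ) : ZMod p) - r) = -1 := by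
      unfold goodRes at hz
      exact (Finset.mem_filter.mp hz).2
    have := rt_prime q6 hr hr0 (z := ((dz Λ w : ℕ) : ℤ)) (by push_cast; exact hz')
    exact Int.emod_eq_zero_of_dvd this

/-- Number of digits giving a good prime. -/
lemma count_prime {p : ℕ} (hp : p ∈ gp Λ M) :
    DD Λ ≤ 6 * KK Λ * p * ((range (DD Λ)).filter (fun w => Ok Λ M w ∧ dn Λ w = p)).card := by
  obtain ⟨q1, q2, q3, q4, q5, q6, q7, q8, q9, q10⟩ := h.p_facts hp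
  have : Fact p.Prime := ⟨q1⟩
  obtain ⟨r, hr, hr0⟩ := root_of_jac h.hM q6 q7
  have hlog : Nat.log 2 p < KK Λ := by
    rw [← Nat.pow_lt_pow_iff_right (by norm_num : 1 < 2)]
    exact lt_of_le_of_lt (Nat.pow_log_le_self 2 q1.pos.ne') q9
  have h1 := card_dig_ge Λ (fun c _ n z => c = 1 ∧ n = p ∧ ((z : ℕ) : ZMod p) ∈ goodRes p r)
    p (Nat.log 2 p) (Nat.pow_log_le_self 2 q1.pos.ne') (Nat.lt_pow_succ_log_self (by norm_num) p)
    hlog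
  have h2 := count_good q6 hr0 (2 ^ (2 * KK Λ)) q5 q4
  have h3 : ∑ c ∈ range 2, ((range (2 ^ (2 * KK Λ))).filter
      (fun z => c = 1 ∧ p = p ∧ ((z : ℕ) : ZMod p) ∈ goodRes p r)).card =
      ((range (2 ^ (2 * KK Λ))).filter (fun z => ((z : ℕ) : ZMod p) ∈ goodRes p r)).card := by
    rw [Finset.sum_range_succ, Finset.sum_range_one]
    simp
  rw [h3] at h1
  have h4 : ((range (DD Λ)).filter (fun w => w % 2 = 1 ∧ dn Λ w = p ∧
      ((dz Λ w : ℕ) : ZMod p) ∈ goodRes p r)).card ≤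
      ((range (DD Λ)).filter (fun w => Ok Λ M w ∧ dn Λ w = p)).card := by
    refine Finset.card_le_card (fun w hw => ?_)
    rw [Finset.mem_filter] at hw ⊢
    obtain ⟨hw0, hw1, hw2, hw3⟩ := hw
    exact ⟨hw0, h.ok_prime hp hr hr0 hw1 hw2 hw3, hw2⟩
  have h5 : DD Λ = 2 * KK Λ * (2 ^ KK Λ * 2 ^ (2 * KK Λ)) := by rw [DD_eq]; ring
  calc DD Λ = 2 * KK Λ * (2 ^ KK Λ * 2 ^ (2 * KK Λ)) := h5
    _ ≤ 2 * KK Λ * (2 ^ KK Λ * (3 * ((range (2 ^ (2 * KK Λ))).filter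
        (fun z => ((z : ℕ) : ZMod p) ∈ goodRes p r)).card)) :=
        Nat.mul_le_mul_left _ (Nat.mul_le_mul_left _ h2)
    _ = 6 * KK Λ * (2 ^ KK Λ * ((range (2 ^ (2 * KK Λ))).filter
        (fun z => ((z : ℕ) : ZMod p) ∈ goodRes p r)).card) := by ring
    _ ≤ 6 * KK Λ * (p * ((range (DD Λ)).filter (fun w => w % 2 = 1 ∧ dn Λ w = p ∧
      ((dz Λ w : ℕ) : ZMod p) ∈ goodRes p r)).card) := Nat.mul_le_mul_left _ h1
    _ ≤ 6 * KK Λ * (p * ((range (DD Λ)).filter (fun w => Ok Λ M w ∧ dn Λ w = p)).card) :=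
        Nat.mul_le_mul_left _ (Nat.mul_le_mul_left _ h4)
    _ = _ := by ring

/-- Number of last digits giving a good prime in a given class. -/
lemma count_last {p : ℕ} (hp : p ∈ gp Λ M) {S : ℤ} {ρ : ℕ} (hρ : rres M S = ρ) (hρM : ρ < 2 * M)
    (hpρ : p % (2 * M) = ρ) :
    2 * M * DD Λ ≤ 3 * KK Λ * p * ((range (DD Λ)).filter (fun w => lastN Λ M S w = p ∧
      (p : ℤ) ∣ rt M (dz Λ w) p * rt M (dz Λ w) p + M)).card := by
  obtain ⟨q1, q2, q3, q4, q5, q6, q7, q8, q9, q10⟩ := h.p_facts hp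
  have : Fact p.Prime := ⟨q1⟩
  obtain ⟨r, hr, hr0⟩ := root_of_jac h.hM q6 q7
  have hMpos := h.M_pos
  set m := p / (2 * M) with hm
  have hpm : p = ρ + 2 * M * m := by
    have := Nat.mod_add_div p (2 * M)
    rw [hpρ] at this
    exact this.symm
  have hm1 : 1 ≤ m := (Nat.le_div_iff_mul_le (by omega)).mpr (by omega)
  have hmp : m ≤ p := Nat.div_le_self _ _
  have hlog : Nat.log 2 m < KK Λ := by
    rw [← Nat.pow_lt_pow_iff_right (by norm_num : 1 < 2)]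
    exact lt_of_le_of_lt (Nat.pow_log_le_self 2 (by omega)) (lt_of_le_of_lt hmp q9)
  have h1 := card_dig_ge Λ (fun _ _ n z => n = m ∧ ((z : ℕ) : ZMod p) ∈ goodRes p r)
    m (Nat.log 2 m) (Nat.pow_log_le_self 2 (by omega)) (Nat.lt_pow_succ_log_self (by norm_num) m)
    hlog
  have h2 := count_good q6 hr0 (2 ^ (2 * KK Λ)) q5 q4
  have h3 : ∑ c ∈ range 2, ((range (2 ^ (2 * KK Λ))).filter
      (fun z => m = m ∧ ((z : ℕ) : ZMod p) ∈ goodRes p r)).card = 2 *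
      ((range (2 ^ (2 * KK Λ))).filter (fun z => ((z : ℕ) : ZMod p) ∈ goodRes p r)).card := by
    rw [Finset.sum_const, Finset.card_range, smul_eq_mul]
    simp
  rw [h3] at h1
  have h4 : ((range (DD Λ)).filter (fun w => dn Λ w = m ∧
      ((dz Λ w : ℕ) : ZMod p) ∈ goodRes p r)).card ≤
      ((range (DD Λ)).filter (fun w => lastN Λ M S w = p ∧
      (p : ℤ) ∣ rt M (dz Λ w) p * rt M (dz Λ w) p + M)).card := by
    refine Finset.card_le_card (fun w hw => ?_)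
    rw [Finset.mem_filter] at hw ⊢
    obtain ⟨hw0, hw2, hw3⟩ := hw
    refine ⟨hw0, ?_, ?_⟩
    · unfold lastN
      rw [hρ, hw2, hpm]
      push_cast
      ring
    · have hz' : quadraticChar (ZMod p) (((dz Λ w : ℕ) : ZMod p) + r) *
          quadraticChar (ZMod p) (((dz Λ w : ℕ) : ZMod p) - r) = -1 := by
        unfold goodRes at hw3
        exact (Finset.mem_filter.mp hw3).2
      exact rt_prime q6 hr hr0 (z := ((dz Λ w : ℕ) : ℤ)) (by push_cast; exact hz')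
  have h5 : DD Λ = 2 * KK Λ * (2 ^ KK Λ * 2 ^ (2 * KK Λ)) := by rw [DD_eq]; ring
  set N := ((range (DD Λ)).filter (fun w => lastN Λ M S w = p ∧
      (p : ℤ) ∣ rt M (dz Λ w) p * rt M (dz Λ w) p + M)).card
  calc 2 * M * DD Λ = 2 * M * (2 * KK Λ * (2 ^ KK Λ * 2 ^ (2 * KK Λ))) := by rw [h5]
    _ ≤ 2 * M * (2 * KK Λ * (2 ^ KK Λ * (3 * ((range (2 ^ (2 * KK Λ))).filter
        (fun z => ((z : ℕ) : ZMod p) ∈ goodRes p r)).card))) :=
        Nat.mul_le_mul_left _ (Nat.mul_le_mul_left _ (Nat.mul_le_mul_left _ h2))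
    _ = 3 * KK Λ * (2 * M) * (2 ^ KK Λ * (2 * ((range (2 ^ (2 * KK Λ))).filter
        (fun z => ((z : ℕ) : ZMod p) ∈ goodRes p r)).card)) := by ring
    _ ≤ 3 * KK Λ * (2 * M) * (m * ((range (DD Λ)).filter (fun w => dn Λ w = m ∧
      ((dz Λ w : ℕ) : ZMod p) ∈ goodRes p r)).card) := Nat.mul_le_mul_left _ h1
    _ ≤ 3 * KK Λ * (2 * M) * (m * N) :=
        Nat.mul_le_mul_left _ (Nat.mul_le_mul_left _ h4)
    _ = 3 * KK Λ * (2 * M * m) * N := by ring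
    _ ≤ 3 * KK Λ * p * N := by
        refine Nat.mul_le_mul_right _ (Nat.mul_le_mul_left _ ?_)
        omega

end Par

end Pool.Agent.H79.Tet
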