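import Mathlib
import Pool.Agent.H79.Tet.Walk2

/-!
# Mixing of the random walk
-/

namespace Pool.Agent.H79.Tet

open Finset
open scoped NumberTheorySymbols Nat

/-- the factor contributed by a digit -/
def val (Λ M w : ℕ) : ℕ := if Ok Λ M w then dn Λ w else 1

/-- the character sum -/
noncomputable def SS (Λ M : ℕ) (χ : DirichletCharacter ℂ M) : ℂ :=
  ∑ w ∈ range (DD Λ), χ ((val Λ M w : ℕ) : ZMod M)

lemma val_even {Λ M w : ℕ} (hw : w % 2 = 0) : val Λ M w = 1 := by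
  unfold val
  rw [if_neg]
  rintro ⟨⟨h, _⟩, _⟩
  omega

/-- half of the number of digits -/
def DH (Λ : ℕ) : ℕ := KK Λ * 2 ^ KK Λ * 2 ^ (2 * KK Λ)

lemma DD_half (Λ : ℕ) : DD Λ = 2 * DH Λ := by rw [DD_eq, DH]; ring

lemma SS_split (Λ M : ℕ) (χ : DirichletCharacter ℂ M) :
    SS Λ M χ = (DH Λ : ℂ) + ∑ x ∈ range (DH Λ), χ ((val Λ M (2 * x + 1) : ℕ) : ZMod M) := by
  unfold SS
  rw [DD_half]
  have h1 : ∀ w ∈ range (2 * DH Λ), χ ((val Λ M w : ℕ) : ZMod M) =
      (fun c x => χ ((val Λ M (2 * x + c) : ℕ) : ZMod M)) (w % 2) (w / 2) := by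
    intro w _
    simp only
    rw [Nat.div_add_mod]
  rw [Finset.sum_congr rfl h1, sum_split' 2 (DH Λ)
    (fun c x => χ ((val Λ M (2 * x + c) : ℕ) : ZMod M)), Finset.sum_range_succ,
    Finset.sum_range_one]
  congr 1
  have h2 : ∀ x ∈ range (DH Λ), χ ((val Λ M (2 * x + 0) : ℕ) : ZMod M) = 1 := by
    intro x _
    rw [val_even (by omega), Nat.cast_one, map_one]
  rw [Finset.sum_congr rfl h2]
  simp

/-- the norm of the character sum is controlled by its real part -/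
lemma SS_sq (Λ M : ℕ) (χ : DirichletCharacter ℂ M) :
    ‖SS Λ M χ‖ ^ 2 ≤ (DD Λ : ℝ) * (SS Λ M χ).re := by
  rw [SS_split]
  set Z : ℂ := ∑ x ∈ range (DH Λ), χ ((val Λ M (2 * x + 1) : ℕ) : ZMod M) with hZ
  have hZn : ‖Z‖ ≤ DH Λ := by
    refine (norm_sum_le _ _).trans ?_
    refine (Finset.sum_le_card_nsmul _ _ 1 (fun x _ => DirichletCharacter.norm_le_one _ _)).trans ?_
    simp
  have h1 : ‖Z‖ ^ 2 = Z.re ^ 2 + Z.im ^ 2 := by
    rw [Complex.sq_norm, Complex.normSq_apply]; ring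
  have h2 : ‖(DH Λ : ℂ) + Z‖ ^ 2 = ((DH Λ : ℝ) + Z.re) ^ 2 + Z.im ^ 2 := by
    rw [Complex.sq_norm, Complex.normSq_apply]; simp; ring
  have h3 : ‖Z‖ ^ 2 ≤ (DH Λ : ℝ) ^ 2 := pow_le_pow_left₀ (norm_nonneg _) hZn 2
  rw [h2, DD_half]
  push_cast
  have h4 : ((DH Λ : ℂ) + Z).re = (DH Λ : ℝ) + Z.re := by simp
  rw [h4]
  nlinarith

namespace Par

set_option exponentiation.threshold 1000

variable {Λ M : ℕ} (h : Par Λ M)
include h

lemma jchar_val [NeZero M] (w : ℕ) : jchar M ((val Λ M w : ℕ) : ZMod M) = 1 := by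
  unfold val
  split_ifs with hok
  · rw [jchar_apply, (h.ok_facts hok).2.2.2.2.1]; norm_num
  · rw [Nat.cast_one, map_one]

lemma val_unit (w : ℕ) : IsUnit ((val Λ M w : ℕ) : ZMod M) := by
  rw [ZMod.isUnit_iff_coprime]
  unfold val
  split_ifs with hok
  · exact (h.ok_facts hok).2.1
  · exact Nat.coprime_one_left M

lemma gap [NeZero M] (hmix : Mix Λ M) (χ : DirichletCharacter ℂ M) (h1 : χ ≠ 1)
    (hJ : χ ≠ jchar M) : (SS Λ M χ).re ≤ (DD Λ : ℝ) * (1 - 1 / (6 * KK Λ)) := by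
  have hK : (0 : ℝ) < KK Λ := by exact_mod_cast KK_pos Λ
  have h2 := hmix.2 χ h1 hJ
  have h3 : ∑ p ∈ gp Λ M, ((DD Λ : ℝ) / (6 * KK Λ)) * ((1 - (χ (p : ZMod M)).re) / p) ≤
      ∑ w ∈ range (DD Λ), (1 - (χ ((val Λ M w : ℕ) : ZMod M)).re) := by
    have h4 : ∀ p ∈ gp Λ M, ((DD Λ : ℝ) / (6 * KK Λ)) * ((1 - (χ (p : ZMod M)).re) / p) ≤
        ∑ w ∈ range (DD Λ), if Ok Λ M w ∧ dn Λ w = p then
          (1 - (χ ((val Λ M w : ℕ) : ZMod M)).re) else 0 := by
      intro p hp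
      have h5 := h.count_prime hp
      have hp0 : (0 : ℝ) < p := by exact_mod_cast (h.p_facts hp).1.pos
      have h6 : ∑ w ∈ range (DD Λ), (if Ok Λ M w ∧ dn Λ w = p then
          (1 - (χ ((val Λ M w : ℕ) : ZMod M)).re) else 0) =
          ((range (DD Λ)).filter (fun w => Ok Λ M w ∧ dn Λ w = p)).card *
            (1 - (χ (p : ZMod M)).re) := by
        rw [← Finset.sum_filter]
        rw [Finset.sum_congr rfl (g := fun _ => (1 - (χ (p : ZMod M)).re))]
        · rw [Finset.sum_const, nsmul_eq_mul]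
        · intro w hw
          rw [Finset.mem_filter] at hw
          unfold val
          rw [if_pos hw.2.1, hw.2.2]
      rw [h6]
      have h7 : (0 : ℝ) ≤ 1 - (χ (p : ZMod M)).re := by
        have := (abs_le.mp (re_le_one χ (p : ZMod M))).2
        linarith
      have h8 : (DD Λ : ℝ) ≤ 6 * KK Λ * p *
          ((range (DD Λ)).filter (fun w => Ok Λ M w ∧ dn Λ w = p)).card := by exact_mod_cast h5
      have h9 : (DD Λ : ℝ) / (6 * KK Λ) / p ≤
          ((range (DD Λ)).filter (fun w => Ok Λ M w ∧ dn Λ w = p)).card := by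
        rw [div_div, div_le_iff₀ (by positivity)]
        linarith
      calc ((DD Λ : ℝ) / (6 * KK Λ)) * ((1 - (χ (p : ZMod M)).re) / p)
          = (DD Λ : ℝ) / (6 * KK Λ) / p * (1 - (χ (p : ZMod M)).re) := by ring
        _ ≤ _ := mul_le_mul_of_nonneg_right h9 h7
    refine (Finset.sum_le_sum h4).trans ?_
    rw [Finset.sum_comm]
    refine Finset.sum_le_sum (fun w _ => ?_)
    have h7 : (0 : ℝ) ≤ 1 - (χ ((val Λ M w : ℕ) : ZMod M)).re := by
      have := (abs_le.mp (re_le_one χ ((val Λ M w : ℕ) : ZMod M))).2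
      linarith
    by_cases hok : Ok Λ M w
    · simp only [hok, true_and]
      rw [Finset.sum_ite_eq]
      split_ifs
      · exact le_rfl
      · exact h7
    · simp only [hok, false_and, if_false, Finset.sum_const_zero]
      exact h7
  rw [← Finset.mul_sum] at h3
  have h4 : ∑ w ∈ range (DD Λ), (1 - (χ ((val Λ M w : ℕ) : ZMod M)).re) =
      (DD Λ : ℝ) - (SS Λ M χ).re := by
    rw [Finset.sum_sub_distrib]
    congr 1
    · simp
    · unfold SS
      rw [Complex.re_sum]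
  rw [h4] at h3
  have h5 : (DD Λ : ℝ) / (6 * KK Λ) * 1 ≤ (DD Λ : ℝ) / (6 * KK Λ) *
      ∑ p ∈ gp Λ M, (1 - (χ (p : ZMod M)).re) / p := mul_le_mul_of_nonneg_left h2 (by positivity)
  have h6 : (DD Λ : ℝ) * (1 - 1 / (6 * KK Λ)) = DD Λ - (DD Λ : ℝ) / (6 * KK Λ) := by ring
  rw [h6]
  linarith

lemma SS_pow [NeZero M] (hmix : Mix Λ M) (χ : DirichletCharacter ℂ M) (h1 : χ ≠ 1)
    (hJ : χ ≠ jchar M) : (M : ℝ) * ‖SS Λ M χ ^ kk Λ‖ ≤ (DD Λ : ℝ) ^ kk Λ := by
  have hK : (0 : ℝ) < KK Λ := by exact_mod_cast KK_pos Λ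
  have hD : (0 : ℝ) < DD Λ := by exact_mod_cast DD_pos Λ
  have h2 : ‖SS Λ M χ‖ ^ 2 ≤ (DD Λ : ℝ) ^ 2 * (1 - 1 / (6 * KK Λ)) := by
    refine (SS_sq Λ M χ).trans ?_
    rw [pow_two, mul_assoc]
    exact mul_le_mul_of_nonneg_left (h.gap hmix χ h1 hJ) hD.le
  have h3 : 1 - 1 / (6 * (KK Λ : ℝ)) ≤ Real.exp (-(1 / (6 * (KK Λ : ℝ)))) :=
    Real.one_sub_le_exp_neg _
  have hkk : kk Λ = 2 * (12 * Λ ^ 203) := by rw [kk_eq]; ring
  have hKΛ : (KK Λ : ℝ) = (Λ : ℝ) ^ 202 := by rw [h.K_eq]; push_cast; rfl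
  have hΛ0 : (0 : ℝ) < Λ := by exact_mod_cast (by have := h.hΛ; omega : 0 < Λ)
  have h4 : ‖SS Λ M χ ^ kk Λ‖ ≤ (DD Λ : ℝ) ^ kk Λ * Real.exp (-(2 * Λ)) := by
    rw [norm_pow, hkk, pow_mul ‖SS Λ M χ‖ 2, pow_mul (DD Λ : ℝ) 2]
    calc (‖SS Λ M χ‖ ^ 2) ^ (12 * Λ ^ 203)
        ≤ ((DD Λ : ℝ) ^ 2 * Real.exp (-(1 / (6 * (KK Λ : ℝ))))) ^ (12 * Λ ^ 203) := by
          refine pow_le_pow_left₀ (by positivity) (h2.trans ?_) _
          exact mul_le_mul_of_nonneg_left h3 (by positivity)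
      _ = ((DD Λ : ℝ) ^ 2) ^ (12 * Λ ^ 203) * Real.exp (-(2 * Λ)) := by
          rw [mul_pow, ← Real.exp_nat_mul]
          congr 2
          rw [hKΛ]
          push_cast
          rw [show (203 : ℕ) = 202 + 1 by norm_num, pow_succ]
          field_simp
          ring
  have h5 : (M : ℝ) * Real.exp (-(2 * Λ)) ≤ 1 := by
    have h6 : (M : ℝ) ≤ 2 ^ Λ := by exact_mod_cast h.hM2
    have h7 : (2 : ℝ) ^ Λ ≤ Real.exp (2 * Λ) := by
      have h8 : (2 : ℝ) ≤ Real.exp 1 := by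
        have := Real.add_one_le_exp (1 : ℝ); linarith
      calc (2 : ℝ) ^ Λ ≤ Real.exp 1 ^ Λ := pow_le_pow_left₀ (by norm_num) h8 _
        _ = Real.exp Λ := by rw [← Real.exp_nat_mul, mul_one]
        _ ≤ Real.exp (2 * Λ) := Real.exp_le_exp.mpr (by linarith)
    rw [Real.exp_neg, ← div_eq_mul_inv, div_le_one (Real.exp_pos _)]
    linarith
  calc (M : ℝ) * ‖SS Λ M χ ^ kk Λ‖
      ≤ M * ((DD Λ : ℝ) ^ kk Λ * Real.exp (-(2 * Λ))) :=
        mul_le_mul_of_nonneg_left h4 (by positivity)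
    _ = (DD Λ : ℝ) ^ kk Λ * (M * Real.exp (-(2 * Λ))) := by ring
    _ ≤ (DD Λ : ℝ) ^ kk Λ * 1 := mul_le_mul_of_nonneg_left h5 (by positivity)
    _ = _ := mul_one _

/-- The walk is well distributed on the kernel of the Jacobi symbol. -/
theorem mixing [NeZero M] (hmix : Mix Λ M) (g : ZMod M) (hg : IsUnit g) (hgJ : jchar M g = 1) :
    DD Λ ^ kk Λ ≤ M * ((range (DD Λ ^ kk Λ)).filter (fun V =>
      g = ∏ i ∈ range (kk Λ), ((val Λ M (dg Λ V i) : ℕ) : ZMod M))).card := by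
  set N := ((range (DD Λ ^ kk Λ)).filter (fun V =>
      g = ∏ i ∈ range (kk Λ), ((val Λ M (dg Λ V i) : ℕ) : ZMod M))).card with hN
  have hginv : IsUnit g⁻¹ := by
    rw [isUnit_iff_exists_inv]
    exact ⟨g, ZMod.inv_mul_of_unit g hg⟩
  have hJinv : jchar M g⁻¹ = 1 := by
    have h2 : jchar M (g⁻¹ * g) = 1 := by rw [ZMod.inv_mul_of_unit g hg, map_one]
    rw [map_mul, hgJ, mul_one] at h2
    exact h2
  have key : ((M.totient * N : ℕ) : ℂ) = ∑ χ : DirichletCharacter ℂ M, χ g⁻¹ * SS Λ M χ ^ kk Λ := by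
    have h2 : ∀ χ : DirichletCharacter ℂ M, SS Λ M χ ^ kk Λ = ∑ V ∈ range (DD Λ ^ kk Λ),
        χ (∏ i ∈ range (kk Λ), ((val Λ M (dg Λ V i) : ℕ) : ZMod M)) := by
      intro χ
      unfold SS
      rw [← sum_prod_dg Λ (fun w => χ ((val Λ M w : ℕ) : ZMod M))]
      refine Finset.sum_congr rfl (fun V _ => ?_)
      rw [map_prod]
    calc ((M.totient * N : ℕ) : ℂ) = ∑ V ∈ range (DD Λ ^ kk Λ), (if g = ∏ i ∈ range (kk Λ),
          ((val Λ M (dg Λ V i) : ℕ) : ZMod M) then (M.totient : ℂ) else 0) := by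
          rw [← Finset.sum_filter, Finset.sum_const, ← hN, nsmul_eq_mul]
          push_cast
          ring
      _ = ∑ V ∈ range (DD Λ ^ kk Λ), ∑ χ : DirichletCharacter ℂ M, χ g⁻¹ *
          χ (∏ i ∈ range (kk Λ), ((val Λ M (dg Λ V i) : ℕ) : ZMod M)) := by
          refine Finset.sum_congr rfl (fun V _ => ?_)
          rw [DirichletCharacter.sum_char_inv_mul_char_eq ℂ hg]
      _ = _ := by
          rw [Finset.sum_comm]
          refine Finset.sum_congr rfl (fun χ _ => ?_)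
          rw [h2, Finset.mul_sum]
  have hre := congrArg Complex.re key
  rw [Complex.natCast_re, Complex.re_sum] at hre
  have hMpos : (0 : ℝ) < M := by exact_mod_cast h.M_pos
  have hD : (0 : ℝ) < DD Λ := by exact_mod_cast DD_pos Λ
  set T : ℝ := (DD Λ : ℝ) ^ kk Λ with hT
  have hT0 : 0 ≤ T := by positivity
  -- lower bound for every term
  have hterm : ∀ χ : DirichletCharacter ℂ M, (-(T / M) + (if χ = 1 then T else 0) +
      (if χ = jchar M then T else 0)) ≤ (χ g⁻¹ * SS Λ M χ ^ kk Λ).re := by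
    intro χ
    have hTM : 0 ≤ T / M := by positivity
    by_cases h1 : χ = 1
    · have h2 : χ ≠ jchar M := by rw [h1]; exact (jchar_ne_one h.hM).symm
      rw [if_pos h1, if_neg h2]
      have h3 : SS Λ M χ = (DD Λ : ℂ) := by
        unfold SS
        rw [h1, Finset.sum_congr rfl (g := fun _ => (1 : ℂ)) (fun w _ =>
          MulChar.one_apply (h.val_unit w))]
        simp
      rw [h3, h1, MulChar.one_apply hginv, one_mul]
      have : (((DD Λ : ℂ)) ^ kk Λ).re = T := by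
        rw [hT]
        have : ((DD Λ : ℂ)) ^ kk Λ = (((DD Λ : ℝ) ^ kk Λ : ℝ) : ℂ) := by push_cast; rfl
        rw [this, Complex.ofReal_re]
      rw [this]
      linarith
    · by_cases h2 : χ = jchar M
      · rw [if_neg h1, if_pos h2]
        have h3 : SS Λ M χ = (DD Λ : ℂ) := by
          unfold SS
          rw [h2, Finset.sum_congr rfl (g := fun _ => (1 : ℂ)) (fun w _ => h.jchar_val w)]
          simp
        rw [h3, h2, hJinv, one_mul]
        have : (((DD Λ : ℂ)) ^ kk Λ).re = T := by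
          rw [hT]
          have : ((DD Λ : ℂ)) ^ kk Λ = (((DD Λ : ℝ) ^ kk Λ : ℝ) : ℂ) := by push_cast; rfl
          rw [this, Complex.ofReal_re]
        rw [this]
        linarith
      · rw [if_neg h1, if_neg h2, add_zero, add_zero]
        have h3 := h.SS_pow hmix χ h1 h2
        have h4 : ‖χ g⁻¹ * SS Λ M χ ^ kk Λ‖ ≤ T / M := by
          rw [norm_mul, le_div_iff₀ hMpos]
          have h5 := DirichletCharacter.norm_le_one χ g⁻¹
          have h6 : ‖χ g⁻¹‖ * ‖SS Λ M χ ^ kk Λ‖ ≤ ‖SS Λ M χ ^ kk Λ‖ :=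
            mul_le_of_le_one_left (norm_nonneg _) h5
          nlinarith
        have h5 := (abs_le.mp (Complex.abs_re_le_norm (χ g⁻¹ * SS Λ M χ ^ kk Λ))).1
        linarith
  have hsum := Finset.sum_le_sum (s := Finset.univ) (fun χ _ => hterm χ)
  rw [← hre, Finset.sum_add_distrib, Finset.sum_add_distrib, Finset.sum_ite_eq',
    Finset.sum_ite_eq', Finset.sum_const] at hsum
  simp only [Finset.mem_univ, if_true] at hsum
  have hcard : (Finset.univ : Finset (DirichletCharacter ℂ M)).card = M.totient := by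
    rw [Finset.card_univ, ← Nat.card_eq_fintype_card]
    exact DirichletCharacter.card_eq_totient_of_hasEnoughRootsOfUnity ℂ M
  rw [hcard, nsmul_eq_mul] at hsum
  have htot : (M.totient : ℝ) ≤ M := by exact_mod_cast Nat.totient_le M
  have h7 : (M.totient : ℝ) * (T / M) ≤ T := by
    rw [mul_div_assoc', div_le_iff₀ hMpos]
    nlinarith
  have h8 : T ≤ M.totient * N := by
    push_cast at hsum
    nlinarith
  have h9 : (M.totient : ℝ) * N ≤ M * N := mul_le_mul_of_nonneg_right htot (by positivity)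
  have h10 : ((DD Λ ^ kk Λ : ℕ) : ℝ) ≤ ((M * N : ℕ) : ℝ) := by
    push_cast
    linarith
  exact_mod_cast h10

end Par

end Pool.Agent.H79.Tet
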