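import Mathlib
import Pool.Agent.H79.Tet.Walk3

/-!
# The chain of factors: correctness and collisions
-/

namespace Pool.Agent.H79.Tet

open Finset
open scoped NumberTheorySymbols Nat

/-- product of the accepted factors -/
def Sn (Λ M V i : ℕ) : ℕ := ∏ j ∈ range i, val Λ M (dg Λ V j)

lemma Sn_zero (Λ M V : ℕ) : Sn Λ M V 0 = 1 := rfl
lemma Sn_succ (Λ M V i : ℕ) : Sn Λ M V (i + 1) = Sn Λ M V i * val Λ M (dg Λ V i) :=
  Finset.prod_range_succ _ _

lemma val_pos (Λ M w : ℕ) : 0 < val Λ M w := by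
  unfold val; split_ifs
  · exact dn_pos _ _
  · exact one_pos

lemma Sn_pos (Λ M V i : ℕ) : 0 < Sn Λ M V i := Finset.prod_pos (fun _ _ => val_pos _ _ _)

lemma chain_fst (Λ M V i : ℕ) : (chain Λ M V i).1 = (Sn Λ M V i : ℤ) := by
  induction i with
  | zero => simp [chain, Sn_zero]
  | succ i ih =>
    rw [Sn_succ, chain, upd, val]
    split_ifs with hok
    · simp only
      rw [ih]
      push_cast
      rfl
    · rw [ih, mul_one]

lemma Sn_le (Λ M V i : ℕ) : Sn Λ M V i ≤ 2 ^ (KK Λ * i) := by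
  have h := (chain_inv Λ M V i).2.1
  rw [chain_fst] at h
  exact_mod_cast h

lemma Sn_mod (Λ M V i : ℕ) : Sn Λ M (V % DD Λ ^ i) i = Sn Λ M V i := by
  unfold Sn
  refine Finset.prod_congr rfl (fun j hj => ?_)
  rw [dg_mod _ _ _ _ (Finset.mem_range.mp hj)]

lemma chain_mod (Λ : ℕ) (M : ℤ) (V m i : ℕ) (hi : i ≤ m) :
    chain Λ M (V % DD Λ ^ m) i = chain Λ M V i := by
  induction i with
  | zero => rfl
  | succ i ih => rw [chain, chain, ih (by omega), dg_mod _ _ _ _ (by omega)]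

/-- no collision between the factors -/
def GC (Λ M V i : ℕ) : Prop :=
  ∀ j < i, Ok Λ M (dg Λ V j) → (Sn Λ M V j).Coprime (dn Λ (dg Λ V j))

lemma GC_mod {Λ M V m i : ℕ} (hi : i ≤ m) : GC Λ M (V % DD Λ ^ m) i ↔ GC Λ M V i := by
  have key : ∀ j < i, Sn Λ M (V % DD Λ ^ m) j = Sn Λ M V j := by
    intro j hj
    unfold Sn
    refine Finset.prod_congr rfl (fun l hl => ?_)
    have := Finset.mem_range.mp hl
    rw [dg_mod _ _ _ _ (by omega)]
  unfold GC
  constructor
  · intro h j hj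
    have := h j hj
    rwa [key j hj, dg_mod _ _ _ _ (by omega)] at this
  · intro h j hj
    have := h j hj
    rwa [key j hj, dg_mod _ _ _ _ (by omega)]

lemma primeFactors_card_le {n e : ℕ} (hn : 0 < n) (h : n ≤ 2 ^ e) : n.primeFactors.card ≤ e := by
  have h1 : 2 ^ n.primeFactors.card ≤ ∏ p ∈ n.primeFactors, p := by
    rw [← Finset.prod_const]
    exact Finset.prod_le_prod (fun _ _ => by norm_num)
      (fun p hp => (Nat.prime_of_mem_primeFactors hp).two_le)
  have h2 : ∏ p ∈ n.primeFactors, p ≤ n := Nat.le_of_dvd hn (Nat.prod_primeFactors_dvd n)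
  have h3 : 2 ^ n.primeFactors.card ≤ 2 ^ e := h1.trans (h2.trans h)
  exact (Nat.pow_le_pow_iff_right (by norm_num)).mp h3

namespace Par

set_option exponentiation.threshold 1000

variable {Λ M : ℕ} (h : Par Λ M)
include h

lemma val_facts (w : ℕ) : (val Λ M w).Coprime M ∧ (val Λ M w).Coprime (BB Λ)! ∧
    val Λ M w % 2 = 1 := by
  unfold val
  split_ifs with hok
  · obtain ⟨_, h1, h2, h3, _⟩ := h.ok_facts hok
    exact ⟨h1, h2, h3⟩
  · exact ⟨Nat.coprime_one_left _, Nat.coprime_one_left _, rfl⟩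

lemma Sn_facts (V i : ℕ) : (Sn Λ M V i).Coprime M ∧ (Sn Λ M V i).Coprime (BB Λ)! ∧
    Sn Λ M V i % 2 = 1 := by
  induction i with
  | zero => exact ⟨Nat.coprime_one_left _, Nat.coprime_one_left _, rfl⟩
  | succ i ih =>
    obtain ⟨h1, h2, h3⟩ := ih
    obtain ⟨h4, h5, h6⟩ := h.val_facts (dg Λ V i)
    rw [Sn_succ]
    exact ⟨h1.mul_left h4, h2.mul_left h5, by rw [Nat.mul_mod, h3, h6]⟩

lemma chain_root {V i : ℕ} (hg : GC Λ M V i) :
    (chain Λ M V i).1 ∣ (chain Λ M V i).2 * (chain Λ M V i).2 + M := by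
  induction i with
  | zero => simp [chain]
  | succ i ih =>
    have ih' := ih (fun j hj => hg j (by omega))
    rw [chain, upd]
    split_ifs with hok
    · simp only
      have h1 := hg i (by omega) hok
      have hn : (0 : ℤ) < ((dn Λ (dg Λ V i) : ℕ) : ℤ) := by exact_mod_cast dn_pos _ _
      refine crt_spec hn ?_ ih' (h.ok_facts hok).2.2.2.2.2
      rw [chain_fst, Int.gcd_natCast_natCast]
      exact h1
    · exact ih'

lemma prime_big {V i q : ℕ} (hq : q.Prime) (hd : q ∣ Sn Λ M V i) : BB Λ < q := by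
  by_contra hcon
  have h1 : q ∣ (BB Λ) ! := hq.dvd_factorial.mpr (by omega)
  have := Nat.dvd_gcd hd h1
  rw [(h.Sn_facts V i).2.1] at this
  exact hq.one_lt.ne' (Nat.dvd_one.mp this)

/-- few digits collide with a given product -/
lemma collide (V i : ℕ) : BB Λ * ((range (DD Λ)).filter (fun w => Ok Λ M w ∧
    ¬ (Sn Λ M V i).Coprime (dn Λ w))).card ≤ KK Λ * i * (2 * DD Λ) := by
  classical
  have h1 : ((range (DD Λ)).filter (fun w => Ok Λ M w ∧ ¬ (Sn Λ M V i).Coprime (dn Λ w))) ⊆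
      (Sn Λ M V i).primeFactors.biUnion (fun q => (range (DD Λ)).filter
        (fun w => Λ ^ 2 ≤ de Λ w ∧ q ∣ dn Λ w)) := by
    intro w hw
    rw [Finset.mem_filter] at hw
    obtain ⟨hw1, hw2, hw3⟩ := hw
    obtain ⟨q, hq, hq1, hq2⟩ := Nat.Prime.not_coprime_iff_dvd.mp hw3
    rw [Finset.mem_biUnion]
    refine ⟨q, ?_, ?_⟩
    · rw [Nat.mem_primeFactors]
      exact ⟨hq, hq1, (Sn_pos _ _ _ _).ne'⟩
    · rw [Finset.mem_filter]
      exact ⟨hw1, (h.ok_facts hw2).1, hq2⟩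
  have h2 := (Finset.card_le_card h1).trans Finset.card_biUnion_le
  calc BB Λ * _ ≤ BB Λ * ∑ q ∈ (Sn Λ M V i).primeFactors, ((range (DD Λ)).filter
        (fun w => Λ ^ 2 ≤ de Λ w ∧ q ∣ dn Λ w)).card := Nat.mul_le_mul_left _ h2
    _ = ∑ q ∈ (Sn Λ M V i).primeFactors, BB Λ * ((range (DD Λ)).filter
        (fun w => Λ ^ 2 ≤ de Λ w ∧ q ∣ dn Λ w)).card := Finset.mul_sum _ _ _
    _ ≤ (Sn Λ M V i).primeFactors.card • (2 * DD Λ) := by
        refine Finset.sum_le_card_nsmul _ _ _ (fun q hq => ?_)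
        rw [Nat.mem_primeFactors] at hq
        exact card_dig_dvd Λ q (BB Λ) h.B_le (h.prime_big hq.1 hq.2.1).le
          (by have := h.B_ge; omega)
    _ ≤ KK Λ * i * (2 * DD Λ) := by
        rw [smul_eq_mul]
        exact Nat.mul_le_mul_right _ (primeFactors_card_le (Sn_pos _ _ _ _) (Sn_le _ _ _ _))

open Classical in
/-- number of sequences with a collision -/
lemma bad_count (i : ℕ) : BB Λ * ((range (DD Λ ^ i)).filter (fun V => ¬ GC Λ M V i)).card ≤
    KK Λ * i ^ 2 * DD Λ ^ i := by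
  induction i with
  | zero =>
    have : (range (DD Λ ^ 0)).filter (fun V => ¬ GC Λ M V 0) = ∅ := by
      rw [Finset.filter_eq_empty_iff]
      intro V _ hV
      exact hV (fun j hj => by omega)
    rw [this]
    simp
  | succ i ih =>
    have h1 : ((range (DD Λ ^ (i + 1))).filter (fun V => ¬ GC Λ M V (i + 1))).card ≤
        ∑ V' ∈ range (DD Λ ^ i), ∑ w ∈ range (DD Λ), ((if ¬ GC Λ M V' i then 1 else 0) +
          (if Ok Λ M w ∧ ¬ (Sn Λ M V' i).Coprime (dn Λ w) then 1 else 0)) := by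
      rw [Finset.card_filter, pow_succ, ← sum_split' (DD Λ ^ i) (DD Λ) (fun V' w =>
        ((if ¬ GC Λ M V' i then 1 else 0) +
          (if Ok Λ M w ∧ ¬ (Sn Λ M V' i).Coprime (dn Λ w) then 1 else 0)))]
      refine Finset.sum_le_sum (fun V hV => ?_)
      rw [Finset.mem_range] at hV
      have hdg : dg Λ V i = V / DD Λ ^ i := by
        unfold dg
        rw [Nat.mod_eq_of_lt]
        rw [Nat.div_lt_iff_lt_mul (by have := DD_pos Λ; positivity)]
        rwa [mul_comm] at hV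
      by_cases hGC : GC Λ M V (i + 1)
      · rw [if_neg (not_not.mpr hGC)]; exact Nat.zero_le _
      · rw [if_pos hGC]
        by_cases hGi : GC Λ M (V % DD Λ ^ i) i
        · have h2 : Ok Λ M (V / DD Λ ^ i) ∧
              ¬ (Sn Λ M (V % DD Λ ^ i) i).Coprime (dn Λ (V / DD Λ ^ i)) := by
            rw [GC_mod le_rfl] at hGi
            rw [Sn_mod, ← hdg]
            unfold GC at hGC
            push Not at hGC
            obtain ⟨j, hj, hok, hnc⟩ := hGC
            rcases Nat.lt_succ_iff_lt_or_eq.mp hj with h3 | h3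
            · exact absurd (hGi j h3 hok) hnc
            · rw [h3] at hok hnc
              exact ⟨hok, hnc⟩
          rw [if_pos h2]
          omega
        · rw [if_pos hGi]
          omega
    simp only [Finset.sum_add_distrib] at h1
    have h2 : ∑ V' ∈ range (DD Λ ^ i), ∑ w ∈ range (DD Λ), (if ¬ GC Λ M V' i then 1 else 0) =
        DD Λ * ((range (DD Λ ^ i)).filter (fun V => ¬ GC Λ M V i)).card := by
      rw [Finset.card_filter, Finset.mul_sum]
      refine Finset.sum_congr rfl (fun V _ => ?_)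
      rw [Finset.sum_const, Finset.card_range, smul_eq_mul]
    have h3 : BB Λ * ∑ V' ∈ range (DD Λ ^ i), ∑ w ∈ range (DD Λ),
        (if Ok Λ M w ∧ ¬ (Sn Λ M V' i).Coprime (dn Λ w) then 1 else 0) ≤
        DD Λ ^ i * (KK Λ * i * (2 * DD Λ)) := by
      rw [Finset.mul_sum]
      refine (Finset.sum_le_card_nsmul _ _ (KK Λ * i * (2 * DD Λ)) (fun V _ => ?_)).trans ?_
      · rw [← Finset.card_filter]
        exact h.collide V i
      · rw [Finset.card_range, smul_eq_mul]
    rw [h2] at h1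
    calc BB Λ * _ ≤ BB Λ * (DD Λ * ((range (DD Λ ^ i)).filter (fun V => ¬ GC Λ M V i)).card +
          ∑ V' ∈ range (DD Λ ^ i), ∑ w ∈ range (DD Λ),
          (if Ok Λ M w ∧ ¬ (Sn Λ M V' i).Coprime (dn Λ w) then 1 else 0)) :=
          Nat.mul_le_mul_left _ h1
      _ = DD Λ * (BB Λ * ((range (DD Λ ^ i)).filter (fun V => ¬ GC Λ M V i)).card) +
          BB Λ * ∑ V' ∈ range (DD Λ ^ i), ∑ w ∈ range (DD Λ),
          (if Ok Λ M w ∧ ¬ (Sn Λ M V' i).Coprime (dn Λ w) then 1 else 0) := by ring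
      _ ≤ DD Λ * (KK Λ * i ^ 2 * DD Λ ^ i) + DD Λ ^ i * (KK Λ * i * (2 * DD Λ)) :=
          Nat.add_le_add (Nat.mul_le_mul_left _ ih) h3
      _ = KK Λ * (i ^ 2 + 2 * i) * DD Λ ^ (i + 1) := by ring
      _ ≤ KK Λ * (i + 1) ^ 2 * DD Λ ^ (i + 1) :=
          Nat.mul_le_mul_right _ (Nat.mul_le_mul_left _ (by ring_nf; omega))

end Par

end Pool.Agent.H79.Tet
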