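import Mathlib
import Pool.Agent.H79.Tet.Walk4

/-!
# Success probability of one attempt
-/

namespace Pool.Agent.H79.Tet

open Finset
open scoped NumberTheorySymbols Nat

/-- the attempt succeeds -/
def Suc (Λ M V : ℕ) : Prop := (att Λ M V).u * (att Λ M V).u + (att Λ M V).v * (att Λ M V).v +
  (att Λ M V).w * (att Λ M V).w = M

/-- the residue of the last factor, as a natural number -/
def rho (Λ M V i : ℕ) : ℕ := (rres M (Sn Λ M V i)).toNat

namespace Par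

set_option exponentiation.threshold 1000

variable {Λ M : ℕ} (h : Par Λ M)
include h

lemma rho_spec (V i : ℕ) : rres M (Sn Λ M V i) = rho Λ M V i ∧ rho Λ M V i < 2 * M ∧
    rho Λ M V i % 2 = 1 ∧ ((M : ℤ) ∣ 2 * (Sn Λ M V i) * (rho Λ M V i) + 1) := by
  obtain ⟨h1, h2, h3⟩ := h.Sn_facts V i
  have hM : (0 : ℤ) < M := by exact_mod_cast h.M_pos
  have hMo : (M : ℤ) % 2 = 1 := by have := h.hM; omega
  have hg : Int.gcd (2 * (Sn Λ M V i : ℤ)) M = 1 := by
    have h4 : Nat.Coprime 2 M := by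
      rw [Nat.Prime.coprime_iff_not_dvd Nat.prime_two]
      have := h.hM
      omega
    have h5 : Nat.Coprime (2 * Sn Λ M V i) M := h4.mul_left h1
    have h6 : Int.gcd (2 * (Sn Λ M V i : ℤ)) M = Nat.gcd (2 * Sn Λ M V i) M := by
      rw [← Int.gcd_natCast_natCast]; push_cast; rfl
    rw [h6, h5]
  obtain ⟨r1, r2, r3, r4⟩ := rres_spec hM hMo hg
  have h7 : rres M (Sn Λ M V i) = rho Λ M V i := by
    unfold rho
    rw [Int.toNat_of_nonneg r3.le]
  rw [h7] at r1 r2 r3 r4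
  exact ⟨h7, by exact_mod_cast r4, by omega, r1⟩

/-- success from the last digit -/
lemma suc_of {V w p : ℕ} (hV : V < DD Λ ^ kk Λ) (hw : w < DD Λ) (hg : GC Λ M V (kk Λ))
    (hN : lastN Λ M (Sn Λ M V (kk Λ)) w = p)
    (hr : (p : ℤ) ∣ rt M (dz Λ w) p * rt M (dz Λ w) p + M)
    (hp : (Sn Λ M V (kk Λ)).Coprime p) : Suc Λ M (V + DD Λ ^ kk Λ * w) := by
  set X := V + DD Λ ^ kk Λ * w with hX
  have hDk : 0 < DD Λ ^ kk Λ := by have := DD_pos Λ; positivity
  have hmod : X % DD Λ ^ kk Λ = V := by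
    rw [hX, Nat.add_mul_mod_self_left, Nat.mod_eq_of_lt hV]
  have hdiv : X / DD Λ ^ kk Λ = w := by
    rw [hX, Nat.add_mul_div_left _ _ hDk, Nat.div_eq_of_lt hV, zero_add]
  have hchain : chainF ((Λ, (M : ℤ)), ⟨X⟩) = chain Λ M V (kk Λ) := by
    rw [chainF_eq, ← hmod, chain_mod _ _ _ _ _ le_rfl]
  have hdg : dg Λ X (kk Λ) = w := by
    unfold dg
    rw [hdiv, Nat.mod_eq_of_lt hw]
  unfold Suc att
  rw [hchain, hdg]
  obtain ⟨h1, h2, h3⟩ := h.Sn_facts V (kk Λ)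
  have hM : (0 : ℤ) < M := by exact_mod_cast h.M_pos
  have hMo : (M : ℤ) % 2 = 1 := by have := h.hM; omega
  have hfst := chain_fst Λ M V (kk Λ)
  refine endF_spec hM hMo ?_ ?_ ?_ (h.chain_root hg) ?_ ?_
  · rw [hfst]; exact_mod_cast Sn_pos _ _ _ _
  · rw [hfst]; omega
  · rw [hfst]
    have h4 : Nat.Coprime 2 M := by
      rw [Nat.Prime.coprime_iff_not_dvd Nat.prime_two]
      have := h.hM
      omega
    have h5 : Nat.Coprime (2 * Sn Λ M V (kk Λ)) M := h4.mul_left h1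
    have h6 : Int.gcd (2 * (Sn Λ M V (kk Λ) : ℤ)) M = Nat.gcd (2 * Sn Λ M V (kk Λ)) M := by
      rw [← Int.gcd_natCast_natCast]; push_cast; rfl
    rw [h6, h5]
  · rw [hfst, hN, Int.gcd_natCast_natCast]; exact hp
  · rw [hfst, hN]; exact hr

/-- the weight of a prime -/
noncomputable def _root_.Pool.Agent.H79.Tet.cw (Λ M p : ℕ) : ℝ := 2 * M * DD Λ / (3 * KK Λ * p)

open Classical in
/-- number of good last digits -/
lemma last_count (V : ℕ) (hg : GC Λ M V (kk Λ)) (hV : V < DD Λ ^ kk Λ) :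
    ∑ p ∈ (gp Λ M).filter (fun p => p % (2 * M) = rho Λ M V (kk Λ) ∧
      (Sn Λ M V (kk Λ)).Coprime p), cw Λ M p ≤
    (((range (DD Λ)).filter (fun w => Suc Λ M (V + DD Λ ^ kk Λ * w))).card : ℝ) := by
  obtain ⟨r1, r2, r3, r4⟩ := h.rho_spec V (kk Λ)
  have hK : (0 : ℝ) < KK Λ := by exact_mod_cast KK_pos Λ
  have h1 : ∀ p ∈ (gp Λ M).filter (fun p => p % (2 * M) = rho Λ M V (kk Λ) ∧
      (Sn Λ M V (kk Λ)).Coprime p), cw Λ M p ≤
      (((range (DD Λ)).filter (fun w => lastN Λ M (Sn Λ M V (kk Λ)) w = p ∧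
      (p : ℤ) ∣ rt M (dz Λ w) p * rt M (dz Λ w) p + M)).card : ℝ) := by
    intro p hp
    rw [Finset.mem_filter] at hp
    have h2 := h.count_last hp.1 r1 r2 hp.2.1
    have hp0 : (0 : ℝ) < p := by exact_mod_cast (h.p_facts hp.1).1.pos
    unfold cw
    rw [div_le_iff₀ (by positivity)]
    have h3 : ((2 * M * DD Λ : ℕ) : ℝ) ≤ ((3 * KK Λ * p * ((range (DD Λ)).filter (fun w =>
      lastN Λ M (Sn Λ M V (kk Λ)) w = p ∧
      (p : ℤ) ∣ rt M (dz Λ w) p * rt M (dz Λ w) p + M)).card : ℕ) : ℝ) := by exact_mod_cast h2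
    push_cast at h3
    linarith
  refine (Finset.sum_le_sum h1).trans ?_
  rw [← Nat.cast_sum]
  refine Nat.cast_le.mpr ?_
  rw [← Finset.card_biUnion]
  · refine Finset.card_le_card (fun w hw => ?_)
    rw [Finset.mem_biUnion] at hw
    obtain ⟨p, hp, hw⟩ := hw
    rw [Finset.mem_filter] at hp hw ⊢
    refine ⟨hw.1, ?_⟩
    exact h.suc_of hV (Finset.mem_range.mp hw.1) hg hw.2.1 hw.2.2 hp.2.2
  · intro p _ q _ hpq
    rw [Function.onFun, Finset.disjoint_left]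
    intro w hw1 hw2
    rw [Finset.mem_filter] at hw1 hw2
    apply hpq
    have := hw1.2.1.symm.trans hw2.2.1
    exact_mod_cast this

open Classical in
/-- the total weight in a class is at most the number of digits -/
lemma weight_le (V : ℕ) : ∑ p ∈ (gp Λ M).filter (fun p => p % (2 * M) = rho Λ M V (kk Λ)),
    cw Λ M p ≤ DD Λ := by
  obtain ⟨r1, r2, r3, r4⟩ := h.rho_spec V (kk Λ)
  have hK : (0 : ℝ) < KK Λ := by exact_mod_cast KK_pos Λ
  have h1 : ∀ p ∈ (gp Λ M).filter (fun p => p % (2 * M) = rho Λ M V (kk Λ)), cw Λ M p ≤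
      (((range (DD Λ)).filter (fun w => lastN Λ M (Sn Λ M V (kk Λ)) w = p ∧
      (p : ℤ) ∣ rt M (dz Λ w) p * rt M (dz Λ w) p + M)).card : ℝ) := by
    intro p hp
    rw [Finset.mem_filter] at hp
    have h2 := h.count_last hp.1 r1 r2 hp.2
    have hp0 : (0 : ℝ) < p := by exact_mod_cast (h.p_facts hp.1).1.pos
    unfold cw
    rw [div_le_iff₀ (by positivity)]
    have h3 : ((2 * M * DD Λ : ℕ) : ℝ) ≤ ((3 * KK Λ * p * ((range (DD Λ)).filter (fun w =>
      lastN Λ M (Sn Λ M V (kk Λ)) w = p ∧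
      (p : ℤ) ∣ rt M (dz Λ w) p * rt M (dz Λ w) p + M)).card : ℕ) : ℝ) := by exact_mod_cast h2
    push_cast at h3
    linarith
  refine (Finset.sum_le_sum h1).trans ?_
  rw [← Nat.cast_sum]
  refine Nat.cast_le.mpr ?_
  rw [← Finset.card_biUnion]
  · refine (Finset.card_le_card (t := range (DD Λ)) (fun w hw => ?_)).trans ?_
    · rw [Finset.mem_biUnion] at hw
      obtain ⟨p, hp, hw⟩ := hw
      exact (Finset.mem_filter.mp hw).1
    · rw [Finset.card_range]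
  · intro p _ q _ hpq
    rw [Function.onFun, Finset.disjoint_left]
    intro w hw1 hw2
    rw [Finset.mem_filter] at hw1 hw2
    apply hpq
    have := hw1.2.1.symm.trans hw2.2.1
    exact_mod_cast this

omit h in
lemma cw_nonneg (p : ℕ) : 0 ≤ cw Λ M p := by unfold cw; positivity

lemma cw_le {p : ℕ} (hp : p ∈ gp Λ M) : cw Λ M p ≤ 2 * M * DD Λ / (3 * KK Λ * 2 ^ (Λ ^ 2)) := by
  have h1 : 2 ^ (Λ ^ 2) ≤ p := (h.p_facts hp).2.2.2.2.2.2.2.1
  have h2 : (2 : ℝ) ^ (Λ ^ 2) ≤ p := by exact_mod_cast h1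
  have hK : (0 : ℝ) < KK Λ := by exact_mod_cast KK_pos Λ
  unfold cw
  apply div_le_div_of_nonneg_left (by positivity) (by positivity)
  exact mul_le_mul_of_nonneg_left h2 (by positivity)

open Classical in
/-- lower bound for the number of good last digits, valid for every prefix -/
lemma last_count' (V : ℕ) (hV : V < DD Λ ^ kk Λ) :
    ∑ p ∈ (gp Λ M).filter (fun p => p % (2 * M) = rho Λ M V (kk Λ)), cw Λ M p -
      (kk Λ * (2 * M * DD Λ / (3 * 2 ^ (Λ ^ 2))) + DD Λ * (if ¬ GC Λ M V (kk Λ) then 1 else 0)) ≤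
    (((range (DD Λ)).filter (fun w => Suc Λ M (V + DD Λ ^ kk Λ * w))).card : ℝ) := by
  by_cases hg : GC Λ M V (kk Λ)
  · rw [if_neg (not_not.mpr hg), mul_zero, add_zero]
    have h1 := h.last_count V hg hV
    have hK : (0 : ℝ) < KK Λ := by exact_mod_cast KK_pos Λ
    have h2 : ∑ p ∈ (gp Λ M).filter (fun p => p % (2 * M) = rho Λ M V (kk Λ)), cw Λ M p ≤
        ∑ p ∈ (gp Λ M).filter (fun p => p % (2 * M) = rho Λ M V (kk Λ) ∧
          (Sn Λ M V (kk Λ)).Coprime p), cw Λ M p +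
        ∑ p ∈ (gp Λ M).filter (fun p => ¬ (Sn Λ M V (kk Λ)).Coprime p), cw Λ M p := by
      rw [Finset.sum_filter, Finset.sum_filter, Finset.sum_filter, ← Finset.sum_add_distrib]
      refine Finset.sum_le_sum (fun p _ => ?_)
      have := cw_nonneg (Λ := Λ) (M := M) p
      split_ifs <;> first | linarith | (exfalso; tauto)
    have h3 : ∑ p ∈ (gp Λ M).filter (fun p => ¬ (Sn Λ M V (kk Λ)).Coprime p), cw Λ M p ≤
        kk Λ * (2 * M * DD Λ / (3 * 2 ^ (Λ ^ 2))) := by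
      refine (Finset.sum_le_card_nsmul _ _ (2 * (M : ℝ) * DD Λ / (3 * KK Λ * 2 ^ (Λ ^ 2)))
        (fun p hp => h.cw_le (Finset.mem_filter.mp hp).1)).trans ?_
      have h4 : ((gp Λ M).filter (fun p => ¬ (Sn Λ M V (kk Λ)).Coprime p)).card ≤
          KK Λ * kk Λ := by
        refine le_trans (Finset.card_le_card (t := (Sn Λ M V (kk Λ)).primeFactors) ?_)
          (primeFactors_card_le (Sn_pos _ _ _ _) (Sn_le _ _ _ _))
        intro p hp
        rw [Finset.mem_filter] at hp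
        have hpp := (h.p_facts hp.1).1
        rw [Nat.mem_primeFactors]
        refine ⟨hpp, ?_, (Sn_pos _ _ _ _).ne'⟩
        by_contra hcon
        apply hp.2
        exact ((Nat.Prime.coprime_iff_not_dvd hpp).mpr hcon).symm
      rw [nsmul_eq_mul]
      calc ((((gp Λ M).filter (fun p => ¬ (Sn Λ M V (kk Λ)).Coprime p)).card : ℕ) : ℝ) *
            (2 * M * DD Λ / (3 * KK Λ * 2 ^ (Λ ^ 2)))
          ≤ ((KK Λ * kk Λ : ℕ) : ℝ) * (2 * M * DD Λ / (3 * KK Λ * 2 ^ (Λ ^ 2))) :=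
            mul_le_mul_of_nonneg_right (by exact_mod_cast h4) (by positivity)
        _ = _ := by push_cast; field_simp
    linarith
  · rw [if_pos hg, mul_one]
    have h1 := h.weight_le V
    have h2 : (0 : ℝ) ≤ kk Λ * (2 * M * DD Λ / (3 * 2 ^ (Λ ^ 2))) := by positivity
    have h3 : (0 : ℝ) ≤ (((range (DD Λ)).filter
      (fun w => Suc Λ M (V + DD Λ ^ kk Λ * w))).card : ℝ) := by positivity
    linarith

open Classical in
/-- every class is hit often -/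
lemma class_count [NeZero M] (hmix : Mix Λ M) {p : ℕ} (hp : p ∈ gp Λ M) :
    DD Λ ^ kk Λ ≤ M * ((range (DD Λ ^ kk Λ)).filter (fun V =>
      p % (2 * M) = rho Λ M V (kk Λ))).card := by
  obtain ⟨q1, q2, q3, q4, q5, q6, q7, q8, q9, q10⟩ := h.p_facts hp
  have hMpos := h.M_pos
  have hpM : p.Coprime M := Nat.coprime_of_lt_prime hMpos.ne' q3 q1
  have h2M : Nat.Coprime 2 M := by
    rw [Nat.Prime.coprime_iff_not_dvd Nat.prime_two]
    have := h.hM
    omega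
  have hu : IsUnit (((2 * p : ℕ)) : ZMod M) := by
    rw [ZMod.isUnit_iff_coprime]
    exact h2M.mul_left hpM
  set a : ZMod M := ((2 * p : ℕ) : ZMod M) with ha
  have hainv : a⁻¹ * a = 1 := ZMod.inv_mul_of_unit a hu
  have hinvu : IsUnit a⁻¹ := by
    rw [isUnit_iff_exists_inv]
    exact ⟨a, hainv⟩
  have hJa : jchar M a = -1 := by
    rw [ha, Nat.cast_mul, map_mul]
    have : ((2 : ℕ) : ZMod M) = 2 := by norm_num
    rw [this, jchar_two h.hM, jchar_apply, q7]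
    norm_num
  have hJ : jchar M (-a⁻¹) = 1 := by
    have h2 : jchar M (a⁻¹ * a) = 1 := by rw [hainv, map_one]
    rw [map_mul, hJa] at h2
    have h3 : (-a⁻¹ : ZMod M) = (-1) * a⁻¹ := by ring
    rw [h3, map_mul, jchar_neg_one h.hM]
    linear_combination h2
  refine (h.mixing hmix (-a⁻¹) hinvu.neg hJ).trans (Nat.mul_le_mul_left _ ?_)
  refine Finset.card_le_card (fun V hV => ?_)
  rw [Finset.mem_filter] at hV ⊢
  refine ⟨hV.1, ?_⟩
  obtain ⟨r1, r2, r3, r4⟩ := h.rho_spec V (kk Λ)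
  have hS : ((Sn Λ M V (kk Λ) : ℕ) : ZMod M) = -a⁻¹ := by
    rw [hV.2]
    unfold Sn
    push_cast
    rfl
  -- the residue is `p`
  have h4 : ((2 * (Sn Λ M V (kk Λ) : ℤ) * (rho Λ M V (kk Λ)) + 1 : ℤ) : ZMod M) = 0 := by
    rw [ZMod.intCast_zmod_eq_zero_iff_dvd]
    exact r4
  have h5 : ((rho Λ M V (kk Λ) : ℕ) : ZMod M) = (p : ZMod M) := by
    push_cast at h4
    rw [hS] at h4
    have h6 : a = 2 * (p : ZMod M) := by rw [ha]; push_cast; ring
    have h7 : 2 * a⁻¹ * ((rho Λ M V (kk Λ) : ℕ) : ZMod M) = 1 := by linear_combination -h4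
    calc ((rho Λ M V (kk Λ) : ℕ) : ZMod M) = (a⁻¹ * a) * ((rho Λ M V (kk Λ) : ℕ) : ZMod M) := by
          rw [hainv, one_mul]
      _ = (p : ZMod M) * (2 * a⁻¹ * ((rho Λ M V (kk Λ) : ℕ) : ZMod M)) := by
          rw [h6]; ring
      _ = p := by rw [h7, mul_one]
  rw [ZMod.natCast_eq_natCast_iff] at h5
  have hpodd : p % 2 = 1 := q1.eq_two_or_odd.resolve_left q6
  have h6 : rho Λ M V (kk Λ) ≡ p [MOD 2 * M] := by
    rw [← Nat.modEq_and_modEq_iff_modEq_mul h2M]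
    exact ⟨by unfold Nat.ModEq; omega, h5⟩
  unfold Nat.ModEq at h6
  rw [← h6, Nat.mod_eq_of_lt r2]

open Classical in
/-- **Success probability.** -/
theorem success [NeZero M] (hmix : Mix Λ M) :
    DD Λ ^ (kk Λ + 1) ≤ 3 * KK Λ *
      ((range (DD Λ ^ (kk Λ + 1))).filter (fun V => Suc Λ M V)).card := by
  have hK : (0 : ℝ) < KK Λ := by exact_mod_cast KK_pos Λ
  have hD : (0 : ℝ) < DD Λ := by exact_mod_cast DD_pos Λ
  have hMpos : (0 : ℝ) < M := by exact_mod_cast h.M_pos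
  set T : ℝ := (DD Λ : ℝ) ^ kk Λ with hT
  have hT0 : 0 < T := by positivity
  have h1 : (((range (DD Λ ^ (kk Λ + 1))).filter (fun V => Suc Λ M V)).card : ℝ) =
      ∑ V ∈ range (DD Λ ^ kk Λ), (((range (DD Λ)).filter
        (fun w => Suc Λ M (V + DD Λ ^ kk Λ * w))).card : ℝ) := by
    rw [Finset.card_filter, pow_succ]
    have h2 := sum_split' (DD Λ ^ kk Λ) (DD Λ) (fun V w =>
      if Suc Λ M (V + DD Λ ^ kk Λ * w) then 1 else 0)
    simp only [Nat.mod_add_div] at h2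
    rw [h2]
    push_cast
    refine Finset.sum_congr rfl (fun V _ => ?_)
    rw [Finset.card_filter]
    push_cast
    rfl
  have h2 : ∑ V ∈ range (DD Λ ^ kk Λ), (∑ p ∈ (gp Λ M).filter
      (fun p => p % (2 * M) = rho Λ M V (kk Λ)), cw Λ M p -
      (kk Λ * (2 * M * DD Λ / (3 * 2 ^ (Λ ^ 2))) + DD Λ * (if ¬ GC Λ M V (kk Λ) then 1 else 0))) ≤
      (((range (DD Λ ^ (kk Λ + 1))).filter (fun V => Suc Λ M V)).card : ℝ) := by
    rw [h1]
    exact Finset.sum_le_sum (fun V hV => h.last_count' V (Finset.mem_range.mp hV))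
  rw [Finset.sum_sub_distrib, Finset.sum_add_distrib, Finset.sum_const, Finset.card_range,
    ← Finset.mul_sum] at h2
  -- the main term
  have h3 : 2 / (3 * (KK Λ : ℝ)) * (T * DD Λ) ≤ ∑ V ∈ range (DD Λ ^ kk Λ),
      ∑ p ∈ (gp Λ M).filter (fun p => p % (2 * M) = rho Λ M V (kk Λ)), cw Λ M p := by
    have h4 : ∑ V ∈ range (DD Λ ^ kk Λ),
        ∑ p ∈ (gp Λ M).filter (fun p => p % (2 * M) = rho Λ M V (kk Λ)), cw Λ M p =
        ∑ p ∈ gp Λ M, cw Λ M p * (((range (DD Λ ^ kk Λ)).filter (fun V =>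
      p % (2 * M) = rho Λ M V (kk Λ))).card : ℝ) := by
      simp only [Finset.sum_filter]
      rw [Finset.sum_comm]
      refine Finset.sum_congr rfl (fun p _ => ?_)
      rw [← Finset.sum_filter, Finset.sum_const, nsmul_eq_mul, mul_comm]
    rw [h4]
    have h5 : ∀ p ∈ gp Λ M, 2 / (3 * (KK Λ : ℝ)) * (T * DD Λ) * (1 / p) ≤
        cw Λ M p * (((range (DD Λ ^ kk Λ)).filter (fun V =>
      p % (2 * M) = rho Λ M V (kk Λ))).card : ℝ) := by
      intro p hp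
      have hp0 : (0 : ℝ) < p := by exact_mod_cast (h.p_facts hp).1.pos
      have h6 := h.class_count hmix hp
      have h7 : T ≤ M * (((range (DD Λ ^ kk Λ)).filter (fun V =>
        p % (2 * M) = rho Λ M V (kk Λ))).card : ℝ) := by rw [hT]; exact_mod_cast h6
      have h8 : T / M ≤ (((range (DD Λ ^ kk Λ)).filter (fun V =>
        p % (2 * M) = rho Λ M V (kk Λ))).card : ℝ) := by
        rw [div_le_iff₀ hMpos]; linarith
      calc 2 / (3 * (KK Λ : ℝ)) * (T * DD Λ) * (1 / p) = cw Λ M p * (T / M) := by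
            unfold cw; field_simp
        _ ≤ _ := mul_le_mul_of_nonneg_left h8 (cw_nonneg p)
    refine le_trans ?_ (Finset.sum_le_sum h5)
    rw [← Finset.mul_sum]
    have h6 := hmix.1
    have h7 : 0 ≤ 2 / (3 * (KK Λ : ℝ)) * (T * DD Λ) := by positivity
    nlinarith
  -- the error terms
  have h4 : ((DD Λ ^ kk Λ) • ((kk Λ : ℝ) * (2 * M * DD Λ / (3 * 2 ^ (Λ ^ 2))))) ≤
      1 / (6 * (KK Λ : ℝ)) * (T * DD Λ) := by
    rw [nsmul_eq_mul]
    push_cast
    rw [← hT]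
    have h5 : 4 * KK Λ * kk Λ * M ≤ 2 ^ (Λ ^ 2) := by
      have h6 := h.sq_ge
      calc 4 * KK Λ * kk Λ * M = 96 * Λ ^ 405 * M := by
            rw [h.K_eq, kk_eq]
            ring
        _ ≤ 2 ^ 7 * 2 ^ (3 * Λ) * 2 ^ Λ := by
            refine Nat.mul_le_mul (Nat.mul_le_mul (by norm_num) (h.pow_le 405 3 (by norm_num)))
              h.hM2
        _ = 2 ^ (4 * Λ + 7) := by rw [← pow_add, ← pow_add]; congr 1; omega
        _ ≤ 2 ^ (Λ ^ 2) := Nat.pow_le_pow_right (by norm_num) (by omega)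
    have h6 : 4 * (KK Λ : ℝ) * kk Λ * M ≤ 2 ^ (Λ ^ 2) := by exact_mod_cast h5
    rw [← sub_nonneg]
    have h7 : 1 / (6 * (KK Λ : ℝ)) * (T * DD Λ) - T * (kk Λ * (2 * M * DD Λ / (3 * 2 ^ (Λ ^ 2)))) =
        T * DD Λ / (6 * KK Λ * 2 ^ (Λ ^ 2)) * (2 ^ (Λ ^ 2) - 4 * (KK Λ : ℝ) * kk Λ * M) := by
      field_simp
      ring
    rw [h7]
    exact mul_nonneg (by positivity) (by linarith)
  have h5 : (DD Λ : ℝ) * ∑ V ∈ range (DD Λ ^ kk Λ), (if ¬ GC Λ M V (kk Λ) then (1 : ℝ) else 0) ≤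
      1 / (6 * (KK Λ : ℝ)) * (T * DD Λ) := by
    have h6 := h.bad_count (kk Λ)
    have h7 : ∑ V ∈ range (DD Λ ^ kk Λ), (if ¬ GC Λ M V (kk Λ) then (1 : ℝ) else 0) =
        (((range (DD Λ ^ kk Λ)).filter (fun V => ¬ GC Λ M V (kk Λ))).card : ℝ) := by
      rw [Finset.card_filter]
      push_cast
      rfl
    rw [h7]
    set bad := ((range (DD Λ ^ kk Λ)).filter (fun V => ¬ GC Λ M V (kk Λ))).card
    have h8 : (BB Λ : ℝ) * bad ≤ KK Λ * kk Λ ^ 2 * T := by rw [hT]; exact_mod_cast h6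
    have h9 : 6 * KK Λ * (KK Λ * kk Λ ^ 2) ≤ BB Λ := by
      rw [h.K_eq, kk_eq, BB_eq]
      have h10 : 3456 ≤ Λ ^ 10 := by
        calc 3456 ≤ 200 ^ 10 := by norm_num
          _ ≤ Λ ^ 10 := Nat.pow_le_pow_left h.ge200 10
      calc 6 * Λ ^ 202 * (Λ ^ 202 * (24 * Λ ^ 203) ^ 2) = 3456 * Λ ^ 810 := by ring
        _ ≤ Λ ^ 10 * Λ ^ 810 := Nat.mul_le_mul_right _ h10
        _ = Λ ^ 820 := by rw [← pow_add]
    have h10 : 6 * (KK Λ : ℝ) * (KK Λ * kk Λ ^ 2) ≤ BB Λ := by exact_mod_cast h9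
    have hB : (0 : ℝ) < BB Λ := by
      have := h.B_ge
      exact_mod_cast (by omega : 0 < BB Λ)
    have h11 : 6 * (KK Λ : ℝ) * bad ≤ T := by
      have e1 : 6 * (KK Λ : ℝ) * (BB Λ * bad) ≤ 6 * KK Λ * (KK Λ * kk Λ ^ 2 * T) :=
        mul_le_mul_of_nonneg_left h8 (by positivity)
      have e2 : 6 * (KK Λ : ℝ) * (KK Λ * kk Λ ^ 2 * T) ≤ BB Λ * T := by
        have := mul_le_mul_of_nonneg_right h10 hT0.le
        linarith
      have e3 : (BB Λ : ℝ) * (6 * (KK Λ : ℝ) * bad) ≤ BB Λ * T := by linarith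
      exact le_of_mul_le_mul_left e3 hB
    have h12 : (bad : ℝ) ≤ 1 / (6 * (KK Λ : ℝ)) * T := by
      rw [one_div, inv_mul_eq_div, le_div_iff₀ (by positivity)]
      linarith
    nlinarith
  have h6 : 1 / (3 * (KK Λ : ℝ)) * (T * DD Λ) ≤
      (((range (DD Λ ^ (kk Λ + 1))).filter (fun V => Suc Λ M V)).card : ℝ) := by
    have e1 : 2 / (3 * (KK Λ : ℝ)) * (T * DD Λ) - 2 * (1 / (6 * (KK Λ : ℝ)) * (T * DD Λ)) =
        1 / (3 * (KK Λ : ℝ)) * (T * DD Λ) := by field_simp; ring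
    linarith
  have h7 : ((DD Λ ^ (kk Λ + 1) : ℕ) : ℝ) ≤ ((3 * KK Λ *
      ((range (DD Λ ^ (kk Λ + 1))).filter (fun V => Suc Λ M V)).card : ℕ) : ℝ) := by
    rw [one_div, inv_mul_eq_div, div_le_iff₀ (by positivity)] at h6
    push_cast
    rw [pow_succ]
    linarith
  exact_mod_cast h7

end Par

end Pool.Agent.H79.Tet
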