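import Mathlib
import Pool.Agent.H79.Tet.Alg7
import Pool.Agent.H79.Tet.Walk5

/-!
# Success of one trial
-/

namespace Pool.Agent.H79.Tet

open Finset Pool.Agent.H7.Comp
open scoped NumberTheorySymbols Nat

lemma CC_eq : CC = 55 * 265625 * 244140625 := by unfold CC; rfl

/-- encoding of the index -/
lemma index {X w v Y : ℕ} (h1 : X < 5) (h2 : w < 11) (h3 : v < 265625) (h4 : Y < 244140625) :
    ∃ i < CC, i % 5 = X ∧ i / 5 % 11 = w ∧ i / 55 % 265625 = v ∧ i / 55 / 265625 = Y := by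
  refine ⟨X + 5 * (w + 11 * (v + 265625 * Y)), ?_, ?_, ?_, ?_, ?_⟩
  · rw [CC_eq]
    omega
  · omega
  · omega
  · omega
  · omega

/-- the attempt with a good candidate -/
lemma try_ne {Λ n V i : ℕ} (hn : 0 < n) (hi : i < CC) {x y : ℤ} {M : ℕ}
    (hy : candY n i = y) (hx : candX n i = x) (hM8 : M % 8 = 3)
    (hMt : (M : ℤ) ≤ 5 ^ jj n * 5 ^ jj n) (hx0 : 0 ≤ x) (hy0 : 0 ≤ y)
    (h : 6 * 5 ^ jj n * (M : ℤ) = 8 * (6 * n - fc x - fc y) -
      6 * (5 ^ jj n * 5 ^ jj n * 5 ^ jj n) + 24 * 5 ^ jj n)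
    (hs : Suc Λ M V) : trial Λ n V ≠ [] := by
  refine firstL_ne _ hi ?_
  have ht0 : (0 : ℤ) < 5 ^ jj n := by positivity
  have hM : candM n i = (M : ℤ) := by
    unfold candM
    rw [hx, hy, ← h]
    exact Int.mul_ediv_cancel_left _ (by positivity)
  unfold tryI
  rw [hx, hy, hM]
  refine res8_ne hn ?_
  refine chk8_of hx0 hy0 ?_ ht0 (M := (M : ℤ)) (by omega) hMt hs ?_
  · have : Odd ((5 : ℤ) ^ jj n) := Odd.pow (by decide)
    exact Int.odd_iff.mp this
  · linear_combination h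

/-- **Success of one trial.** -/
theorem trial_success {Λ n : ℕ} (hΛ : 3 ≤ Λ) (hΛ2 : Λ ^ 200 ≤ 2 ^ Λ) (hn : 125 ^ 24 ≤ n)
    (hn2 : n < 2 ^ Λ) : DD Λ ^ (kk Λ + 1) ≤ 3 * KK Λ *
      ((range (DD Λ ^ (kk Λ + 1))).filter (fun V => trial Λ n V ≠ [])).card := by
  have hn0 : 0 < n := lt_of_lt_of_le (by norm_num) hn
  have hj : 24 ≤ jj n := by
    rw [jj_eq]
    exact Nat.le_log_of_pow_le (by norm_num) hn
  have hj1 : 125 ^ jj n ≤ n := by rw [jj_eq]; exact Nat.pow_log_le_self 125 hn0.ne'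
  have hj2 : n < 125 * 125 ^ jj n := by
    rw [jj_eq, ← pow_succ']
    exact Nat.lt_pow_succ_log_self (by norm_num) n
  -- a candidate with a prescribed residue, in the form needed
  have key : ∀ ρ : ℕ, ρ < 7 → ∃ M : ℕ, Par Λ M ∧ M % 7 = ρ ∧
      ∀ V, Suc Λ M V → trial Λ n V ≠ [] := by
    intro ρ hρ
    obtain ⟨X, w, v, Y, e1, e2, e3, e4, x, y, M, hy, hx, hM8, hM7, hM0, hMt, hx0, hy0, h⟩ :=
      cand_exists (n := (n : ℤ)) hj (by exact_mod_cast hj1) (by exact_mod_cast hj2) (ρ : ℤ)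
    obtain ⟨i, hi, i1, i2, i3, i4⟩ := index e1 e2 e3 e4
    obtain ⟨M', rfl⟩ : ∃ M' : ℕ, M = (M' : ℤ) := ⟨M.toNat, by omega⟩
    have hM8' : M' % 8 = 3 := by omega
    have hcY : candY n i = y := by
      unfold candY
      rw [i3, i4, hy]
    have hcX : candX n i = x := by
      unfold candX
      rw [hcY, i1, i2, liftF_eq, hx]
    refine ⟨M', ⟨hΛ, hΛ2, hM8', ?_⟩, ?_, ?_⟩
    · have h2 : (M' : ℤ) ≤ 5 ^ jj n * 5 ^ jj n := hMt
      have h3 : M' ≤ 5 ^ jj n * 5 ^ jj n := by exact_mod_cast h2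
      have h4 : 5 ^ jj n * 5 ^ jj n ≤ 125 ^ jj n := by
        rw [← mul_pow]
        exact Nat.pow_le_pow_left (by norm_num) _
      exact h3.trans (h4.trans (hj1.trans hn2.le))
    · clear * - hM7 hρ
      omega
    · intro V hV
      exact try_ne hn0 hi hcY hcX hM8' hMt hx0 hy0 h hV
  obtain ⟨M₁, p1, r1, s1⟩ := key 1 (by norm_num)
  obtain ⟨M₂, p2, r2, s2⟩ := key 3 (by norm_num)
  have : NeZero M₁ := ⟨p1.M_pos.ne'⟩
  have : NeZero M₂ := ⟨p2.M_pos.ne'⟩
  have fin : ∀ M : ℕ, ∀ _ : NeZero M, Par Λ M → Mix Λ M → (∀ V, Suc Λ M V → trial Λ n V ≠ []) →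
      DD Λ ^ (kk Λ + 1) ≤ 3 * KK Λ *
      ((range (DD Λ ^ (kk Λ + 1))).filter (fun V => trial Λ n V ≠ [])).card := by
    intro M _ p hmix hs
    have h1 := p.success hmix
    refine h1.trans (Nat.mul_le_mul_left _ (Finset.card_le_card ?_))
    intro V hV
    simp only [Finset.mem_filter] at hV ⊢
    exact ⟨hV.1, hs V hV.2⟩
  rcases one_good hΛ p1.hM2 p2.hM2 (jchar_mul_ne_one p1.hM p2.hM r1 r2) with h | h
  · exact fin M₁ inferInstance p1 (mix_of_good hΛ hΛ2 p1.hM2 h) s1
  · exact fin M₂ inferInstance p2 (mix_of_good hΛ hΛ2 p2.hM2 h) s2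

/-! ### Repeated trials -/

/-- number of tapes on which all trials fail -/
lemma all_fail (W R : ℕ) (P : ℕ → Prop) [DecidablePred P] (T : ℕ) :
    ((range (W ^ T * R)).filter (fun V => ∀ τ < T, P (V / W ^ τ % W))).card ≤
      ((range W).filter P).card ^ T * R := by
  induction T with
  | zero =>
    simp only [pow_zero, one_mul]
    exact (Finset.card_filter_le _ _).trans (by rw [Finset.card_range])
  | succ T ih =>
    have h1 : W ^ (T + 1) * R = W * (W ^ T * R) := by rw [pow_succ]; ring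
    rw [h1, Finset.card_filter]
    have h2 : ∀ V ∈ range (W * (W ^ T * R)), (if ∀ τ < T + 1, P (V / W ^ τ % W) then 1 else 0) ≤
        (fun a x => if P a then (if ∀ τ < T, P (x / W ^ τ % W) then 1 else 0) else 0) (V % W)
          (V / W) := by
      intro V _
      simp only
      split_ifs with h3 h4 h5 h5
      · exact le_rfl
      · exfalso
        apply h5
        intro τ hτ
        have := h3 (τ + 1) (by omega)
        rwa [pow_succ', ← Nat.div_div_eq_div_mul] at this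
      · exfalso
        apply h4
        have := h3 0 (by omega)
        simpa using this
      · exact Nat.zero_le _
      · exact Nat.zero_le _
      · exact Nat.zero_le _
    refine (Finset.sum_le_sum h2).trans ?_
    rw [sum_split' W (W ^ T * R)
      (fun a x => if P a then (if ∀ τ < T, P (x / W ^ τ % W) then 1 else 0) else 0)]
    have h3 : ∀ a ∈ range W, ∑ x ∈ range (W ^ T * R),
        (if P a then (if ∀ τ < T, P (x / W ^ τ % W) then 1 else 0) else 0) ≤
        (if P a then 1 else 0) * (((range W).filter P).card ^ T * R) := by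
      intro a _
      by_cases ha : P a
      · simp only [ha, if_true, one_mul]
        rw [← Finset.card_filter]
        exact ih
      · simp [ha]
    refine (Finset.sum_le_sum h3).trans ?_
    rw [← Finset.sum_mul, ← Finset.card_filter, pow_succ]
    apply le_of_eq
    ring

end Pool.Agent.H79.Tet
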