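import Mathlib
import Pool.Agent.H79.Tet.Fin1
import Pool.Agent.H79.Tet.Brute

/-!
# Repeated trials on a tape of random bits
-/

namespace Pool.Agent.H79.Tet

open Pool.Agent.H7.Comp
open scoped Nat

variable {α β γ δ σ : Type} [Enc α] [Enc β] [Enc γ] [Enc δ] [Enc σ]

/-- the size parameter -/
def Lam (n : ℕ) : ℕ := 2 ^ n.size.size

lemma size_lt_Lam (n : ℕ) : n.size < Lam n := Nat.lt_size_self _

lemma Lam_le (n : ℕ) : Lam n ≤ 2 * n.size + 1 := by
  unfold Lam
  rcases Nat.eq_zero_or_pos n.size with h | h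
  · rw [h]; simp
  · have h1 : 2 ^ (n.size.size - 1) ≤ n.size := by
      have h2 : 0 < n.size.size := Nat.size_pos.mpr h
      exact (Nat.lt_size (m := n.size.size - 1) (n := n.size)).mp (by omega)
    have h2 : n.size.size = (n.size.size - 1) + 1 := by
      have h2 : 0 < n.size.size := Nat.size_pos.mpr h
      omega
    rw [h2, pow_succ]
    omega

lemma lt_two_pow_Lam (n : ℕ) : n < 2 ^ Lam n :=
  (Nat.lt_size_self n).trans (Nat.pow_lt_pow_right (by norm_num) (size_lt_Lam n))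

lemma PT_Lam {n : α → ℕ} (hn : PN n) : PT (fun x => Lam (n x)) := by
  have h1 := PT_usize hn
  have h2 : PT (fun x => (n x).size.size) := PT_usize (PN.of h1)
  exact PN.toU ((PN.const 2).pow h2) (((PT.const 2).mul h1).add (PT.const 1)) (fun x => Lam_le _)

/-- number of random strings of one trial -/
def WW (Λ : ℕ) : ℕ := DD Λ ^ (kk Λ + 1)

lemma WW_pos (Λ : ℕ) : 0 < WW Λ := by
  unfold WW
  have := DD_pos Λ
  positivity

lemma PN_WW {f : α → ℕ} (hf : PT f) : PN (fun x => WW (f x)) :=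
  (PN_DD hf).pow ((PT_kk hf).add (PT.const 1))

/-- number of trials -/
def TT (c Λ : ℕ) : ℕ := 3 * KK Λ * (c * Λ)

lemma PT_TT (c : ℕ) {f : α → ℕ} (hf : PT f) : PT (fun x => TT c (f x)) :=
  ((PT.const 3).mul (PT_KK hf)).mul ((PT.const c).mul hf)

/-- all the trials, on the random number `V` -/
def multi (c n V : ℕ) : List Bn :=
  firstL (fun τ => trial (Lam n) n (V / WW (Lam n) ^ τ % WW (Lam n))) (TT c (Lam n))

lemma PT_multi (c : ℕ) : PT (fun x : Bn × List Bool => multi c x.1.v (vl x.2)) := by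
  have hn : PN (fun x : Bn × List Bool => x.1.v) := PN.bn PT.fst
  have hV : PN (fun x : Bn × List Bool => vl x.2) := PN.bn (PT_vl.comp PT.snd)
  refine PT_firstL (f := fun (x : Bn × List Bool) τ =>
    trial (Lam x.1.v) x.1.v (vl x.2 / WW (Lam x.1.v) ^ τ % WW (Lam x.1.v)))
    (PT_TT c (PT_Lam hn)) ?_
  have hn' : PN (fun p : (Bn × List Bool) × ℕ => p.1.1.v) := PN.bn (PT.fst.comp PT.fst)
  have hV' : PN (fun p : (Bn × List Bool) × ℕ => vl p.1.2) :=
    PN.bn (PT_vl.comp (PT.snd.comp PT.fst))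
  have hL := PT_Lam hn'
  exact PT_trial hL hn' ((hV'.div ((PN_WW hL).pow PT.snd)).mod (PN_WW hL))

lemma multi_spec {c n V : ℕ} (h : multi c n V ≠ []) : IsRep n (vals (multi c n V)) := by
  rcases firstL_mem (fun τ => trial (Lam n) n (V / WW (Lam n) ^ τ % WW (Lam n)))
    (TT c (Lam n)) with h1 | ⟨i, _, h1, h2⟩
  · exact absurd h1 h
  · unfold multi
    rw [h1]
    exact trial_spec h2

lemma multi_nil {c n V : ℕ} (h : multi c n V = []) :
    ∀ τ < TT c (Lam n), trial (Lam n) n (V / WW (Lam n) ^ τ % WW (Lam n)) = [] := by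
  intro τ hτ
  by_contra hcon
  exact firstL_ne (fun τ => trial (Lam n) n (V / WW (Lam n) ^ τ % WW (Lam n))) hτ hcon h

/-- number of random bits used -/
def bitsUsed (c n : ℕ) : ℕ :=
  (1 + 202 * n.size.size + 3 * KK (Lam n)) * (kk (Lam n) + 1) * TT c (Lam n)

lemma DD_pow2 (n : ℕ) : DD (Lam n) = 2 ^ (1 + 202 * n.size.size + 3 * KK (Lam n)) := by
  have h1 : 1 ≤ Lam n := Nat.one_le_two_pow
  have h2 : KK (Lam n) = 2 ^ (202 * n.size.size) := by
    rw [KK_eq h1, Lam, ← pow_mul, mul_comm]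
  rw [DD_eq]
  nth_rw 1 [h2]
  rw [pow_add, pow_add, pow_one, show 3 * KK (Lam n) = KK (Lam n) + 2 * KK (Lam n) by ring, pow_add]
  ring

lemma WW_pow2 (c n : ℕ) : WW (Lam n) ^ TT c (Lam n) = 2 ^ bitsUsed c n := by
  unfold WW bitsUsed
  rw [DD_pow2, ← pow_mul, ← pow_mul, mul_assoc]

lemma fail_bound {K W g f T c Λ R X N : ℕ} (hW0 : 0 < W) (hK0 : 0 < K) (h1 : W ≤ 3 * K * g)
    (h3 : g + f = W) (hT : T = 3 * K * (c * Λ)) (h4 : N ≤ f ^ T * R) (h2 : X = W ^ T * R) :
    2 ^ (c * Λ) * N ≤ X := by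
  have hK : (0 : ℝ) < K := by exact_mod_cast hK0
  have hW : (0 : ℝ) < W := by exact_mod_cast hW0
  have h5 : (f : ℝ) ≤ W * Real.exp (-(1 / (3 * K))) := by
    have e1 : (f : ℝ) = W - g := by
      have : (g : ℝ) + f = W := by exact_mod_cast h3
      linarith
    have e2 : (W : ℝ) ≤ 3 * K * g := by exact_mod_cast h1
    have e3 : (W : ℝ) / (3 * K) ≤ g := by
      rw [div_le_iff₀ (by positivity)]; linarith
    have e4 := Real.one_sub_le_exp_neg (1 / (3 * (K : ℝ)))
    calc (f : ℝ) ≤ W - W / (3 * K) := by linarith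
      _ = W * (1 - 1 / (3 * K)) := by ring
      _ ≤ _ := mul_le_mul_of_nonneg_left e4 hW.le
  have h6 : (f : ℝ) ^ T ≤ (W : ℝ) ^ T * Real.exp (-(c * Λ)) := by
    calc (f : ℝ) ^ T ≤ (W * Real.exp (-(1 / (3 * K)))) ^ T :=
          pow_le_pow_left₀ (by positivity) h5 _
      _ = (W : ℝ) ^ T * Real.exp (-(c * Λ)) := by
          rw [mul_pow, ← Real.exp_nat_mul]
          congr 2
          rw [hT]
          push_cast
          field_simp
  have h7 : (2 : ℝ) ^ (c * Λ) * Real.exp (-(c * Λ)) ≤ 1 := by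
    have h8 : (2 : ℝ) ≤ Real.exp 1 := by
      have := Real.add_one_le_exp (1 : ℝ); linarith
    have h9 : (2 : ℝ) ^ (c * Λ) ≤ Real.exp (c * Λ) := by
      calc (2 : ℝ) ^ (c * Λ) ≤ Real.exp 1 ^ (c * Λ) := pow_le_pow_left₀ (by norm_num) h8 _
        _ = Real.exp (c * Λ) := by rw [← Real.exp_nat_mul, mul_one]; push_cast; rfl
    rw [Real.exp_neg, ← div_eq_mul_inv, div_le_one (Real.exp_pos _)]
    exact h9
  have e1 : (N : ℝ) ≤ (f : ℝ) ^ T * R := by exact_mod_cast h4
  have e2 : (X : ℝ) = (W : ℝ) ^ T * R := by rw [h2]; push_cast; rfl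
  have h8 : (2 : ℝ) ^ (c * Λ) * N ≤ X := by
    calc (2 : ℝ) ^ (c * Λ) * (N : ℝ)
        ≤ (2 : ℝ) ^ (c * Λ) * ((W : ℝ) ^ T * Real.exp (-(c * Λ)) * R) := by
          refine mul_le_mul_of_nonneg_left (e1.trans ?_) (by positivity)
          exact mul_le_mul_of_nonneg_right h6 (by positivity)
      _ = ((2 : ℝ) ^ (c * Λ) * Real.exp (-(c * Λ))) * ((W : ℝ) ^ T * R) := by ring
      _ ≤ 1 * ((W : ℝ) ^ T * R) := mul_le_mul_of_nonneg_right h7 (by positivity)
      _ = X := by rw [e2, one_mul]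
  exact_mod_cast h8

lemma Lam_big {n : ℕ} (hn : 4096 ≤ n.size) : 3 ≤ Lam n ∧ Lam n ^ 200 ≤ 2 ^ Lam n ∧ 125 ^ 24 ≤ n := by
  have hss : 13 ≤ n.size.size := by
    have : 2 ^ 12 ≤ n.size := by norm_num; exact hn
    exact Nat.lt_size.mpr this
  refine ⟨?_, ?_, ?_⟩
  · have := size_lt_Lam n
    omega
  · rw [Lam, ← pow_mul]
    refine Nat.pow_le_pow_right (by norm_num) ?_
    have : ∀ m : ℕ, 13 ≤ m → m * 200 ≤ 2 ^ m := by
      intro m hm
      induction m, hm using Nat.le_induction with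
      | base => norm_num
      | succ m hm ih =>
        rw [pow_succ]
        omega
    exact this _ hss
  · have h1 : 2 ^ 168 ≤ n := Nat.lt_size.mp (by omega)
    refine le_trans ?_ h1
    calc 125 ^ 24 ≤ 128 ^ 24 := Nat.pow_le_pow_left (by norm_num) _
      _ = 2 ^ 168 := by norm_num

/-- The proportion of tapes on which all trials fail is small. -/
theorem multi_fail {c n ℓ : ℕ} (hn : 4096 ≤ n.size) (hℓ : bitsUsed c n ≤ ℓ) :
    2 ^ (c * Lam n) * ((Finset.range (2 ^ ℓ)).filter (fun V => multi c n V = [])).card ≤ 2 ^ ℓ := by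
  obtain ⟨hΛ, hΛ2, hn24⟩ := Lam_big hn
  have h1 := trial_success hΛ hΛ2 hn24 (lt_two_pow_Lam n)
  have h2 : 2 ^ ℓ = WW (Lam n) ^ TT c (Lam n) * 2 ^ (ℓ - bitsUsed c n) := by
    rw [WW_pow2, ← pow_add]
    congr 1
    omega
  have h3 : ((Finset.range (WW (Lam n))).filter (fun V => trial (Lam n) n V ≠ [])).card +
      ((Finset.range (WW (Lam n))).filter (fun V => trial (Lam n) n V = [])).card =
      WW (Lam n) := by
    have h := Finset.card_filter_add_card_filter_not (s := Finset.range (WW (Lam n)))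
      (fun V => trial (Lam n) n V ≠ [])
    rw [Finset.card_range] at h
    have e : (Finset.range (WW (Lam n))).filter (fun V => ¬ trial (Lam n) n V ≠ []) =
        (Finset.range (WW (Lam n))).filter (fun V => trial (Lam n) n V = []) :=
      Finset.filter_congr (fun V _ => not_not)
    rw [e] at h
    exact h
  have h4 : ((Finset.range (2 ^ ℓ)).filter (fun V => multi c n V = [])).card ≤
      ((Finset.range (WW (Lam n))).filter (fun V => trial (Lam n) n V = [])).card ^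
        TT c (Lam n) * 2 ^ (ℓ - bitsUsed c n) := by
    rw [h2]
    have h5 := all_fail (WW (Lam n)) (2 ^ (ℓ - bitsUsed c n)) (fun V => trial (Lam n) n V = [])
      (TT c (Lam n))
    refine le_trans (Finset.card_le_card ?_) h5
    intro V hV
    rw [Finset.mem_filter] at hV ⊢
    exact ⟨hV.1, multi_nil hV.2⟩
  exact fail_bound (WW_pos _) (KK_pos _) h1 h3 rfl h4 h2

/-! ### The length of the tape -/

lemma bits_bound (c : ℕ) : ∃ e, ∀ n : ℕ, bitsUsed c n ≤ (n.size + 2) ^ e := by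
  have hn : PN (fun x : Bn => x.v) := PN.bn PT.id
  have hL := PT_Lam hn
  have h1 : PT (fun x : Bn => bitsUsed c x.v) :=
    ((((PT.const 1).add ((PT.const 202).mul (PT_usize (PN.of (PT_usize hn))))).add
      ((PT.const 3).mul (PT_KK hL))).mul ((PT_kk hL).add (PT.const 1))).mul (PT_TT c hL)
  obtain ⟨e, he⟩ := h1.value
  refine ⟨3 * e, fun n => (he ⟨n⟩).trans ?_⟩
  rw [pow_mul]
  apply Nat.pow_le_pow_left
  have h2 := sz_Bn_le (⟨n⟩ : Bn)
  simp only at h2
  have h3 : 4 * n.size + 3 ≤ (n.size + 2) ^ 3 := by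
    have : (n.size + 2) ^ 3 = n.size ^ 3 + 6 * n.size ^ 2 + 12 * n.size + 8 := by ring
    rw [this]
    have := Nat.zero_le (n.size ^ 3)
    have := Nat.zero_le (n.size ^ 2)
    omega
  omega

end Pool.Agent.H79.Tet
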