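import Mathlib
import Pool.Agent.H79.Tet.Fin2

/-!
# The exhaustive search as a program
-/

namespace Pool.Agent.H79.Tet

open Pool.Agent.H7.Comp
open scoped Nat

/-- A program computing `2 ^ |n|` in unary. -/
theorem dbl_prog : ∃ (p : Prog) (c : ℕ), ∀ l : List Bool, ∃ t,
    t ≤ (l.length + 1) * ((2 * 2 ^ l.length + 3) ^ c + 10) + 10 ∧
      Run p (enc l) (encNat (2 ^ l.length)) t := by
  have hd : PT (fun m : ℕ => m + m) := PT.id.add PT.id
  obtain ⟨q, Tq, ⟨c, hc⟩, _, hq⟩ := hd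
  let body : Prog := .pair (.seq .hd .tl) (.seq .tl q)
  have hloop : ∀ (l : List Bool) (m : ℕ), ∃ t,
      t ≤ (l.length + 1) * ((2 * (2 ^ l.length * m) + 3) ^ c + 10) ∧
      Run (.loop .hd body) (.node (encList l) (encNat m))
        (.node .nil (encNat (2 ^ l.length * m))) t := by
    intro l
    induction l with
    | nil =>
      intro m
      refine ⟨1 + 1, ?_, ?_⟩
      · simp only [List.length_nil]
        omega
      · have : 2 ^ ([] : List Bool).length * m = m := by simp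
        rw [this]
        exact Run.loop_stop (Run.hd_node _ _)
    | cons a l ih =>
      intro m
      obtain ⟨t, ht, hrun⟩ := ih (m + m)
      obtain ⟨u, hu, hrun2⟩ := hq m
      have e1 : 2 ^ (a :: l).length * m = 2 ^ l.length * (m + m) := by
        rw [List.length_cons, pow_succ]; ring
      rw [e1]
      have hbody : Run body (.node (encList (a :: l)) (encNat m))
          (.node (encList l) (encNat (m + m))) ((1 + 1 + 1) + (1 + u + 1) + 1) :=
        Run.pair (Run.seq (Run.hd_node _ _) (Run.tl_node _ _)) (Run.seq (Run.tl_node _ _) hrun2)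
      have := Run.loop_step (Run.hd_node (Tr.node (enc a) (encList l)) (encNat m)) hbody hrun
      refine ⟨_, ?_, this⟩
      have h1 : u ≤ (2 * (2 ^ l.length * (m + m)) + 3) ^ c := by
        refine hu.trans ((hc m).trans ?_)
        apply Nat.pow_le_pow_left
        rw [sz_nat]
        have : 1 * m ≤ 2 ^ l.length * (m + m) := Nat.mul_le_mul Nat.one_le_two_pow (by omega)
        omega
      rw [List.length_cons]
      have h2 : (l.length + 1 + 1) * ((2 * (2 ^ l.length * (m + m)) + 3) ^ c + 10) =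
          (l.length + 1) * ((2 * (2 ^ l.length * (m + m)) + 3) ^ c + 10) +
          ((2 * (2 ^ l.length * (m + m)) + 3) ^ c + 10) := by ring
      omega
  refine ⟨.seq (.pair .id (.pair .nil .nil)) (.seq (.loop .hd body) .tl), c, fun l => ?_⟩
  obtain ⟨t, ht, hrun⟩ := hloop l 1
  rw [mul_one] at ht hrun
  have h1 : Run (.pair .id (.pair .nil .nil)) (enc l) (.node (encList l) (encNat 1))
      (1 + (1 + 1 + 1) + 1) := Run.pair (Run.id _) (Run.pair (Run.nil _) (Run.nil _))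
  refine ⟨_, ?_, Run.seq h1 (Run.seq hrun (Run.tl_node _ _))⟩
  omega

lemma two_pow_bounds (s : ℕ) : s + 1 ≤ 2 ^ s := Nat.lt_two_pow_self

/-- The exhaustive search, with an exponential bound for the running time. -/
theorem fallback : ∃ (p : Prog) (c : ℕ), ∀ (n : ℕ) (ρ : List Bool), ∃ t,
    t ≤ 2 ^ (c * (n.size + 1)) ∧
      Run p (enc ((⟨n⟩ : Bn), ρ)) (enc (fb (2 ^ n.size) n)) t := by
  obtain ⟨p1, c1, h1⟩ := dbl_prog
  obtain ⟨p2, T2, ⟨c2, hc2⟩, _, h2⟩ := PT_fb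
  refine ⟨.seq .hd (.seq (.pair .id p1) p2), 5 * c1 + 5 * c2 + 20, fun n ρ => ?_⟩
  obtain ⟨t1, ht1, hr1⟩ := h1 (Nat.bits n)
  obtain ⟨t2, ht2, hr2⟩ := h2 ((⟨n⟩ : Bn), 2 ^ n.size)
  rw [Nat.size_eq_bits_len] at ht1 hr1
  have hrun := Run.seq (Run.hd_node (enc (⟨n⟩ : Bn)) (enc ρ))
    (Run.seq (Run.pair (Run.id (enc (⟨n⟩ : Bn))) hr1) hr2)
  refine ⟨_, ?_, hrun⟩
  -- bound the time
  set s := n.size with hs
  have hs1 := two_pow_bounds s
  have hpow : 1 ≤ 2 ^ s := Nat.one_le_two_pow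
  have ht2' : t2 ≤ 2 ^ ((s + 4) * c2) := by
    refine ht2.trans ((hc2 _).trans ?_)
    rw [pow_mul]
    apply Nat.pow_le_pow_left
    rw [sz_pair, sz_nat]
    have h3 := sz_Bn_le (⟨n⟩ : Bn)
    simp only at h3
    rw [pow_add]
    norm_num
    omega
  have ht1' : t1 ≤ 2 ^ (s + (s + 3) * c1 + 5) := by
    have h3 : (2 * 2 ^ s + 3) ^ c1 ≤ 2 ^ ((s + 3) * c1) := by
      rw [pow_mul]
      apply Nat.pow_le_pow_left
      rw [pow_add]
      norm_num
      omega
    have h4 : 1 ≤ 2 ^ ((s + 3) * c1) := Nat.one_le_two_pow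
    have h5 : (2 * 2 ^ s + 3) ^ c1 + 10 ≤ 11 * 2 ^ ((s + 3) * c1) := by omega
    have h6 : (s + 1) * ((2 * 2 ^ s + 3) ^ c1 + 10) ≤ 2 ^ s * (11 * 2 ^ ((s + 3) * c1)) :=
      Nat.mul_le_mul hs1 h5
    have h7 : 2 ^ (s + (s + 3) * c1 + 5) = 32 * (2 ^ s * 2 ^ ((s + 3) * c1)) := by
      rw [pow_add, pow_add]; ring
    have h8 : 1 ≤ 2 ^ s * 2 ^ ((s + 3) * c1) := Nat.mul_pos (by positivity) (by positivity)
    rw [h7]
    have h9 : 2 ^ s * (11 * 2 ^ ((s + 3) * c1)) = 11 * (2 ^ s * 2 ^ ((s + 3) * c1)) := by ring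
    omega
  have f1 : 2 ^ ((s + 4) * c2) ≤ 2 ^ ((5 * c1 + 5 * c2 + 20) * (s + 1) - 3) := by
    apply Nat.pow_le_pow_right (by norm_num)
    have : (5 * c1 + 5 * c2 + 20) * (s + 1) = 5 * c1 * (s + 1) + (s + 4) * c2 + (4 * s * c2 + c2) +
        20 * s + 20 := by ring
    omega
  have f2 : 2 ^ (s + (s + 3) * c1 + 5) ≤ 2 ^ ((5 * c1 + 5 * c2 + 20) * (s + 1) - 3) := by
    apply Nat.pow_le_pow_right (by norm_num)
    have : (5 * c1 + 5 * c2 + 20) * (s + 1) = 5 * c2 * (s + 1) + (s + 3) * c1 + (4 * s * c1 + 2 * c1) +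
        20 * s + 20 := by ring
    omega
  have f3 : 8 ≤ 2 ^ ((5 * c1 + 5 * c2 + 20) * (s + 1) - 3) := by
    have : 2 ^ 3 ≤ 2 ^ ((5 * c1 + 5 * c2 + 20) * (s + 1) - 3) := by
      apply Nat.pow_le_pow_right (by norm_num)
      have : (5 * c1 + 5 * c2 + 20) * (s + 1) = (5 * c1 + 5 * c2) * (s + 1) + 20 * s + 20 := by ring
      omega
    omega
  have f4 : 2 ^ ((5 * c1 + 5 * c2 + 20) * (s + 1)) =
      8 * 2 ^ ((5 * c1 + 5 * c2 + 20) * (s + 1) - 3) := by
    have e : (5 * c1 + 5 * c2 + 20) * (s + 1) = (5 * c1 + 5 * c2 + 20) * (s + 1) - 3 + 3 := by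
      have : (5 * c1 + 5 * c2 + 20) * (s + 1) = (5 * c1 + 5 * c2) * (s + 1) + 20 * s + 20 := by ring
      omega
    conv_lhs => rw [e, pow_add]
    ring
  rw [f4]
  omega

end Pool.Agent.H79.Tet
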