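import Mathlib
import Pool.Agent.H79.Tet.Fin3

/-!
# The algorithm and its expected running time
-/

namespace Pool.Agent.H79.Tet

open Pool.Agent.H7.Comp
open scoped Nat

lemma vl_inj (l m : List Bool) (h : l.length = m.length) (hv : vl l = vl m) : l = m := by
  induction l generalizing m with
  | nil =>
    cases m with
    | nil => rfl
    | cons b m => simp at h
  | cons a l ih =>
    cases m with
    | nil => simp at h
    | cons b m =>
      simp only [List.length_cons, Nat.add_right_cancel_iff] at h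
      rw [vl_cons, vl_cons, h] at hv
      have h1 := vl_lt l
      have h2 := vl_lt m
      rw [h] at h1
      have hab : a = b := by
        cases a <;> cases b
        · rfl
        · simp only [Bool.toNat_false, Bool.toNat_true] at hv; omega
        · simp only [Bool.toNat_false, Bool.toNat_true] at hv; omega
        · rfl
      subst hab
      rw [ih m h (by omega)]

/-- the number given by a tape -/
def tape {ℓ : ℕ} (ρ : Fin ℓ → Bool) : ℕ := vl (List.ofFn ρ)

lemma tape_lt {ℓ : ℕ} (ρ : Fin ℓ → Bool) : tape ρ < 2 ^ ℓ := by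
  have := vl_lt (List.ofFn ρ)
  rwa [List.length_ofFn] at this

lemma tape_inj {ℓ : ℕ} : Function.Injective (tape (ℓ := ℓ)) := by
  intro ρ ρ' h
  have := vl_inj (List.ofFn ρ) (List.ofFn ρ') (by simp) h
  exact List.ofFn_injective this

lemma card_tape {ℓ : ℕ} (P : ℕ → Prop) [DecidablePred P] :
    (Finset.univ.filter (fun ρ : Fin ℓ → Bool => P (tape ρ))).card ≤
      ((Finset.range (2 ^ ℓ)).filter P).card := by
  refine Finset.card_le_card_of_injOn tape ?_ (tape_inj.injOn)
  intro ρ hρ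
  rw [Finset.mem_coe, Finset.mem_filter] at hρ ⊢
  exact ⟨Finset.mem_range.mpr (tape_lt ρ), hρ.2⟩

/-- the list of binary expansions -/
lemma enc_out (l : List Bn) : enc l = enc ((vals l).map Nat.bits) := enc_vals l

/-- There is a representation, for large `n`. -/
theorem rep_large {n : ℕ} (hn : 4096 ≤ n.size) : ∃ l, IsRep n l := by
  obtain ⟨hΛ, hΛ2, hn24⟩ := Lam_big hn
  have h1 := trial_success hΛ hΛ2 hn24 (lt_two_pow_Lam n)
  have h2 : 0 < ((Finset.range (DD (Lam n) ^ (kk (Lam n) + 1))).filter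
      (fun V => trial (Lam n) n V ≠ [])).card := by
    by_contra hcon
    have h3 : ((Finset.range (DD (Lam n) ^ (kk (Lam n) + 1))).filter
      (fun V => trial (Lam n) n V ≠ [])).card = 0 := by omega
    rw [h3, mul_zero] at h1
    have := DD_pos (Lam n)
    have : 0 < DD (Lam n) ^ (kk (Lam n) + 1) := by positivity
    omega
  obtain ⟨V, hV⟩ := Finset.card_pos.mp h2
  exact ⟨_, trial_spec (Finset.mem_filter.mp hV).2⟩

/-- **Main theorem**, for the numbers that have a representation. -/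
theorem main_rep : ∃ (p : Prog) (a c : ℕ), ∀ n : ℕ, 0 < n → (∃ l, IsRep n l) →
    ∃ τ : (Fin ((n.size + 2) ^ a) → Bool) → ℕ,
      (∀ ρ, ∃ l : List ℕ, IsRep n l ∧
        Run p (enc (Nat.bits n, List.ofFn ρ)) (enc (l.map Nat.bits)) (τ ρ)) ∧
      ∑ ρ, τ ρ ≤ 2 ^ ((n.size + 2) ^ a) * (n.size + 2) ^ c := by
  obtain ⟨pf, cf, hf⟩ := fallback
  obtain ⟨pm', Tm, ⟨cm, hcm⟩, _, hm⟩ := PT_multi cf
  obtain ⟨a, ha⟩ := bits_bound cf
  -- constant for small `n`
  set C₀ := 2 ^ (cf * 4097) with hC₀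
  refine ⟨.cond pm' pm' pf, a, (a + 4) * cm + cf * 4097 + 10, fun n hn hrep => ?_⟩
  set s := n.size with hs
  set ℓ := (s + 2) ^ a with hℓ
  -- the running time of the trials
  have hm' : ∀ ρ : Fin ℓ → Bool, ∃ t, t ≤ ((s + 2) ^ (a + 4)) ^ cm ∧
      Run pm' (enc ((⟨n⟩ : Bn), List.ofFn ρ)) (enc (multi cf n (tape ρ))) t := by
    intro ρ
    obtain ⟨t, ht, hr⟩ := hm ((⟨n⟩ : Bn), List.ofFn ρ)
    refine ⟨t, ht.trans ((hcm _).trans ?_), hr⟩
    apply Nat.pow_le_pow_left
    rw [sz_pair]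
    have h1 := sz_Bn_le (⟨n⟩ : Bn)
    have h2 := sz_bits_le (List.ofFn ρ)
    rw [List.length_ofFn] at h2
    simp only at h1
    have h3 : 1 ≤ ℓ := Nat.one_le_pow _ _ (by omega)
    have h4 : (s + 2) ^ (a + 4) = ℓ * (s + 2) ^ 4 := by rw [hℓ, pow_add]
    have h5 : 4 * s + 9 ≤ (s + 2) ^ 4 := by
      have : (s + 2) ^ 4 = s ^ 4 + 8 * s ^ 3 + 24 * s ^ 2 + 32 * s + 16 := by ring
      rw [this]
      have := Nat.zero_le (s ^ 4 + 8 * s ^ 3 + 24 * s ^ 2)
      omega
    rw [h4]
    calc sz (⟨n⟩ : Bn) + sz (List.ofFn ρ) + 1 + 2 ≤ (4 * s + 1) + (4 * ℓ + 1) + 1 + 2 := by omega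
      _ = 4 * s + 5 + 4 * ℓ := by ring
      _ ≤ (4 * s + 5) * ℓ + 4 * ℓ := Nat.add_le_add_right (Nat.le_mul_of_pos_right _ (by omega)) _
      _ = ℓ * (4 * s + 9) := by ring
      _ ≤ ℓ * (s + 2) ^ 4 := Nat.mul_le_mul_left _ h5
  choose tm htm hrm using hm'
  choose tf htf hrf using fun ρ : Fin ℓ → Bool => hf n (List.ofFn ρ)
  set B := ((s + 2) ^ (a + 4)) ^ cm with hB
  classical
  refine ⟨fun ρ => if multi cf n (tape ρ) = [] then tm ρ + tf ρ + 1 else tm ρ + tm ρ + 1, ?_, ?_⟩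
  · intro ρ
    have henc : enc (Nat.bits n, List.ofFn ρ) = enc ((⟨n⟩ : Bn), List.ofFn ρ) := rfl
    by_cases h : multi cf n (tape ρ) = []
    · have h1 := hrm ρ
      rw [h] at h1
      simp only [h, if_true]
      obtain ⟨l₀, hl₀⟩ := hrep
      have hle : n ≤ 2 ^ n.size := (Nat.lt_size_self n).le
      have hne := fb_ne hn hle hl₀
      refine ⟨_, fb_spec hne, ?_⟩
      rw [henc, ← enc_out]
      exact Run.cond_false h1 (hrf ρ)
    · simp only [h, if_false]
      refine ⟨_, multi_spec h, ?_⟩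
      rw [henc, ← enc_out]
      have h1 := hrm ρ
      obtain ⟨b, l, hbl⟩ : ∃ b l, multi cf n (tape ρ) = b :: l := List.exists_cons_of_ne_nil h
      rw [hbl] at h1 ⊢
      exact Run.cond_true h1 h1
  · -- the expected time
    have h1 : ∀ ρ : Fin ℓ → Bool,
        (if multi cf n (tape ρ) = [] then tm ρ + tf ρ + 1 else tm ρ + tm ρ + 1) ≤
        (2 * B + 1) + (if multi cf n (tape ρ) = [] then 2 ^ (cf * (s + 1)) else 0) := by
      intro ρ
      have h2 := htm ρ
      have h3 := htf ρ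
      rw [← hs] at h3
      split_ifs <;> omega
    refine (Finset.sum_le_sum (fun ρ _ => h1 ρ)).trans ?_
    rw [Finset.sum_add_distrib, Finset.sum_const, Finset.card_univ, Fintype.card_fun,
      Fintype.card_bool, Fintype.card_fin, smul_eq_mul, ← Finset.sum_filter, Finset.sum_const,
      smul_eq_mul]
    have h2 : (Finset.univ.filter (fun ρ : Fin ℓ → Bool => multi cf n (tape ρ) = [])).card *
        2 ^ (cf * (s + 1)) ≤ 2 ^ ℓ * C₀ := by
      by_cases hbig : 4096 ≤ n.size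
      · have h3 := multi_fail hbig (ha n)
        rw [← hs, ← hℓ] at h3
        have h4 := card_tape (ℓ := ℓ) (fun V => multi cf n V = [])
        have h5 : 2 ^ (cf * (s + 1)) ≤ 2 ^ (cf * Lam n) :=
          Nat.pow_le_pow_right (by norm_num) (Nat.mul_le_mul_left _ (size_lt_Lam n))
        have h6 : 1 ≤ C₀ := Nat.one_le_two_pow
        calc _ ≤ ((Finset.range (2 ^ ℓ)).filter (fun V => multi cf n V = [])).card *
              2 ^ (cf * Lam n) := Nat.mul_le_mul h4 h5
          _ = 2 ^ (cf * Lam n) * ((Finset.range (2 ^ ℓ)).filter (fun V => multi cf n V = [])).card :=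
              mul_comm _ _
          _ ≤ 2 ^ ℓ := h3
          _ ≤ 2 ^ ℓ * C₀ := Nat.le_mul_of_pos_right _ (by omega)
      · have h3 : (Finset.univ.filter (fun ρ : Fin ℓ → Bool => multi cf n (tape ρ) = [])).card ≤
            2 ^ ℓ := by
          refine (Finset.card_le_univ _).trans ?_
          rw [Fintype.card_fun, Fintype.card_bool, Fintype.card_fin]
        refine Nat.mul_le_mul h3 (Nat.pow_le_pow_right (by norm_num) (Nat.mul_le_mul_left _ ?_))
        omega
    have h3 : 2 * B + 1 + C₀ ≤ (s + 2) ^ ((a + 4) * cm + cf * 4097 + 10) := by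
      have e1 : 1 ≤ B := Nat.one_le_pow _ _ (Nat.pos_of_ne_zero (pow_ne_zero _ (by omega)))
      have e2 : 1 ≤ (s + 2) ^ (cf * 4097) := Nat.one_le_pow _ _ (by omega)
      have e3 : C₀ ≤ (s + 2) ^ (cf * 4097) := Nat.pow_le_pow_left (by omega) _
      have e4 : 2 ^ 10 ≤ (s + 2) ^ 10 := Nat.pow_le_pow_left (by omega) _
      have e5 : (s + 2) ^ ((a + 4) * cm + cf * 4097 + 10) = B * (s + 2) ^ (cf * 4097) *
          (s + 2) ^ 10 := by rw [pow_add, pow_add, pow_mul]
      rw [e5]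
      calc 2 * B + 1 + C₀ ≤ 2 * B + B + (s + 2) ^ (cf * 4097) := by omega
        _ ≤ 2 * (B * (s + 2) ^ (cf * 4097)) + B * (s + 2) ^ (cf * 4097) +
            B * (s + 2) ^ (cf * 4097) := by
            have f1 : B ≤ B * (s + 2) ^ (cf * 4097) := Nat.le_mul_of_pos_right _ (by omega)
            have f2 : (s + 2) ^ (cf * 4097) ≤ B * (s + 2) ^ (cf * 4097) :=
              Nat.le_mul_of_pos_left _ (by omega)
            omega
        _ = B * (s + 2) ^ (cf * 4097) * 4 := by ring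
        _ ≤ B * (s + 2) ^ (cf * 4097) * (s + 2) ^ 10 := Nat.mul_le_mul_left _ (by omega)
    calc 2 ^ ℓ * (2 * B + 1) + _ ≤ 2 ^ ℓ * (2 * B + 1) + 2 ^ ℓ * C₀ := Nat.add_le_add_left h2 _
      _ = 2 ^ ℓ * (2 * B + 1 + C₀) := by ring
      _ ≤ _ := Nat.mul_le_mul_left _ h3

end Pool.Agent.H79.Tet
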