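import Mathlib
import Pool.Agent.H79.Tet.Fin4

/-!
# Existence of representations: three squares and the middle range
-/

namespace Pool.Agent.H79.Tet

open scoped NumberTheorySymbols

/-- Every positive integer congruent to 3 modulo 8 is a sum of three squares. -/
theorem three_sq {M : ℕ} (hM : M % 8 = 3) : ∃ u v w : ℤ, u * u + v * v + w * w = M := by
  have hMpos : 0 < M := by omega
  have : NeZero (2 * M) := ⟨by omega⟩
  have : NeZero M := ⟨by omega⟩
  have hM0 : (0 : ℤ) < M := by exact_mod_cast hMpos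
  have hMo : (M : ℤ) % 2 = 1 := by omega
  have h2M : Nat.Coprime 2 M := by
    rw [Nat.Prime.coprime_iff_not_dvd Nat.prime_two]
    omega
  have hg : Int.gcd (2 * 1) (M : ℤ) = 1 := by
    have : Int.gcd (2 * 1) (M : ℤ) = Nat.gcd 2 M := by
      rw [mul_one]
      exact Int.gcd_natCast_natCast 2 M
    rw [this]
    exact h2M
  obtain ⟨r1, r2, r3, r4⟩ := rres_spec hM0 hMo hg
  set r := rres (M : ℤ) 1 with hr
  obtain ⟨ρ, hρ⟩ : ∃ ρ : ℕ, r = ρ := ⟨r.toNat, (Int.toNat_of_nonneg r3.le).symm⟩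
  rw [hρ] at r1 r2 r3 r4
  have hcop : ρ.Coprime (2 * M) := by
    have h1 : ρ.Coprime 2 := by
      rw [Nat.coprime_comm, Nat.Prime.coprime_iff_not_dvd Nat.prime_two]
      omega
    have h2 : ρ.Coprime M := by
      rw [← Nat.isCoprime_iff_coprime]
      obtain ⟨k, hk⟩ := r1
      exact ⟨-2, k, by linear_combination -hk⟩
    exact Nat.Coprime.mul_right h1 h2
  obtain ⟨p, hp1, hp2, hp3⟩ := Nat.forall_exists_prime_gt_and_eq_mod
    ((ZMod.isUnit_iff_coprime ρ (2 * M)).mpr hcop) (2 * M)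
  have hp3' : p ≡ ρ [MOD 2 * M] := (ZMod.natCast_eq_natCast_iff _ _ _).mp hp3
  have hpM : p ≡ ρ [MOD M] := Nat.ModEq.of_mul_left 2 hp3'
  have hp2M : (M : ℤ) ∣ 2 * p + 1 := by
    have h1 : (M : ℤ) ∣ (ρ : ℤ) - p := (Nat.modEq_iff_dvd).mp hpM
    obtain ⟨k, hk⟩ := h1
    obtain ⟨l, hl⟩ := r1
    exact ⟨l - 2 * k, by linear_combination hl - 2 * hk⟩
  have hpne : p ≠ 2 := by omega
  have : Fact p.Prime := ⟨hp2⟩
  have hJ : J(p | M) = 1 := by
    have h1 : J((2 * p : ℤ) | M) = J(-1 | M) := by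
      apply jacobiSym.mod_left'
      obtain ⟨k, hk⟩ := hp2M
      exact Int.modEq_iff_dvd.mpr ⟨-k, by linear_combination -hk⟩
    rw [jacobiSym.mul_left, jacobiSym.at_neg_one (Nat.odd_iff.mpr (by omega)),
      ZMod.χ₄_nat_three_mod_four (by omega), jacobiSym.at_two (Nat.odd_iff.mpr (by omega)),
      ZMod.χ₈_nat_eq_if_mod_eight, if_neg (by omega), if_neg (by omega)] at h1
    linarith
  obtain ⟨x, hx, _⟩ := root_of_jac hM hpne hJ
  obtain ⟨s, rfl⟩ : ∃ s : ℤ, (s : ZMod p) = x := ⟨x.val, by push_cast; exact ZMod.natCast_zmod_val x⟩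
  have hs : (p : ℤ) ∣ s * s + M := by
    rw [← ZMod.intCast_zmod_eq_zero_iff_dvd]
    push_cast
    push_cast at hx
    rw [hx]
    ring
  have hpodd : (p : ℤ) % 2 = 1 := by
    have := hp2.eq_two_or_odd.resolve_left hpne
    omega
  exact ⟨_, _, _, sq3_spec hM0 hMo (by exact_mod_cast hp2.pos) hpodd hp2M hs⟩

/-- Representations from a suitable pair `x`, `y`. -/
theorem rep_of_pair {n : ℕ} (hn : 0 < n) {x y t M : ℤ} (hx : 0 ≤ x) (hy : 0 ≤ y) (ht : t % 2 = 1)
    (ht0 : 0 < t) (hM : M % 8 = 3) (hM0 : 0 < M) (hMt : M ≤ t * t)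
    (h : 6 * t * M = 8 * (6 * n - fc x - fc y) - 6 * (t * t * t) + 24 * t) :
    ∃ l, IsRep n l := by
  obtain ⟨m, rfl⟩ : ∃ m : ℕ, M = m := ⟨M.toNat, (Int.toNat_of_nonneg hM0.le).symm⟩
  obtain ⟨u, v, w, hsq⟩ := three_sq (M := m) (by omega)
  exact ⟨_, res8_spec (res8_ne hn (chk8_of hx hy ht ht0 hM hMt hsq h))⟩

/-- Chinese remaindering, in reduced form. -/
lemma crt_exists {a b : ℤ} (ha : 0 < a) (hb : 0 < b) (h : IsCoprime a b) (u v : ℤ) :
    ∃ z, 0 ≤ z ∧ z < a * b ∧ a ∣ z - u ∧ b ∣ z - v := by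
  obtain ⟨k, m, hkm⟩ := h
  have hab : 0 < a * b := mul_pos ha hb
  refine ⟨(u * (m * b) + v * (k * a)) % (a * b), Int.emod_nonneg _ hab.ne',
    Int.emod_lt_of_pos _ hab, ?_, ?_⟩
  · have h1 := Int.emod_add_mul_ediv (u * (m * b) + v * (k * a)) (a * b)
    refine ⟨-(b * ((u * (m * b) + v * (k * a)) / (a * b))) + v * k - u * k, ?_⟩
    linear_combination h1 + u * hkm
  · have h1 := Int.emod_add_mul_ediv (u * (m * b) + v * (k * a)) (a * b)
    refine ⟨-(a * ((u * (m * b) + v * (k * a)) / (a * b))) + u * m - v * m, ?_⟩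
    linear_combination h1 + v * hkm

/-- The window, one-dimensional version. -/
lemma window1 {n t s β₀ x₀ Y : ℤ} (hs : 625 ≤ s) (ht : t = s * 625)
    (hn1 : 3 * (t * t * t) ≤ 10 * n) (hn2 : 10 * n ≤ 22 * (t * t * t)) (hx0 : 0 ≤ x₀) (hx1 : x₀ < t)
    (hY0 : 0 ≤ Y) (hY1 : Y < s) (hβ1 : 1 ≤ β₀) (hβ2 : β₀ ≤ 4) :
    ∃ a : ℤ, 0 ≤ a ∧
      48 * n - 12 * (t * t * t) + 24 * t ≤ 8 * (fc (x₀ + s * (a * (25 + β₀))) +
        fc (Y + s * a)) ∧
      8 * (fc (x₀ + s * (a * (25 + β₀))) + fc (Y + s * a)) <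
        48 * n - 6 * (t * t * t) + 24 * t := by
  classical
  have ht0 : 0 < t := by omega
  have hs0 : 0 < s := by omega
  have hst : s ≤ t := by omega
  set σ := s * s * s with hσ
  have hσ0 : 0 < σ := by positivity
  have hsσ : s ≤ σ := by rw [hσ]; nlinarith [mul_pos hs0 hs0]
  have hT : t * t * t = 244140625 * σ := by rw [ht, hσ]; ring
  rw [hT] at hn1 hn2 ⊢
  set P : ℕ → Prop := fun A => 48 * n - 12 * (244140625 * σ) + 24 * t ≤
    8 * (fc (x₀ + s * ((A : ℤ) * (25 + β₀))) + fc (Y + s * (A : ℤ))) with hP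
  have hP1 : P 100 := by
    simp only [hP]
    have h1 : 2500 * s ≤ x₀ + s * (((100 : ℕ) : ℤ) * (25 + β₀)) := by
      push_cast
      nlinarith
    have h2 := fc_mono (by omega) h1
    have h3 : 0 ≤ fc (Y + s * ((100 : ℕ) : ℤ)) := fc_nonneg (by positivity)
    have h4 : fc (2500 * s) = 15625000000 * σ - 2500 * s := by unfold fc; rw [hσ]; ring
    have h5 : t = 625 * s := by rw [ht]; ring
    linarith
  have hex : ∃ A, P A := ⟨_, hP1⟩
  set A := Nat.find hex with hA
  have hPA : P A := Nat.find_spec hex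
  have hAle : A ≤ 100 := Nat.find_min' hex hP1
  refine ⟨A, by positivity, hPA, ?_⟩
  rcases Nat.eq_zero_or_pos A with h0 | hA1
  · rw [h0]
    have h2 := fc_le_cube ht0.le hx1.le
    have h3 := fc_le_cube hs0.le hY1.le
    rw [hT] at h2
    rw [← hσ] at h3
    simp only [Nat.cast_zero, zero_mul, mul_zero, add_zero]
    linarith
  · have hPA' : ¬ P (A - 1) := Nat.find_min hex (by omega)
    simp only [hP] at hPA'
    push Not at hPA'
    have hcast : ((A - 1 : ℕ) : ℤ) = (A : ℤ) - 1 := by push_cast [Nat.cast_sub hA1]; ring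
    rw [hcast] at hPA'
    set u := x₀ + s * (((A : ℤ) - 1) * (25 + β₀)) with hu
    set y := Y + s * ((A : ℤ) - 1) with hy
    have hA1' : (1 : ℤ) ≤ A := by exact_mod_cast hA1
    have hAle' : (A : ℤ) ≤ 100 := by exact_mod_cast hAle
    have hy0 : 0 ≤ y := by
      rw [hy]
      have : 0 ≤ s * ((A : ℤ) - 1) := mul_nonneg hs0.le (by omega)
      omega
    have hu0 : 0 ≤ u := by
      rw [hu]
      have : 0 ≤ s * (((A : ℤ) - 1) * (25 + β₀)) :=
        mul_nonneg hs0.le (mul_nonneg (by omega) (by omega))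
      omega
    have hys : y ≤ 100 * s := by
      rw [hy]
      have : s * ((A : ℤ) - 1) ≤ s * 99 := mul_le_mul_of_nonneg_left (by omega) hs0.le
      omega
    have hu1 : u < 1419 * s := by
      by_contra hcon
      push Not at hcon
      have h2 := fc_mono (by omega) hcon
      have h3 := fc_nonneg hy0
      have h4 : fc (1419 * s) = 2857243059 * σ - 1419 * s := by unfold fc; rw [hσ]; ring
      have h5 : t = 625 * s := by rw [ht]; ring
      have h6 : 625 * 625 * s ≤ σ := by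
        rw [hσ]
        have : 625 * 625 ≤ s * s := by nlinarith
        nlinarith
      linarith
    have e1 : x₀ + s * ((A : ℤ) * (25 + β₀)) = u + s * (25 + β₀) := by rw [hu]; ring
    have e2 : Y + s * (A : ℤ) = y + s := by rw [hy]; ring
    rw [e1, e2]
    have f1 : fc (u + s * (25 + β₀)) - fc u ≤ 29 * s * (3 * (1448 * s) * (1448 * s)) := by
      have g1 : s * (25 + β₀) ≤ 29 * s := by nlinarith
      have g0 : 0 ≤ s * (25 + β₀) := mul_nonneg hs0.le (by omega)
      set d := s * (25 + β₀) with hd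
      have g2 : fc (u + d) - fc u = d * (u * u + u * (u + d) + (u + d) * (u + d) - 1) := by
        unfold fc; ring
      rw [g2]
      have g3 : u + d ≤ 1448 * s := by omega
      have g4 : u * u ≤ (1448 * s) * (1448 * s) := mul_le_mul (by omega) (by omega) hu0 (by omega)
      have g5 : u * (u + d) ≤ (1448 * s) * (1448 * s) :=
        mul_le_mul (by omega) g3 (by omega) (by omega)
      have g6 : (u + d) * (u + d) ≤ (1448 * s) * (1448 * s) :=
        mul_le_mul g3 g3 (by omega) (by omega)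
      calc d * (u * u + u * (u + d) + (u + d) * (u + d) - 1)
          ≤ d * (3 * (1448 * s) * (1448 * s)) := by
            apply mul_le_mul_of_nonneg_left _ g0
            linarith
        _ ≤ 29 * s * (3 * (1448 * s) * (1448 * s)) := by
            apply mul_le_mul_of_nonneg_right g1
            positivity
    have f2 : fc (y + s) - fc y ≤ s * (3 * (101 * s) * (101 * s)) := by
      have g2 : fc (y + s) - fc y = s * (y * y + y * (y + s) + (y + s) * (y + s) - 1) := by
        unfold fc; ring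
      rw [g2]
      have g3 : y + s ≤ 101 * s := by omega
      have g4 : y * y ≤ (101 * s) * (101 * s) := mul_le_mul (by omega) (by omega) hy0 (by omega)
      have g5 : y * (y + s) ≤ (101 * s) * (101 * s) :=
        mul_le_mul (by omega) g3 (by omega) (by omega)
      have g6 : (y + s) * (y + s) ≤ (101 * s) * (101 * s) :=
        mul_le_mul g3 g3 (by omega) (by omega)
      apply mul_le_mul_of_nonneg_left _ hs0.le
      linarith
    have f3 : 29 * s * (3 * (1448 * s) * (1448 * s)) = 182413248 * σ := by rw [hσ]; ring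
    have f4 : s * (3 * (101 * s) * (101 * s)) = 30603 * σ := by rw [hσ]; ring
    rw [f3] at f1
    rw [f4] at f2
    linarith

end Pool.Agent.H79.Tet
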