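import Mathlib
import Pool.Agent.H79.Tet.Wat1

/-!
# Existence of representations: all numbers from `2.25 * 10 ^ 18` on
-/

namespace Pool.Agent.H79.Tet

lemma t_odd {σ : ℤ} (hσ2 : σ % 2 = 1) (j : ℕ) : (σ * 5 ^ j) % 2 = 1 := by
  have h1 : ((5 : ℤ) ^ j) % 2 = 1 := Int.odd_iff.mp (Odd.pow (by decide))
  rw [Int.mul_emod, hσ2, h1]
  norm_num

lemma s_ge {σ : ℤ} (hσ : 1 ≤ σ) {j : ℕ} (hj : 8 ≤ j) : σ * 625 ≤ σ * 5 ^ (j - 4) := by
  apply mul_le_mul_of_nonneg_left _ (by linarith)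
  have : (625 : ℤ) = 5 ^ 4 := by norm_num
  rw [this]
  exact pow_le_pow_right₀ (by norm_num) (by omega)

lemma t_eq (σ : ℤ) {j : ℕ} (hj : 8 ≤ j) : σ * 5 ^ j = (σ * 5 ^ (j - 4)) * 625 := by
  have : (5 : ℤ) ^ j = 5 ^ (j - 4) * 5 ^ 4 := by rw [← pow_add]; congr 1; omega
  rw [this]
  ring

lemma ss_dvd (σ : ℤ) {j : ℕ} (hj : 8 ≤ j) :
    (σ * 5 ^ (j - 4)) * 25 ^ 2 ∣ (σ * 5 ^ (j - 4)) * (σ * 5 ^ (j - 4)) := by
  refine ⟨σ * 5 ^ (j - 8), ?_⟩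
  have : (5 : ℤ) ^ (j - 4) = 5 ^ (j - 8) * 5 ^ 4 := by rw [← pow_add]; congr 1; omega
  rw [this]
  ring

/-- The middle range. -/
theorem mid {n : ℕ} {σ : ℤ} {j : ℕ} (hj : 8 ≤ j) (hσ : 1 ≤ σ) (hσ2 : σ % 2 = 1)
    (hσ6 : IsCoprime 6 σ) (hσ5 : IsCoprime (5 : ℤ) σ)
    (hσf : ∀ c : ℤ, ∃ x y : ℤ, σ ∣ fc x + fc y - c)
    (h1 : 3 * ((σ * 5 ^ j) * (σ * 5 ^ j) * (σ * 5 ^ j)) ≤ 10 * n)
    (h2 : 10 * n ≤ 22 * ((σ * 5 ^ j) * (σ * 5 ^ j) * (σ * 5 ^ j))) : ∃ l, IsRep n l := by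
  have ht5 := t_odd hσ2 j
  have hts := t_eq σ hj
  have hsge := s_ge hσ hj
  have hss := ss_dvd σ hj
  have hj1 : 1 ≤ j := by omega
  have h5s : (5 : ℤ) ∣ σ * 5 ^ (j - 4) := Dvd.dvd.mul_left (dvd_pow_self 5 (by omega)) _
  set t : ℤ := σ * 5 ^ j with ht
  set s : ℤ := σ * 5 ^ (j - 4) with hs
  have hs625 : 625 ≤ s := by linarith
  have ht0 : 0 < t := by linarith
  have h5j0 : (0 : ℤ) < 5 ^ j := by positivity
  -- starting values
  obtain ⟨X₀, Y₀, β₀, δ, ⟨hX0, hX5⟩, ⟨hβ1, hβ4⟩, a1, a2, a3⟩ := start5 (n : ℤ) 25 (by norm_num)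
  obtain ⟨X₁, Y₁, b1, b2, b3, b4⟩ := hensel2 a1 a2 a3 3
  norm_num only at b3 b4
  obtain ⟨xs, ys, g1⟩ := hσf (6 * n)
  -- the value of `y`
  have hco1 : IsCoprime (625 : ℤ) σ := by
    have : (625 : ℤ) = 5 ^ 4 := by norm_num
    rw [this]
    exact hσ5.pow_left
  obtain ⟨Y, hY0, hY1, hYmod, hYσ⟩ := crt_exists (by norm_num : (0 : ℤ) < 625)
    (by linarith : (0 : ℤ) < σ) hco1 Y₁ ys
  have hYs : Y < s := by linarith
  have h5625 : (5 : ℤ) ∣ 625 := by norm_num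
  have c1 : (5 : ℤ) ∣ Y - Y₀ := by
    have := dvd_add (h5625.trans hYmod) b2
    rwa [sub_add_sub_cancel] at this
  have c2 : (5 : ℤ) ∣ fc X₀ - (6 * n - fc Y) := by
    have e1 : (5 : ℤ) ∣ fc Y - fc Y₀ := fc_mod c1
    have := dvd_add a1 e1
    have e : fc X₀ + fc Y₀ - 6 * (n : ℤ) + (fc Y - fc Y₀) = fc X₀ - (6 * n - fc Y) := by ring
    rwa [e] at this
  -- the lift
  obtain ⟨d1, d2⟩ := lift_spec hj1 c2 j
  have d3 := d2 j (by omega) le_rfl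
  set z := lift X₀ (6 * n - fc Y) (5 ^ j) j with hz
  have hco2 : IsCoprime ((5 : ℤ) ^ j) σ := hσ5.pow_left
  obtain ⟨x₀, hx0, hx1, hxz, hxσ⟩ := crt_exists h5j0 (by linarith : (0 : ℤ) < σ) hco2 z xs
  have hx1' : x₀ < t := by rw [ht]; linarith
  have h5j : (5 : ℤ) ∣ 5 ^ j := dvd_pow_self 5 (by omega)
  have k1 : (5 : ℤ) ∣ x₀ - X₀ := by
    have := dvd_add (h5j.trans hxz) d1
    rwa [sub_add_sub_cancel] at this
  have k2 : (5 : ℤ) ^ j ∣ fc x₀ - (6 * n - fc Y) := by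
    have := dvd_add (fc_mod hxz) d3
    rwa [sub_add_sub_cancel] at this
  have h625j : (625 : ℤ) ∣ 5 ^ j := by
    have : (625 : ℤ) = 5 ^ 4 := by norm_num
    rw [this]
    exact pow_dvd_pow 5 (by omega)
  have e1 : (625 : ℤ) ∣ x₀ - X₁ := by
    have h512' : (625 : ℤ) = 5 ^ 4 := by norm_num
    rw [h512']
    refine lift_unique k1 b1 ?_
    rw [← h512']
    have f1 : (625 : ℤ) ∣ fc x₀ - (6 * n - fc Y) := h625j.trans k2
    have f2 : (625 : ℤ) ∣ fc Y - fc Y₁ := fc_mod hYmod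
    have := dvd_sub (dvd_sub f1 f2) b3
    have e : fc x₀ - (6 * n - fc Y) - (fc Y - fc Y₁) - (fc X₁ + fc Y₁ - 6 * (n : ℤ)) =
        fc x₀ - fc X₁ := by ring
    rwa [e] at this
  have e2 : (25 : ℤ) ^ 2 ∣ fd Y + (25 + β₀) * fd x₀ := by
    norm_num only
    have f1 : (625 : ℤ) ∣ fd x₀ - fd X₁ := fd_mod e1
    have f2 : (625 : ℤ) ∣ fd Y - fd Y₁ := fd_mod hYmod
    have := dvd_add (dvd_add b4 f2) (Dvd.dvd.mul_left f1 (25 + β₀))
    have e : fd Y₁ + (25 + β₀) * fd X₁ + (fd Y - fd Y₁) + (25 + β₀) * (fd x₀ - fd X₁) =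
        fd Y + (25 + β₀) * fd x₀ := by ring
    rwa [e] at this
  have hst2 : s * 25 ^ 2 = t := by rw [hts]; norm_num
  have e3 : s * 25 ^ 2 ∣ fc x₀ + fc Y - 6 * n := by
    rw [hst2, ht]
    refine hco2.symm.mul_dvd ?_ ?_
    · have f1 : σ ∣ fc x₀ - fc xs := fc_mod hxσ
      have f2 : σ ∣ fc Y - fc ys := fc_mod hYσ
      have := dvd_add (dvd_add f1 f2) g1
      have e : fc x₀ - fc xs + (fc Y - fc ys) + (fc xs + fc ys - 6 * (n : ℤ)) =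
        fc x₀ + fc Y - 6 * n := by ring
      rwa [e] at this
    · have e : fc x₀ + fc Y - 6 * (n : ℤ) = fc x₀ - (6 * n - fc Y) := by ring
      rw [e]
      exact k2
  -- the window
  obtain ⟨a, ha, w1, w2⟩ := window1 hs625 hts h1 h2 hx0 hx1' hY0 hYs hβ1 hβ4
  have hsol := lattice_sol (a := a) (b := 0) e3 e2 hss
  have r1 : x₀ + s * (a * (25 + β₀) - 0 * (β₀ * β₀)) = x₀ + s * (a * (25 + β₀)) := by ring
  have r2 : Y + s * (a + 0 * (25 - β₀)) = Y + s * a := by ring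
  rw [r1, r2, hst2] at hsol
  set x := x₀ + s * (a * (25 + β₀)) with hx
  set y := Y + s * a with hy
  have hxnn : 0 ≤ x := by
    have : 0 ≤ s * (a * (25 + β₀)) := mul_nonneg (by linarith) (mul_nonneg ha (by linarith))
    linarith
  have hynn : 0 ≤ y := by
    have : 0 ≤ s * a := mul_nonneg (by linarith) ha
    linarith
  have hcop : IsCoprime (6 : ℤ) t := by
    rw [ht]
    refine IsCoprime.mul_right hσ6 (IsCoprime.pow_right ?_)
    exact ⟨1, -1, by norm_num⟩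
  obtain ⟨q, hq⟩ : 6 * t ∣ 6 * n - fc x - fc y := by
    refine hcop.mul_dvd ?_ ?_
    · exact dvd_sub (dvd_sub (dvd_mul_right _ _) (six_dvd_fc x)) (six_dvd_fc y)
    · have := (dvd_neg.mpr hsol)
      have e : -(fc x + fc y - 6 * (n : ℤ)) = 6 * n - fc x - fc y := by ring
      rwa [e] at this
  have hM6 : 6 * t * (8 * q - t * t + 4) =
      8 * (6 * n - fc x - fc y) - 6 * (t * t * t) + 24 * t := by
    rw [hq]; ring
  obtain ⟨hM0, hMt⟩ : 0 < 8 * q - t * t + 4 ∧ 8 * q - t * t + 4 ≤ t * t :=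
    M_range (n := (n : ℤ)) (F := fc x + fc y) ht0 (by rw [hM6]; ring) w1 w2
  have hn : 0 < n := by
    have h3 : 0 < 3 * (t * t * t) := by positivity
    have h4 : (0 : ℤ) < 10 * n := by linarith
    omega
  exact rep_of_pair hn hxnn hynn ht5 ht0 (M8 ht5) hM0 hMt hM6

lemma res13 (c : ℤ) : ∃ x y : ℤ, 13 ∣ fc x + fc y - c := by
  have h13 : c % 13 = 0 ∨ c % 13 = 1 ∨ c % 13 = 2 ∨ c % 13 = 3 ∨ c % 13 = 4 ∨ c % 13 = 5 ∨
    c % 13 = 6 ∨ c % 13 = 7 ∨ c % 13 = 8 ∨ c % 13 = 9 ∨ c % 13 = 10 ∨ c % 13 = 11 ∨ c % 13 = 12 := by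
    omega
  unfold fc
  rcases h13 with h | h | h | h | h | h | h | h | h | h | h | h | h
  · exact ⟨0, 0, by norm_num; omega⟩
  · exact ⟨3, 5, by norm_num; omega⟩
  · exact ⟨6, 0, by norm_num; omega⟩
  · exact ⟨5, 0, by norm_num; omega⟩
  · exact ⟨6, 6, by norm_num; omega⟩
  · exact ⟨9, 0, by norm_num; omega⟩
  · exact ⟨2, 0, by norm_num; omega⟩
  · exact ⟨11, 0, by norm_num; omega⟩
  · exact ⟨4, 0, by norm_num; omega⟩
  · exact ⟨2, 5, by norm_num; omega⟩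
  · exact ⟨8, 0, by norm_num; omega⟩
  · exact ⟨3, 0, by norm_num; omega⟩
  · exact ⟨2, 2, by norm_num; omega⟩

/-- All numbers from `3 * 125 ^ 9` on. -/
theorem rep_big {n : ℕ} (hn : 3 * 125 ^ 9 ≤ 10 * n) : ∃ l, IsRep n l := by
  set m := 10 * n / 3 with hm
  have hm9 : 125 ^ 9 ≤ m := (Nat.le_div_iff_mul_le (by norm_num)).mpr (by linarith)
  have hm0 : m ≠ 0 := by
    have : 0 < 125 ^ 9 := by norm_num
    omega
  set k := Nat.log 125 m with hk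
  have hk9 : 9 ≤ k := Nat.le_log_of_pow_le (by norm_num) hm9
  have h1 : 125 ^ k ≤ m := Nat.pow_log_le_self 125 hm0
  have h2 : m < 125 ^ (k + 1) := Nat.lt_pow_succ_log_self (by norm_num) m
  have h3 : 3 * 125 ^ k ≤ 10 * n := by
    have := (Nat.le_div_iff_mul_le (by norm_num : 0 < 3)).mp h1
    linarith
  have h4 : 10 * n < 3 * 125 ^ (k + 1) := by
    have := (Nat.div_lt_iff_lt_mul (by norm_num : 0 < 3)).mp h2
    linarith
  clear_value k m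
  obtain ⟨i, rfl⟩ : ∃ i, k = i + 1 := ⟨k - 1, by omega⟩
  set Q : ℕ := 125 ^ i with hQ
  have e1 : 125 ^ (i + 1) = 125 * Q := by rw [pow_succ]; ring
  have e2 : 125 ^ (i + 1 + 1) = 15625 * Q := by rw [pow_succ, pow_succ]; ring
  rw [e1] at h3
  rw [e2] at h4
  have q1 : ((1 : ℤ) * 5 ^ (i + 1)) * (1 * 5 ^ (i + 1)) * (1 * 5 ^ (i + 1)) = 125 * (Q : ℤ) := by
    rw [hQ]
    push_cast
    rw [show (125 : ℤ) = 5 ^ 3 by norm_num, ← pow_mul]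
    ring
  have q7 : ((7 : ℤ) * 5 ^ i) * (7 * 5 ^ i) * (7 * 5 ^ i) = 343 * (Q : ℤ) := by
    rw [hQ]
    push_cast
    rw [show (125 : ℤ) = 5 ^ 3 by norm_num, ← pow_mul]
    ring
  have q13 : ((13 : ℤ) * 5 ^ i) * (13 * 5 ^ i) * (13 * 5 ^ i) = 2197 * (Q : ℤ) := by
    rw [hQ]
    push_cast
    rw [show (125 : ℤ) = 5 ^ 3 by norm_num, ← pow_mul]
    ring
  rcases Nat.lt_or_ge (22 * 125 * Q) (10 * n) with h5 | h5
  · rcases Nat.lt_or_ge (22 * 343 * Q) (10 * n) with h6 | h6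
    · refine mid (σ := 13) (j := i) (by omega) (by norm_num) (by norm_num) ⟨-2, 1, by norm_num⟩
        ⟨-5, 2, by norm_num⟩ res13 ?_ ?_
      · rw [q13]; norm_cast; omega
      · rw [q13]; norm_cast; omega
    · refine mid (σ := 7) (j := i) (by omega) (by norm_num) (by norm_num) ⟨-1, 1, by norm_num⟩
        ⟨3, -2, by norm_num⟩ res7 ?_ ?_
      · rw [q7]; norm_cast; omega
      · rw [q7]; norm_cast; omega
  · refine mid (σ := 1) (j := i + 1) (by omega) (by norm_num) (by norm_num) isCoprime_one_right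
      isCoprime_one_right (fun c => ⟨0, 0, one_dvd _⟩) ?_ ?_
    · rw [q1]; norm_cast
    · rw [q1]; norm_cast; omega

end Pool.Agent.H79.Tet
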