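import Mathlib
import Pool.Agent.H79.Tet.Wat2

/-!
# Existence of representations: small numbers
-/

namespace Pool.Agent.H79.Tet

/-- union of the translates of a set of numbers (as a bit set) by tetrahedral numbers -/
def orF (S : ℕ) : ℕ → ℕ
  | 0 => S
  | i + 1 => orF S i ||| (S <<< ((i + 1) * (i + 2) * (i + 3) / 6))

/-- evaluate a number before using it -/
def force (n : ℕ) (f : ℕ → Bool) : Bool := Nat.rec (f 0) (fun m _ => f (m + 1)) n

lemma force_eq (n : ℕ) (f : ℕ → Bool) : force n f = f n := by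
  cases n <;> rfl

/-- sums with one more tetrahedral number, below one million -/
def nextS (S : ℕ) : ℕ := orF S 180 &&& (2 ^ 1000000 - 1)

/-- the computation -/
def chkB : Bool :=
  force (nextS 1) fun s1 => force (nextS s1) fun s2 => force (nextS s2) fun s3 =>
    force (nextS s3) fun s4 => force (nextS s4) fun s5 => Nat.beq s5 (2 ^ 1000000 - 1)

theorem chkB_true : chkB = true := by decide +kernel

/-- `n` is a sum of `k` tetrahedral numbers, zero allowed -/
def R (k n : ℕ) : Prop := ∃ l : List ℕ, l.length = k ∧ (l.map tetra).sum = n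

lemma R_succ {k n m : ℕ} (hm : tetra m ≤ n) (h : R k (n - tetra m)) : R (k + 1) n := by
  obtain ⟨l, h1, h2⟩ := h
  refine ⟨m :: l, by simp [h1], ?_⟩
  rw [List.map_cons, List.sum_cons, h2]
  omega

lemma orF_spec {S i n : ℕ} (h : (orF S i).testBit n = true) :
    ∃ m, tetra m ≤ n ∧ S.testBit (n - tetra m) = true := by
  induction i with
  | zero => exact ⟨0, by simp [tetra], by simpa [tetra, orF] using h⟩
  | succ i ih =>
    rw [orF, Nat.testBit_lor, Bool.or_eq_true] at h
    rcases h with h | h
    · exact ih h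
    · rw [Nat.testBit_shiftLeft, Bool.and_eq_true, decide_eq_true_eq] at h
      exact ⟨i + 1, h.1, h.2⟩

lemma nextS_spec {S k : ℕ} (hS : ∀ n, S.testBit n = true → R k n) :
    ∀ n, (nextS S).testBit n = true → R (k + 1) n := by
  intro n h
  unfold nextS at h
  rw [Nat.testBit_land, Bool.and_eq_true] at h
  obtain ⟨m, h1, h2⟩ := orF_spec h.1
  exact R_succ h1 (hS _ h2)

lemma small5 : ∀ n < 1000000, R 5 n := by
  have h := chkB_true
  unfold chkB at h
  rw [force_eq, force_eq, force_eq, force_eq, force_eq, Nat.beq_eq] at h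
  have h0 : ∀ n, (1 : ℕ).testBit n = true → R 0 n := by
    intro n hn
    have h1 : n = 0 := by
      by_contra hne
      have : (1 : ℕ) = 2 ^ 1 - 1 := by norm_num
      rw [this, Nat.testBit_two_pow_sub_one] at hn
      simp at hn
      omega
    exact ⟨[], rfl, by simp [h1]⟩
  have h5 := nextS_spec (nextS_spec (nextS_spec (nextS_spec (nextS_spec h0))))
  intro n hn
  apply h5
  rw [h, Nat.testBit_two_pow_sub_one]
  simpa using hn

lemma tetra_succ (m : ℕ) : 2 * tetra (m + 1) = 2 * tetra m + (m + 1) * (m + 2) := by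
  have h1 := six_tetra m
  have h2 := six_tetra (m + 1)
  have h3 : (m + 1) * (m + 1 + 1) * (m + 1 + 2) = m * (m + 1) * (m + 2) + 3 * ((m + 1) * (m + 2)) := by
    ring
  rw [h3] at h2
  omega

/-- greedy step -/
lemma greedy {k B m₀ : ℕ} (h : ∀ n < B, R k n) (hB : (m₀ + 1) * (m₀ + 2) ≤ 2 * B) :
    ∀ n < tetra (m₀ + 1), R (k + 1) n := by
  intro n hn
  have hex : ∃ m, n < tetra (m + 1) := ⟨m₀, hn⟩
  classical
  set m := Nat.find hex with hm
  have h1 : n < tetra (m + 1) := Nat.find_spec hex
  have h2 : m ≤ m₀ := Nat.find_min' hex hn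
  have h3 : tetra m ≤ n := by
    rcases Nat.eq_zero_or_pos m with h0 | h0
    · rw [h0]; simp [tetra]
    · have := Nat.find_min hex (m := m - 1) (by omega)
      rw [show m - 1 + 1 = m by omega] at this
      omega
  refine R_succ h3 (h _ ?_)
  have h4 := tetra_succ m
  have h5 : (m + 1) * (m + 2) ≤ (m₀ + 1) * (m₀ + 2) := Nat.mul_le_mul (by omega) (by omega)
  omega

lemma small8 : ∀ n, 10 * n < 3 * 125 ^ 9 → R 8 n := by
  have h6 := greedy (m₀ := 1412) small5 (by norm_num)
  have e6 : 4 * 10 ^ 8 ≤ tetra (1412 + 1) := by unfold tetra; norm_num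
  have h6' : ∀ n < 4 * 10 ^ 8, R 6 n := fun n hn => h6 n (lt_of_lt_of_le hn e6)
  have h7 := greedy (m₀ := 28000) h6' (by norm_num)
  have e7 : 3 * 10 ^ 12 ≤ tetra (28000 + 1) := by unfold tetra; norm_num
  have h7' : ∀ n < 3 * 10 ^ 12, R 7 n := fun n hn => h7 n (lt_of_lt_of_le hn e7)
  have h8 := greedy (m₀ := 2440000) h7' (by norm_num)
  have e8 : 3 * 125 ^ 9 ≤ 10 * tetra (2440000 + 1) := by unfold tetra; norm_num
  intro n hn
  exact h8 n (by omega)

lemma rep_of_R {n k : ℕ} (hk : k ≤ 8) (hn : 0 < n) (h : R k n) : ∃ l, IsRep n l := by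
  obtain ⟨l, h1, h2⟩ := h
  refine ⟨l.filter (fun m => decide (1 ≤ m)), ?_, ?_, ?_, ?_⟩
  · rw [Nat.one_le_iff_ne_zero]
    intro h0
    have h3 : l.filter (fun m => decide (1 ≤ m)) = [] := List.length_eq_zero_iff.mp h0
    have h4 : ∀ m ∈ l, m = 0 := by
      intro m hm
      have := List.filter_eq_nil_iff.mp h3 m hm
      simpa using this
    have h5 : (l.map tetra).sum = 0 := by
      rw [List.sum_eq_zero]
      intro x hx
      rw [List.mem_map] at hx
      obtain ⟨m, hm, rfl⟩ := hx
      rw [h4 m hm]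
      rfl
    omega
  · exact (List.length_filter_le _ _).trans (by omega)
  · intro m hm
    have := (List.mem_filter.mp hm).2
    simpa using this
  · rw [← h2]
    clear h1 h2
    induction l with
    | nil => rfl
    | cons a l ih =>
      rw [List.filter_cons]
      split_ifs with h3
      · rw [List.map_cons, List.sum_cons, ih, List.map_cons, List.sum_cons]
      · have : a = 0 := by simpa using h3
        rw [ih, List.map_cons, List.sum_cons, this]
        simp [tetra]

/-- **Watson's theorem.** Every positive integer is a sum of at most eight tetrahedral numbers. -/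
theorem watson {n : ℕ} (hn : 0 < n) : ∃ l, IsRep n l := by
  rcases Nat.lt_or_ge (10 * n) (3 * 125 ^ 9) with h | h
  · exact rep_of_R le_rfl hn (small8 n h)
  · exact rep_big h

end Pool.Agent.H79.Tet
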